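import Mathlib

/-!
# P325ac: constant-depth circuits and gap unique games, the definitions used in the statement

Shift games on bipartite graphs, their values, circuits with unbounded AND and OR gates.
-/

open Finset
open scoped BigOperators Classical

namespace Pool.Agent.P325ac

/-- Probability weights. -/
def IsProb {S : Type} [Fintype S] (w : S → ℝ) : Prop := (∀ s, 0 ≤ w s) ∧ ∑ s, w s = 1

/-- A bit as a real number. -/
noncomputable def br (b : Bool) : ℝ := if b then 1 else 0

/-- The left end of an edge of the bipartite graph `Ed` on the vertices `Fin N ⊕ Fin N`. -/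
def esrc {N : ℕ} (Ed : Finset (Fin N × Fin N)) : {p // p ∈ Ed} → Fin N ⊕ Fin N :=
  fun e => Sum.inl e.1.1

/-- The right end of an edge. -/
def etgt {N : ℕ} (Ed : Finset (Fin N × Fin N)) : {p // p ∈ Ed} → Fin N ⊕ Fin N :=
  fun e => Sum.inr e.1.2

/-- All degrees of the bipartite graph are at most `d`. -/
def MaxDeg {N : ℕ} (Ed : Finset (Fin N × Fin N)) (d : ℕ) : Prop :=
  (∀ i, (Ed.filter (fun p => p.1 = i)).card ≤ d) ∧ ∀ j, (Ed.filter (fun p => p.2 = j)).card ≤ d

/-- The value of the shift game with the label set `Fin k → Bool` (the group `(ℤ / 2) ^ k`) and the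
constraints `z (src e) + c e = z (tgt e)`: the largest fraction of the edges `e` whose constraint is
satisfied by a labeling `z` of the vertices. -/
noncomputable def shiftVal {V E : Type} [Fintype E] (src tgt : E → V) (k : ℕ)
    (c : E → Fin k → Bool) : ℝ :=
  ⨆ z : V → Fin k → Bool,
    ((univ.filter (fun e => ∀ i, xor (z (src e) i) (c e i) = z (tgt e) i)).card : ℝ) /
      Fintype.card E

/-- `f` depends on at most `w` of the entries `c e` of its argument `c`. -/
def IsJunta {E A : Type} (w : ℕ) (f : (E → A) → Bool) : Prop :=
  ∃ S : Finset E, S.card ≤ w ∧ ∀ c c', (∀ e ∈ S, c e = c' e) → f c = f c'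

/-- The functions `val g` are computed by a circuit with unbounded AND and OR gates `g` and free
negations: every gate is the OR or the AND of input functions (`inp`), of functions of gates of
smaller level `lv` and of their negations. -/
def IsCirc {X G : Type} (inp : (X → Bool) → Prop) (lv : G → ℕ) (val : G → X → Bool) : Prop :=
  ∀ g, ∃ W : Set (X → Bool),
    (∀ f ∈ W, inp f ∨ ∃ g', lv g' < lv g ∧ (f = val g' ∨ f = fun x => !(val g' x))) ∧
    ((∀ x, val g x = true ↔ ∃ f ∈ W, f x = true) ∨ (∀ x, val g x = true ↔ ∀ f ∈ W, f x = true))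

end Pool.Agent.P325ac
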