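import Mathlib
import Pool.Agent.Lib.P325ac.Base

/-!
# P325ac: constant-depth circuits and gap unique games

Definitions of the package P325ac (paper proof: `/team-store/UGAC0_proof.md`). Product expectations,
decision trees, DNFs, circuits, systems of restrictions, trees of edges.
-/

open Finset
open scoped BigOperators Classical

namespace Pool.Agent.P325ac

/-! ## Product expectations -/

/-- The function `Y` with the value at `i` replaced by `a`. -/
noncomputable def upd {I S : Type} (Y : I → S) (i : I) (a : S) : I → S :=
  fun j => if j = i then a else Y j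

/-- The expectation of `K` for independent coordinates with weights `W i`. -/
noncomputable def pe {I S : Type} [Fintype I] [Fintype S] (W : I → S → ℝ) (K : (I → S) → ℝ) : ℝ :=
  ∑ σ : I → S, (∏ i, W i (σ i)) * K σ

/-- The noise bit: `false` with probability `(1 + θ) / 2`. -/
noncomputable def wn (θ : ℝ) (b : Bool) : ℝ := if b then (1 - θ) / 2 else (1 + θ) / 2

/-- The state of an edge: open (`none`) with probability `θ`, closed with a uniform bit otherwise. -/
noncomputable def w3 (θ : ℝ) (s : Option Bool) : ℝ := if s = none then θ else (1 - θ) / 2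

/-- The indicator of a proposition, a real number. -/
noncomputable def ind (p : Prop) : ℝ := if p then 1 else 0

/-! ## Decision trees and DNFs -/

/-- `DT t g`: the function `g` is computed by a decision tree of depth less than `t`. -/
def DT {V X : Type} : ℕ → ((V → Bool) → X) → Prop
  | 0, _ => False
  | t + 1, g => (∃ x, ∀ Y, g Y = x) ∨ ∃ v, ∀ a, DT t (fun Y => g (upd Y v a))

/-- `g` depends only on the coordinates in `A`. -/
def DepOn {V X : Type} (A : V → Prop) (g : (V → Bool) → X) : Prop :=
  ∀ Y Y', (∀ v, A v → Y v = Y' v) → g Y = g Y'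

/-- The value of a term (a list of literals). -/
def evalT {U : Type} (T : List (U × Bool)) (Y : U → Bool) : Prop := ∀ l ∈ T, Y l.1 = l.2

/-- The value of a DNF (a list of terms). -/
noncomputable def evalD {U : Type} (F : List (List (U × Bool))) (Y : U → Bool) : Bool :=
  decide (∃ T ∈ F, evalT T Y)

/-! ## Systems of restrictions (abstract switching lemma) -/

/-- A system of random restrictions: `view R u` is the value of the variable `u` under the
restriction `R` (`none`: alive), `bl u` the block of `u`, `co b R` the coordinate of `R` at the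
block `b`, `T u a` a kernel that turns restrictions with `u` alive into restrictions in which all
alive variables of the block of `u` get the value `a`. -/
structure Sys (U B P Q : Type) [Fintype P] where
  bl : U → B
  view : P → U → Option Bool
  co : B → P → Q
  T : U → Bool → P → P → ℝ
  T_nonneg : ∀ u a R R', 0 ≤ T u a R R'
  co_view : ∀ R R' u, co (bl u) R = co (bl u) R' → view R u = view R' u
  T_co : ∀ u a R R', T u a R R' ≠ 0 → ∀ b, b ≠ bl u → co b R' = co b R
  T_view : ∀ u a R R', T u a R R' ≠ 0 → ∀ u', bl u' = bl u → view R' u' = some ((view R u').getD a)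
  T_sum : ∀ u a R, view R u = none → 1 ≤ ∑ R', T u a R R'

/-- The transport inequality at the block `b`. -/
def TI {U B P Q : Type} [Fintype P] (S : Sys U B P Q) (p : ℝ) (μ : P → ℝ) (b : B) : Prop :=
  ∀ u, S.bl u = b → ∀ a R', ∑ R, μ R * S.T u a R R' ≤ p * μ R'

/-- The value of the variable `u` under the restriction `R` and the answers `π`. -/
def vw {U B P Q : Type} [Fintype P] (S : Sys U B P Q) (π : B → Option Bool) (R : P) (u : U) :
    Option Bool :=
  match S.view R u with
  | some c => some c
  | none => π (S.bl u)

/-- The function `F` after the restriction `R` and the answers `π`: a function of the block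
variables. -/
def rs {U B P Q X : Type} [Fintype P] (S : Sys U B P Q) (π : B → Option Bool) (R : P)
    (F : (U → Bool) → X) : (B → Bool) → X :=
  fun Z => F (fun u => (vw S π R u).getD (Z (S.bl u)))

/-! ## Trees of edges -/

/-- A forest on `E`: `lev` is the level, `par e` the parent of `e` (if `lev e ≠ 0`). -/
structure Tree (E : Type) where
  lev : E → ℕ
  par : E → E
  hpar : ∀ e, lev e ≠ 0 → lev (par e) + 1 = lev e

/-- At most `D` children. -/
def Tree.Deg {E : Type} [Fintype E] (T : Tree E) (D : ℕ) : Prop :=
  ∀ f, (univ.filter (fun e => T.lev e ≠ 0 ∧ T.par e = f)).card ≤ D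

/-- The value found when one climbs `n` steps from `e`: the first closed edge gives its bit; if all
are open the value is that of `Y` at the end. -/
def look {E : Type} (par : E → E) (σ : E → Option Bool) (Y : E → Bool) : ℕ → E → Bool
  | 0, e => Y e
  | n + 1, e => (σ e).getD (look par σ Y n (par e))

/-- The values on all levels computed from the values `Y` on the levels `≤ L` and the states `σ`. -/
def lk {E : Type} (T : Tree E) (σ : E → Option Bool) (L : ℕ) (Y : E → Bool) : E → Bool :=
  fun e => look T.par σ Y (T.lev e - L) e

/-- The expectation of `g` for the broadcast process with value `b` on level `0`. -/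
noncomputable def bc {E : Type} [Fintype E] (T : Tree E) (θ : ℝ) (b : Bool)
    (g : (E → Bool) → ℝ) : ℝ :=
  pe (fun _ : E => w3 θ) (fun σ => g (lk T σ 0 (fun _ => b)))

/-- The states above level `L` (below them in the tree), the others replaced by `none`. -/
def hi {E : Type} (T : Tree E) (L : ℕ) (σ : E → Option Bool) : E → Option Bool :=
  fun e => if L < T.lev e then σ e else none

/-- The parity along the path: `b` plus the noise bits of `e, par e, ...` (`n` of them). -/
def nz {E : Type} (par : E → E) (τ : E → Bool) (b : Bool) : ℕ → E → Bool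
  | 0, _ => b
  | n + 1, e => xor (τ e) (nz par τ b n (par e))

/-! ## Graphs -/

/-- The coboundary of `z` plus `τ`. -/
def cob {V E : Type} (src tgt : E → V) (z : V → Bool) (τ : E → Bool) : E → Bool :=
  fun e => xor (τ e) (xor (z (src e)) (z (tgt e)))

/-- The expectation of `K z c` for uniform spins `z` and `c = τ + dz` with noise `τ`. -/
noncomputable def ex {V E : Type} [Fintype V] [Fintype E] (src tgt : E → V) (θ : ℝ)
    (K : (V → Bool) → (E → Bool) → ℝ) : ℝ :=
  pe (fun _ : V => wn 0) (fun z => pe (fun _ : E => wn θ) (fun τ => K z (cob src tgt z τ)))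

/-- The ball of radius `r` around `src e0` in the graph without `e0` is a tree, described by its
edges: `up e` and `low e` are the ends of the tree edge `e` (`T.lev e ≠ 0`). -/
structure Ball {V E : Type} (src tgt : E → V) (e0 : E) (r : ℕ) where
  T : Tree E
  up : E → V
  low : E → V
  lev0 : T.lev e0 = 0
  lev_le : ∀ e, T.lev e ≤ r
  ends : ∀ e, T.lev e ≠ 0 → (src e = up e ∧ tgt e = low e) ∨ (src e = low e ∧ tgt e = up e)
  up_one : ∀ e, T.lev e = 1 → up e = src e0 ∧ T.par e = e0
  up_par : ∀ e, 2 ≤ T.lev e → up e = low (T.par e)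
  low_inj : ∀ e e', T.lev e ≠ 0 → T.lev e' ≠ 0 → low e = low e' → e = e'
  low_root : ∀ e, T.lev e ≠ 0 → low e ≠ src e0
  tgt0_ne : tgt e0 ≠ src e0
  tgt0 : ∀ e, T.lev e ≠ 0 → T.lev e < r → low e ≠ tgt e0
  root_edge : ∀ f, f ≠ e0 → (src f = src e0 ∨ tgt f = src e0) → T.lev f = 1
  low_edge : ∀ e f, T.lev e ≠ 0 → T.lev e < r → (src f = low e ∨ tgt f = low e) → f ≠ e →
    T.lev f = T.lev e + 1 ∧ T.par f = e

/-- The instance seen from the ball: inside the ball the spins `z` (with the spin of the root replaced
by `false`), on the last level the values `X` are added, outside the noise `τ` is used. -/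
noncomputable def chat {V E : Type} {src tgt : E → V} {e0 : E} {r : ℕ} (Bl : Ball src tgt e0 r)
    (z : V → Bool) (τ : E → Bool) (X : E → Bool) : E → Bool :=
  fun e =>
    if Bl.T.lev e = 0 then xor (τ e) (xor (z (src e)) (z (tgt e)))
    else if Bl.T.lev e < r then
      xor (upd z (src e0) false (Bl.up e)) (upd z (src e0) false (Bl.low e))
    else xor (X e) (xor (upd z (src e0) false (Bl.up e)) (upd z (src e0) false (Bl.low e)))

/-- The sign of a bit. -/
noncomputable def sg (b : Bool) : ℝ := if b then -1 else 1

/-- The change of `f` at the edge `e`. -/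
noncomputable def dif {E : Type} (f : (E → Bool) → Bool) (e : E) (c : E → Bool) : ℝ :=
  br (f (upd c e false)) - br (f (upd c e true))

/-- The expectation over `k` independent layers, each as in `ex`. -/
noncomputable def multi {V E : Type} [Fintype V] [Fintype E] (src tgt : E → V) (k : ℕ) (θ : ℝ)
    (f : (E → Fin k → Bool) → ℝ) : ℝ :=
  pe (fun (_ : Fin k) (s : (V → Bool) × (E → Bool)) =>
      (∏ v, wn 0 (s.1 v)) * ∏ e, wn θ (s.2 e))
    (fun ω => f (fun e i => cob src tgt (ω i).1 (ω i).2 e))

/-- The bipartite graph on `Fin N ⊕ Fin N` with the edges `Ed`. -/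
def gr {N : ℕ} (Ed : Finset (Fin N × Fin N)) : SimpleGraph (Fin N ⊕ Fin N) where
  Adj u v := (∃ p ∈ Ed, u = Sum.inl p.1 ∧ v = Sum.inr p.2) ∨
    (∃ p ∈ Ed, u = Sum.inr p.2 ∧ v = Sum.inl p.1)
  symm := by
    constructor
    rintro u v (⟨p, hp, h1, h2⟩ | ⟨p, hp, h1, h2⟩)
    · exact Or.inr ⟨p, hp, h2, h1⟩
    · exact Or.inl ⟨p, hp, h2, h1⟩
  loopless := by
    constructor
    rintro u (⟨p, hp, h1, h2⟩ | ⟨p, hp, h1, h2⟩)
    · rw [h1] at h2; simp at h2
    · rw [h1] at h2; simp at h2

/-- No cycle of length `≤ g`. -/
def NoShort {V : Type} (G : SimpleGraph V) (g : ℕ) : Prop :=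
  ∀ (v : V) (c : G.Walk v v), c.IsCycle → g < c.length

end Pool.Agent.P325ac
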