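import Mathlib
import Pool.Agent.Lib.P325ac.Defs

/-!
# P325ac.DTb (1 h): decision trees, basic operations

`DT t g`: depth less than `t`. All by induction on `t` for all `g`.
`mono`: a constant function is `DT (t + 1)` for every `t`; otherwise the same query.
`comp`: the same tree. `map`: at the query `v`, for the answer `a` the old function is restricted by `upd Y v (φ v a)`:
`(fun u => φ u (upd Z v a u)) = upd (fun u => φ u (Z u)) v (φ v a)`.
`subst` (for all `s`): at the query `v`: if `s v = some c` use the subtree of `c` (no query; `mono`): the function
`fun Z => g (fun u => (s u).getD (Z (b u)))` is `fun Z => g (upd (fun u => (s u).getD (Z (b u))) v c)`. If `s v = none` query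
`b v`; for the answer `a` let `s' u = if s u = none ∧ b u = b v then some a else s u`; then
`(fun u => (s u).getD (upd Z (b v) a (b u))) = upd (fun u => (s' u).getD (Z (b u))) v a`, induction with `s'`.
`pair`: by induction on `s`: if `g` is constant, `comp` of the tree of `g'` and `mono`; otherwise query the root of the
tree of `g` (the restriction of `g'` to `v := a` is `DT (t + 1)` by `restrict`).
`restrict`: `subst` with `s u = if u = v then some a else none`, `b = id`.
`junta`: induction on the set: if `A = ∅` the function is constant; otherwise query `v ∈ A`; `fun Y => g (upd Y v a)` depends only on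
`A.erase v`.
`neg`: `comp` with `not`.
-/

open Finset
open scoped BigOperators Classical

namespace Pool.Agent.P325ac

theorem DT.mono {V X : Type} {s t : ℕ} (h : s ≤ t) {g : (V → Bool) → X} (hg : DT s g) :
    DT t g := by
  induction s generalizing t g with
  | zero => exact hg.elim
  | succ s ih =>
    obtain ⟨t, rfl⟩ : ∃ t', t = t' + 1 := ⟨t - 1, by omega⟩
    rcases hg with hg | ⟨v, hv⟩
    · exact Or.inl hg
    · exact Or.inr ⟨v, fun a => ih (by omega) (hv a)⟩

theorem DT.comp {V X X' : Type} {t : ℕ} (φ : X → X') {g : (V → Bool) → X} (hg : DT t g) :
    DT t (fun Y => φ (g Y)) := by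
  induction t generalizing g with
  | zero => exact hg.elim
  | succ t ih =>
    rcases hg with ⟨x, hx⟩ | ⟨v, hv⟩
    · exact Or.inl ⟨φ x, fun Y => congrArg φ (hx Y)⟩
    · exact Or.inr ⟨v, fun a => ih (hv a)⟩

theorem DT.map {V X : Type} {t : ℕ} (φ : V → Bool → Bool) {g : (V → Bool) → X} (hg : DT t g) :
    DT t (fun Z => g (fun v => φ v (Z v))) := by
  induction t generalizing g with
  | zero => exact hg.elim
  | succ t ih =>
    rcases hg with ⟨x, hx⟩ | ⟨v, hv⟩
    · exact Or.inl ⟨x, fun Y => hx _⟩
    · refine Or.inr ⟨v, fun a => ?_⟩
      have h := ih (hv (φ v a))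
      have e : (fun Z : V → Bool => g (upd (fun u => φ u (Z u)) v (φ v a))) =
          fun Z => g (fun u => φ u (upd Z v a u)) := by
        funext Z
        congr 1
        funext u
        by_cases hu : u = v
        · subst hu; simp [upd]
        · simp [upd, hu]
      rw [← e]
      exact h

theorem DT.subst {V B X : Type} {t : ℕ} (s : V → Option Bool) (b : V → B) {g : (V → Bool) → X}
    (hg : DT t g) : DT t (fun Z : B → Bool => g (fun v => (s v).getD (Z (b v)))) := by
  induction t generalizing g s with
  | zero => exact hg.elim
  | succ t ih =>
    rcases hg with ⟨x, hx⟩ | ⟨v, hv⟩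
    · exact Or.inl ⟨x, fun Y => hx _⟩
    · rcases hs : s v with _ | c
      · refine Or.inr ⟨b v, fun a => ?_⟩
        have h := ih (fun u => if s u = none ∧ b u = b v then some a else s u) (hv a)
        have e : (fun Z : B → Bool => g (upd (fun u =>
            ((fun u => if s u = none ∧ b u = b v then some a else s u) u).getD (Z (b u))) v a)) =
            fun Z : B → Bool => g (fun u => (s u).getD (upd Z (b v) a (b u))) := by
          funext Z
          congr 1
          funext u
          by_cases hu : u = v
          · subst hu; simp [upd, hs]
          · rcases hsu : s u with _ | c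
            · by_cases hb : b u = b v
              · simp [upd, hu, hsu, hb]
              · simp [upd, hu, hsu, hb]
            · simp [upd, hu, hsu]
        rw [← e]
        exact h
      · have h := ih s (hv c)
        have e : (fun Z : B → Bool => g (upd (fun u => (s u).getD (Z (b u))) v c)) =
            fun Z : B → Bool => g (fun u => (s u).getD (Z (b u))) := by
          funext Z
          congr 1
          funext u
          by_cases hu : u = v
          · subst hu; simp [upd, hs]
          · simp [upd, hu]
        rw [← e]
        exact DT.mono (Nat.le_succ t) h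

theorem DT.restrict {V X : Type} {t : ℕ} (v : V) (a : Bool) {g : (V → Bool) → X}
    (hg : DT t g) : DT t (fun Y => g (upd Y v a)) := by
  have h := DT.subst (fun u => if u = v then some a else none) (fun u => u) hg
  have e : (fun Z : V → Bool => g (fun u =>
      ((fun u => if u = v then some a else none) u : Option Bool).getD (Z ((fun u => u) u)))) =
      fun Y => g (upd Y v a) := by
    funext Z
    congr 1
    funext u
    by_cases hu : u = v
    · simp [upd, hu]
    · simp [upd, hu]
  rw [← e]
  exact h

theorem DT.pair {V X X' : Type} {s t : ℕ} {g : (V → Bool) → X} {g' : (V → Bool) → X'}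
    (hg : DT (s + 1) g) (hg' : DT (t + 1) g') : DT (s + t + 1) (fun Y => (g Y, g' Y)) := by
  induction s generalizing g g' with
  | zero =>
    rcases hg with ⟨x, hx⟩ | ⟨v, hv⟩
    · have h := DT.comp (fun x' => (x, x')) hg'
      have e : (fun Y => (g Y, g' Y)) = fun Y => (x, g' Y) := by
        funext Y; rw [hx Y]
      rw [e]
      exact DT.mono (by omega) h
    · exact (hv true).elim
  | succ s ih =>
    rcases hg with ⟨x, hx⟩ | ⟨v, hv⟩
    · have h := DT.comp (fun x' => (x, x')) hg'
      have e : (fun Y => (g Y, g' Y)) = fun Y => (x, g' Y) := by
        funext Y; rw [hx Y]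
      rw [e]
      exact DT.mono (by omega) h
    · refine Or.inr ⟨v, fun a => ?_⟩
      have h := ih (hv a) (DT.restrict v a hg')
      have e : s + 1 + t = s + t + 1 := by omega
      rw [e]
      exact h

theorem DT.junta {V X : Type} (A : Finset V) {g : (V → Bool) → X}
    (hg : DepOn (fun v => v ∈ A) g) : DT (A.card + 1) g := by
  induction A using Finset.induction_on generalizing g with
  | empty =>
    exact Or.inl ⟨g (fun _ => false), fun Y => hg _ _ (fun v hv => absurd hv (by simp))⟩
  | insert v A hv ih =>
    rw [Finset.card_insert_of_notMem hv]
    refine Or.inr ⟨v, fun a => ih ?_⟩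
    intro Y Y' hY
    refine hg _ _ (fun u hu => ?_)
    by_cases huv : u = v
    · simp [upd, huv]
    · have : u ∈ A := by
        rcases Finset.mem_insert.1 hu with h | h
        · exact absurd h huv
        · exact h
      simp only [upd, huv, if_false]
      exact hY u this

end Pool.Agent.P325ac
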