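import Mathlib
import Pool.Agent.Lib.P325ac.Defs

/-!
# P325ac.DTl (0.8 h): the leaves of a decision tree, DNFs

`leaves`: by induction on `t` for all `g`. If `g` is constant `x`: one leaf, `Q = ∅`. Otherwise `v`: if `¬ A v` then
`g Y = g (upd Y v false)` (as `g` depends only on `A`), and `fun Y => g (upd Y v false)` is `DT t` (`t ≥ 1`, as `DT 0` is
false), so the induction hypothesis for this function (which is `g`) applies. If `A v`: apply the induction hypothesis
to the two functions `fun Y => g (upd Y v a)` with the set `fun u => A u ∧ u ≠ v` (so `v ∉ Q j`); the leaf `(Q, α, x)` of the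
branch `a` gives the leaf `(insert v Q, upd α v a, x)`, and `g Y = ∑ a, ind (Y v = a) * g (upd Y v a)`.
Exactly one leaf applies: state it as `∑ j, ind (∀ v ∈ Q j, Y v = α j v) = 1`. With values in `ℝ` both formulas
`g Y = ∑ j, x j * ind ..` and `|g Y| = ∑ j, |x j| * ind ..` follow (exactly one term is nonzero) - prove them directly in the
induction if this is easier. `toDNF`: terms of length `≤ t`: by induction: constant `true`: `[[]]`; constant `false`: `[]`; query `v`: the terms
`(v, a) :: T` for `T` in the DNF of the branch `a` evaluated for `fun Y => g (upd Y v a)`; here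
`evalD F_a (upd Y v a)` and `Y v = a` give `upd Y v a = Y`.
`gate`: `W` is finite (`U` finite): the OR of the functions `f ∈ W`: concatenate the DNFs of all `f ∈ W`
(`(Set.toFinite W).toFinset.toList`, `List.flatMap`). For an AND: `!(val Y)` is the OR of the negations `!f`, which are
`DT (t + 1)` too (same trees).
-/

open Finset
open scoped BigOperators Classical

namespace Pool.Agent.P325ac

namespace DTlAux

theorem ind_true {p : Prop} (h : p) : ind p = 1 := by
  unfold ind; rw [if_pos h]

theorem ind_false {p : Prop} (h : ¬ p) : ind p = 0 := by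
  unfold ind; rw [if_neg h]

theorem upd_same {I S : Type} (Y : I → S) (i : I) : upd Y i (Y i) = Y := by
  funext j
  unfold upd
  split_ifs with h
  · rw [h]
  · rfl

theorem upd_ne {I S : Type} (Y : I → S) {i j : I} (a : S) (h : j ≠ i) : upd Y i a j = Y j := by
  unfold upd; rw [if_neg h]

theorem upd_eq {I S : Type} (Y : I → S) (i : I) (a : S) : upd Y i a i = a := by
  unfold upd; rw [if_pos rfl]

/-- leaves with a general index type -/
theorem leaves {V : Type} (t : ℕ) : ∀ (A : V → Prop) (g : (V → Bool) → ℝ), DepOn A g →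
    DT (t + 1) g →
    ∃ (ι : Type) (_ : Fintype ι) (Q : ι → Finset V) (α : ι → V → Bool) (x : ι → ℝ),
      (∀ j, ∀ v ∈ Q j, A v) ∧ (∀ j, (Q j).card ≤ t) ∧
      (∀ Y, g Y = ∑ j, x j * ind (∀ v ∈ Q j, Y v = α j v)) ∧
      (∀ Y, |g Y| = ∑ j, |x j| * ind (∀ v ∈ Q j, Y v = α j v)) := by
  induction t with
  | zero =>
    intro A g hA hg
    rcases hg with ⟨x, hx⟩ | ⟨v, hv⟩
    · refine ⟨Unit, inferInstance, fun _ => ∅, fun _ _ => false, fun _ => x, ?_, ?_, ?_, ?_⟩
      · intro j v hv
        exact absurd hv (Finset.notMem_empty v)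
      · intro j
        exact le_of_eq Finset.card_empty
      · intro Y
        rw [hx Y]
        simp [ind]
      · intro Y
        rw [hx Y]
        simp [ind]
    · exact (hv false).elim
  | succ t ih =>
    intro A g hA hg
    rcases hg with ⟨x, hx⟩ | ⟨v, hv⟩
    · refine ⟨Unit, inferInstance, fun _ => ∅, fun _ _ => false, fun _ => x, ?_, ?_, ?_, ?_⟩
      · intro j v hv
        exact absurd hv (Finset.notMem_empty v)
      · intro j
        simp
      · intro Y
        rw [hx Y]
        simp [ind]
      · intro Y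
        rw [hx Y]
        simp [ind]
    · by_cases hAv : A v
      · have hdep : ∀ a : Bool, DepOn (fun u => A u ∧ u ≠ v) (fun Y => g (upd Y v a)) := by
          intro a Y Y' h
          apply hA
          intro u hu
          by_cases huv : u = v
          · rw [huv, upd_eq, upd_eq]
          · rw [upd_ne _ _ huv, upd_ne _ _ huv]
            exact h u ⟨hu, huv⟩
        obtain ⟨ι0, _, Q0, α0, x0, a1, a2, a3, a4⟩ := ih _ _ (hdep false) (hv false)
        obtain ⟨ι1, _, Q1, α1, x1, b1, b2, b3, b4⟩ := ih _ _ (hdep true) (hv true)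
        have hind : ∀ (a : Bool) (Q : Finset V) (α : V → Bool) (Y : V → Bool), v ∉ Q →
            ind (∀ u ∈ insert v Q, Y u = upd α v a u) =
              if Y v = a then ind (∀ u ∈ Q, Y u = α u) else 0 := by
          intro a Q α Y hvQ
          by_cases hY : Y v = a
          · rw [if_pos hY]
            congr 1
            apply propext
            constructor
            · intro h u hu
              have h1 := h u (Finset.mem_insert_of_mem hu)
              rwa [upd_ne _ _ (fun e : u = v => hvQ (e ▸ hu))] at h1
            · intro h u hu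
              rcases Finset.mem_insert.1 hu with e | hu'
              · rw [e, upd_eq, hY]
              · rw [upd_ne _ _ (fun e : u = v => hvQ (e ▸ hu'))]
                exact h u hu'
          · rw [if_neg hY]
            apply ind_false
            intro h
            have h1 := h v (Finset.mem_insert_self v Q)
            rw [upd_eq] at h1
            exact hY h1
        have hn0 : ∀ j, v ∉ Q0 j := fun j h => (a1 j v h).2 rfl
        have hn1 : ∀ j, v ∉ Q1 j := fun j h => (b1 j v h).2 rfl
        refine ⟨ι0 ⊕ ι1, inferInstance,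
          Sum.elim (fun j => insert v (Q0 j)) (fun j => insert v (Q1 j)),
          Sum.elim (fun j => upd (α0 j) v false) (fun j => upd (α1 j) v true),
          Sum.elim x0 x1, ?_, ?_, ?_, ?_⟩
        · rintro (j | j) u hu
          · rcases Finset.mem_insert.1 hu with e | hu'
            · rw [e]; exact hAv
            · exact (a1 j u hu').1
          · rcases Finset.mem_insert.1 hu with e | hu'
            · rw [e]; exact hAv
            · exact (b1 j u hu').1
        · rintro (j | j)
          · exact (Finset.card_insert_le _ _).trans (Nat.succ_le_succ (a2 j))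
          · exact (Finset.card_insert_le _ _).trans (Nat.succ_le_succ (b2 j))
        · intro Y
          rw [Fintype.sum_sum_type]
          simp only [Sum.elim_inl, Sum.elim_inr, hind _ _ _ _ (hn0 _), hind _ _ _ _ (hn1 _)]
          cases hY : Y v with
          | false =>
            have e := a3 Y
            rw [← hY, upd_same] at e
            simpa using e
          | true =>
            have e := b3 Y
            rw [← hY, upd_same] at e
            simpa using e
        · intro Y
          rw [Fintype.sum_sum_type]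
          simp only [Sum.elim_inl, Sum.elim_inr, hind _ _ _ _ (hn0 _), hind _ _ _ _ (hn1 _)]
          cases hY : Y v with
          | false =>
            have e := a4 Y
            rw [← hY, upd_same] at e
            simpa using e
          | true =>
            have e := b4 Y
            rw [← hY, upd_same] at e
            simpa using e
      · have hg2 : (fun Y => g (upd Y v false)) = g := by
          funext Y
          apply hA
          intro u hu
          apply upd_ne
          rintro rfl
          exact hAv hu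
        have h1 := hv false
        rw [hg2] at h1
        obtain ⟨ι, hι, Q, α, x, c1, c2, c3, c4⟩ := ih A g hA h1
        exact ⟨ι, hι, Q, α, x, c1, fun j => (c2 j).trans (Nat.le_succ t), c3, c4⟩

theorem evalD_iff {U : Type} (F : List (List (U × Bool))) (Y : U → Bool) :
    evalD F Y = true ↔ ∃ T ∈ F, evalT T Y := by
  unfold evalD
  rw [decide_eq_true_iff]

theorem dt_comp {V X Z : Type} (φ : X → Z) (t : ℕ) : ∀ g : (V → Bool) → X, DT t g →
    DT t (fun Y => φ (g Y)) := by
  induction t with
  | zero => intro g hg; exact hg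
  | succ t ih =>
    intro g hg
    rcases hg with ⟨x, hx⟩ | ⟨v, hv⟩
    · exact Or.inl ⟨φ x, fun Y => congrArg φ (hx Y)⟩
    · exact Or.inr ⟨v, fun a => ih _ (hv a)⟩

theorem toDNF {U : Type} (t : ℕ) : ∀ g : (U → Bool) → Bool, DT (t + 1) g →
    ∃ F : List (List (U × Bool)), (∀ T ∈ F, T.length ≤ t) ∧ ∀ Y, g Y = evalD F Y := by
  have hconst : ∀ (t : ℕ) (x : Bool) (g : (U → Bool) → Bool), (∀ Y, g Y = x) →
      ∃ F : List (List (U × Bool)), (∀ T ∈ F, T.length ≤ t) ∧ ∀ Y, g Y = evalD F Y := by
    intro t x g hx
    cases x with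
    | false =>
      refine ⟨[], by simp, fun Y => ?_⟩
      rw [hx Y]
      symm
      rw [← Bool.not_eq_true, evalD_iff]
      simp
    | true =>
      refine ⟨[[]], by simp, fun Y => ?_⟩
      rw [hx Y]
      symm
      rw [evalD_iff]
      exact ⟨[], by simp, by simp [evalT]⟩
  induction t with
  | zero =>
    intro g hg
    rcases hg with ⟨x, hx⟩ | ⟨v, hv⟩
    · exact hconst 0 x g hx
    · exact (hv false).elim
  | succ t ih =>
    intro g hg
    rcases hg with ⟨x, hx⟩ | ⟨v, hv⟩
    · exact hconst (t + 1) x g hx
    · obtain ⟨F0, a1, a2⟩ := ih _ (hv false)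
      obtain ⟨F1, b1, b2⟩ := ih _ (hv true)
      refine ⟨F0.map (fun T => (v, false) :: T) ++ F1.map (fun T => (v, true) :: T), ?_, ?_⟩
      · intro T hT
        rw [List.mem_append, List.mem_map, List.mem_map] at hT
        rcases hT with ⟨T', h, rfl⟩ | ⟨T', h, rfl⟩
        · rw [List.length_cons]
          exact Nat.succ_le_succ (a1 T' h)
        · rw [List.length_cons]
          exact Nat.succ_le_succ (b1 T' h)
      · intro Y
        rw [Bool.eq_iff_iff, evalD_iff]
        have hcons : ∀ (a : Bool) (T : List (U × Bool)), evalT ((v, a) :: T) Y ↔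
            Y v = a ∧ evalT T Y := by
          intro a T
          unfold evalT
          simp
        have hex : (∃ T ∈ F0.map (fun T => (v, false) :: T) ++ F1.map (fun T => (v, true) :: T),
            evalT T Y) ↔ (Y v = false ∧ ∃ T ∈ F0, evalT T Y) ∨ (Y v = true ∧ ∃ T ∈ F1, evalT T Y) := by
          constructor
          · rintro ⟨T, hT, hTY⟩
            rw [List.mem_append, List.mem_map, List.mem_map] at hT
            rcases hT with ⟨T', h, rfl⟩ | ⟨T', h, rfl⟩
            · rw [hcons] at hTY
              exact Or.inl ⟨hTY.1, T', h, hTY.2⟩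
            · rw [hcons] at hTY
              exact Or.inr ⟨hTY.1, T', h, hTY.2⟩
          · rintro (⟨h1, T, hT, hTY⟩ | ⟨h1, T, hT, hTY⟩)
            · refine ⟨(v, false) :: T, ?_, (hcons _ _).2 ⟨h1, hTY⟩⟩
              rw [List.mem_append]
              exact Or.inl (List.mem_map.2 ⟨T, hT, rfl⟩)
            · refine ⟨(v, true) :: T, ?_, (hcons _ _).2 ⟨h1, hTY⟩⟩
              rw [List.mem_append]
              exact Or.inr (List.mem_map.2 ⟨T, hT, rfl⟩)
        rw [hex]
        cases hY : Y v with
        | false =>
          have e := a2 Y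
          rw [← hY, upd_same] at e
          rw [e, evalD_iff]
          simp
        | true =>
          have e := b2 Y
          rw [← hY, upd_same] at e
          rw [e, evalD_iff]
          simp

end DTlAux

open DTlAux

theorem DT.leaves {V : Type} {t : ℕ} (A : V → Prop) {g : (V → Bool) → ℝ} (hA : DepOn A g)
    (hg : DT (t + 1) g) :
    ∃ (m : ℕ) (Q : Fin m → Finset V) (α : Fin m → V → Bool) (x : Fin m → ℝ),
      (∀ j, ∀ v ∈ Q j, A v) ∧ (∀ j, (Q j).card ≤ t) ∧
      (∀ Y, g Y = ∑ j, x j * ind (∀ v ∈ Q j, Y v = α j v)) ∧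
      (∀ Y, |g Y| = ∑ j, |x j| * ind (∀ v ∈ Q j, Y v = α j v)) := by
  obtain ⟨ι, _, Q, α, x, h1, h2, h3, h4⟩ := DTlAux.leaves t A g hA hg
  let e := (Fintype.equivFin ι).symm
  refine ⟨Fintype.card ι, fun j => Q (e j), fun j => α (e j), fun j => x (e j),
    fun j => h1 (e j), fun j => h2 (e j), fun Y => ?_, fun Y => ?_⟩
  · rw [h3 Y]
    exact (Equiv.sum_comp e (fun j => x j * ind (∀ v ∈ Q j, Y v = α j v))).symm
  · rw [h4 Y]
    exact (Equiv.sum_comp e (fun j => |x j| * ind (∀ v ∈ Q j, Y v = α j v))).symm

theorem DT.toDNF {U : Type} {t : ℕ} {g : (U → Bool) → Bool} (hg : DT (t + 1) g) :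
    ∃ F : List (List (U × Bool)), (∀ T ∈ F, T.length ≤ t) ∧ ∀ Y, g Y = evalD F Y :=
  DTlAux.toDNF t g hg

theorem gate_dnf {U : Type} [Fintype U] {t : ℕ} (val : (U → Bool) → Bool)
    (W : Set ((U → Bool) → Bool)) (hW : ∀ f ∈ W, DT (t + 1) f)
    (h : (∀ x, val x = true ↔ ∃ f ∈ W, f x = true) ∨ (∀ x, val x = true ↔ ∀ f ∈ W, f x = true)) :
    ∃ F : List (List (U × Bool)), (∀ T ∈ F, T.length ≤ t) ∧
      ((∀ Y, val Y = evalD F Y) ∨ (∀ Y, val Y = !(evalD F Y))) := by
  have key : ∀ φ : Bool → Bool, ∃ F : List (List (U × Bool)), (∀ T ∈ F, T.length ≤ t) ∧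
      ∀ Y, (evalD F Y = true ↔ ∃ f ∈ W, φ (f Y) = true) := by
    intro φ
    have h1 : ∀ f : (U → Bool) → Bool, ∃ F : List (List (U × Bool)), f ∈ W →
        (∀ T ∈ F, T.length ≤ t) ∧ ∀ Y, φ (f Y) = evalD F Y := by
      intro f
      by_cases hf : f ∈ W
      · obtain ⟨F, a, b⟩ := DTlAux.toDNF t _ (dt_comp φ (t + 1) f (hW f hf))
        exact ⟨F, fun _ => ⟨a, b⟩⟩
      · exact ⟨[], fun h' => absurd h' hf⟩
    choose Fh hFh using h1
    refine ⟨((Set.toFinite W).toFinset.toList).flatMap Fh, ?_, ?_⟩
    · intro T hT
      rw [List.mem_flatMap] at hT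
      obtain ⟨f, hf, hTf⟩ := hT
      rw [Finset.mem_toList, Set.Finite.mem_toFinset] at hf
      exact (hFh f hf).1 T hTf
    · intro Y
      rw [evalD_iff]
      constructor
      · rintro ⟨T, hT, hTY⟩
        rw [List.mem_flatMap] at hT
        obtain ⟨f, hf, hTf⟩ := hT
        rw [Finset.mem_toList, Set.Finite.mem_toFinset] at hf
        refine ⟨f, hf, ?_⟩
        rw [(hFh f hf).2 Y, evalD_iff]
        exact ⟨T, hTf, hTY⟩
      · rintro ⟨f, hf, hfY⟩
        rw [(hFh f hf).2 Y, evalD_iff] at hfY
        obtain ⟨T, hTf, hTY⟩ := hfY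
        refine ⟨T, ?_, hTY⟩
        rw [List.mem_flatMap]
        refine ⟨f, ?_, hTf⟩
        rw [Finset.mem_toList, Set.Finite.mem_toFinset]
        exact hf
  rcases h with h | h
  · obtain ⟨F, a, b⟩ := key id
    refine ⟨F, a, Or.inl fun Y => ?_⟩
    rw [Bool.eq_iff_iff, b Y, h Y]
    rfl
  · obtain ⟨F, a, b⟩ := key not
    refine ⟨F, a, Or.inr fun Y => ?_⟩
    rw [Bool.eq_iff_iff, h Y, Bool.not_eq_true', ← Bool.not_eq_true, b Y]
    constructor
    · rintro h1 ⟨f, hf, hfY⟩
      rw [h1 f hf] at hfY
      exact absurd hfY (by decide)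
    · intro h1 f hf
      by_contra hc
      exact h1 ⟨f, hf, by simpa using hc⟩

end Pool.Agent.P325ac
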