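import Mathlib
import Pool.Agent.Lib.P325ac.Defs

/-!
# P325ac.PE (1 h): product expectations

`pe W K = ∑ σ : I → S, (∏ i, W i (σ i)) * K σ`.
`pe_const`: `∑ σ, ∏ i, W i (σ i) = ∏ i, ∑ s, W i s = 1` (`Finset.prod_univ_sum`, `Fintype.piFinset_univ`).
`pe_add`, `pe_sub`, `pe_mul`, `pe_fsum`, `pe_le`, `abs_pe_le`: sums.
`pe_comm`: exchange of two sums.
`pe_resample`: group the functions by their values off `i`: the map `(σ, s) ↦ (upd σ i s, σ i)` is a bijection of
`(I → S) × S`; so `∑ σ, ∑ s, W(σ) W i s K (upd σ i s) = ∑ σ', ∑ s', (∏ j ≠ i, W j (σ' j)) W i s' W i (σ' i) K σ' = pe W K`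
(`∑ s', W i s' = 1`, `Finset.mul_prod_erase`).
`pe_mix`: the map `(σ, σ') ↦ (mix A σ' σ, mix A σ σ')`, `mix A σ' σ i = if A i then σ' i else σ i`, is an involution of
`(I → S) × (I → S)` that preserves the product of the weights; then `pe_const`.
`pe_prod`: `ψ i s σ` does not depend on the coordinates of `σ` in `A`. By `pe_mix` (with the predicate `(· ∈ A)`), the left side is
`pe W (fun σ => pe W (fun σ' => ∏ i ∈ A, ψ i (σ' i) σ))` and for fixed `σ` the inner expectation of a product of functions of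
different coordinates is `∏ i ∈ A, ∑ s, W i s * ψ i s σ` (`Finset.prod_univ_sum` with the factor `1` outside `A`).
`pe_map`: coordinatewise: with `k : I → S'' → ℝ` it is a product; in general expand `K = ∑ ρ, K ρ * ind (· = ρ)` and
`ind ((fun i => φ i (σ i) (σ' i)) = ρ) = ∏ i, ind (φ i (σ i) (σ' i) = ρ i)`; `pe W (fun σ => pe W' (fun σ' => ∏ i, ..)) =
∏ i, ∑ s, ∑ s', W i s * W' i s' * ind (φ i s s' = ρ i) = ∏ i, W'' i (ρ i)`.
-/

open Finset
open scoped BigOperators Classical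

namespace Pool.Agent.P325ac

variable {I S : Type} [Fintype I] [Fintype S]

namespace PEAux

theorem sum_prod (f : I → S → ℝ) : ∑ σ : I → S, ∏ i, f i (σ i) = ∏ i, ∑ s, f i s := by
  rw [Finset.prod_univ_sum, Fintype.piFinset_univ]

theorem sum_W {W : I → S → ℝ} (hW : ∀ i, ∑ s, W i s = 1) : ∑ σ : I → S, ∏ i, W i (σ i) = 1 := by
  rw [sum_prod]
  exact Finset.prod_eq_one fun i _ => hW i

theorem inner {W : I → S → ℝ} (hW : ∀ i, ∑ s, W i s = 1) (A : Finset I) (ψ : I → S → ℝ) :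
    pe W (fun σ => ∏ i ∈ A, ψ i (σ i)) = ∏ i ∈ A, ∑ s, W i s * ψ i s := by
  unfold pe
  have h1 : ∀ σ : I → S, (∏ i, W i (σ i)) * ∏ i ∈ A, ψ i (σ i) =
      ∏ i, W i (σ i) * (if i ∈ A then ψ i (σ i) else 1) := by
    intro σ
    rw [Finset.prod_mul_distrib, Finset.prod_ite_mem, Finset.univ_inter]
  rw [Finset.sum_congr rfl fun σ _ => h1 σ,
    sum_prod (fun i s => W i s * (if i ∈ A then ψ i s else 1))]
  have h2 : ∀ i, ∑ s, W i s * (if i ∈ A then ψ i s else 1) =
      if i ∈ A then ∑ s, W i s * ψ i s else 1 := by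
    intro i
    split_ifs
    · rfl
    · simp only [mul_one]
      exact hW i
  rw [Finset.prod_congr rfl fun i _ => h2 i, Finset.prod_ite_mem, Finset.univ_inter]

/-- exchange of the coordinates in `A` -/
noncomputable def flip (A : I → Prop) (x : (I → S) × (I → S)) : (I → S) × (I → S) :=
  (fun i => if A i then x.2 i else x.1 i, fun i => if A i then x.1 i else x.2 i)

omit [Fintype I] [Fintype S] in
theorem flip_flip (A : I → Prop) : Function.Involutive (flip (S := S) A) := by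
  intro x
  refine Prod.ext (funext fun i => ?_) (funext fun i => ?_)
  · by_cases h : A i <;> simp [flip, h]
  · by_cases h : A i <;> simp [flip, h]

omit [Fintype S] in
theorem flip_W (W : I → S → ℝ) (A : I → Prop) (x : (I → S) × (I → S)) :
    (∏ i, W i ((flip A x).1 i)) * ∏ i, W i ((flip A x).2 i) =
      (∏ i, W i (x.1 i)) * ∏ i, W i (x.2 i) := by
  rw [← Finset.prod_mul_distrib, ← Finset.prod_mul_distrib]
  refine Finset.prod_congr rfl fun i _ => ?_
  by_cases h : A i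
  · simp only [flip, h, if_true]
    ring
  · simp only [flip, h, if_false]

/-- functions to a product -/
def pairs {S' : Type} : (I → S × S') ≃ (I → S) × (I → S') where
  toFun x := (fun i => (x i).1, fun i => (x i).2)
  invFun x := fun i => (x.1 i, x.2 i)
  left_inv _ := rfl
  right_inv _ := rfl

end PEAux

open PEAux

theorem pe_const {W : I → S → ℝ} (hW : ∀ i, ∑ s, W i s = 1) (c : ℝ) :
    pe W (fun _ => c) = c := by
  unfold pe
  rw [← Finset.sum_mul, sum_W hW, one_mul]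

theorem pe_add (W : I → S → ℝ) (K K' : (I → S) → ℝ) :
    pe W (fun σ => K σ + K' σ) = pe W K + pe W K' := by
  unfold pe
  rw [← Finset.sum_add_distrib]
  exact Finset.sum_congr rfl fun σ _ => mul_add _ _ _

theorem pe_sub (W : I → S → ℝ) (K K' : (I → S) → ℝ) :
    pe W (fun σ => K σ - K' σ) = pe W K - pe W K' := by
  unfold pe
  rw [← Finset.sum_sub_distrib]
  exact Finset.sum_congr rfl fun σ _ => mul_sub _ _ _

theorem pe_mul (W : I → S → ℝ) (c : ℝ) (K : (I → S) → ℝ) :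
    pe W (fun σ => c * K σ) = c * pe W K := by
  unfold pe
  rw [Finset.mul_sum]
  exact Finset.sum_congr rfl fun σ _ => by ring

theorem pe_fsum {J : Type} (s : Finset J) (W : I → S → ℝ) (K : J → (I → S) → ℝ) :
    pe W (fun σ => ∑ j ∈ s, K j σ) = ∑ j ∈ s, pe W (K j) := by
  unfold pe
  rw [Finset.sum_comm]
  exact Finset.sum_congr rfl fun σ _ => Finset.mul_sum _ _ _

theorem pe_le {W : I → S → ℝ} (hW : ∀ i s, 0 ≤ W i s) {K K' : (I → S) → ℝ}
    (h : ∀ σ, K σ ≤ K' σ) : pe W K ≤ pe W K' := by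
  unfold pe
  exact Finset.sum_le_sum fun σ _ =>
    mul_le_mul_of_nonneg_left (h σ) (Finset.prod_nonneg fun i _ => hW i _)

theorem pe_nonneg {W : I → S → ℝ} (hW : ∀ i s, 0 ≤ W i s) {K : (I → S) → ℝ}
    (h : ∀ σ, 0 ≤ K σ) : 0 ≤ pe W K := by
  unfold pe
  exact Finset.sum_nonneg fun σ _ => mul_nonneg (Finset.prod_nonneg fun i _ => hW i _) (h σ)

theorem abs_pe_le {W : I → S → ℝ} (hW : ∀ i s, 0 ≤ W i s) (K : (I → S) → ℝ) :
    |pe W K| ≤ pe W (fun σ => |K σ|) := by
  unfold pe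
  refine (Finset.abs_sum_le_sum_abs _ _).trans (le_of_eq ?_)
  refine Finset.sum_congr rfl fun σ _ => ?_
  rw [abs_mul, abs_of_nonneg (Finset.prod_nonneg fun i _ => hW i _)]

theorem pe_comm {I' S' : Type} [Fintype I'] [Fintype S'] (W : I → S → ℝ) (W' : I' → S' → ℝ)
    (K : (I → S) → (I' → S') → ℝ) :
    pe W (fun σ => pe W' (fun σ' => K σ σ')) = pe W' (fun σ' => pe W (fun σ => K σ σ')) := by
  unfold pe
  simp only [Finset.mul_sum]
  rw [Finset.sum_comm]
  exact Finset.sum_congr rfl fun σ _ => Finset.sum_congr rfl fun σ' _ => by ring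

theorem pe_mix {W : I → S → ℝ} (hW : ∀ i, ∑ s, W i s = 1) (A : I → Prop) (K : (I → S) → ℝ) :
    pe W K = pe W (fun σ => pe W (fun σ' => K (fun i => if A i then σ' i else σ i))) := by
  have h1 : pe W (fun σ => pe W (fun σ' => K (fun i => if A i then σ' i else σ i))) =
      ∑ x : (I → S) × (I → S), (∏ i, W i (x.1 i)) * (∏ i, W i (x.2 i)) * K (flip A x).1 := by
    unfold pe
    rw [Fintype.sum_prod_type]
    refine Finset.sum_congr rfl fun σ _ => ?_
    rw [Finset.mul_sum]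
    refine Finset.sum_congr rfl fun σ' _ => ?_
    show _ = (∏ i, W i (σ i)) * (∏ i, W i (σ' i)) * K (fun i => if A i then σ' i else σ i)
    ring
  have h2 : ∑ x : (I → S) × (I → S), (∏ i, W i (x.1 i)) * (∏ i, W i (x.2 i)) * K (flip A x).1 =
      ∑ x : (I → S) × (I → S), (∏ i, W i (x.1 i)) * (∏ i, W i (x.2 i)) * K x.1 := by
    rw [← Equiv.sum_comp (Function.Involutive.toPerm (flip A) (flip_flip A))
      (fun x : (I → S) × (I → S) => (∏ i, W i (x.1 i)) * (∏ i, W i (x.2 i)) * K x.1)]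
    refine Finset.sum_congr rfl fun x _ => ?_
    show _ = (∏ i, W i ((flip A x).1 i)) * (∏ i, W i ((flip A x).2 i)) * K (flip A x).1
    rw [flip_W]
  rw [h1, h2, Fintype.sum_prod_type]
  unfold pe
  refine Finset.sum_congr rfl fun σ _ => ?_
  show _ = ∑ σ' : I → S, (∏ i, W i (σ i)) * (∏ i, W i (σ' i)) * K σ
  rw [← Finset.sum_mul, ← Finset.mul_sum, sum_W hW, mul_one]

theorem pe_resample {W : I → S → ℝ} (hW : ∀ i, ∑ s, W i s = 1) (i : I) (K : (I → S) → ℝ) :
    pe W K = pe W (fun σ => ∑ s, W i s * K (upd σ i s)) := by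
  rw [pe_mix hW (fun j => j = i) K]
  refine congrArg (pe W) (funext fun σ => ?_)
  have h1 := inner hW {i} (fun _ s => K (upd σ i s))
  rw [Finset.prod_singleton] at h1
  rw [← h1]
  refine congrArg (pe W) (funext fun σ' => ?_)
  rw [Finset.prod_singleton]
  refine congrArg K (funext fun j => ?_)
  unfold upd
  by_cases h : j = i
  · rw [if_pos h, if_pos h, h]
  · rw [if_neg h, if_neg h]

theorem pe_prod {W : I → S → ℝ} (hW : ∀ i, ∑ s, W i s = 1) (A : Finset I)
    (ψ : I → S → (I → S) → ℝ)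
    (hψ : ∀ i ∈ A, ∀ s σ σ', (∀ j, j ∉ A → σ j = σ' j) → ψ i s σ = ψ i s σ') :
    pe W (fun σ => ∏ i ∈ A, ψ i (σ i) σ) = pe W (fun σ => ∏ i ∈ A, ∑ s, W i s * ψ i s σ) := by
  rw [pe_mix hW (fun j => j ∈ A)]
  refine congrArg (pe W) (funext fun σ => ?_)
  rw [← inner hW A (fun i s => ψ i s σ)]
  refine congrArg (pe W) (funext fun σ' => ?_)
  refine Finset.prod_congr rfl fun i hi => ?_
  refine (hψ i hi _ _ σ fun j hj => if_neg hj).trans ?_
  exact congrArg (fun s => ψ i s σ) (if_pos hi)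

theorem pe_map1 {S'' : Type} [Fintype S''] (W : I → S → ℝ) (W'' : I → S'' → ℝ) (φ : I → S → S'')
    (h : ∀ i t, ∑ s, W i s * ind (φ i s = t) = W'' i t) (K : (I → S'') → ℝ) :
    pe W (fun σ => K (fun i => φ i (σ i))) = pe W'' K := by
  unfold pe
  have h1 : ∀ σ : I → S, (∏ i, W i (σ i)) * K (fun i => φ i (σ i)) =
      ∑ ρ : I → S'', (∏ i, W i (σ i) * ind (φ i (σ i) = ρ i)) * K ρ := by
    intro σ
    rw [Finset.sum_eq_single (fun i => φ i (σ i))]
    · congr 1
      refine Finset.prod_congr rfl fun i _ => ?_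
      unfold ind
      rw [if_pos rfl, mul_one]
    · intro ρ _ hρ
      obtain ⟨i, hi⟩ : ∃ i, φ i (σ i) ≠ ρ i := by
        by_contra hcon
        push Not at hcon
        exact hρ (funext fun i => (hcon i).symm)
      have h2 : ∏ i, W i (σ i) * ind (φ i (σ i) = ρ i) = 0 := by
        refine Finset.prod_eq_zero (Finset.mem_univ i) ?_
        unfold ind
        rw [if_neg hi, mul_zero]
      rw [h2, zero_mul]
    · intro hcon
      exact absurd (Finset.mem_univ _) hcon
  rw [Finset.sum_congr rfl fun σ _ => h1 σ, Finset.sum_comm]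
  refine Finset.sum_congr rfl fun ρ _ => ?_
  rw [← Finset.sum_mul, sum_prod (fun i s => W i s * ind (φ i s = ρ i))]
  congr 1
  exact Finset.prod_congr rfl fun i _ => h i (ρ i)

theorem pe_map {S' S'' : Type} [Fintype S'] [Fintype S''] (W : I → S → ℝ) (W' : I → S' → ℝ)
    (W'' : I → S'' → ℝ) (φ : I → S → S' → S'')
    (h : ∀ i t, ∑ s, ∑ s', W i s * W' i s' * ind (φ i s s' = t) = W'' i t)
    (K : (I → S'') → ℝ) :
    pe W (fun σ => pe W' (fun σ' => K (fun i => φ i (σ i) (σ' i)))) = pe W'' K := by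
  rw [← pe_map1 (fun i (q : S × S') => W i q.1 * W' i q.2) W'' (fun i q => φ i q.1 q.2)
    (fun i t => by rw [← h i t, Fintype.sum_prod_type]) K]
  unfold pe
  rw [← Equiv.sum_comp (pairs (S := S) (S' := S')).symm, Fintype.sum_prod_type]
  refine Finset.sum_congr rfl fun σ _ => ?_
  rw [Finset.mul_sum]
  refine Finset.sum_congr rfl fun σ' _ => ?_
  show _ = (∏ i, W i (σ i) * W' i (σ' i)) * K (fun i => φ i (σ i) (σ' i))
  rw [Finset.prod_mul_distrib]
  ring

theorem wn_nonneg {θ : ℝ} (h0 : 0 ≤ θ) (h1 : θ ≤ 1) (b : Bool) : 0 ≤ wn θ b := by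
  unfold wn
  split_ifs <;> linarith

theorem wn_sum (θ : ℝ) : ∑ b, wn θ b = 1 := by
  rw [Fintype.sum_bool]
  simp only [wn, if_true, Bool.false_eq_true, if_false]
  ring

theorem w3_nonneg {θ : ℝ} (h0 : 0 ≤ θ) (h1 : θ ≤ 1) (s : Option Bool) : 0 ≤ w3 θ s := by
  unfold w3
  split_ifs <;> linarith

theorem w3_sum (θ : ℝ) : ∑ s, w3 θ s = 1 := by
  rw [Fintype.sum_option, Fintype.sum_bool]
  simp only [w3, if_true, reduceCtorEq, if_false]
  ring

end Pool.Agent.P325ac
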