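import Mathlib
import Pool.Agent.Lib.P325ac.Defs

/-!
# P325ac.Sw (2.5 h): the abstract switching lemma

Notation: `μ(E) = ∑ R, μ R * ind (E R)`, `α = 1 / 2`. A literal `l = (u, c)` is FIXED TRUE (FALSE) under `(π, R)` if
`vw S π R u = some c` (`some (!c)`), ALIVE if `vw S π R u = none` (then `π (bl u) = none` and `view R u = none`).
LIVE `D R π` for a list `D` of literals: `(∀ l ∈ D, vw S π R l.1 ≠ some (!l.2)) ∧ (∀ l ∈ D, ∀ l' ∈ D, vw l = none → vw l' = none →
bl l.1 = bl l'.1 → l.2 = l'.2)`.
(1) CLOSED EVENTS. `E : P → Prop` is closed at `b` if `T u a R R' ≠ 0`, `bl u = b`, `E R` imply `E R'`. Then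
`TI S p μ b → TI S p (fun R => μ R * ind (E R)) b` (if `¬ E R'` all terms vanish; if `E R'` drop the indicator).
(2) If `T u a R R' ≠ 0`, `bl u = b`, `π b = none`: `vw S π R' u' = vw S π R u'` if `bl u' ≠ b` (`T_co`, `co_view`) and
`vw S π R' u' = some ((view R u').getD a)` if `bl u' = b`. So {l fixed true}, {l fixed false}, {D not live} are closed at `b`
(a contradictory alive pair of the block `b` becomes a pair with one false literal), and `{co b0 R = ω}` is closed at `b ≠ b0`.
(3) CLAIM. Fix `F'` with the switching bound for all `π, μ, t` (main induction). For all `j`, all lists `D` with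
`D.length ≤ j`, all `π, μ, t` (hypotheses as in the theorem) and `G = evalD F'` or `G = evalD (D :: F')`:
`μ(live D ∧ ¬ DT t (rs S π · G)) ≤ (1 + 4 p) ^ j * α ^ t * μ(live D)`. Induction on `j`; `t = 0` is trivial (`(1 + 4p) ^ j ≥ 1`).
`D = []`: `evalD ([] :: F') = true`, `DT t` of a constant holds for `t ≥ 1`; `G = evalD F'`: hypothesis on `F'`.
`D = l :: D'`, `b = bl l.1`, `t ≥ 1`. On `live D`, `l` is fixed true or alive. Part 1 (l fixed true): apply the induction
hypothesis to `D'` and `μ * ind (l fixed true)`; there `rs G` is the same for `evalD (D :: F')` and `evalD (D' :: F')`, and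
`live D ↔ live D'`: bound `(1 + 4p)^(j-1) α^t μ(l true ∧ live D)`.
Part 2 (l alive): if `¬ DT t (rs S π R G)` then for some `a`: `¬ DT (t - 1) (rs S (upd π b (some a)) R G)`
(`rs S (upd π b (some a)) R G = fun Z => rs S π R G (upd Z b a)`). With `D'' = D'.filter (bl · ≠ b)` and `live D`:
`live D ↔ (block b part, a condition on co b R) ∧ live D''`; `rs S (upd π b (some a)) R (evalD (D :: F'))` equals that of
`evalD (D'' :: F')` if `a = l.2` (all alive literals of block `b` agree with `l`, the fixed ones are true) and of `evalD F'`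
if `a ≠ l.2`. For every value `ω` of `co b` (finite image) apply the induction hypothesis to `D''`, `upd π b (some a)`,
`μ * ind (co b R = ω)` (TI for all blocks `≠ b` with `π = none`); the blocks `b'` with `(upd π b (some a)) b' = none` are `≠ b`.
Sum over `ω` (those for which `l` is alive and the block part of `D` is live; this depends only on `ω`) and over `a`:
`2 (1 + 4p)^(j-1) α^(t-1) μ(l alive ∧ live D)`. Transport: `μ(l alive ∧ live D) ≤ ∑ R, μ R ind(..) ∑ R', T l.1 l.2 R R'
≤ ∑ R', ind (l true in R' ∧ live D R') ∑ R, μ R T l.1 l.2 R R' ≤ p μ(l true ∧ live D)` (after the transport all literals of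
`D` in block `b` are true). Total `(1 + 4p)^(j-1) α^t (1 + 4p) μ(l true ∧ live D)`.
(4) CLAIM+ (`t ≥ 1`, `G = evalD (D :: F')`): the bound `((1 + 4p)^j - 1) α^t μ(live D)`: `D = []`: `0`; Part 1 by CLAIM+,
Part 2 by CLAIM.
(5) MAIN INDUCTION on `F`: `F = []`: `evalD [] = false`, `DT t` for `t ≥ 1`. `F = C :: F'`: on `¬ live C` (closed event, (1))
`rs (evalD F) = rs (evalD F')`: `≤ α^t μ(¬ live C)`. On `live C`: CLAIM+ with `j = w`:
`(1 + 4p)^w ≤ exp (4 p w) ≤ exp (1/2) ≤ 2`. Sum.
-/

open Finset
open scoped BigOperators Classical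

namespace Pool.Agent.P325ac

namespace SwAux

variable {U B P Q : Type} [Fintype P]

lemma ind_nonneg (p : Prop) : 0 ≤ ind p := by
  unfold ind
  split_ifs
  · exact zero_le_one
  · exact le_refl 0

lemma ind_pos {p : Prop} (h : p) : ind p = 1 := if_pos h

lemma ind_neg {p : Prop} (h : ¬ p) : ind p = 0 := if_neg h

lemma ind_mono {p q : Prop} (h : p → q) : ind p ≤ ind q := by
  by_cases hp : p
  · rw [ind_pos hp, ind_pos (h hp)]
  · rw [ind_neg hp]
    exact ind_nonneg q

lemma ind_congr {p q : Prop} (h : p ↔ q) : ind p = ind q := by rw [propext h]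

lemma ind_and (p q : Prop) : ind p * ind q = ind (p ∧ q) := by
  by_cases hp : p
  · by_cases hq : q
    · rw [ind_pos hp, ind_pos hq, ind_pos ⟨hp, hq⟩, mul_one]
    · rw [ind_neg hq, ind_neg (p := p ∧ q) (fun h => hq h.2), mul_zero]
  · rw [ind_neg hp, ind_neg (p := p ∧ q) (fun h => hp h.1), zero_mul]

/-- a live list of literals -/
def Live (S : Sys U B P Q) (π : B → Option Bool) (R : P) (D : List (U × Bool)) : Prop :=
  (∀ l ∈ D, vw S π R l.1 ≠ some (!l.2)) ∧
    ∀ l ∈ D, ∀ l' ∈ D, vw S π R l.1 = none → vw S π R l'.1 = none →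
      S.bl l.1 = S.bl l'.1 → l.2 = l'.2

/-- an event which is closed at the block `b` -/
def Cl (S : Sys U B P Q) (b : B) (E : P → Prop) : Prop :=
  ∀ u a R R', S.T u a R R' ≠ 0 → S.bl u = b → E R → E R'

lemma TI_res {S : Sys U B P Q} {p : ℝ} {μ : P → ℝ} {b : B} {E : P → Prop} (hμ : ∀ R, 0 ≤ μ R)
    (h : TI S p μ b) (hE : Cl S b E) : TI S p (fun R => μ R * ind (E R)) b := by
  intro u hu a R'
  show ∑ R, μ R * ind (E R) * S.T u a R R' ≤ p * (μ R' * ind (E R'))
  by_cases hR : E R'
  · rw [ind_pos hR, mul_one]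
    refine le_trans (sum_le_sum fun R _ => ?_) (h u hu a R')
    refine mul_le_mul_of_nonneg_right ?_ (S.T_nonneg u a R R')
    have := ind_mono (p := E R) (q := True) (fun _ => trivial)
    rw [ind_pos trivial] at this
    exact mul_le_of_le_one_right (hμ R) this
  · rw [ind_neg hR, mul_zero, mul_zero]
    refine le_of_eq (sum_eq_zero fun R _ => ?_)
    by_cases hT : S.T u a R R' = 0
    · rw [hT, mul_zero]
    · have : ¬ E R := fun h => hR (hE u a R R' hT hu h)
      rw [ind_neg this, mul_zero, zero_mul]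

lemma vw_none {S : Sys U B P Q} {π : B → Option Bool} {R : P} {u : U} :
    vw S π R u = none ↔ S.view R u = none ∧ π (S.bl u) = none := by
  unfold vw
  cases h : S.view R u <;> simp

lemma vw_eq {S : Sys U B P Q} {π : B → Option Bool} {R : P} {u : U} (hπ : π (S.bl u) = none) :
    vw S π R u = S.view R u := by
  unfold vw
  cases h : S.view R u <;> simp [hπ]

lemma vw_congr {S : Sys U B P Q} {π π' : B → Option Bool} {R : P} {u : U}
    (h : π (S.bl u) = π' (S.bl u)) : vw S π R u = vw S π' R u := by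
  unfold vw
  cases h' : S.view R u <;> simp [h]

lemma vw_T_ne {S : Sys U B P Q} {π : B → Option Bool} {R R' : P} {u u' : U} {a : Bool}
    (h : S.T u a R R' ≠ 0) (hb : S.bl u' ≠ S.bl u) : vw S π R' u' = vw S π R u' := by
  have h1 : S.view R' u' = S.view R u' := S.co_view R' R u' (S.T_co u a R R' h _ hb)
  unfold vw
  rw [h1]

lemma vw_T_eq {S : Sys U B P Q} {π : B → Option Bool} {R R' : P} {u u' : U} {a : Bool}
    (h : S.T u a R R' ≠ 0) (hb : S.bl u' = S.bl u) (hπ : π (S.bl u) = none) :
    vw S π R' u' = some ((vw S π R u').getD a) := by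
  have hπ' : π (S.bl u') = none := by rw [hb]; exact hπ
  rw [vw_eq hπ', vw_eq hπ']
  exact S.T_view u a R R' h u' hb

lemma vw_persist {S : Sys U B P Q} {π : B → Option Bool} {R R' : P} {u u' : U} {a c : Bool}
    (h : S.T u a R R' ≠ 0) (hπ : π (S.bl u) = none) (hv : vw S π R u' = some c) :
    vw S π R' u' = some c := by
  by_cases hb : S.bl u' = S.bl u
  · rw [vw_T_eq h hb hπ, hv]
    rfl
  · rw [vw_T_ne h hb, hv]

lemma cl_true {S : Sys U B P Q} {π : B → Option Bool} {b : B} (hπ : π b = none) (l : U × Bool) :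
    Cl S b (fun R => vw S π R l.1 = some l.2) := by
  intro u a R R' hT hb h
  subst hb
  exact vw_persist hT hπ h

lemma bool_of_ne {a c : Bool} (h : (some a : Option Bool) ≠ some (!c)) : c = a := by
  cases a <;> cases c <;> simp_all

lemma cl_notlive {S : Sys U B P Q} {π : B → Option Bool} {b : B} (hπ : π b = none)
    (D : List (U × Bool)) : Cl S b (fun R => ¬ Live S π R D) := by
  intro u a R R' hT hb h hL
  subst hb
  apply h
  refine ⟨fun l hl hv => hL.1 l hl (vw_persist hT hπ hv), fun l hl l' hl' hv hv' hb' => ?_⟩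
  by_cases hbl : S.bl l.1 = S.bl u
  · have e1 : vw S π R' l.1 = some a := by rw [vw_T_eq hT hbl hπ, hv]; rfl
    have e2 : vw S π R' l'.1 = some a := by rw [vw_T_eq hT (hb'.symm.trans hbl) hπ, hv']; rfl
    have n1 := hL.1 l hl
    have n2 := hL.1 l' hl'
    rw [e1] at n1
    rw [e2] at n2
    rw [bool_of_ne n1, bool_of_ne n2]
  · have e1 : vw S π R' l.1 = none := by rw [vw_T_ne hT hbl, hv]
    have hbl' : S.bl l'.1 ≠ S.bl u := fun h => hbl (hb'.trans h)
    have e2 : vw S π R' l'.1 = none := by rw [vw_T_ne hT hbl', hv']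
    exact hL.2 l hl l' hl' e1 e2 hb'

lemma cl_co {S : Sys U B P Q} {b0 b : B} (hne : b ≠ b0) {E : P → Prop}
    (hE : ∀ R R', S.co b0 R = S.co b0 R' → E R → E R') : Cl S b E := by
  intro u a R R' hT hb h
  refine hE R R' (S.T_co u a R R' hT b0 ?_).symm h
  rw [hb]
  exact hne.symm

lemma live_nil (S : Sys U B P Q) (π : B → Option Bool) (R : P) : Live S π R [] := by
  constructor
  · intro l hl
    simp at hl
  · intro l hl
    simp at hl

lemma live_mono {S : Sys U B P Q} {π : B → Option Bool} {R : P} {D D' : List (U × Bool)}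
    (h : ∀ l ∈ D', l ∈ D) (hL : Live S π R D) : Live S π R D' :=
  ⟨fun l hl => hL.1 l (h l hl), fun l hl l' hl' => hL.2 l (h l hl) l' (h l' hl')⟩

lemma live_congr {S : Sys U B P Q} {π π' : B → Option Bool} {R R' : P} {D : List (U × Bool)}
    (h : ∀ l ∈ D, vw S π R l.1 = vw S π' R' l.1) (hL : Live S π R D) : Live S π' R' D := by
  refine ⟨fun l hl => ?_, fun l hl l' hl' => ?_⟩
  · rw [← h l hl]
    exact hL.1 l hl
  · rw [← h l hl, ← h l' hl']
    exact hL.2 l hl l' hl'

/-- the literals of `D` in the block `b` -/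
noncomputable def inb (S : Sys U B P Q) (b : B) (D : List (U × Bool)) : List (U × Bool) :=
  D.filter (fun l => decide (S.bl l.1 = b))

/-- the other literals of `D` -/
noncomputable def outb (S : Sys U B P Q) (b : B) (D : List (U × Bool)) : List (U × Bool) :=
  D.filter (fun l => decide (S.bl l.1 ≠ b))

lemma mem_inb {S : Sys U B P Q} {b : B} {D : List (U × Bool)} {l : U × Bool} :
    l ∈ inb S b D ↔ l ∈ D ∧ S.bl l.1 = b := by
  unfold inb
  rw [List.mem_filter, decide_eq_true_eq]

lemma mem_outb {S : Sys U B P Q} {b : B} {D : List (U × Bool)} {l : U × Bool} :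
    l ∈ outb S b D ↔ l ∈ D ∧ S.bl l.1 ≠ b := by
  unfold outb
  rw [List.mem_filter, decide_eq_true_eq]

lemma outb_length (S : Sys U B P Q) (b : B) (D : List (U × Bool)) :
    (outb S b D).length ≤ D.length := List.length_filter_le _ _

lemma live_split {S : Sys U B P Q} {π : B → Option Bool} {R : P} (b : B) {D : List (U × Bool)} :
    Live S π R D ↔ Live S π R (inb S b D) ∧ Live S π R (outb S b D) := by
  constructor
  · intro h
    exact ⟨live_mono (fun l hl => (mem_inb.mp hl).1) h, live_mono (fun l hl => (mem_outb.mp hl).1) h⟩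
  · rintro ⟨h1, h2⟩
    refine ⟨fun l hl => ?_, fun l hl l' hl' hv hv' hb => ?_⟩
    · by_cases hb : S.bl l.1 = b
      · exact h1.1 l (mem_inb.mpr ⟨hl, hb⟩)
      · exact h2.1 l (mem_outb.mpr ⟨hl, hb⟩)
    · by_cases hb' : S.bl l.1 = b
      · exact h1.2 l (mem_inb.mpr ⟨hl, hb'⟩) l' (mem_inb.mpr ⟨hl', hb.symm.trans hb'⟩) hv hv' hb
      · exact h2.2 l (mem_outb.mpr ⟨hl, hb'⟩) l'
          (mem_outb.mpr ⟨hl', fun h => hb' (hb.trans h)⟩) hv hv' hb

lemma evalD_congr {D D2 : List (U × Bool)} {F : List (List (U × Bool))} {Y : U → Bool}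
    (h : evalT D Y ↔ evalT D2 Y) : evalD (D :: F) Y = evalD (D2 :: F) Y := by
  unfold evalD
  simp only [List.mem_cons, exists_eq_or_imp, h]

lemma evalD_drop {D : List (U × Bool)} {F : List (List (U × Bool))} {Y : U → Bool}
    (h : ¬ evalT D Y) : evalD (D :: F) Y = evalD F Y := by
  unfold evalD
  simp only [List.mem_cons, exists_eq_or_imp, h, false_or]

lemma DT_const {V X : Type} (t : ℕ) {g : (V → Bool) → X} (x : X) (h : ∀ Y, g Y = x) :
    DT (t + 1) g := Or.inl ⟨x, h⟩

lemma not_DT_succ {V X : Type} {t : ℕ} {g : (V → Bool) → X} (h : ¬ DT (t + 1) g) (v : V) :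
    ∃ a, ¬ DT t (fun Y => g (upd Y v a)) := by
  by_contra hcon
  push Not at hcon
  exact h (Or.inr ⟨v, hcon⟩)

lemma rs_upd {X : Type} {S : Sys U B P Q} {π : B → Option Bool} {R : P} {G : (U → Bool) → X}
    {b : B} (hπ : π b = none) (a : Bool) :
    (fun Z => rs S π R G (upd Z b a)) = rs S (upd π b (some a)) R G := by
  funext Z
  unfold rs
  congr 1
  funext u
  unfold vw
  cases h : S.view R u
  · by_cases hb : S.bl u = b
    · simp [upd, hb, hπ]
    · simp [upd, hb]
  · rfl

/-- the bound for the function `G` -/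
def Bd (S : Sys U B P Q) (p : ℝ) (G : (U → Bool) → Bool) : Prop :=
  ∀ (π : B → Option Bool) (μ : P → ℝ) (t : ℕ), (∀ R, 0 ≤ μ R) →
    (∀ b, π b = none → TI S p μ b) →
      ∑ R, μ R * ind (¬ DT t (rs S π R G)) ≤ (1 / 2) ^ t * ∑ R, μ R

/-- the claim for lists of length at most `j` -/
def Claim (S : Sys U B P Q) (p : ℝ) (F : List (List (U × Bool))) (j : ℕ) : Prop :=
  ∀ D : List (U × Bool), D.length ≤ j → ∀ (π : B → Option Bool) (μ : P → ℝ) (t : ℕ),
    (∀ R, 0 ≤ μ R) → (∀ b, π b = none → TI S p μ b) →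
      ∀ G, (G = evalD F ∨ G = evalD (D :: F)) →
        ∑ R, μ R * ind (Live S π R D ∧ ¬ DT t (rs S π R G)) ≤
          (1 + 4 * p) ^ j * (1 / 2) ^ t * ∑ R, μ R * ind (Live S π R D)

lemma transport {S : Sys U B P Q} {p : ℝ} {π : B → Option Bool} {μ : P → ℝ} {l : U × Bool}
    (hπ : π (S.bl l.1) = none) (hμ : ∀ R, 0 ≤ μ R) (hT : TI S p μ (S.bl l.1))
    {D : List (U × Bool)} (hl : l ∈ D) :
    ∑ R, μ R * ind (Live S π R D ∧ vw S π R l.1 = none) ≤
      p * ∑ R, μ R * ind (Live S π R D ∧ vw S π R l.1 = some l.2) := by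
  have key : ∀ R R', S.T l.1 l.2 R R' ≠ 0 → (Live S π R D ∧ vw S π R l.1 = none) →
      (Live S π R' D ∧ vw S π R' l.1 = some l.2) := by
    rintro R R' hne ⟨hL, hv⟩
    refine ⟨⟨fun k hk => ?_, fun k hk k' hk' e1 e2 hb => ?_⟩, ?_⟩
    · by_cases hb : S.bl k.1 = S.bl l.1
      · rw [vw_T_eq hne hb hπ]
        cases hk2 : vw S π R k.1 with
        | none =>
          have := hL.2 k hk l hl hk2 hv hb
          rw [Option.getD_none, ← this]
          cases k.2 <;> simp
        | some c =>
          have := hL.1 k hk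
          rw [hk2] at this
          exact this
      · rw [vw_T_ne hne hb]
        exact hL.1 k hk
    · have hb1 : S.bl k.1 ≠ S.bl l.1 := by
        intro h
        rw [vw_T_eq hne h hπ] at e1
        exact absurd e1 (Option.some_ne_none _)
      have hb2 : S.bl k'.1 ≠ S.bl l.1 := fun h => hb1 (hb.trans h)
      rw [vw_T_ne hne hb1] at e1
      rw [vw_T_ne hne hb2] at e2
      exact hL.2 k hk k' hk' e1 e2 hb
    · rw [vw_T_eq hne rfl hπ, hv]
      rfl
  calc ∑ R, μ R * ind (Live S π R D ∧ vw S π R l.1 = none)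
      ≤ ∑ R, ∑ R', μ R * S.T l.1 l.2 R R' *
          ind (Live S π R' D ∧ vw S π R' l.1 = some l.2) := by
        refine sum_le_sum fun R _ => ?_
        by_cases hE : Live S π R D ∧ vw S π R l.1 = none
        · rw [ind_pos hE, mul_one]
          have h1 := S.T_sum l.1 l.2 R (vw_none.mp hE.2).1
          calc μ R ≤ μ R * ∑ R', S.T l.1 l.2 R R' := le_mul_of_one_le_right (hμ R) h1
            _ = ∑ R', μ R * S.T l.1 l.2 R R' := by rw [mul_sum]
            _ = _ := by
              refine sum_congr rfl fun R' _ => ?_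
              by_cases h0 : S.T l.1 l.2 R R' = 0
              · rw [h0, mul_zero, zero_mul]
              · rw [ind_pos (key R R' h0 hE), mul_one]
        · rw [ind_neg hE, mul_zero]
          exact sum_nonneg fun R' _ =>
            mul_nonneg (mul_nonneg (hμ R) (S.T_nonneg _ _ _ _)) (ind_nonneg _)
    _ = ∑ R', (∑ R, μ R * S.T l.1 l.2 R R') *
          ind (Live S π R' D ∧ vw S π R' l.1 = some l.2) := by
        rw [sum_comm]
        exact sum_congr rfl fun R' _ => by rw [sum_mul]
    _ ≤ ∑ R', p * μ R' * ind (Live S π R' D ∧ vw S π R' l.1 = some l.2) :=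
        sum_le_sum fun R' _ => mul_le_mul_of_nonneg_right (hT l.1 rfl l.2 R') (ind_nonneg _)
    _ = _ := by
        rw [mul_sum]
        exact sum_congr rfl fun R' _ => by rw [mul_assoc]

lemma part2 {S : Sys U B P Q} {p : ℝ} (hp : 0 ≤ p) {F : List (List (U × Bool))} {j : ℕ}
    (IH : Claim S p F j) (l : U × Bool) {D' : List (U × Bool)} (hlen : D'.length ≤ j)
    (π : B → Option Bool) (μ : P → ℝ) (s : ℕ) (hμ : ∀ R, 0 ≤ μ R)
    (hT : ∀ b, π b = none → TI S p μ b) (G : (U → Bool) → Bool)
    (hG : G = evalD F ∨ G = evalD ((l :: D') :: F)) :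
    ∑ R, μ R * ind ((Live S π R (l :: D') ∧ ¬ DT (s + 1) (rs S π R G)) ∧ vw S π R l.1 = none) ≤
      4 * p * (1 + 4 * p) ^ j * (1 / 2) ^ (s + 1) *
        ∑ R, μ R * ind (Live S π R (l :: D') ∧ vw S π R l.1 = some l.2) := by
  have hp1 : 0 ≤ (1 + 4 * p) ^ j := pow_nonneg (by linarith) _
  by_cases hπ : π (S.bl l.1) = none
  swap
  · have h0 : ∑ R, μ R * ind ((Live S π R (l :: D') ∧ ¬ DT (s + 1) (rs S π R G)) ∧
        vw S π R l.1 = none) = 0 := by
      refine sum_eq_zero fun R _ => ?_
      rw [ind_neg (fun h => hπ (vw_none.mp h.2).2), mul_zero]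
    rw [h0]
    refine mul_nonneg (by positivity) (sum_nonneg fun R _ => mul_nonneg (hμ R) (ind_nonneg _))
  set b := S.bl l.1 with hb
  set D := l :: D' with hD
  let πa : Bool → B → Option Bool := fun a => upd π b (some a)
  have hlD : l ∈ D := List.mem_cons_self
  let C : P → Prop := fun R => vw S π R l.1 = none ∧ Live S π R (inb S b D)
  have hCco : ∀ R R', S.co b R = S.co b R' → C R → C R' := by
    intro R R' hco hC
    have hv : ∀ u, S.bl u = b → vw S π R u = vw S π R' u := by
      intro u hu
      have : S.view R u = S.view R' u := S.co_view R R' u (by rw [hu]; exact hco)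
      unfold vw
      rw [this]
    refine ⟨?_, live_congr (fun k hk => hv k.1 (mem_inb.mp hk).2) hC.2⟩
    rw [← hv l.1 rfl]
    exact hC.1
  have hπa : ∀ a b', πa a b' = none → b' ≠ b ∧ π b' = none := by
    intro a b' h
    by_cases hbb : b' = b
    · exfalso
      have : πa a b' = some a := by simp [πa, upd, hbb]
      rw [this] at h
      exact absurd h (Option.some_ne_none _)
    · refine ⟨hbb, ?_⟩
      have : πa a b' = π b' := by simp [πa, upd, hbb]
      rw [← this]
      exact h
  have hTC : ∀ a b', πa a b' = none → TI S p (fun R => μ R * ind (C R)) b' := by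
    intro a b' h
    obtain ⟨h1, h2⟩ := hπa a b' h
    exact TI_res hμ (hT b' h2) (cl_co h1 hCco)
  have hvout : ∀ a R u, S.bl u ≠ b → vw S (πa a) R u = vw S π R u := by
    intro a R u hu
    refine vw_congr ?_
    simp [πa, upd, hu]
  have hlenD : (outb S b D).length ≤ j := by
    have : outb S b D = outb S b D' := by
      unfold outb
      rw [hD, List.filter_cons_of_neg]
      simp [hb]
    rw [this]
    exact (outb_length S b D').trans hlen
  have hliveout : ∀ a R, Live S (πa a) R (outb S b D) ↔ Live S π R (outb S b D) := by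
    intro a R
    constructor
    · exact live_congr fun k hk => hvout a R k.1 (mem_outb.mp hk).2
    · exact live_congr fun k hk => (hvout a R k.1 (mem_outb.mp hk).2).symm
  have hexG : ∀ a, ∃ G', (G' = evalD F ∨ G' = evalD (outb S b D :: F)) ∧
      ∀ R, C R → Live S π R D → rs S (πa a) R G = rs S (πa a) R G' := by
    intro a
    rcases hG with hG | hG
    · exact ⟨evalD F, Or.inl rfl, fun R _ _ => by rw [hG]⟩
    · by_cases hal : a = l.2
      · refine ⟨evalD (outb S b D :: F), Or.inr rfl, fun R hC hL => ?_⟩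
        rw [hG]
        funext Z
        unfold rs
        refine evalD_congr ⟨fun h k hk => h k (mem_outb.mp hk).1, fun h k hk => ?_⟩
        by_cases hkb : S.bl k.1 = b
        · cases hv : vw S π R k.1 with
          | none =>
            have h1 := hL.2 k hk l hlD hv hC.1 hkb
            have h2 : vw S (πa a) R k.1 = some a := by
              have h3 := (vw_none.mp hv).1
              unfold vw
              rw [h3]
              simp [πa, upd, hkb]
            show (vw S (πa a) R k.1).getD _ = k.2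
            rw [h2, h1, hal]
            rfl
          | some c =>
            have h1 := hL.1 k hk
            rw [hv] at h1
            have h2 : vw S (πa a) R k.1 = some c := by
              have hπk : π (S.bl k.1) = none := by rw [hkb]; exact hπ
              rw [vw_eq hπk] at hv
              unfold vw
              rw [hv]
            show (vw S (πa a) R k.1).getD _ = k.2
            rw [h2, bool_of_ne h1]
            rfl
        · exact h k (mem_outb.mpr ⟨hk, hkb⟩)
      · refine ⟨evalD F, Or.inl rfl, fun R hC hL => ?_⟩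
        rw [hG]
        funext Z
        unfold rs
        refine evalD_drop fun h => hal ?_
        have h1 := h l hlD
        have h2 : vw S (πa a) R l.1 = some a := by
          have h3 := (vw_none.mp hC.1).1
          unfold vw
          rw [h3]
          simp [πa, upd, hb]
        have h4 : (vw S (πa a) R l.1).getD (Z (S.bl l.1)) = l.2 := h1
        rw [h2] at h4
        exact h4
  choose G' hG' hGe using hexG
  have step1 : ∀ R, ind ((Live S π R D ∧ ¬ DT (s + 1) (rs S π R G)) ∧ vw S π R l.1 = none) ≤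
      ∑ a : Bool, ind (C R) * ind (Live S (πa a) R (outb S b D) ∧
        ¬ DT s (rs S (πa a) R (G' a))) := by
    intro R
    by_cases hE : (Live S π R D ∧ ¬ DT (s + 1) (rs S π R G)) ∧ vw S π R l.1 = none
    · rw [ind_pos hE]
      obtain ⟨⟨hL, hDT⟩, hv⟩ := hE
      obtain ⟨a, ha⟩ := not_DT_succ hDT b
      rw [rs_upd hπ a] at ha
      have hC : C R := ⟨hv, (live_split b).mp hL |>.1⟩
      have h1 : ind (C R) * ind (Live S (πa a) R (outb S b D) ∧
          ¬ DT s (rs S (πa a) R (G' a))) = 1 := by
        rw [ind_pos hC, ind_pos, mul_one]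
        refine ⟨(hliveout a R).mpr ((live_split b).mp hL).2, ?_⟩
        rw [← hGe a R hC hL]
        exact ha
      rw [← h1]
      exact single_le_sum (f := fun a => ind (C R) * ind (Live S (πa a) R (outb S b D) ∧
          ¬ DT s (rs S (πa a) R (G' a)))) (fun a _ => mul_nonneg (ind_nonneg _) (ind_nonneg _))
          (mem_univ a)
    · rw [ind_neg hE]
      exact sum_nonneg fun a _ => mul_nonneg (ind_nonneg _) (ind_nonneg _)
  have step2 : ∀ a : Bool, ∑ R, μ R * ind (C R) * ind (Live S (πa a) R (outb S b D) ∧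
      ¬ DT s (rs S (πa a) R (G' a))) ≤
      (1 + 4 * p) ^ j * (1 / 2) ^ s * ∑ R, μ R * ind (Live S π R D ∧ vw S π R l.1 = none) := by
    intro a
    have h1 := IH (outb S b D) hlenD (πa a) (fun R => μ R * ind (C R)) s
      (fun R => mul_nonneg (hμ R) (ind_nonneg _)) (hTC a) (G' a) (hG' a)
    refine h1.trans (le_of_eq ?_)
    congr 1
    refine sum_congr rfl fun R _ => ?_
    rw [mul_assoc, ind_and]
    congr 1
    refine ind_congr ?_
    rw [hliveout a R, live_split (D := D) b]
    constructor
    · rintro ⟨⟨h1, h2⟩, h3⟩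
      exact ⟨⟨h2, h3⟩, h1⟩
    · rintro ⟨⟨h2, h3⟩, h1⟩
      exact ⟨⟨h1, h2⟩, h3⟩
  have step3 := transport hπ hμ (hT b hπ) hlD
  calc ∑ R, μ R * ind ((Live S π R D ∧ ¬ DT (s + 1) (rs S π R G)) ∧ vw S π R l.1 = none)
      ≤ ∑ R, μ R * ∑ a : Bool, ind (C R) * ind (Live S (πa a) R (outb S b D) ∧
        ¬ DT s (rs S (πa a) R (G' a))) :=
        sum_le_sum fun R _ => mul_le_mul_of_nonneg_left (step1 R) (hμ R)
    _ = ∑ a : Bool, ∑ R, μ R * ind (C R) * ind (Live S (πa a) R (outb S b D) ∧
        ¬ DT s (rs S (πa a) R (G' a))) := by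
        rw [sum_comm]
        refine sum_congr rfl fun R _ => ?_
        rw [mul_sum]
        exact sum_congr rfl fun a _ => by rw [mul_assoc]
    _ ≤ ∑ _a : Bool, (1 + 4 * p) ^ j * (1 / 2) ^ s *
          ∑ R, μ R * ind (Live S π R D ∧ vw S π R l.1 = none) := sum_le_sum fun a _ => step2 a
    _ = 2 * ((1 + 4 * p) ^ j * (1 / 2) ^ s *
          ∑ R, μ R * ind (Live S π R D ∧ vw S π R l.1 = none)) := by
        rw [sum_const, card_univ, Fintype.card_bool, nsmul_eq_mul]
        norm_num
    _ ≤ 2 * ((1 + 4 * p) ^ j * (1 / 2) ^ s *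
          (p * ∑ R, μ R * ind (Live S π R D ∧ vw S π R l.1 = some l.2))) := by
        refine mul_le_mul_of_nonneg_left (mul_le_mul_of_nonneg_left step3 ?_) (by norm_num)
        positivity
    _ = _ := by
        rw [pow_succ]
        ring

/-- on a list with the first literal fixed true -/
lemma part1 {S : Sys U B P Q} {π : B → Option Bool} {l : U × Bool} {D' : List (U × Bool)}
    {R : P} (h : vw S π R l.1 = some l.2) :
    (Live S π R (l :: D') ↔ Live S π R D') ∧ ∀ F : List (List (U × Bool)),
      rs S π R (evalD ((l :: D') :: F)) = rs S π R (evalD (D' :: F)) := by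
  constructor
  · constructor
    · exact live_mono fun k hk => List.mem_cons_of_mem _ hk
    · intro hL
      refine ⟨fun k hk => ?_, fun k hk k' hk' hv hv' hb => ?_⟩
      · rcases List.mem_cons.mp hk with rfl | hk
        · rw [h]
          cases k.2 <;> simp
        · exact hL.1 k hk
      · rcases List.mem_cons.mp hk with rfl | hk
        · rw [h] at hv
          exact absurd hv (Option.some_ne_none _)
        · rcases List.mem_cons.mp hk' with rfl | hk'
          · rw [h] at hv'
            exact absurd hv' (Option.some_ne_none _)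
          · exact hL.2 k hk k' hk' hv hv' hb
  · intro F
    funext Z
    unfold rs
    refine evalD_congr ⟨fun h' k hk => h' k (List.mem_cons_of_mem _ hk), fun h' k hk => ?_⟩
    rcases List.mem_cons.mp hk with rfl | hk
    · show (vw S π R k.1).getD _ = k.2
      rw [h]
      rfl
    · exact h' k hk

/-- splitting the live event according to the first literal -/
lemma split_first {S : Sys U B P Q} {π : B → Option Bool} {l : U × Bool} {D' : List (U × Bool)}
    {μ : P → ℝ} (hμ : ∀ R, 0 ≤ μ R) (X : P → Prop) :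
    ∑ R, μ R * ind (Live S π R (l :: D') ∧ X R) ≤
      ∑ R, μ R * ind (vw S π R l.1 = some l.2) * ind (Live S π R D' ∧ X R) +
        ∑ R, μ R * ind ((Live S π R (l :: D') ∧ X R) ∧ vw S π R l.1 = none) := by
  rw [← sum_add_distrib]
  refine sum_le_sum fun R _ => ?_
  rw [mul_assoc, ← mul_add]
  refine mul_le_mul_of_nonneg_left ?_ (hμ R)
  by_cases hE : Live S π R (l :: D') ∧ X R
  · rw [ind_pos hE]
    cases hv : vw S π R l.1 with
    | none =>
      have h1 : ind ((Live S π R (l :: D') ∧ X R) ∧ (none : Option Bool) = none) = 1 :=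
        ind_pos ⟨hE, rfl⟩
      rw [h1]
      have := mul_nonneg (ind_nonneg ((none : Option Bool) = some l.2))
        (ind_nonneg (Live S π R D' ∧ X R))
      linarith
    | some c =>
      have h1 := hE.1.1 l List.mem_cons_self
      rw [hv] at h1
      have h2 := bool_of_ne h1
      have h3 : ind (some c = some l.2) * ind (Live S π R D' ∧ X R) = 1 := by
        rw [ind_pos (by rw [h2]), ind_pos, mul_one]
        exact ⟨live_mono (fun k hk => List.mem_cons_of_mem _ hk) hE.1, hE.2⟩
      rw [h3]
      have := ind_nonneg ((Live S π R (l :: D') ∧ X R) ∧ some c = none)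
      linarith
  · rw [ind_neg hE]
    exact add_nonneg (mul_nonneg (ind_nonneg _) (ind_nonneg _)) (ind_nonneg _)

lemma weight_true {S : Sys U B P Q} {π : B → Option Bool} {l : U × Bool} {D' : List (U × Bool)}
    {μ : P → ℝ} :
    ∑ R, μ R * ind (vw S π R l.1 = some l.2) * ind (Live S π R D') =
      ∑ R, μ R * ind (Live S π R (l :: D') ∧ vw S π R l.1 = some l.2) := by
  refine sum_congr rfl fun R _ => ?_
  rw [mul_assoc, ind_and]
  congr 1
  refine ind_congr ⟨fun h => ⟨(part1 h.1).1.mpr h.2, h.1⟩, fun h => ⟨h.2, (part1 h.2).1.mp h.1⟩⟩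

lemma live_le {S : Sys U B P Q} {π : B → Option Bool} {D : List (U × Bool)} {μ : P → ℝ}
    (hμ : ∀ R, 0 ≤ μ R) (X : P → Prop) :
    ∑ R, μ R * ind (Live S π R D ∧ X R) ≤ ∑ R, μ R * ind (Live S π R D) :=
  sum_le_sum fun R _ => mul_le_mul_of_nonneg_left (ind_mono fun h => h.1) (hμ R)

lemma nil_zero {S : Sys U B P Q} {π : B → Option Bool} {μ : P → ℝ} {F : List (List (U × Bool))}
    (t : ℕ) : ∑ R, μ R * ind (Live S π R [] ∧ ¬ DT (t + 1) (rs S π R (evalD ([] :: F)))) = 0 := by
  refine sum_eq_zero fun R _ => ?_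
  rw [ind_neg, mul_zero]
  rintro ⟨_, h⟩
  refine h (DT_const t true fun Z => ?_)
  unfold rs evalD
  rw [decide_eq_true_eq]
  refine ⟨[], List.mem_cons_self, ?_⟩
  intro k hk
  simp at hk

theorem claim {S : Sys U B P Q} {p : ℝ} (hp : 0 ≤ p) {F : List (List (U × Bool))}
    (hF : Bd S p (evalD F)) : ∀ j, Claim S p F j := by
  intro j
  induction j with
  | zero =>
    intro D hD π μ t hμ hT G hG
    have hD0 : D = [] := List.length_eq_zero_iff.mp (Nat.le_zero.mp hD)
    subst hD0
    rw [pow_zero, one_mul]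
    have hall : ∑ R, μ R * ind (Live S π R []) = ∑ R, μ R :=
      sum_congr rfl fun R _ => by rw [ind_pos (live_nil S π R), mul_one]
    rw [hall]
    rcases hG with rfl | rfl
    · refine le_trans (sum_le_sum fun R _ => ?_) (hF π μ t hμ hT)
      exact mul_le_mul_of_nonneg_left (ind_mono fun h => h.2) (hμ R)
    · cases t with
      | zero =>
        rw [pow_zero, one_mul, ← hall]
        exact live_le hμ _
      | succ t =>
        rw [nil_zero]
        exact mul_nonneg (by positivity) (sum_nonneg fun R _ => hμ R)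
  | succ j IH =>
    intro D hD π μ t hμ hT G hG
    have hp1 : (1 : ℝ) ≤ 1 + 4 * p := by linarith
    have hmono : (1 + 4 * p) ^ j ≤ (1 + 4 * p) ^ (j + 1) := pow_le_pow_right₀ hp1 (Nat.le_succ j)
    have hS0 : 0 ≤ ∑ R, μ R * ind (Live S π R D) :=
      sum_nonneg fun R _ => mul_nonneg (hμ R) (ind_nonneg _)
    cases D with
    | nil =>
      refine (IH [] (Nat.zero_le _) π μ t hμ hT G hG).trans ?_
      exact mul_le_mul_of_nonneg_right (mul_le_mul_of_nonneg_right hmono (by positivity)) hS0
    | cons l D' =>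
      cases t with
      | zero =>
        rw [pow_zero, mul_one]
        have h1 := live_le (S := S) (π := π) (D := l :: D') hμ (fun R => ¬ DT 0 (rs S π R G))
        refine h1.trans ?_
        exact le_mul_of_one_le_left hS0 (one_le_pow₀ hp1)
      | succ s =>
        have hlen : D'.length ≤ j := by
          rw [List.length_cons] at hD
          omega
        have h1 := split_first (S := S) (π := π) (l := l) (D' := D') hμ
          (fun R => ¬ DT (s + 1) (rs S π R G))
        have h2 := part2 hp IH l hlen π μ s hμ hT G hG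
        have hTt : ∀ b, π b = none →
            TI S p (fun R => μ R * ind (vw S π R l.1 = some l.2)) b :=
          fun b hb => TI_res hμ (hT b hb) (cl_true hb l)
        have h3 : ∑ R, μ R * ind (vw S π R l.1 = some l.2) *
            ind (Live S π R D' ∧ ¬ DT (s + 1) (rs S π R G)) ≤
            (1 + 4 * p) ^ j * (1 / 2) ^ (s + 1) *
              ∑ R, μ R * ind (vw S π R l.1 = some l.2) * ind (Live S π R D') := by
          have hμ' : ∀ R, 0 ≤ μ R * ind (vw S π R l.1 = some l.2) :=
            fun R => mul_nonneg (hμ R) (ind_nonneg _)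
          rcases hG with hG | hG
          · exact IH D' hlen π _ (s + 1) hμ' hTt G (Or.inl hG)
          · have h4 := IH D' hlen π _ (s + 1) hμ' hTt (evalD (D' :: F)) (Or.inr rfl)
            refine le_trans (le_of_eq ?_) h4
            refine sum_congr rfl fun R _ => ?_
            by_cases hv : vw S π R l.1 = some l.2
            · rw [hG, (part1 hv).2 F]
            · rw [ind_neg hv, mul_zero, zero_mul, zero_mul]
        rw [weight_true] at h3
        have h5 := live_le (S := S) (π := π) (D := l :: D') hμ (fun R => vw S π R l.1 = some l.2)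
        have h6 : 0 ≤ (1 + 4 * p) ^ (j + 1) * (1 / 2) ^ (s + 1) := by positivity
        calc ∑ R, μ R * ind (Live S π R (l :: D') ∧ ¬ DT (s + 1) (rs S π R G))
            ≤ _ := h1
          _ ≤ (1 + 4 * p) ^ j * (1 / 2) ^ (s + 1) *
                (∑ R, μ R * ind (Live S π R (l :: D') ∧ vw S π R l.1 = some l.2)) +
              4 * p * (1 + 4 * p) ^ j * (1 / 2) ^ (s + 1) *
                ∑ R, μ R * ind (Live S π R (l :: D') ∧ vw S π R l.1 = some l.2) :=
              add_le_add h3 h2
          _ = (1 + 4 * p) ^ (j + 1) * (1 / 2) ^ (s + 1) *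
                ∑ R, μ R * ind (Live S π R (l :: D') ∧ vw S π R l.1 = some l.2) := by
              rw [pow_succ (1 + 4 * p) j]
              ring
          _ ≤ _ := mul_le_mul_of_nonneg_left h5 h6

/-- the sharper claim for the function with the term itself -/
theorem claim' {S : Sys U B P Q} {p : ℝ} (hp : 0 ≤ p) {F : List (List (U × Bool))}
    (hF : Bd S p (evalD F)) : ∀ j (D : List (U × Bool)), D.length ≤ j →
    ∀ (π : B → Option Bool) (μ : P → ℝ) (s : ℕ), (∀ R, 0 ≤ μ R) →
      (∀ b, π b = none → TI S p μ b) →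
        ∑ R, μ R * ind (Live S π R D ∧ ¬ DT (s + 1) (rs S π R (evalD (D :: F)))) ≤
          ((1 + 4 * p) ^ j - 1) * (1 / 2) ^ (s + 1) * ∑ R, μ R * ind (Live S π R D) := by
  have hp1 : (1 : ℝ) ≤ 1 + 4 * p := by linarith
  intro j
  induction j with
  | zero =>
    intro D hD π μ s hμ hT
    have hD0 : D = [] := List.length_eq_zero_iff.mp (Nat.le_zero.mp hD)
    subst hD0
    rw [nil_zero, pow_zero, sub_self, zero_mul, zero_mul]
  | succ j IH =>
    intro D hD π μ s hμ hT
    have hS0 : 0 ≤ ∑ R, μ R * ind (Live S π R D) :=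
      sum_nonneg fun R _ => mul_nonneg (hμ R) (ind_nonneg _)
    have hc : 0 ≤ (1 + 4 * p) ^ (j + 1) - 1 := sub_nonneg.mpr (one_le_pow₀ hp1)
    cases D with
    | nil =>
      rw [nil_zero]
      exact mul_nonneg (mul_nonneg hc (by positivity)) hS0
    | cons l D' =>
      have hlen : D'.length ≤ j := by
        rw [List.length_cons] at hD
        omega
      have h1 := split_first (S := S) (π := π) (l := l) (D' := D') hμ
        (fun R => ¬ DT (s + 1) (rs S π R (evalD ((l :: D') :: F))))
      have h2 := part2 hp (claim hp hF j) l hlen π μ s hμ hT _ (Or.inr rfl)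
      have hTt : ∀ b, π b = none →
          TI S p (fun R => μ R * ind (vw S π R l.1 = some l.2)) b :=
        fun b hb => TI_res hμ (hT b hb) (cl_true hb l)
      have h3 : ∑ R, μ R * ind (vw S π R l.1 = some l.2) *
          ind (Live S π R D' ∧ ¬ DT (s + 1) (rs S π R (evalD ((l :: D') :: F)))) ≤
          ((1 + 4 * p) ^ j - 1) * (1 / 2) ^ (s + 1) *
            ∑ R, μ R * ind (vw S π R l.1 = some l.2) * ind (Live S π R D') := by
        have hμ' : ∀ R, 0 ≤ μ R * ind (vw S π R l.1 = some l.2) :=
          fun R => mul_nonneg (hμ R) (ind_nonneg _)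
        have h4 := IH D' hlen π _ s hμ' hTt
        refine le_trans (le_of_eq ?_) h4
        refine sum_congr rfl fun R _ => ?_
        by_cases hv : vw S π R l.1 = some l.2
        · rw [(part1 hv).2 F]
        · rw [ind_neg hv, mul_zero, zero_mul, zero_mul]
      rw [weight_true] at h3
      have h5 := live_le (S := S) (π := π) (D := l :: D') hμ (fun R => vw S π R l.1 = some l.2)
      have h6 : 0 ≤ ((1 + 4 * p) ^ (j + 1) - 1) * (1 / 2) ^ (s + 1) :=
        mul_nonneg hc (by positivity)
      calc ∑ R, μ R * ind (Live S π R (l :: D') ∧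
              ¬ DT (s + 1) (rs S π R (evalD ((l :: D') :: F))))
          ≤ _ := h1
        _ ≤ ((1 + 4 * p) ^ j - 1) * (1 / 2) ^ (s + 1) *
              (∑ R, μ R * ind (Live S π R (l :: D') ∧ vw S π R l.1 = some l.2)) +
            4 * p * (1 + 4 * p) ^ j * (1 / 2) ^ (s + 1) *
              ∑ R, μ R * ind (Live S π R (l :: D') ∧ vw S π R l.1 = some l.2) :=
            add_le_add h3 h2
        _ = ((1 + 4 * p) ^ (j + 1) - 1) * (1 / 2) ^ (s + 1) *
              ∑ R, μ R * ind (Live S π R (l :: D') ∧ vw S π R l.1 = some l.2) := by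
            rw [pow_succ (1 + 4 * p) j]
            ring
        _ ≤ _ := mul_le_mul_of_nonneg_left h5 h6

/-- a term which is not live is never satisfied -/
lemma not_live {S : Sys U B P Q} {π : B → Option Bool} {R : P} {D : List (U × Bool)}
    (h : ¬ Live S π R D) (F : List (List (U × Bool))) :
    rs S π R (evalD (D :: F)) = rs S π R (evalD F) := by
  funext Z
  unfold rs
  refine evalD_drop fun hE => h ⟨fun l hl hv => ?_, fun l hl l' hl' hv hv' hb => ?_⟩
  · have h1 : (vw S π R l.1).getD (Z (S.bl l.1)) = l.2 := hE l hl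
    rw [hv] at h1
    have h2 : (!l.2) = l.2 := h1
    cases h3 : l.2 <;> rw [h3] at h2 <;> exact absurd h2 (by decide)
  · have h1 : (vw S π R l.1).getD (Z (S.bl l.1)) = l.2 := hE l hl
    have h2 : (vw S π R l'.1).getD (Z (S.bl l'.1)) = l'.2 := hE l' hl'
    rw [hv, Option.getD_none] at h1
    rw [hv', Option.getD_none] at h2
    rw [← h1, ← h2, hb]

lemma pow_two {p : ℝ} (hp : 0 ≤ p) {w : ℕ} (hw : 8 * w * p ≤ 1) : (1 + 4 * p) ^ w ≤ 2 := by
  have h1 : (1 + 4 * p) ^ w ≤ Real.exp (4 * p) ^ w :=
    pow_le_pow_left₀ (by linarith) (by linarith [Real.add_one_le_exp (4 * p)]) w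
  have h2 : Real.exp (4 * p) ^ w = Real.exp (w * (4 * p)) := by rw [← Real.exp_nat_mul]
  have h3 : (w : ℝ) * (4 * p) ≤ 1 / 2 := by linarith
  have h4 : Real.exp (w * (4 * p)) ≤ Real.exp (1 / 2) := Real.exp_le_exp.mpr h3
  have h5 : Real.exp (1 / 2) ≤ 2 := by
    have h6 := Real.exp_one_lt_d9
    have h7 : Real.exp (1 / 2) ^ 2 = Real.exp 1 := by
      rw [← Real.exp_nat_mul]
      norm_num
    have h8 := Real.exp_pos (1 / 2)
    nlinarith
  rw [h2] at h1
  linarith

theorem main {S : Sys U B P Q} {p : ℝ} (hp : 0 ≤ p) {w : ℕ} (hw : 8 * w * p ≤ 1) :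
    ∀ F : List (List (U × Bool)), (∀ T ∈ F, T.length ≤ w) → Bd S p (evalD F) := by
  intro F
  induction F with
  | nil =>
    intro _ π μ t hμ hT
    cases t with
    | zero =>
      rw [pow_zero, one_mul]
      refine sum_le_sum fun R _ => ?_
      have := ind_mono (p := ¬ DT 0 (rs S π R (evalD []))) (q := True) (fun _ => trivial)
      rw [ind_pos trivial] at this
      exact mul_le_of_le_one_right (hμ R) this
    | succ t =>
      have h0 : ∑ R, μ R * ind (¬ DT (t + 1) (rs S π R (evalD []))) = 0 := by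
        refine sum_eq_zero fun R _ => ?_
        rw [ind_neg, mul_zero]
        intro h
        refine h (DT_const t false fun Z => ?_)
        unfold rs evalD
        simp
      rw [h0]
      exact mul_nonneg (by positivity) (sum_nonneg fun R _ => hμ R)
  | cons C F IH =>
    intro hF π μ t hμ hT
    have hF' : Bd S p (evalD F) := IH fun T hT => hF T (List.mem_cons_of_mem _ hT)
    cases t with
    | zero =>
      rw [pow_zero, one_mul]
      refine sum_le_sum fun R _ => ?_
      have := ind_mono (p := ¬ DT 0 (rs S π R (evalD (C :: F)))) (q := True) (fun _ => trivial)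
      rw [ind_pos trivial] at this
      exact mul_le_of_le_one_right (hμ R) this
    | succ s =>
      have h1 := claim' hp hF' w C (hF C List.mem_cons_self) π μ s hμ hT
      have h2 := hF' π (fun R => μ R * ind (¬ Live S π R C)) (s + 1)
        (fun R => mul_nonneg (hμ R) (ind_nonneg _))
        (fun b hb => TI_res hμ (hT b hb) (cl_notlive hb C))
      have h3 : ∑ R, μ R * ind (¬ DT (s + 1) (rs S π R (evalD (C :: F)))) =
          ∑ R, μ R * ind (Live S π R C ∧ ¬ DT (s + 1) (rs S π R (evalD (C :: F)))) +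
            ∑ R, μ R * ind (¬ Live S π R C) * ind (¬ DT (s + 1) (rs S π R (evalD F))) := by
        rw [← sum_add_distrib]
        refine sum_congr rfl fun R _ => ?_
        by_cases hL : Live S π R C
        · rw [ind_neg (p := ¬ Live S π R C) (fun h => h hL), mul_zero, zero_mul, add_zero]
          congr 1
          exact ind_congr ⟨fun h => ⟨hL, h⟩, fun h => h.2⟩
        · rw [ind_pos hL, mul_one,
            ind_neg (p := Live S π R C ∧ ¬ DT (s + 1) (rs S π R (evalD (C :: F))))
              (fun h => hL h.1), mul_zero, zero_add, not_live hL F]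
      have h4 : ((1 + 4 * p) ^ w - 1) * (1 / 2) ^ (s + 1) * ∑ R, μ R * ind (Live S π R C) ≤
          (1 / 2) ^ (s + 1) * ∑ R, μ R * ind (Live S π R C) := by
        refine mul_le_mul_of_nonneg_right ?_
          (sum_nonneg fun R _ => mul_nonneg (hμ R) (ind_nonneg _))
        refine mul_le_of_le_one_left (by positivity) ?_
        linarith [pow_two hp hw]
      have h5 : ∑ R, μ R = ∑ R, μ R * ind (Live S π R C) + ∑ R, μ R * ind (¬ Live S π R C) := by
        rw [← sum_add_distrib]
        refine sum_congr rfl fun R _ => ?_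
        by_cases hL : Live S π R C
        · rw [ind_pos hL, ind_neg (fun h => h hL)]
          ring
        · rw [ind_neg hL, ind_pos hL]
          ring
      rw [h3, h5, mul_add]
      exact add_le_add (h1.trans h4) h2

end SwAux

theorem switching {U B P Q : Type} [Fintype P] (S : Sys U B P Q) (p : ℝ) (hp : 0 ≤ p) (w : ℕ)
    (hw : 8 * w * p ≤ 1) (F : List (List (U × Bool))) (hF : ∀ T ∈ F, T.length ≤ w)
    (π : B → Option Bool) (μ : P → ℝ) (hμ : ∀ R, 0 ≤ μ R)
    (hT : ∀ b, π b = none → TI S p μ b) (t : ℕ) :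
    ∑ R, μ R * ind (¬ DT t (rs S π R (evalD F))) ≤ (1 / 2) ^ t * ∑ R, μ R := by
  exact SwAux.main hp hw F hF π μ t hμ hT

end Pool.Agent.P325ac
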