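import Mathlib
import Pool.Agent.Lib.P325ac.Defs
import Pool.Agent.Lib.P325ac.PE
import Pool.Agent.Lib.P325ac.DTb
import Pool.Agent.Lib.P325ac.DTl
import Pool.Agent.Lib.P325ac.Sw

/-!
# P325ac.SysB (1.2 h): Bernoulli restrictions and the average sensitivity

`bern`: the system `U = B = E`, `P = E → Option Bool`, `Q = Option Bool`, `bl = id`, `view R u = R u`, `co b R = R b`,
`T u a R R' = ind (R u = none ∧ R' = upd R u (some a))`. `TI` with `p = p0 / ((1 - p0) * β)` for
`μ R = ∏ e, wb p0 ν e (R e)`: the sum has at most one term, `R = upd R' u none` (if `R' u = some a`), and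
`μ (upd R' u none) * wb u (some a) = μ R' * wb u none`, `wb u none = p0 ≤ p * ((1 - p0) * ν u a)`. Then `switching` with
`π = fun _ => none`: `rs S π R F = fun Z => F (fun u => (R u).getD (Z u))`.
`sens_dt`: by induction on `t` for all `g`: constant: `0`. Root `v`: the term `e = v` is at most `1`. For `e ≠ v` use `pe_resample` at
`v`: `upd (upd c v a) e x = upd (upd c e x) v a`, so the term is `∑ a, ν v a * pe ν (fun c => ind (g_a (upd c e false) ≠ g_a (upd c e true)))`
with `g_a c = g (upd c v a)`, which is `DT t`; the induction hypothesis bounds the sum over all `e` by `t - 1`.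
`sens_restrict`: for each `e`: `pe_resample` of the restriction at `e`: if `R e = some _` the restricted function does not depend
on `e` and the indicator is `0`; if `R e = none` (weight `p0`): `pe_map` (the pair `(R, c)` is mapped to
`u ↦ (R u).getD (c u)`, whose law is `ν`: `∑ s, wb s ∑ a, ν a ind (s.getD a = x) = (1 - p0) ν x + p0 ν x`), used for the
function `c ↦ ind (g (upd c e false) ≠ g (upd c e true))`, which ignores the coordinate `e`.
-/

open Finset
open scoped BigOperators Classical

namespace Pool.Agent.P325ac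

/-- The weights of the Bernoulli restriction. -/
noncomputable def wb {E : Type} (p0 : ℝ) (ν : E → Bool → ℝ) (e : E) (s : Option Bool) : ℝ :=
  match s with
  | none => p0
  | some a => (1 - p0) * ν e a

theorem wb_prob {E : Type} {p0 : ℝ} (h0 : 0 ≤ p0) (h1 : p0 ≤ 1) {ν : E → Bool → ℝ}
    (hν : ∀ e, IsProb (ν e)) (e : E) : IsProb (wb p0 ν e) := by
  constructor
  · rintro (_ | a)
    · exact h0
    · exact mul_nonneg (by linarith) ((hν e).1 a)
  · rw [Fintype.sum_option]
    show p0 + ∑ a, (1 - p0) * ν e a = 1
    rw [← Finset.mul_sum, (hν e).2]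
    ring

namespace SysBAux

theorem ind_nonneg (p : Prop) : 0 ≤ ind p := by
  unfold ind
  split_ifs <;> norm_num

theorem ind_le_one (p : Prop) : ind p ≤ 1 := by
  unfold ind
  split_ifs <;> norm_num

theorem ind_true {p : Prop} (h : p) : ind p = 1 := if_pos h

theorem ind_false {p : Prop} (h : ¬ p) : ind p = 0 := if_neg h

theorem of_ind {p : Prop} (h : ind p ≠ 0) : p := by
  by_contra hp
  exact h (if_neg hp)

theorem upd_self {I S : Type} (Y : I → S) (i : I) (a : S) : upd Y i a i = a := if_pos rfl

theorem upd_ne {I S : Type} (Y : I → S) {i j : I} (a : S) (h : j ≠ i) : upd Y i a j = Y j := if_neg h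

theorem upd_comm {I S : Type} (Y : I → S) {i j : I} (a b : S) (h : i ≠ j) :
    upd (upd Y i a) j b = upd (upd Y j b) i a := by
  funext k
  by_cases h1 : k = i
  · subst h1
    rw [upd_ne _ _ h, upd_self, upd_self]
  · by_cases h2 : k = j
    · subst h2
      rw [upd_self, upd_ne _ _ h1, upd_self]
    · rw [upd_ne _ _ h2, upd_ne _ _ h1, upd_ne _ _ h1, upd_ne _ _ h2]

/-- the system of the Bernoulli restrictions -/
noncomputable def bsys (E : Type) [Fintype E] : Sys E E (E → Option Bool) (Option Bool) where
  bl := fun u => u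
  view := fun R u => R u
  co := fun b R => R b
  T := fun u a R R' => ind (R u = none ∧ R' = upd R u (some a))
  T_nonneg := fun _ _ _ _ => ind_nonneg _
  co_view := fun _ _ _ h => h
  T_co := by
    intro u a R R' h b hb
    obtain ⟨_, h2⟩ := of_ind h
    rw [h2]
    exact upd_ne _ _ hb
  T_view := by
    intro u a R R' h u' hu'
    obtain ⟨h1, h2⟩ := of_ind h
    have hu : u' = u := hu'
    subst hu
    rw [h2, h1, upd_self]
    rfl
  T_sum := by
    intro u a R h
    have h1 : ind (R u = none ∧ upd R u (some a) = upd R u (some a)) = 1 := ind_true ⟨h, rfl⟩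
    rw [← h1]
    exact Finset.single_le_sum
      (f := fun R' : E → Option Bool => ind (R u = none ∧ R' = upd R u (some a)))
      (fun R' _ => ind_nonneg _) (Finset.mem_univ (upd R u (some a)))

theorem ti {E : Type} [Fintype E] {p0 β : ℝ} (h0 : 0 < p0) (h1 : p0 < 1) (hβ : 0 < β)
    {ν : E → Bool → ℝ} (hν : ∀ e, IsProb (ν e)) (hνβ : ∀ e a, β ≤ ν e a) (b : E) :
    TI (bsys E) (p0 / ((1 - p0) * β)) (fun R => ∏ e, wb p0 ν e (R e)) b := by
  intro u _ a R'
  have hwb : ∀ (R : E → Option Bool), 0 ≤ ∏ e, wb p0 ν e (R e) := fun R =>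
    Finset.prod_nonneg fun e _ => (wb_prob h0.le h1.le hν e).1 _
  have hp1 : 0 < 1 - p0 := by linarith
  have hp : 0 ≤ p0 / ((1 - p0) * β) := by positivity
  show ∑ R, (∏ e, wb p0 ν e (R e)) * ind (R u = none ∧ R' = upd R u (some a)) ≤
    p0 / ((1 - p0) * β) * ∏ e, wb p0 ν e (R' e)
  by_cases hR : R' u = some a
  · have hz : ∀ R : E → Option Bool, R ≠ upd R' u none →
        (∏ e, wb p0 ν e (R e)) * ind (R u = none ∧ R' = upd R u (some a)) = 0 := by
      intro R hne
      rw [ind_false, mul_zero]
      rintro ⟨h2, h3⟩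
      apply hne
      funext j
      by_cases hj : j = u
      · subst hj
        rw [upd_self, h2]
      · rw [upd_ne _ _ hj, h3, upd_ne _ _ hj]
    rw [Finset.sum_eq_single (upd R' u none) (fun R _ hne => hz R hne)
      (fun h => absurd (Finset.mem_univ _) h)]
    have h4 : (∏ e, wb p0 ν e (upd R' u none e)) * ind (upd R' u none u = none ∧
        R' = upd (upd R' u none) u (some a)) ≤ ∏ e, wb p0 ν e (upd R' u none e) :=
      mul_le_of_le_one_right (hwb _) (ind_le_one _)
    refine h4.trans ?_
    rw [← Finset.mul_prod_erase _ _ (Finset.mem_univ u),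
      ← Finset.mul_prod_erase _ (fun e => wb p0 ν e (R' e)) (Finset.mem_univ u)]
    have h5 : ∏ e ∈ univ.erase u, wb p0 ν e (upd R' u none e) =
        ∏ e ∈ univ.erase u, wb p0 ν e (R' e) := by
      refine Finset.prod_congr rfl fun e he => ?_
      rw [upd_ne _ _ (Finset.ne_of_mem_erase he)]
    rw [h5, upd_self, hR, ← mul_assoc]
    apply mul_le_mul_of_nonneg_right _
      (Finset.prod_nonneg fun e _ => (wb_prob h0.le h1.le hν e).1 _)
    show p0 ≤ p0 / ((1 - p0) * β) * ((1 - p0) * ν u a)
    have h6 : p0 / ((1 - p0) * β) * ((1 - p0) * β) = p0 := div_mul_cancel₀ _ (by positivity)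
    calc p0 = p0 / ((1 - p0) * β) * ((1 - p0) * β) := h6.symm
      _ ≤ _ := by
        have h7 := hνβ u a
        gcongr
  · have hz : ∀ R : E → Option Bool,
        (∏ e, wb p0 ν e (R e)) * ind (R u = none ∧ R' = upd R u (some a)) = 0 := by
      intro R
      rw [ind_false, mul_zero]
      rintro ⟨_, h3⟩
      exact hR (by rw [h3, upd_self])
    rw [Finset.sum_eq_zero fun R _ => hz R]
    exact mul_nonneg hp (hwb _)

end SysBAux

open SysBAux

theorem bern {E : Type} [Fintype E] {p0 β : ℝ} (h0 : 0 < p0) (h1 : p0 < 1) (hβ : 0 < β)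
    {ν : E → Bool → ℝ} (hν : ∀ e, IsProb (ν e)) (hνβ : ∀ e a, β ≤ ν e a) (w : ℕ)
    (hw : 8 * w * (p0 / ((1 - p0) * β)) ≤ 1) (F : List (List (E × Bool)))
    (hF : ∀ T ∈ F, T.length ≤ w) (t : ℕ) :
    pe (wb p0 ν) (fun R => ind (¬ DT t (fun Z => evalD F (fun u => (R u).getD (Z u)))))
      ≤ (1 / 2) ^ t := by
  have hp1 : 0 < 1 - p0 := by linarith
  have h := switching (bsys E) (p0 / ((1 - p0) * β)) (by positivity) w hw F hF (fun _ => none)
    (fun R => ∏ e, wb p0 ν e (R e))
    (fun R => Finset.prod_nonneg fun e _ => (wb_prob h0.le h1.le hν e).1 _)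
    (fun b _ => ti h0 h1 hβ hν hνβ b) t
  have h2 : ∑ R : E → Option Bool, ∏ e, wb p0 ν e (R e) = 1 :=
    PEAux.sum_W fun e => (wb_prob h0.le h1.le hν e).2
  rw [h2, mul_one] at h
  refine le_trans (le_of_eq ?_) h
  unfold pe
  refine Finset.sum_congr rfl fun R _ => ?_
  have h3 : rs (bsys E) (fun _ => none) R (evalD F) =
      fun Z => evalD F (fun u => (R u).getD (Z u)) := by
    funext Z
    show evalD F (fun u => (vw (bsys E) (fun _ => none) R u).getD (Z u)) = _
    congr 1
    funext u
    have h4 : vw (bsys E) (fun _ => none) R u = R u := by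
      show (match R u with | some c => some c | none => none) = R u
      cases R u <;> rfl
    rw [h4]
  rw [h3]

/-- The total influence for the product weights `ν`. -/
noncomputable def tot {E : Type} [Fintype E] (ν : E → Bool → ℝ) (g : (E → Bool) → Bool) : ℝ :=
  ∑ e, pe ν (fun c => ind (g (upd c e false) ≠ g (upd c e true)))

theorem tot_nonneg {E : Type} [Fintype E] {ν : E → Bool → ℝ} (hν : ∀ e, IsProb (ν e))
    (g : (E → Bool) → Bool) : 0 ≤ tot ν g :=
  Finset.sum_nonneg fun e _ => pe_nonneg (fun i s => (hν i).1 s) fun c => ind_nonneg _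

namespace SysBAux

theorem term_le_one {E : Type} [Fintype E] {ν : E → Bool → ℝ} (hν : ∀ e, IsProb (ν e))
    (p : (E → Bool) → Prop) : pe ν (fun c => ind (p c)) ≤ 1 := by
  have h := pe_le (W := ν) (fun i s => (hν i).1 s) (K := fun c => ind (p c)) (K' := fun _ => 1)
    (fun c => ind_le_one _)
  rwa [pe_const fun i => (hν i).2] at h

theorem tot_const {E : Type} [Fintype E] {ν : E → Bool → ℝ} (hν : ∀ e, IsProb (ν e))
    {g : (E → Bool) → Bool} {x : Bool} (hx : ∀ Y, g Y = x) : tot ν g = 0 := by
  unfold tot
  refine Finset.sum_eq_zero fun e _ => ?_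
  have h : (fun c : E → Bool => ind (g (upd c e false) ≠ g (upd c e true))) = fun _ => 0 := by
    funext c
    rw [hx, hx]
    exact ind_false fun h => h rfl
  rw [h, pe_const fun i => (hν i).2]

end SysBAux

theorem tot_le_card {E : Type} [Fintype E] {ν : E → Bool → ℝ} (hν : ∀ e, IsProb (ν e))
    (g : (E → Bool) → Bool) : tot ν g ≤ Fintype.card E := by
  have h : tot ν g ≤ ∑ _e : E, (1 : ℝ) := Finset.sum_le_sum fun e _ => term_le_one hν _
  simpa using h

theorem sens_dt {E : Type} [Fintype E] {ν : E → Bool → ℝ} (hν : ∀ e, IsProb (ν e)) {t : ℕ}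
    {g : (E → Bool) → Bool} (hg : DT (t + 1) g) : tot ν g ≤ t := by
  induction t generalizing g with
  | zero =>
    rcases hg with ⟨x, hx⟩ | ⟨v, hv⟩
    · rw [tot_const hν hx]
      simp
    · exact (hv true).elim
  | succ t ih =>
    rcases hg with ⟨x, hx⟩ | ⟨v, hv⟩
    · rw [tot_const hν hx]
      positivity
    · have key : ∀ e, pe ν (fun c => ind (g (upd c e false) ≠ g (upd c e true))) ≤
          (if e = v then (1 : ℝ) else 0) + ∑ a, ν v a * pe ν (fun c =>
            ind (g (upd (upd c e false) v a) ≠ g (upd (upd c e true) v a))) := by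
        intro e
        have hnn : 0 ≤ ∑ a, ν v a * pe ν (fun c =>
            ind (g (upd (upd c e false) v a) ≠ g (upd (upd c e true) v a))) :=
          Finset.sum_nonneg fun a _ => mul_nonneg ((hν v).1 a)
            (pe_nonneg (fun i s => (hν i).1 s) fun c => ind_nonneg _)
        by_cases he : e = v
        · rw [if_pos he]
          have h1 := term_le_one hν (fun c => g (upd c e false) ≠ g (upd c e true))
          linarith
        · rw [if_neg he, zero_add]
          apply le_of_eq
          rw [pe_resample (fun i => (hν i).2) v, pe_fsum]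
          refine Finset.sum_congr rfl fun a _ => ?_
          rw [pe_mul]
          congr 2
          funext c
          rw [upd_comm c a false (Ne.symm he), upd_comm c a true (Ne.symm he)]
      have hsum : tot ν g ≤ 1 + ∑ a, ν v a * tot ν (fun Y => g (upd Y v a)) := by
        have h1 : tot ν g ≤ ∑ e, ((if e = v then (1 : ℝ) else 0) + ∑ a, ν v a * pe ν (fun c =>
            ind (g (upd (upd c e false) v a) ≠ g (upd (upd c e true) v a)))) :=
          Finset.sum_le_sum fun e _ => key e
        refine h1.trans (le_of_eq ?_)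
        rw [Finset.sum_add_distrib, Finset.sum_ite_eq' univ v (fun _ => (1 : ℝ)),
          if_pos (Finset.mem_univ v), Finset.sum_comm]
        congr 1
        refine Finset.sum_congr rfl fun a _ => ?_
        rw [← Finset.mul_sum]
        rfl
      have h2 : ∑ a, ν v a * tot ν (fun Y => g (upd Y v a)) ≤ ∑ a, ν v a * (t : ℝ) :=
        Finset.sum_le_sum fun a _ => mul_le_mul_of_nonneg_left (ih (hv a)) ((hν v).1 a)
      rw [← Finset.sum_mul, (hν v).2, one_mul] at h2
      push_cast
      linarith

theorem sens_restrict {E : Type} [Fintype E] {p0 : ℝ} (h0 : 0 ≤ p0) (h1 : p0 ≤ 1)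
    {ν : E → Bool → ℝ} (hν : ∀ e, IsProb (ν e)) (g : (E → Bool) → Bool) :
    pe (wb p0 ν) (fun R => tot ν (fun Z => g (fun u => (R u).getD (Z u)))) = p0 * tot ν g := by
  unfold tot
  rw [pe_fsum, Finset.mul_sum]
  refine Finset.sum_congr rfl fun e _ => ?_
  have hwb : ∀ i, ∑ s, wb p0 ν i s = 1 := fun i => (wb_prob h0 h1 hν i).2
  rw [pe_resample hwb e]
  have hK : ∀ R : E → Option Bool, (∑ s, wb p0 ν e s * pe ν (fun c =>
      ind (g (fun u => (upd R e s u).getD (upd c e false u)) ≠
        g (fun u => (upd R e s u).getD (upd c e true u))))) =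
      p0 * pe ν (fun c => ind (g (upd (fun u => (R u).getD (c u)) e false) ≠
        g (upd (fun u => (R u).getD (c u)) e true))) := by
    intro R
    rw [Fintype.sum_option]
    have hs : ∀ a : Bool, pe ν (fun c =>
        ind (g (fun u => (upd R e (some a) u).getD (upd c e false u)) ≠
          g (fun u => (upd R e (some a) u).getD (upd c e true u)))) = 0 := by
      intro a
      have h2 : (fun c : E → Bool =>
          ind (g (fun u => (upd R e (some a) u).getD (upd c e false u)) ≠
            g (fun u => (upd R e (some a) u).getD (upd c e true u)))) = fun _ => 0 := by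
        funext c
        apply ind_false
        intro h3
        apply h3
        congr 1
        funext u
        by_cases hu : u = e
        · subst hu
          rw [upd_self]
          rfl
        · rw [upd_ne _ _ hu, upd_ne _ _ hu, upd_ne _ _ hu]
      rw [h2, pe_const fun i => (hν i).2]
    rw [Finset.sum_eq_zero fun a _ => by rw [hs a, mul_zero], add_zero]
    show p0 * _ = p0 * _
    congr 2
    funext c
    have h4 : ∀ x : Bool, (fun u => (upd R e none u).getD (upd c e x u)) =
        upd (fun u => (R u).getD (c u)) e x := by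
      intro x
      funext u
      by_cases hu : u = e
      · subst hu
        rw [upd_self, upd_self, upd_self]
        rfl
      · rw [upd_ne _ _ hu, upd_ne _ _ hu, upd_ne _ _ hu]
    rw [h4, h4]
  have h5 : (fun R : E → Option Bool => (∑ s, wb p0 ν e s * pe ν (fun c =>
      ind (g (fun u => (upd R e s u).getD (upd c e false u)) ≠
        g (fun u => (upd R e s u).getD (upd c e true u)))))) =
      fun R => p0 * pe ν (fun c => ind (g (upd (fun u => (R u).getD (c u)) e false) ≠
        g (upd (fun u => (R u).getD (c u)) e true))) := funext hK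
  rw [h5, pe_mul]
  congr 1
  refine pe_map (wb p0 ν) ν ν (fun _ s s' => s.getD s') ?_
    (fun m => ind (g (upd m e false) ≠ g (upd m e true)))
  intro i t
  rw [Fintype.sum_option]
  have h6 : ∑ s', wb p0 ν i none * ν i s' * ind ((none : Option Bool).getD s' = t) = p0 * ν i t := by
    rw [Finset.sum_eq_single t]
    · show p0 * ν i t * ind (t = t) = _
      rw [ind_true rfl, mul_one]
    · intro s' _ hs'
      rw [ind_false (p := (none : Option Bool).getD s' = t) hs', mul_zero]
    · intro h
      exact absurd (Finset.mem_univ _) h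
  have h7 : ∑ a, ∑ s', wb p0 ν i (some a) * ν i s' * ind ((some a).getD s' = t) =
      (1 - p0) * ν i t := by
    rw [Finset.sum_eq_single t]
    · show ∑ s', (1 - p0) * ν i t * ν i s' * ind (t = t) = _
      rw [ind_true rfl]
      simp only [mul_one]
      rw [← Finset.mul_sum, (hν i).2, mul_one]
    · intro a _ ha
      refine Finset.sum_eq_zero fun s' _ => ?_
      rw [ind_false (p := (some a).getD s' = t) ha, mul_zero]
    · intro h
      exact absurd (Finset.mem_univ _) h
  rw [h6, h7]
  ring

end Pool.Agent.P325ac
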