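import Mathlib
import Pool.Agent.Lib.P325ac.Defs
import Pool.Agent.Lib.P325ac.PE
import Pool.Agent.Lib.P325ac.DTb
import Pool.Agent.Lib.P325ac.DTl
import Pool.Agent.Lib.P325ac.SysB

/-!
# P325ac.Av (1.2 h): the total influence of a circuit

`p0 = β / (16 t)`: `p0 ≤ 1 / 32`, `8 t (p0 / ((1 - p0) β)) = 1 / (2 (1 - p0)) ≤ 1`. Claim by induction on `n`, for all circuits with
gate type `G`, all `i` with `i + n = h`: if all gates of level `< i` are `DT (t + 1)` then
`tot ν (val g) ≤ (1 / p0) ^ n * (t + m * #{g | i ≤ lv g} * (1 / 2) ^ (t + 1))` for every `g` (`m = card E`).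
`n = 0`: `sens_dt`. Step: `tot ν (val g) = (1 / p0) * pe (wb p0 ν) (fun R => tot ν (val^R g))` (`sens_restrict`), where
`val^R g Z = val g (fun u => (R u).getD (Z u))` is again a circuit, with the input functions `f^R` (`DT.subst` with `s = R`, `b = id`:
they are `DT (t + 1)`), and the gates of level `< i` stay `DT (t + 1)`. A gate of level `i` is (as a function of `Z`) the OR or AND of
`DT (t + 1)` functions, by `gate_dnf` a DNF of width `≤ t` or the negation of one, and by `bern` its restriction fails to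
be `DT (t + 1)` with weight at most `(1 / 2) ^ (t + 1)` (`DT.comp` with `not`). If no gate of level `i` fails, use the induction
hypothesis with `i + 1`; in the other case `tot ≤ m`. So
`pe .. ≤ (1 / p0) ^ (n - 1) (t + m #{i + 1 ≤ lv} (1/2)^(t+1)) + m #{lv = i} (1/2)^(t+1)`.
Then `i = 0`, `n = h`.
-/

open Finset
open scoped BigOperators Classical

namespace Pool.Agent.P325ac

namespace AvAux

theorem ind_mono {p q : Prop} (h : p → q) : ind p ≤ ind q := by
  unfold ind
  by_cases hp : p
  · rw [if_pos hp, if_pos (h hp)]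
  · rw [if_neg hp]
    split_ifs <;> norm_num

theorem ind_nonneg (p : Prop) : 0 ≤ ind p := by
  unfold ind
  split_ifs <;> norm_num

theorem ind_pos {p : Prop} (h : p) : ind p = 1 := by
  unfold ind
  rw [if_pos h]

theorem circ_subst {X Y G : Type} {inp : (X → Bool) → Prop} {lv : G → ℕ}
    {val : G → X → Bool} (hc : IsCirc inp lv val) (φ : Y → X) :
    IsCirc (fun f' => ∃ f, inp f ∧ f' = fun y => f (φ y)) lv (fun g y => val g (φ y)) := by
  intro g
  obtain ⟨W, hW, h⟩ := hc g
  refine ⟨{f' | ∃ f ∈ W, f' = fun y => f (φ y)}, ?_, ?_⟩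
  · rintro f' ⟨f, hf, rfl⟩
    rcases hW f hf with h1 | ⟨g', hg', h2 | h2⟩
    · exact Or.inl ⟨f, h1, rfl⟩
    · exact Or.inr ⟨g', hg', Or.inl (by rw [h2])⟩
    · exact Or.inr ⟨g', hg', Or.inr (by rw [h2])⟩
  · rcases h with h | h
    · left
      intro y
      rw [h]
      constructor
      · rintro ⟨f, hf, hfy⟩
        exact ⟨_, ⟨f, hf, rfl⟩, hfy⟩
      · rintro ⟨f', ⟨f, hf, rfl⟩, hfy⟩
        exact ⟨f, hf, hfy⟩
    · right
      intro y
      rw [h]
      constructor
      · rintro h1 f' ⟨f, hf, rfl⟩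
        exact h1 f hf
      · intro h1 f hf
        exact h1 _ ⟨f, hf, rfl⟩

/-- The restriction of a gate all of whose inputs are small trees fails to be a small tree with small
weight. -/
theorem gate_fail {E G : Type} [Fintype E] {β p0 : ℝ} (h0 : 0 < p0) (h1 : p0 < 1) (hβ : 0 < β)
    {ν : E → Bool → ℝ} (hν : ∀ e, IsProb (ν e)) (hνβ : ∀ e a, β ≤ ν e a) {t : ℕ}
    (hw : 8 * t * (p0 / ((1 - p0) * β)) ≤ 1) {i : ℕ} {inp : ((E → Bool) → Bool) → Prop}
    (hinp : ∀ f, inp f → DT (t + 1) f) {lv : G → ℕ} {val : G → (E → Bool) → Bool}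
    (hc : IsCirc inp lv val) (hlow : ∀ g, lv g < i → DT (t + 1) (val g)) {g : G} (hg : lv g = i) :
    pe (wb p0 ν) (fun R => ind (¬ DT (t + 1) (fun Z => val g (fun u => (R u).getD (Z u)))))
      ≤ (1 / 2) ^ (t + 1) := by
  obtain ⟨W, hW, h⟩ := hc g
  have hWD : ∀ f ∈ W, DT (t + 1) f := by
    intro f hf
    rcases hW f hf with h2 | ⟨g', hg', h2 | h2⟩
    · exact hinp f h2
    · rw [h2]
      exact hlow g' (by omega)
    · rw [h2]
      exact DT.comp (fun b => !b) (hlow g' (by omega))
  obtain ⟨F, hF, hFv⟩ := gate_dnf (val g) W hWD h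
  refine le_trans (pe_le (fun e s => (wb_prob h0.le h1.le hν e).1 s) fun R => ind_mono ?_)
    (bern h0 h1 hβ hν hνβ t hw F hF (t + 1))
  intro hn hD
  apply hn
  rcases hFv with h2 | h2
  · have h3 : (fun Z : E → Bool => val g (fun u => (R u).getD (Z u))) =
        fun Z => evalD F (fun u => (R u).getD (Z u)) := by
      funext Z
      exact h2 _
    rw [h3]
    exact hD
  · have h3 : (fun Z : E → Bool => val g (fun u => (R u).getD (Z u))) =
        fun Z => !(evalD F (fun u => (R u).getD (Z u))) := by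
      funext Z
      exact h2 _
    rw [h3]
    exact DT.comp (fun b => !b) hD

theorem main_claim {E G : Type} [Fintype E] [Fintype G] {β p0 : ℝ} (h0 : 0 < p0) (h1 : p0 < 1)
    (hβ : 0 < β) {ν : E → Bool → ℝ} (hν : ∀ e, IsProb (ν e)) (hνβ : ∀ e a, β ≤ ν e a) {t : ℕ}
    (hw : 8 * t * (p0 / ((1 - p0) * β)) ≤ 1) (n : ℕ) :
    ∀ (i : ℕ) (inp : ((E → Bool) → Bool) → Prop), (∀ f, inp f → DT (t + 1) f) →
    ∀ (lv : G → ℕ) (val : G → (E → Bool) → Bool), IsCirc inp lv val → (∀ g, lv g < i + n) →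
    (∀ g, lv g < i → DT (t + 1) (val g)) → ∀ g, tot ν (val g) ≤ (1 / p0) ^ n *
      (t + Fintype.card E * ((univ.filter (fun g => i ≤ lv g)).card : ℝ) * (1 / 2) ^ (t + 1)) := by
  induction n with
  | zero =>
    intro i inp hinp lv val hc hlv hlow g
    have h2 : tot ν (val g) ≤ t := sens_dt hν (hlow g (hlv g))
    have h3 : (0 : ℝ) ≤ Fintype.card E * ((univ.filter (fun g => i ≤ lv g)).card : ℝ) *
        (1 / 2) ^ (t + 1) := by positivity
    rw [pow_zero, one_mul]
    linarith
  | succ n ih =>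
    intro i inp hinp lv val hc hlv hlow g
    have hm0 : (0 : ℝ) ≤ Fintype.card E := Nat.cast_nonneg _
    obtain ⟨A, hA⟩ : ∃ A : ℝ, A = (1 / p0) ^ n * (t + Fintype.card E *
      ((univ.filter (fun g => i + 1 ≤ lv g)).card : ℝ) * (1 / 2) ^ (t + 1)) := ⟨_, rfl⟩
    have hA0 : 0 ≤ A := by
      rw [hA]
      positivity
    have hpt : ∀ R : E → Option Bool, tot ν (fun Z => val g (fun u => (R u).getD (Z u))) ≤
        A + Fintype.card E * ∑ g' ∈ univ.filter (fun g' => lv g' = i),
          ind (¬ DT (t + 1) (fun Z => val g' (fun u => (R u).getD (Z u)))) := by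
      intro R
      by_cases hbad : ∃ g', lv g' = i ∧ ¬ DT (t + 1) (fun Z => val g' (fun u => (R u).getD (Z u)))
      · obtain ⟨g', hg', hD⟩ := hbad
        have h2 : tot ν (fun Z => val g (fun u => (R u).getD (Z u))) ≤ Fintype.card E :=
          tot_le_card hν _
        have h3 : (1 : ℝ) ≤ ∑ g' ∈ univ.filter (fun g' => lv g' = i),
            ind (¬ DT (t + 1) (fun Z => val g' (fun u => (R u).getD (Z u)))) := by
          refine le_trans ?_ (Finset.single_le_sum (fun g' _ => ind_nonneg _)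
            (Finset.mem_filter.2 ⟨Finset.mem_univ g', hg'⟩))
          rw [ind_pos hD]
        have h4 := mul_le_mul_of_nonneg_left h3 hm0
        linarith
      · have h2 : ∀ g', lv g' < i + 1 → DT (t + 1) (fun Z => val g' (fun u => (R u).getD (Z u))) := by
          intro g' hg'
          rcases Nat.lt_succ_iff_lt_or_eq.1 hg' with h3 | h3
          · exact DT.subst R id (hlow g' h3)
          · by_contra hD
            exact hbad ⟨g', h3, hD⟩
        have h3 := ih (i + 1) _ (fun f' hf' => by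
          obtain ⟨f, hf, rfl⟩ := hf'
          exact DT.subst R id (hinp f hf)) lv _
          (circ_subst hc (fun Z : E → Bool => fun u => (R u).getD (Z u)))
          (fun g => by have := hlv g; omega) h2 g
        have h4 : (0 : ℝ) ≤ Fintype.card E * ∑ g' ∈ univ.filter (fun g' => lv g' = i),
            ind (¬ DT (t + 1) (fun Z => val g' (fun u => (R u).getD (Z u)))) :=
          mul_nonneg hm0 (Finset.sum_nonneg fun g' _ => ind_nonneg _)
        rw [← hA] at h3
        linarith
    have hpe : pe (wb p0 ν) (fun R => tot ν (fun Z => val g (fun u => (R u).getD (Z u)))) ≤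
        A + Fintype.card E * (((univ.filter (fun g' => lv g' = i)).card : ℝ) * (1 / 2) ^ (t + 1)) := by
      refine (pe_le (fun e s => (wb_prob h0.le h1.le hν e).1 s) hpt).trans ?_
      rw [pe_add, pe_const (fun e => (wb_prob h0.le h1.le hν e).2), pe_mul, pe_fsum]
      refine add_le_add le_rfl (mul_le_mul_of_nonneg_left ?_ hm0)
      refine (Finset.sum_le_card_nsmul _ _ ((1 / 2) ^ (t + 1)) fun g' hg' => ?_).trans ?_
      · exact gate_fail h0 h1 hβ hν hνβ hw hinp hc hlow (Finset.mem_filter.1 hg').2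
      · rw [nsmul_eq_mul]
    rw [sens_restrict h0.le h1.le hν] at hpe
    have hcard : ((univ.filter (fun g => i ≤ lv g)).card : ℝ) =
        ((univ.filter (fun g' => lv g' = i)).card : ℝ) + ((univ.filter (fun g => i + 1 ≤ lv g)).card : ℝ) := by
      rw [← Nat.cast_add, ← Finset.card_union_of_disjoint]
      · congr 2
        ext g'
        simp only [Finset.mem_filter, Finset.mem_univ, true_and, Finset.mem_union]
        omega
      · rw [Finset.disjoint_filter]
        intro g' _ h2
        omega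
    have hp1 : 1 ≤ 1 / p0 := by
      rw [le_div_iff₀ h0]
      linarith
    have hpn : 1 ≤ (1 / p0) ^ n := one_le_pow₀ hp1
    have h5 : tot ν (val g) ≤ (1 / p0) * (A + Fintype.card E *
        (((univ.filter (fun g' => lv g' = i)).card : ℝ) * (1 / 2) ^ (t + 1))) := by
      rw [one_div, ← div_eq_inv_mul, le_div_iff₀ h0, mul_comm]
      exact hpe
    refine h5.trans ?_
    rw [hcard, pow_succ (1 / p0) n, mul_comm ((1 / p0) ^ n) (1 / p0), mul_assoc (1 / p0)]
    refine mul_le_mul_of_nonneg_left ?_ (by linarith)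
    rw [hA]
    have h6 : (0 : ℝ) ≤ Fintype.card E * (((univ.filter (fun g' => lv g' = i)).card : ℝ) *
        (1 / 2) ^ (t + 1)) := by positivity
    have h7 := mul_le_mul_of_nonneg_right hpn h6
    rw [one_mul] at h7
    have h8 : (1 / p0) ^ n * (↑t + ↑(Fintype.card E) *
        (((univ.filter (fun g' => lv g' = i)).card : ℝ) + ((univ.filter (fun g => i + 1 ≤ lv g)).card : ℝ)) *
        (1 / 2) ^ (t + 1)) = (1 / p0) ^ n * (t + Fintype.card E *
        ((univ.filter (fun g => i + 1 ≤ lv g)).card : ℝ) * (1 / 2) ^ (t + 1)) +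
        (1 / p0) ^ n * (Fintype.card E * (((univ.filter (fun g' => lv g' = i)).card : ℝ) *
        (1 / 2) ^ (t + 1))) := by ring
    rw [h8]
    linarith

end AvAux

theorem avgsens {E G : Type} [Fintype E] [Fintype G] {β : ℝ} (hβ : 0 < β) (hβ' : β ≤ 1 / 2)
    {ν : E → Bool → ℝ} (hν : ∀ e, IsProb (ν e)) (hνβ : ∀ e a, β ≤ ν e a) {t h : ℕ} (ht : 1 ≤ t)
    (inp : ((E → Bool) → Bool) → Prop) (hinp : ∀ f, inp f → DT (t + 1) f)
    (lv : G → ℕ) (val : G → (E → Bool) → Bool) (hc : IsCirc inp lv val) (hlv : ∀ g, lv g < h)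
    (g : G) :
    tot ν (val g) ≤ (16 * t / β) ^ h *
      (t + Fintype.card E * Fintype.card G * (1 / 2) ^ (t + 1)) := by
  have ht' : (1 : ℝ) ≤ t := by exact_mod_cast ht
  have h16 : (0 : ℝ) < 16 * t := by linarith
  obtain ⟨p0, hp⟩ : ∃ p0 : ℝ, p0 = β / (16 * t) := ⟨_, rfl⟩
  have h0 : 0 < p0 := by
    rw [hp]
    exact div_pos hβ h16
  have h2 : p0 ≤ 1 / 32 := by
    rw [hp, div_le_iff₀ h16]
    linarith
  have hpt : p0 * (16 * t) = β := by
    rw [hp]
    exact div_mul_cancel₀ β h16.ne'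
  have hw : 8 * t * (p0 / ((1 - p0) * β)) ≤ 1 := by
    rw [← mul_div_assoc, div_le_one (mul_pos (by linarith) hβ)]
    have h3 : 8 * (t : ℝ) * p0 = β / 2 := by
      rw [← hpt]
      ring
    rw [h3]
    nlinarith
  have h4 := AvAux.main_claim (G := G) h0 (by linarith) hβ hν hνβ hw h 0 inp hinp lv val hc
    (fun g => by rw [Nat.zero_add]; exact hlv g) (fun g hg => absurd hg (Nat.not_lt_zero _)) g
  have h5 : (univ.filter (fun g : G => 0 ≤ lv g)).card = Fintype.card G := by
    rw [Finset.filter_true_of_mem fun g _ => Nat.zero_le _]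
    exact Finset.card_univ
  have h6 : 1 / p0 = 16 * t / β := by
    rw [hp, one_div_div]
  rw [h5, h6] at h4
  exact h4

end Pool.Agent.P325ac
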