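import Mathlib
import Pool.Agent.Lib.P325ac.Defs

/-!
# P325ac.TwoP (1 h): short cycles

`two_paths`: let `H = SimpleGraph.fromEdgeSet {e | e ∈ p.edges ∨ e ∈ q.edges}` (a subgraph of `G`). Both paths transfer to `H`
(`Walk.transfer`). If `H` were acyclic the two paths would be equal (`SimpleGraph.isAcyclic_iff_path_unique` /
`IsAcyclic.path_unique`), so the original ones too. So `H` has a cycle `c`; its edges are distinct (`IsCycle.edges_nodup` / `IsTrail`)
and lie in `p.edges ++ q.edges`, so `c.length = c.edges.length ≤ p.length + q.length`. Map the cycle to `G` (`Walk.mapLe`, `IsCycle.mapLe`).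
`cycle_add`: let `c` be a cycle in `G ⊔ edge u v`. If `s(u, v) ∉ c.edges` transfer it to `G` (first alternative). Otherwise let
`H = SimpleGraph.fromEdgeSet {e | e ∈ c.edges}`; `c` transfers to `H` and contains `s(u, v)`, so
`SimpleGraph.adj_and_reachable_delete_edges_iff_exists_cycle` gives that `u, v` are reachable in `H` without the edge `s(u, v)`; take a path there
(`Reachable.exists_isPath` or `exists_path_of_dist`): its edges are distinct and lie in `c.edges` without `s(u, v)`, so its length
is `≤ c.length - 1`; all its edges are in `G`.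
-/

open Finset
open scoped BigOperators Classical

namespace Pool.Agent.P325ac

namespace TwoPAux

theorem length_le_of_subset {α : Type*} {l₁ l₂ : List α} (h1 : l₁.Nodup) (h2 : l₁ ⊆ l₂) :
    l₁.length ≤ l₂.length := (List.subperm_of_subset h1 h2).length_le

theorem mem_edgeSet_from {V : Type} (G : SimpleGraph V) {S : Set (Sym2 V)} (hS : S ⊆ G.edgeSet)
    {e : Sym2 V} (he : e ∈ S) : e ∈ (SimpleGraph.fromEdgeSet S).edgeSet := by
  rw [SimpleGraph.edgeSet_fromEdgeSet]
  exact ⟨he, G.not_isDiag_of_mem_edgeSet (hS he)⟩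

theorem mem_of_edgeSet_from {V : Type} {S : Set (Sym2 V)}
    {e : Sym2 V} (he : e ∈ (SimpleGraph.fromEdgeSet S).edgeSet) : e ∈ S := by
  rw [SimpleGraph.edgeSet_fromEdgeSet] at he
  exact he.1

end TwoPAux

open TwoPAux

theorem two_paths {V : Type} (G : SimpleGraph V) {a b : V} (p q : G.Walk a b) (hp : p.IsPath)
    (hq : q.IsPath) (hne : p ≠ q) :
    ∃ (v : V) (c : G.Walk v v), c.IsCycle ∧ c.length ≤ p.length + q.length := by
  obtain ⟨S, hSdef⟩ : ∃ S : Set (Sym2 V), S = {e | e ∈ p.edges ∨ e ∈ q.edges} := ⟨_, rfl⟩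
  have hS : S ⊆ G.edgeSet := by
    intro e he
    rw [hSdef] at he
    rcases he with he | he
    · exact p.edges_subset_edgeSet he
    · exact q.edges_subset_edgeSet he
  have hpS : ∀ e, e ∈ p.edges → e ∈ (SimpleGraph.fromEdgeSet S).edgeSet := fun e he =>
    mem_edgeSet_from G hS (by rw [hSdef]; exact Or.inl he)
  have hqS : ∀ e, e ∈ q.edges → e ∈ (SimpleGraph.fromEdgeSet S).edgeSet := fun e he =>
    mem_edgeSet_from G hS (by rw [hSdef]; exact Or.inr he)
  have hback : ∀ e, e ∈ (SimpleGraph.fromEdgeSet S).edgeSet → e ∈ G.edgeSet := fun e he =>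
    hS (mem_of_edgeSet_from he)
  by_cases hac : (SimpleGraph.fromEdgeSet S).IsAcyclic
  · exfalso
    have h1 : (⟨p.transfer _ hpS, hp.transfer hpS⟩ : (SimpleGraph.fromEdgeSet S).Path a b) =
        ⟨q.transfer _ hqS, hq.transfer hqS⟩ := hac.path_unique _ _
    have h2 : p.transfer _ hpS = q.transfer _ hqS := congrArg Subtype.val h1
    apply hne
    have h3 : ∀ (w w' : (SimpleGraph.fromEdgeSet S).Walk a b), w = w' →
        ∀ h h', w.transfer G h = w'.transfer G h' := by
      intro w w' e h h'
      subst e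
      rfl
    have h4 := h3 _ _ h2 (fun e he => hback e (SimpleGraph.Walk.edges_subset_edgeSet _ he))
      (fun e he => hback e (SimpleGraph.Walk.edges_subset_edgeSet _ he))
    rw [SimpleGraph.Walk.transfer_transfer, SimpleGraph.Walk.transfer_transfer,
      SimpleGraph.Walk.transfer_self, SimpleGraph.Walk.transfer_self] at h4
    exact h4
  · obtain ⟨v, c, hc⟩ : ∃ (v : V) (c : (SimpleGraph.fromEdgeSet S).Walk v v), c.IsCycle := by
      by_contra hcon
      apply hac
      intro v c hc
      exact hcon ⟨v, c, hc⟩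
    refine ⟨v, c.transfer G (fun e he => hback e (c.edges_subset_edgeSet he)), hc.transfer _, ?_⟩
    rw [SimpleGraph.Walk.length_transfer, ← SimpleGraph.Walk.length_edges,
      ← SimpleGraph.Walk.length_edges p, ← SimpleGraph.Walk.length_edges q, ← List.length_append]
    refine length_le_of_subset hc.isCircuit.isTrail.edges_nodup ?_
    intro e he
    have h1 := mem_of_edgeSet_from (c.edges_subset_edgeSet he)
    rw [hSdef] at h1
    rw [List.mem_append]
    exact h1

theorem cycle_add {V : Type} (G : SimpleGraph V) {u v : V} (huv : u ≠ v) {w : V}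
    (c : (G ⊔ SimpleGraph.edge u v).Walk w w) (hc : c.IsCycle) :
    (∃ (x : V) (c' : G.Walk x x), c'.IsCycle ∧ c'.length = c.length) ∨
      ∃ p : G.Walk u v, p.length + 1 ≤ c.length := by
  have hG : ∀ e, e ∈ (G ⊔ SimpleGraph.edge u v).edgeSet → e ≠ s(u, v) → e ∈ G.edgeSet := by
    intro e he hne
    rw [SimpleGraph.edgeSet_sup, SimpleGraph.edge_edgeSet_of_ne huv] at he
    rcases he with he | he
    · exact he
    · exact absurd he hne
  by_cases hm : s(u, v) ∈ c.edges
  · right
    obtain ⟨S, hSdef⟩ : ∃ S : Set (Sym2 V), S = {e | e ∈ c.edges} := ⟨_, rfl⟩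
    have hS : S ⊆ (G ⊔ SimpleGraph.edge u v).edgeSet := by
      intro e he
      rw [hSdef] at he
      exact c.edges_subset_edgeSet he
    have hcS : ∀ e, e ∈ c.edges → e ∈ (SimpleGraph.fromEdgeSet S).edgeSet := fun e he =>
      mem_edgeSet_from _ hS (by rw [hSdef]; exact he)
    have h1 := (SimpleGraph.adj_and_reachable_delete_edges_iff_exists_cycle
      (G := SimpleGraph.fromEdgeSet S) (v := u) (w := v)).2
      ⟨w, c.transfer _ hcS, hc.transfer hcS, by
        rw [SimpleGraph.Walk.edges_transfer]; exact hm⟩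
    obtain ⟨p, hp⟩ := h1.2.exists_isPath
    have hpe : ∀ e ∈ p.edges, e ∈ c.edges ∧ e ≠ s(u, v) := by
      intro e he
      have h2 := p.edges_subset_edgeSet he
      rw [SimpleGraph.edgeSet_deleteEdges] at h2
      refine ⟨?_, fun h3 => h2.2 h3⟩
      have h4 := mem_of_edgeSet_from h2.1
      rw [hSdef] at h4
      exact h4
    refine ⟨p.transfer G (fun e he => hG e (c.edges_subset_edgeSet (hpe e he).1) (hpe e he).2), ?_⟩
    rw [SimpleGraph.Walk.length_transfer]
    have h5 : p.edges.length ≤ (c.edges.erase s(u, v)).length := by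
      refine length_le_of_subset hp.isTrail.edges_nodup ?_
      intro e he
      rw [List.mem_erase_of_ne (hpe e he).2]
      exact (hpe e he).1
    rw [List.length_erase_of_mem hm] at h5
    have h6 : 0 < c.edges.length := List.length_pos_of_mem hm
    rw [SimpleGraph.Walk.length_edges] at h5 h6
    rw [SimpleGraph.Walk.length_edges] at h5
    omega
  · left
    refine ⟨w, c.transfer G (fun e he => hG e (c.edges_subset_edgeSet he) (fun h => hm (h ▸ he))),
      hc.transfer _, ?_⟩
    rw [SimpleGraph.Walk.length_transfer]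

end Pool.Agent.P325ac
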