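import Mathlib
import Pool.Agent.Lib.P325ac.Defs
import Pool.Agent.Lib.P325ac.TwoP

/-!
# P325ac.BallEx (2 h): balls in graphs without short cycles are trees

`G = gr Ed`, `x = esrc Ed e0`, `y = etgt Ed e0`, `H = G.deleteEdges {s(x, y)}`. Every edge `e ≠ e0` is an edge of `H` (different pairs have different
end sets), `e` is determined by its ends. `dd v := if H.Reachable x v then H.dist x v else 2 * r + 5`.
BIPARTITE: along a walk of `H` (or `G`) the side alternates, so for reachable `v` the distance is even iff `v` is a left vertex;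
for an edge `e ≠ e0` of `H` both ends are reachable or none is; if they are, `dd` differs by exactly `1` at the two ends.
`lev e := if e ≠ e0 ∧ max (dd (esrc e)) (dd (etgt e)) ≤ r then max (dd (esrc e)) (dd (etgt e)) else 0`,
`low e := if dd (esrc e) < dd (etgt e) then etgt e else esrc e`, `up e` the other end. If `lev e ≠ 0`: `dd (low e) = lev e`,
`dd (up e) = lev e - 1`. `par e := if lev e = 1 then e0 else if ∃ f, lev f ≠ 0 ∧ low f = up e then that f else e0`.
UNIQUE PARENT (`low_inj`): let `lev e, lev e' ≠ 0`, `low e = low e' = v`; `j = dd v = lev e = lev e'`. If `up e = up e'` then `e = e'`. Otherwise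
shortest paths of `H` from `x` to `up e`, `up e'` (length `j - 1`) followed by the edge to `v` are walks of length `j = dist x v`, hence paths
(`Walk.isPath_of_length_eq_dist`), different (penultimate vertices), mapped to `G`: `two_paths` gives a cycle of length `≤ 2 j ≤ 2 r`:
contradiction.
`hpar`/`up_par`: `lev e ≥ 2`: `up e` has `dd = lev e - 1 ≥ 1`: the last edge of a shortest path from `x` to `up e` is an edge `f ≠ e0` with
`low f = up e`, `lev f = lev e - 1`. `lev e = 1`: `dd (up e) = 0`, so `up e = x`, `par e = e0`, `lev e0 = 0`.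
`low_root`: `dd (low e) ≥ 1`. `tgt0_ne`: sides. `tgt0`: if `low e = y`, `j = lev e < r`: a shortest path `x → y` of `H` of length `j` and the path
`x, y` along `e0` (not in `H`) are two different paths of `G`: cycle of length `≤ j + 1 ≤ 2 r`: contradiction.
`root_edge`: the other end `b` of `f ≠ e0` at `x` has `dd b = 1 ≤ r`. `low_edge`: `v = low e`, `dd v = lev e = j < r`, `f ≠ e` touches `v`; `f ≠ e0` as
`v ≠ x` (`low_root`), `v ≠ y` (`tgt0`); the other end `b` is reachable, `dd b = j ± 1`. If `j - 1`: `lev f = j`, `low f = v`, so `f = e` by `low_inj`.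
So `dd b = j + 1 ≤ r`, `lev f = j + 1`, `low f = b`, `up f = v = low e`, and the chosen `par f` is `e` by `low_inj`.
`Deg d`: the children of `e0` touch `x` (`lev = 1`; for `lev e ≥ 2`, `lev (par e) ≠ 0` so `par e ≠ e0`); the children `e` of `f ≠ e0` have
`lev e ≥ 2` and touch `low f`; `MaxDeg`.
-/

open Finset
open scoped BigOperators Classical

namespace Pool.Agent.P325ac

namespace BallExAux

section abs

variable {V : Type} {H : SimpleGraph V} {x : V} {r : ℕ}

/-- the truncated distance from `x` -/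
noncomputable def dd (H : SimpleGraph V) (x : V) (r : ℕ) (v : V) : ℕ :=
  if H.Reachable x v then H.dist x v else 2 * r + 5

theorem dd_root : dd H x r x = 0 := by
  unfold dd
  rw [if_pos (SimpleGraph.Reachable.refl x)]
  exact SimpleGraph.dist_self

theorem dd_zero {v : V} (h : dd H x r v = 0) : v = x := by
  unfold dd at h
  by_cases hr : H.Reachable x v
  · rw [if_pos hr] at h
    exact (hr.dist_eq_zero_iff.1 h).symm
  · rw [if_neg hr] at h
    omega

theorem dd_reach {v : V} (h : dd H x r v ≤ r) : H.Reachable x v ∧ dd H x r v = H.dist x v := by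
  unfold dd at h ⊢
  by_cases hr : H.Reachable x v
  · exact ⟨hr, if_pos hr⟩
  · rw [if_neg hr] at h
    omega

theorem parity (col : V → Bool) (hcol : ∀ u v, H.Adj u v → col u ≠ col v) {u v : V}
    (p : H.Walk u v) : Even p.length ↔ col u = col v := by
  induction p with
  | nil => simp
  | cons h q ih =>
    rw [SimpleGraph.Walk.length_cons, Nat.even_add_one, ih]
    have h1 := hcol _ _ h
    revert h1
    generalize col _ = a
    generalize col _ = b
    generalize col _ = c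
    revert a b c
    decide

theorem dd_adj (col : V → Bool) (hcol : ∀ u v, H.Adj u v → col u ≠ col v) {u v : V}
    (huv : H.Adj u v) (hu : dd H x r u ≤ r) :
    dd H x r v + 1 = dd H x r u ∨ dd H x r u + 1 = dd H x r v := by
  obtain ⟨hru, heu⟩ := dd_reach hu
  have hrv : H.Reachable x v := hru.trans huv.reachable
  have hev : dd H x r v = H.dist x v := by
    unfold dd
    rw [if_pos hrv]
  rw [heu, hev]
  obtain ⟨p, hp⟩ := hru.exists_walk_length_eq_dist
  obtain ⟨p', hp'⟩ := hrv.exists_walk_length_eq_dist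
  have h1 : H.dist x v ≤ H.dist x u + 1 := by
    have := SimpleGraph.dist_le (p.concat huv)
    rwa [SimpleGraph.Walk.length_concat, hp] at this
  have h2 : H.dist x u ≤ H.dist x v + 1 := by
    have := SimpleGraph.dist_le (p'.concat huv.symm)
    rwa [SimpleGraph.Walk.length_concat, hp'] at this
  have h3 := parity col hcol p
  have h4 := parity col hcol p'
  rw [hp] at h3
  rw [hp'] at h4
  have h5 : H.dist x u ≠ H.dist x v := by
    intro h
    rw [h, h4] at h3
    have h6 := hcol _ _ huv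
    revert h3 h6
    generalize col x = a
    generalize col u = b
    generalize col v = c
    revert a b c
    decide
  omega

theorem dd_pred (col : V → Bool) (hcol : ∀ u v, H.Adj u v → col u ≠ col v) {v : V}
    (hv : dd H x r v ≤ r) (h1 : 1 ≤ dd H x r v) : ∃ u, H.Adj u v ∧ dd H x r u + 1 = dd H x r v := by
  obtain ⟨hrv, hev⟩ := dd_reach hv
  obtain ⟨p, hp⟩ := hrv.symm.exists_walk_length_eq_dist
  cases p with
  | nil =>
    rw [SimpleGraph.Walk.length_nil, SimpleGraph.dist_comm, ← hev] at hp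
    omega
  | cons h q =>
    rename_i u
    rw [SimpleGraph.Walk.length_cons, SimpleGraph.dist_comm, ← hev] at hp
    have h2 := SimpleGraph.dist_le q
    have hru : H.Reachable x u := hrv.trans h.reachable
    have heu : dd H x r u = H.dist x u := by
      unfold dd
      rw [if_pos hru]
    rw [SimpleGraph.dist_comm, ← heu] at h2
    refine ⟨u, h.symm, ?_⟩
    rcases dd_adj col hcol h hv with h3 | h3
    · exact h3
    · omega

theorem dd_uniq {G : SimpleGraph V} (hHG : H ≤ G) (hG : NoShort G (2 * r)) {u u' v : V}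
    (hv : dd H x r v ≤ r) (hu : H.Adj u v) (hu' : H.Adj u' v)
    (h1 : dd H x r u + 1 = dd H x r v) (h1' : dd H x r u' + 1 = dd H x r v) : u = u' := by
  by_contra hne
  obtain ⟨hrv, hev⟩ := dd_reach hv
  obtain ⟨hru, heu⟩ := dd_reach (show dd H x r u ≤ r by omega)
  obtain ⟨hru', heu'⟩ := dd_reach (show dd H x r u' ≤ r by omega)
  obtain ⟨p, hp⟩ := hru.exists_walk_length_eq_dist
  obtain ⟨p', hp'⟩ := hru'.exists_walk_length_eq_dist
  have hl : (p.concat hu).length = H.dist x v := by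
    rw [SimpleGraph.Walk.length_concat, hp, ← heu, ← hev, h1]
  have hl' : (p'.concat hu').length = H.dist x v := by
    rw [SimpleGraph.Walk.length_concat, hp', ← heu', ← hev, h1']
  have hne' : p.concat hu ≠ p'.concat hu' := by
    intro h
    have h2 := congrArg SimpleGraph.Walk.penultimate h
    rw [SimpleGraph.Walk.penultimate_concat, SimpleGraph.Walk.penultimate_concat] at h2
    exact hne h2
  obtain ⟨w, c, hc, hcl⟩ := two_paths H (p.concat hu) (p'.concat hu')
    (SimpleGraph.Walk.isPath_of_length_eq_dist _ hl)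
    (SimpleGraph.Walk.isPath_of_length_eq_dist _ hl') hne'
  have h3 := hG w (c.mapLe hHG) (hc.mapLe hHG)
  rw [SimpleGraph.Walk.length_mapLe] at h3
  rw [hl, hl', ← hev] at hcl
  omega

theorem dd_end {G : SimpleGraph V} {y : V} (hxy : G.Adj x y)
    (hG : NoShort G (2 * r)) (hr : 1 ≤ r) (hy : dd (G.deleteEdges {s(x, y)}) x r y < r) : False := by
  obtain ⟨hry, hey⟩ := dd_reach hy.le
  obtain ⟨p, hp⟩ := hry.exists_walk_length_eq_dist
  have hpp : p.IsPath := SimpleGraph.Walk.isPath_of_length_eq_dist _ hp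
  have hle : G.deleteEdges {s(x, y)} ≤ G := SimpleGraph.deleteEdges_le _
  have hq : (SimpleGraph.Walk.cons hxy SimpleGraph.Walk.nil).IsPath := by
    rw [SimpleGraph.Walk.cons_isPath_iff]
    refine ⟨SimpleGraph.Walk.IsPath.nil, ?_⟩
    rw [SimpleGraph.Walk.support_nil, List.mem_singleton]
    exact hxy.ne
  have hne : p.mapLe hle ≠ SimpleGraph.Walk.cons hxy SimpleGraph.Walk.nil := by
    intro h
    have h1 : s(x, y) ∈ (p.mapLe hle).edges := by
      rw [h]
      simp
    rw [SimpleGraph.Walk.edges_mapLe_eq_edges] at h1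
    have h2 := p.edges_subset_edgeSet h1
    rw [SimpleGraph.mem_edgeSet, SimpleGraph.deleteEdges_adj] at h2
    exact h2.2 rfl
  obtain ⟨w, c, hc, hcl⟩ := two_paths G _ _ (hpp.mapLe hle) hq hne
  have h3 := hG w c hc
  rw [SimpleGraph.Walk.length_mapLe, hp, ← hey, SimpleGraph.Walk.length_cons,
    SimpleGraph.Walk.length_nil] at hcl
  omega

end abs

section edges

variable {N : ℕ} (Ed : Finset (Fin N × Fin N)) (e0 : {p // p ∈ Ed}) (r : ℕ)

/-- the graph without the edge `e0` -/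
abbrev HH : SimpleGraph (Fin N ⊕ Fin N) := (gr Ed).deleteEdges {s(esrc Ed e0, etgt Ed e0)}

/-- the distance -/
noncomputable def Dd (v : Fin N ⊕ Fin N) : ℕ := dd (HH Ed e0) (esrc Ed e0) r v

/-- the level -/
noncomputable def lev (e : {p // p ∈ Ed}) : ℕ :=
  if e ≠ e0 ∧ max (Dd Ed e0 r (esrc Ed e)) (Dd Ed e0 r (etgt Ed e)) ≤ r then
    max (Dd Ed e0 r (esrc Ed e)) (Dd Ed e0 r (etgt Ed e)) else 0

/-- the lower end -/
noncomputable def low (e : {p // p ∈ Ed}) : Fin N ⊕ Fin N :=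
  if Dd Ed e0 r (esrc Ed e) < Dd Ed e0 r (etgt Ed e) then etgt Ed e else esrc Ed e

/-- the upper end -/
noncomputable def up (e : {p // p ∈ Ed}) : Fin N ⊕ Fin N :=
  if Dd Ed e0 r (esrc Ed e) < Dd Ed e0 r (etgt Ed e) then esrc Ed e else etgt Ed e

/-- the parent -/
noncomputable def par (e : {p // p ∈ Ed}) : {p // p ∈ Ed} :=
  if lev Ed e0 r e = 1 then e0 else
    if h : ∃ f, lev Ed e0 r f ≠ 0 ∧ low Ed e0 r f = up Ed e0 r e then h.choose else e0

/-- the sides -/
def col (v : Fin N ⊕ Fin N) : Bool := v.isLeft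

variable {Ed e0 r}

theorem gr_adj (e : {p // p ∈ Ed}) : (gr Ed).Adj (esrc Ed e) (etgt Ed e) :=
  Or.inl ⟨e.1, e.2, rfl, rfl⟩

theorem ends_inj {e e' : {p // p ∈ Ed}} (h1 : esrc Ed e = esrc Ed e')
    (h2 : etgt Ed e = etgt Ed e') : e = e' :=
  Subtype.ext (Prod.ext (Sum.inl_injective h1) (Sum.inr_injective h2))

theorem src_ne_tgt (e e' : {p // p ∈ Ed}) : esrc Ed e ≠ etgt Ed e' := Sum.inl_ne_inr

theorem hh_col (u v : Fin N ⊕ Fin N) (h : (HH Ed e0).Adj u v) : col u ≠ col v := by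
  rcases (SimpleGraph.deleteEdges_adj.1 h).1 with ⟨p, -, rfl, rfl⟩ | ⟨p, -, rfl, rfl⟩
  · simp [col]
  · simp [col]

theorem hh_adj {e : {p // p ∈ Ed}} (he : e ≠ e0) : (HH Ed e0).Adj (esrc Ed e) (etgt Ed e) := by
  rw [SimpleGraph.deleteEdges_adj]
  refine ⟨gr_adj e, fun h => he ?_⟩
  rw [Set.mem_singleton_iff, Sym2.eq_iff] at h
  rcases h with ⟨h1, h2⟩ | ⟨h1, h2⟩
  · exact ends_inj h1 h2
  · exact absurd h1 (src_ne_tgt _ _)

theorem hh_edge {u b : Fin N ⊕ Fin N} (h : (HH Ed e0).Adj u b) :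
    ∃ f : {p // p ∈ Ed}, f ≠ e0 ∧
      ((esrc Ed f = u ∧ etgt Ed f = b) ∨ (esrc Ed f = b ∧ etgt Ed f = u)) := by
  rw [SimpleGraph.deleteEdges_adj] at h
  obtain ⟨h1, h2⟩ := h
  rw [Set.mem_singleton_iff] at h2
  rcases h1 with ⟨p, hp, rfl, rfl⟩ | ⟨p, hp, rfl, rfl⟩
  · refine ⟨⟨p, hp⟩, ?_, Or.inl ⟨rfl, rfl⟩⟩
    rintro rfl
    exact h2 rfl
  · refine ⟨⟨p, hp⟩, ?_, Or.inr ⟨rfl, rfl⟩⟩
    rintro rfl
    exact h2 Sym2.eq_swap

theorem lev_spec {e : {p // p ∈ Ed}} (h : lev Ed e0 r e ≠ 0) :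
    e ≠ e0 ∧ Dd Ed e0 r (low Ed e0 r e) = lev Ed e0 r e ∧
      Dd Ed e0 r (up Ed e0 r e) + 1 = lev Ed e0 r e ∧ lev Ed e0 r e ≤ r ∧
      (HH Ed e0).Adj (up Ed e0 r e) (low Ed e0 r e) := by
  unfold lev at h ⊢
  by_cases hc : e ≠ e0 ∧ max (Dd Ed e0 r (esrc Ed e)) (Dd Ed e0 r (etgt Ed e)) ≤ r
  · rw [if_pos hc]
    obtain ⟨h1, h2⟩ := hc
    have ha := hh_adj (e0 := e0) h1
    have h3 : Dd Ed e0 r (esrc Ed e) ≤ r := (le_max_left _ _).trans h2
    have h4 := dd_adj col hh_col ha (x := esrc Ed e0) (r := r) h3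
    change Dd Ed e0 r (etgt Ed e) + 1 = Dd Ed e0 r (esrc Ed e) ∨
      Dd Ed e0 r (esrc Ed e) + 1 = Dd Ed e0 r (etgt Ed e) at h4
    refine ⟨h1, ?_⟩
    unfold low up
    by_cases hlt : Dd Ed e0 r (esrc Ed e) < Dd Ed e0 r (etgt Ed e)
    · rw [if_pos hlt, if_pos hlt, max_eq_right hlt.le]
      rw [max_eq_right hlt.le] at h2
      exact ⟨rfl, by omega, h2, ha⟩
    · rw [if_neg hlt, if_neg hlt, max_eq_left (not_lt.1 hlt)]
      rw [max_eq_left (not_lt.1 hlt)] at h2
      exact ⟨rfl, by omega, h2, ha.symm⟩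
  · rw [if_neg hc] at h
    exact absurd rfl h

theorem ends_spec (e : {p // p ∈ Ed}) :
    (esrc Ed e = up Ed e0 r e ∧ etgt Ed e = low Ed e0 r e) ∨
      (esrc Ed e = low Ed e0 r e ∧ etgt Ed e = up Ed e0 r e) := by
  unfold up low
  by_cases hlt : Dd Ed e0 r (esrc Ed e) < Dd Ed e0 r (etgt Ed e)
  · rw [if_pos hlt, if_pos hlt]
    exact Or.inl ⟨rfl, rfl⟩
  · rw [if_neg hlt, if_neg hlt]
    exact Or.inr ⟨rfl, rfl⟩

theorem lev_of {f : {p // p ∈ Ed}} (hf : f ≠ e0) {u b : Fin N ⊕ Fin N}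
    (he : (esrc Ed f = u ∧ etgt Ed f = b) ∨ (esrc Ed f = b ∧ etgt Ed f = u))
    (h1 : Dd Ed e0 r u + 1 = Dd Ed e0 r b) (h2 : Dd Ed e0 r b ≤ r) :
    lev Ed e0 r f = Dd Ed e0 r b ∧ low Ed e0 r f = b ∧ up Ed e0 r f = u := by
  unfold lev low up
  rcases he with ⟨rfl, rfl⟩ | ⟨rfl, rfl⟩
  · have hlt : Dd Ed e0 r (esrc Ed f) < Dd Ed e0 r (etgt Ed f) := by omega
    rw [if_pos hlt, if_pos hlt, max_eq_right hlt.le, if_pos ⟨hf, h2⟩]
    exact ⟨rfl, rfl, rfl⟩
  · have hlt : ¬ Dd Ed e0 r (esrc Ed f) < Dd Ed e0 r (etgt Ed f) := by omega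
    rw [if_neg hlt, if_neg hlt, max_eq_left (not_lt.1 hlt), if_pos ⟨hf, h2⟩]
    exact ⟨rfl, rfl, rfl⟩

theorem low_inj' (hG : NoShort (gr Ed) (2 * r)) {e e' : {p // p ∈ Ed}}
    (h : lev Ed e0 r e ≠ 0) (h' : lev Ed e0 r e' ≠ 0)
    (hl : low Ed e0 r e = low Ed e0 r e') : e = e' := by
  obtain ⟨-, h1, h2, h3, h4⟩ := lev_spec h
  obtain ⟨-, h1', h2', h3', h4'⟩ := lev_spec h'
  rw [← hl] at h1' h4'
  have hu : up Ed e0 r e = up Ed e0 r e' := by
    refine dd_uniq (SimpleGraph.deleteEdges_le _) hG (r := r) (x := esrc Ed e0) ?_ h4 h4' ?_ ?_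
    · change Dd Ed e0 r (low Ed e0 r e) ≤ r
      omega
    · change Dd Ed e0 r (up Ed e0 r e) + 1 = Dd Ed e0 r (low Ed e0 r e)
      omega
    · change Dd Ed e0 r (up Ed e0 r e') + 1 = Dd Ed e0 r (low Ed e0 r e)
      omega
  rcases ends_spec (e0 := e0) (r := r) e with ⟨a1, a2⟩ | ⟨a1, a2⟩ <;>
    rcases ends_spec (e0 := e0) (r := r) e' with ⟨b1, b2⟩ | ⟨b1, b2⟩
  · exact ends_inj (by rw [a1, b1, hu]) (by rw [a2, b2, hl])
  · exact absurd (show esrc Ed e' = etgt Ed e by rw [b1, a2, hl]) (src_ne_tgt _ _)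
  · exact absurd (show esrc Ed e = etgt Ed e' by rw [a1, b2, hl]) (src_ne_tgt _ _)
  · exact ends_inj (by rw [a1, b1, hl]) (by rw [a2, b2, hu])

theorem par_one {e : {p // p ∈ Ed}} (h : lev Ed e0 r e = 1) :
    up Ed e0 r e = esrc Ed e0 ∧ par Ed e0 r e = e0 := by
  obtain ⟨-, -, h2, -, -⟩ := lev_spec (e := e) (e0 := e0) (r := r) (by omega)
  refine ⟨dd_zero (H := HH Ed e0) (r := r) ?_, ?_⟩
  · change Dd Ed e0 r (up Ed e0 r e) = 0
    omega
  · unfold par
    rw [if_pos h]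

theorem par_two {e : {p // p ∈ Ed}} (h : 2 ≤ lev Ed e0 r e) :
    lev Ed e0 r (par Ed e0 r e) ≠ 0 ∧ low Ed e0 r (par Ed e0 r e) = up Ed e0 r e := by
  obtain ⟨-, h1, h2, h3, h4⟩ := lev_spec (e := e) (e0 := e0) (r := r) (by omega)
  have hex : ∃ f, lev Ed e0 r f ≠ 0 ∧ low Ed e0 r f = up Ed e0 r e := by
    obtain ⟨u, hu1, hu2⟩ := dd_pred (H := HH Ed e0) (x := esrc Ed e0) (r := r) col hh_col
      (v := up Ed e0 r e) (by
        change Dd Ed e0 r (up Ed e0 r e) ≤ r
        omega) (by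
        change 1 ≤ Dd Ed e0 r (up Ed e0 r e)
        omega)
    obtain ⟨f, hf, hfe⟩ := hh_edge hu1
    obtain ⟨g1, g2, -⟩ := lev_of (r := r) hf hfe hu2 (by omega)
    exact ⟨f, by rw [g1]; omega, g2⟩
  have hp : par Ed e0 r e = hex.choose := by
    unfold par
    rw [if_neg (by omega), dif_pos hex]
  rw [hp]
  exact hex.choose_spec

theorem low_ne_root {e : {p // p ∈ Ed}} (h : lev Ed e0 r e ≠ 0) :
    low Ed e0 r e ≠ esrc Ed e0 := by
  intro hc
  obtain ⟨-, h1, -, -, -⟩ := lev_spec h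
  rw [hc] at h1
  have h2 : Dd Ed e0 r (esrc Ed e0) = 0 := dd_root
  omega

theorem low_ne_tgt (hr : 1 ≤ r) (hG : NoShort (gr Ed) (2 * r)) {e : {p // p ∈ Ed}}
    (h : lev Ed e0 r e ≠ 0) (hlt : lev Ed e0 r e < r) : low Ed e0 r e ≠ etgt Ed e0 := by
  intro hc
  obtain ⟨-, h1, -, -, -⟩ := lev_spec h
  rw [hc] at h1
  refine dd_end (gr_adj e0) hG hr ?_
  change Dd Ed e0 r (etgt Ed e0) < r
  omega

theorem other {f : {p // p ∈ Ed}} {v : Fin N ⊕ Fin N}
    (h : esrc Ed f = v ∨ etgt Ed f = v) :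
    ∃ b, (esrc Ed f = v ∧ etgt Ed f = b) ∨ (esrc Ed f = b ∧ etgt Ed f = v) := by
  rcases h with h | h
  · exact ⟨etgt Ed f, Or.inl ⟨h, rfl⟩⟩
  · exact ⟨esrc Ed f, Or.inr ⟨rfl, h⟩⟩

theorem adj_of {f : {p // p ∈ Ed}} (hf : f ≠ e0) {v b : Fin N ⊕ Fin N}
    (h : (esrc Ed f = v ∧ etgt Ed f = b) ∨ (esrc Ed f = b ∧ etgt Ed f = v)) :
    (HH Ed e0).Adj v b := by
  rcases h with ⟨rfl, rfl⟩ | ⟨rfl, rfl⟩
  · exact hh_adj hf
  · exact (hh_adj hf).symm

theorem low_edge' (hr : 1 ≤ r) (hG : NoShort (gr Ed) (2 * r)) {e f : {p // p ∈ Ed}}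
    (h : lev Ed e0 r e ≠ 0) (hlt : lev Ed e0 r e < r)
    (hf : esrc Ed f = low Ed e0 r e ∨ etgt Ed f = low Ed e0 r e) (hne : f ≠ e) :
    lev Ed e0 r f = lev Ed e0 r e + 1 ∧ par Ed e0 r f = e := by
  obtain ⟨-, h1, -, h3, -⟩ := lev_spec h
  have hfe : f ≠ e0 := by
    rintro rfl
    rcases hf with hf | hf
    · exact low_ne_root h hf.symm
    · exact low_ne_tgt hr hG h hlt hf.symm
  obtain ⟨b, hb⟩ := other hf
  have ha := adj_of hfe hb
  have hD := dd_adj (x := esrc Ed e0) (r := r) col hh_col ha (by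
    change Dd Ed e0 r (low Ed e0 r e) ≤ r
    omega)
  rcases hD with hD | hD
  · exfalso
    change Dd Ed e0 r b + 1 = Dd Ed e0 r (low Ed e0 r e) at hD
    obtain ⟨g1, g2, -⟩ := lev_of (r := r) hfe (u := b) (b := low Ed e0 r e) (by tauto) hD (by omega)
    exact hne (low_inj' hG (by rw [g1]; omega) h g2)
  · change Dd Ed e0 r (low Ed e0 r e) + 1 = Dd Ed e0 r b at hD
    obtain ⟨g1, g2, g3⟩ := lev_of (r := r) hfe (u := low Ed e0 r e) (b := b) hb hD (by omega)
    have g4 : lev Ed e0 r f = lev Ed e0 r e + 1 := by omega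
    obtain ⟨k1, k2⟩ := par_two (e := f) (e0 := e0) (r := r) (by omega)
    refine ⟨g4, low_inj' hG k1 h ?_⟩
    rw [k2, g3]

theorem root_edge' (hr : 1 ≤ r) {f : {p // p ∈ Ed}} (hf : f ≠ e0)
    (h : esrc Ed f = esrc Ed e0 ∨ etgt Ed f = esrc Ed e0) : lev Ed e0 r f = 1 := by
  obtain ⟨b, hb⟩ := other h
  have ha := adj_of hf hb
  have h0 : Dd Ed e0 r (esrc Ed e0) = 0 := dd_root
  have hD := dd_adj (x := esrc Ed e0) (r := r) col hh_col ha (by
    change Dd Ed e0 r (esrc Ed e0) ≤ r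
    omega)
  change Dd Ed e0 r b + 1 = Dd Ed e0 r (esrc Ed e0) ∨
    Dd Ed e0 r (esrc Ed e0) + 1 = Dd Ed e0 r b at hD
  rcases hD with hD | hD
  · omega
  · obtain ⟨g1, -, -⟩ := lev_of (r := r) hf hb hD (by omega)
    omega

theorem card_aux {E : Type} [Fintype E] {P Q : E → Prop} {I : DecidablePred P}
    {J : DecidablePred Q} (h : ∀ e, P e → Q e) :
    (@Finset.filter E P I univ).card ≤ (@Finset.filter E Q J univ).card := by
  refine card_le_card ?_
  intro e he
  have h1 := (@Finset.mem_filter E P I _ e).1 he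
  exact (@Finset.mem_filter E Q J _ e).2 ⟨mem_univ _, h e h1.2⟩

theorem deg_vertex {d : ℕ} (hd : MaxDeg Ed d) (v : Fin N ⊕ Fin N) :
    (univ.filter fun e : {p // p ∈ Ed} => esrc Ed e = v ∨ etgt Ed e = v).card ≤ d := by
  rcases v with i | j
  · refine le_trans ?_ (hd.1 i)
    refine card_le_card_of_injOn (fun e => e.1) ?_ (fun a _ b _ h => Subtype.ext h)
    intro e he
    rw [mem_coe, mem_filter] at he
    rw [mem_coe, mem_filter]
    refine ⟨e.2, ?_⟩
    rcases he.2 with h | h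
    · exact Sum.inl_injective h
    · exact absurd h Sum.inr_ne_inl
  · refine le_trans ?_ (hd.2 j)
    refine card_le_card_of_injOn (fun e => e.1) ?_ (fun a _ b _ h => Subtype.ext h)
    intro e he
    rw [mem_coe, mem_filter] at he
    rw [mem_coe, mem_filter]
    refine ⟨e.2, ?_⟩
    rcases he.2 with h | h
    · exact absurd h Sum.inl_ne_inr
    · exact Sum.inr_injective h

end edges

end BallExAux

open BallExAux

theorem ball_exists {N d r : ℕ} (hr : 1 ≤ r) (Ed : Finset (Fin N × Fin N)) (hd : MaxDeg Ed d)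
    (hG : NoShort (gr Ed) (2 * r)) (e0 : {p // p ∈ Ed}) :
    ∃ Bl : Ball (esrc Ed) (etgt Ed) e0 r, Bl.T.Deg d := by
  refine ⟨{
    T := {
      lev := lev Ed e0 r
      par := par Ed e0 r
      hpar := ?_ }
    up := up Ed e0 r
    low := low Ed e0 r
    lev0 := ?_
    lev_le := ?_
    ends := fun e _ => ends_spec e
    up_one := fun e h => par_one h
    up_par := fun e h => (par_two h).2.symm
    low_inj := fun e e' h h' hl => low_inj' hG h h' hl
    low_root := fun e h => low_ne_root h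
    tgt0_ne := fun h => src_ne_tgt _ _ h.symm
    tgt0 := fun e h hlt => low_ne_tgt hr hG h hlt
    root_edge := fun f hf h => root_edge' hr hf h
    low_edge := fun e f h hlt hf hne => low_edge' hr hG h hlt hf hne }, ?_⟩
  · intro e h
    by_cases h1 : lev Ed e0 r e = 1
    · rw [(par_one h1).2, h1]
      have h2 : lev Ed e0 r e0 = 0 := by
        by_contra hc
        exact (lev_spec hc).1 rfl
      rw [h2]
    · obtain ⟨k1, k2⟩ := par_two (e := e) (e0 := e0) (r := r) (by omega)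
      obtain ⟨-, a1, a2, -, -⟩ := lev_spec h
      obtain ⟨-, b1, -, -, -⟩ := lev_spec k1
      rw [k2] at b1
      omega
  · by_contra hc
    exact (lev_spec hc).1 rfl
  · intro e
    change lev Ed e0 r e ≤ r
    by_cases h : lev Ed e0 r e = 0
    · rw [h]
      exact Nat.zero_le _
    · exact (lev_spec h).2.2.2.1
  · intro f
    obtain ⟨v, hv⟩ : ∃ v, ∀ e, lev Ed e0 r e ≠ 0 → par Ed e0 r e = f → up Ed e0 r e = v := by
      by_cases hf : f = e0
      · refine ⟨esrc Ed e0, fun e h1 h2 => ?_⟩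
        by_cases h3 : lev Ed e0 r e = 1
        · exact (par_one h3).1
        · exfalso
          obtain ⟨k1, -⟩ := par_two (e := e) (e0 := e0) (r := r) (by omega)
          rw [h2, hf] at k1
          exact (lev_spec k1).1 rfl
      · refine ⟨low Ed e0 r f, fun e h1 h2 => ?_⟩
        by_cases h3 : lev Ed e0 r e = 1
        · exact absurd (h2.symm.trans (par_one h3).2) hf
        · obtain ⟨-, k2⟩ := par_two (e := e) (e0 := e0) (r := r) (by omega)
          rw [← k2, h2]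
    refine le_trans (card_aux ?_) (deg_vertex hd v)
    intro e he
    have h0 : lev Ed e0 r e ≠ 0 := he.1
    have h0' : par Ed e0 r e = f := he.2
    have h1 := hv e h0 h0'
    rcases ends_spec (e0 := e0) (r := r) e with ⟨a, -⟩ | ⟨-, a⟩
    · exact Or.inl (a.trans h1)
    · exact Or.inr (a.trans h1)

end Pool.Agent.P325ac
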