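import Mathlib
import Pool.Agent.Lib.P325ac.Defs

/-!
# P325ac.SysP (2.5 h): the percolation system of one chunk of levels

Let `L = L' + ℓ`, `ℓ ≥ 1`. `bl u = par^[ℓ] u`, `view σ u = if lev u = L then vlook par σ ℓ u else some false`,
`co b σ = fun e => if L' < lev e ∧ lev e ≤ L ∧ par^[lev e - L'] e = b then σ e else none`.
For `lev u = L` let `u_i = par^[i] u` (`lev u_i = L - i`, `i < ℓ` are the edges read by `vlook par σ ℓ u`, all with
`par^[lev u_i - L'] u_i = bl u`). Kernel, for `lev u = L`: `T u a σ σ' = ∏ e, κ e (σ e) (σ' e)` where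
- `e = u_i`, `i + 1 < ℓ`: `κ none none = 2θ/(1+θ)`, `κ none (some a) = (1-θ)/(1+θ)`, else `0`;
- `e = u_{ℓ-1}`: `κ none (some a) = 1`, else `0`;
- other `e` with `lev e = L' + 1`, `par e = bl u`: `κ s s' = if s' = some (s.getD a) then 1 else 0`;
- all other `e`: `κ s s' = if s = s' then 1 else 0`;
for `lev u ≠ L`: `T u a = 0`. (`u_i` are different for different `i`: different levels.)
`T_nonneg` clear (`0 ≤ θ < 1`). `co_view`: `lev u ≠ L`: constant; otherwise `view` reads `σ` at the `u_i`, `i < ℓ`.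
`T_co`: the edges changed have `L' < lev e ≤ L` and `par^[lev e - L'] e = bl u`; `T ≠ 0` forces `σ e = σ' e` for all others, so
`co b` is unchanged for `b ≠ bl u`.
`T_view`: `T ≠ 0` (so `lev u = L`, `σ u_i = none` for all `i < ℓ`), `bl u' = bl u`. If `lev u' ≠ L`: view is `some false` for both,
`some ((some false).getD a) = some false`. Let `lev u' = L`, path `u'_i`. If `view σ u' = some c`: let `j` be the first index with `σ u'_j ≠ none`
(`j < ℓ`), `σ u'_j = some c`. For `i < j`: `σ' u'_i = σ u'_i = none`, unless `u'_i` is one of the `u_k` (same level: `k = i`), but then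
`u'_j = u_j` (`par` iterates), `σ u_j = none`, contradiction; or `i = ℓ - 1`, impossible since `i < j < ℓ`. At `j`: `u'_j ≠ u_j`
(`σ u_j = none`), so `σ' u'_j = some c` (third or fourth kind). So `view σ' u' = some c`. If `view σ u' = none`: all `σ u'_i = none`; every
`σ' u'_i` is `none` or `some a` and `σ' u'_{ℓ-1} = some a` (second or third kind: `par u'_{ℓ-1} = bl u' = bl u`), so
`view σ' u' = some a`.
`T_sum`: `view σ u = none` gives `lev u = L` and `σ u_i = none`, `∑ σ', ∏ e, κ e (σ e) (σ' e) = ∏ e, ∑ s', κ e (σ e) s' = 1`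
(`Finset.prod_univ_sum`): every factor is `1` (`2θ/(1+θ) + (1-θ)/(1+θ) = 1`).
`TI`, `μ σ = (∏ e, w3 θ (σ e)) * ind (hi T L σ = τ)`: if `lev u ≠ L` trivial. `T u a σ σ' ≠ 0` implies `hi T L σ = hi T L σ'` (changed edges
have `lev ≤ L`), so it suffices that `∑ σ, (∏ e, w3 θ (σ e)) * T u a σ σ' ≤ p * ∏ e, w3 θ (σ' e)`; the left side is
`∏ e, ∑ s, w3 θ s * κ e s (σ' e)` and `∑ s, w3 θ s * κ e s s' ≤ c e * w3 θ s'` with `c e = 2θ/(1+θ)` (first kind: for `s' = none`:
`θ * 2θ/(1+θ)`; for `s' = some a`: `θ (1-θ)/(1+θ) = (2θ/(1+θ)) (1-θ)/2`), `c e = (1+θ)/(1-θ)` (second kind: `θ ≤ (1+θ)/(1-θ) * (1-θ)/2`;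
third kind: `s' = some a`: `θ + (1-θ)/2 = (1+θ)/2`; `s' = some (!a)`: `(1-θ)/2`), `c e = 1` (fourth kind). There are `ℓ - 1` edges of the
first kind and at most `D` of the second and third together (`hD` for `f = bl u`), `(1+θ)/(1-θ) ≥ 1`.
-/

open Finset
open scoped BigOperators Classical

namespace Pool.Agent.P325ac

/-- The first closed edge among `e, par e, ...` (`n` edges). -/
def vlook {E : Type} (par : E → E) (σ : E → Option Bool) : ℕ → E → Option Bool
  | 0, _ => none
  | n + 1, e => match σ e with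
    | some c => some c
    | none => vlook par σ n (par e)

theorem look_eq {E : Type} (par : E → E) (σ : E → Option Bool) (Y : E → Bool) (n : ℕ) (e : E) :
    look par σ Y n e = (vlook par σ n e).getD (Y (par^[n] e)) := by
  induction n generalizing e with
  | zero => rfl
  | succ n ih =>
    rw [look, vlook, ih (par e), Function.iterate_succ_apply]
    cases σ e with
    | none => rfl
    | some c => rfl

namespace SysPAux

variable {E : Type}

theorem vlook_none {par : E → E} {σ : E → Option Bool} {n : ℕ} {e : E}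
    (h : ∀ i < n, σ (par^[i] e) = none) : vlook par σ n e = none := by
  induction n generalizing e with
  | zero => rfl
  | succ n ih =>
    have h0 : σ e = none := h 0 (Nat.succ_pos n)
    rw [vlook, h0]
    exact ih fun i hi => h (i + 1) (Nat.succ_lt_succ hi)

theorem none_of_vlook {par : E → E} {σ : E → Option Bool} {n : ℕ} {e : E}
    (h : vlook par σ n e = none) : ∀ i < n, σ (par^[i] e) = none := by
  induction n generalizing e with
  | zero => intro i hi; omega
  | succ n ih =>
    rw [vlook] at h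
    cases h0 : σ e with
    | some c => rw [h0] at h; simp at h
    | none =>
      rw [h0] at h
      intro i hi
      cases i with
      | zero => exact h0
      | succ i => exact ih h i (by omega)

theorem vlook_n {par : E → E} {σ : E → Option Bool} {n : ℕ} {e : E} (h : σ e = none) :
    vlook par σ (n + 1) e = vlook par σ n (par e) := by
  rw [vlook, h]

theorem vlook_s {par : E → E} {σ : E → Option Bool} {n : ℕ} {e : E} {c : Bool}
    (h : σ e = some c) : vlook par σ (n + 1) e = some c := by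
  rw [vlook, h]

theorem vlook_congr {par : E → E} {σ σ' : E → Option Bool} {n : ℕ} {e : E}
    (h : ∀ i < n, σ (par^[i] e) = σ' (par^[i] e)) : vlook par σ n e = vlook par σ' n e := by
  induction n generalizing e with
  | zero => rfl
  | succ n ih =>
    have h0 : σ e = σ' e := h 0 (Nat.succ_pos n)
    rw [vlook, vlook, h0, ih fun i hi => h (i + 1) (Nat.succ_lt_succ hi)]

theorem lev_iter (T : Tree E) {n : ℕ} {e : E} (h : T.lev e = n) (i : ℕ) (hi : i ≤ n) :
    T.lev (T.par^[i] e) = n - i := by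
  induction i with
  | zero => simpa using h
  | succ i ih =>
    have h1 := ih (by omega)
    rw [Function.iterate_succ_apply']
    have h2 := T.hpar (T.par^[i] e) (by omega)
    omega

/-- the edges read by `u` except for the last one -/
def Fst (T : Tree E) (ℓ : ℕ) (u e : E) : Prop := ∃ i, i + 1 < ℓ ∧ e = T.par^[i] u

/-- the edges of the first level of the block of `u` -/
def Lst (T : Tree E) (L' ℓ : ℕ) (u e : E) : Prop := T.lev e = L' + 1 ∧ T.par e = T.par^[ℓ] u

/-- one factor of the kernel -/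
noncomputable def kap (T : Tree E) (θ : ℝ) (L' ℓ : ℕ) (u : E) (a : Bool) (e : E)
    (s s' : Option Bool) : ℝ :=
  if Fst T ℓ u e then
    (if s = none then
      (if s' = none then 2 * θ / (1 + θ) else if s' = some a then (1 - θ) / (1 + θ) else 0)
      else 0)
  else if e = T.par^[ℓ - 1] u then (if s = none ∧ s' = some a then 1 else 0)
  else if Lst T L' ℓ u e then (if s' = some (s.getD a) then 1 else 0)
  else if s = s' then 1 else 0

theorem kap_nonneg (T : Tree E) {θ : ℝ} (h0 : 0 ≤ θ) (h1 : θ < 1) (L' ℓ : ℕ) (u : E) (a : Bool)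
    (e : E) (s s' : Option Bool) : 0 ≤ kap T θ L' ℓ u a e s s' := by
  have h2 : 0 ≤ 2 * θ / (1 + θ) := by positivity
  have h3 : 0 ≤ (1 - θ) / (1 + θ) := div_nonneg (by linarith) (by linarith)
  unfold kap
  split_ifs <;> first | exact h2 | exact h3 | exact zero_le_one | exact le_rfl

/-- what the kernel does -/
structure Good (T : Tree E) (L' ℓ : ℕ) (u : E) (a : Bool) (σ σ' : E → Option Bool) : Prop where
  f1 : ∀ i < ℓ, σ (T.par^[i] u) = none
  f2 : ∀ e, (¬ ∃ i < ℓ, e = T.par^[i] u) → ¬ Lst T L' ℓ u e → σ' e = σ e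
  f3 : ∀ e, Lst T L' ℓ u e → σ' e = some ((σ e).getD a)
  f4 : ∀ i, i + 1 < ℓ → σ' (T.par^[i] u) = none ∨ σ' (T.par^[i] u) = some a

theorem lst_last (T : Tree E) {L' ℓ : ℕ} (hℓ : 1 ≤ ℓ) {u : E} (hu : T.lev u = L' + ℓ) :
    Lst T L' ℓ u (T.par^[ℓ - 1] u) := by
  refine ⟨?_, ?_⟩
  · rw [lev_iter T hu _ (by omega)]
    omega
  · rw [← Function.iterate_succ_apply' T.par]
    congr 2
    omega

theorem not_fst (T : Tree E) {L' ℓ : ℕ} {u : E} (hu : T.lev u = L' + ℓ) {e : E}
    (he : T.lev e = L' + 1) : ¬ Fst T ℓ u e := by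
  rintro ⟨i, hi, rfl⟩
  rw [lev_iter T hu _ (by omega)] at he
  omega

theorem good_of {T : Tree E} {θ : ℝ} {L' ℓ : ℕ} (hℓ : 1 ≤ ℓ) {u : E} {a : Bool}
    (hu : T.lev u = L' + ℓ) {σ σ' : E → Option Bool}
    (h : ∀ e, kap T θ L' ℓ u a e (σ e) (σ' e) ≠ 0) : Good T L' ℓ u a σ σ' := by
  have h1 : ∀ i < ℓ, σ (T.par^[i] u) = none := by
    intro i hi
    have h2 := h (T.par^[i] u)
    unfold kap at h2
    by_cases hF : Fst T ℓ u (T.par^[i] u)
    · rw [if_pos hF] at h2
      by_contra hc
      rw [if_neg hc] at h2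
      exact h2 rfl
    · have hi' : i = ℓ - 1 := by
        by_contra hc
        exact hF ⟨i, by omega, rfl⟩
      rw [if_neg hF, if_pos (by rw [hi'])] at h2
      by_contra hc
      rw [if_neg (fun h3 => hc h3.1)] at h2
      exact h2 rfl
  refine ⟨h1, ?_, ?_, ?_⟩
  · intro e he hL
    have h2 := h e
    unfold kap at h2
    rw [if_neg (fun ⟨i, hi, h3⟩ => he ⟨i, by omega, h3⟩),
      if_neg (fun h3 => he ⟨ℓ - 1, by omega, h3⟩), if_neg hL] at h2
    by_contra hc
    rw [if_neg (fun h3 => hc h3.symm)] at h2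
    exact h2 rfl
  · intro e he
    have h2 := h e
    unfold kap at h2
    rw [if_neg (not_fst T hu he.1)] at h2
    by_cases hl : e = T.par^[ℓ - 1] u
    · rw [if_pos hl] at h2
      by_contra hc
      have h3 : ¬ (σ e = none ∧ σ' e = some a) := by
        rintro ⟨h4, h5⟩
        rw [h4] at hc
        exact hc h5
      rw [if_neg h3] at h2
      exact h2 rfl
    · rw [if_neg hl, if_pos he] at h2
      by_contra hc
      rw [if_neg hc] at h2
      exact h2 rfl
  · intro i hi
    have h2 := h (T.par^[i] u)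
    unfold kap at h2
    rw [if_pos ⟨i, hi, rfl⟩, if_pos (h1 i (by omega))] at h2
    by_contra hc
    push Not at hc
    rw [if_neg hc.1, if_neg hc.2] at h2
    exact h2 rfl

theorem Good.view {T : Tree E} {L' ℓ : ℕ} {u : E} {a : Bool}
    (hu : T.lev u = L' + ℓ) {σ σ' : E → Option Bool} (hg : Good T L' ℓ u a σ σ') (n : ℕ) :
    ∀ x, T.lev x = L' + (n + 1) → T.par^[n + 1] x = T.par^[ℓ] u → n + 1 ≤ ℓ →
      vlook T.par σ' (n + 1) x = some ((vlook T.par σ (n + 1) x).getD a) := by
  induction n with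
  | zero =>
    intro x hx hb _
    have h1 := hg.f3 x ⟨hx, hb⟩
    rw [vlook_s h1]
    cases hs : σ x with
    | none => rw [vlook_n hs, vlook]
    | some c => rw [vlook_s hs, Option.getD_some]
  | succ n ih =>
    intro x hx hb hn
    have hpx := T.hpar x (by omega)
    have hIH := ih (T.par x) (by omega) hb (by omega)
    by_cases hP : ∃ i < ℓ, x = T.par^[i] u
    · obtain ⟨i, hi, hxi⟩ := hP
      have hli := lev_iter T hu i (by omega)
      rw [← hxi] at hli
      have h1 : vlook T.par σ (n + 1 + 1) x = none := by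
        apply vlook_none
        intro j hj
        rw [hxi, ← Function.iterate_add_apply]
        exact hg.f1 _ (by omega)
      have h2 : vlook T.par σ (n + 1) (T.par x) = none := by
        apply vlook_none
        intro j hj
        have h3 := none_of_vlook h1 (j + 1) (by omega)
        exact h3
      rw [h2] at hIH
      rw [h1]
      have h4 := hg.f4 i (by omega)
      rw [← hxi] at h4
      rcases h4 with h4 | h4
      · rw [vlook_n h4]
        exact hIH
      · rw [vlook_s h4]
        rfl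
    · have h1 := hg.f2 x hP (fun hL => by have := hL.1; omega)
      cases hs : σ x with
      | none =>
        rw [vlook_n hs, vlook_n (h1.trans hs)]
        exact hIH
      | some c =>
        rw [vlook_s hs, vlook_s (h1.trans hs)]
        rfl

theorem sum_kap (T : Tree E) {θ : ℝ} (h0 : 0 ≤ θ) (L' ℓ : ℕ) (u : E) (a : Bool)
    (e : E) (s : Option Bool) (hs : (∃ i < ℓ, e = T.par^[i] u) → s = none) (hℓ : 1 ≤ ℓ) :
    ∑ s', kap T θ L' ℓ u a e s s' = 1 := by
  have h2 : 1 + θ ≠ 0 := by linarith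
  unfold kap
  by_cases hF : Fst T ℓ u e
  · have hs' : s = none := hs (by obtain ⟨i, hi, h3⟩ := hF; exact ⟨i, by omega, h3⟩)
    subst hs'
    simp only [if_pos hF, if_true]
    rw [Fintype.sum_option, Fintype.sum_bool]
    cases a
    · simp only [if_true, reduceCtorEq, if_false, Option.some.injEq, zero_add,
        Bool.true_eq_false]
      field_simp
      ring
    · simp only [if_true, reduceCtorEq, if_false, Option.some.injEq, add_zero,
        Bool.false_eq_true]
      field_simp
      ring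
  · simp only [if_neg hF]
    by_cases hl : e = T.par^[ℓ - 1] u
    · have hs' : s = none := hs ⟨ℓ - 1, by omega, hl⟩
      subst hs'
      simp [if_pos hl]
    · simp only [if_neg hl]
      by_cases hL : Lst T L' ℓ u e
      · simp [if_pos hL]
      · simp [if_neg hL]

theorem kap_le (T : Tree E) {θ : ℝ} (h0 : 0 ≤ θ) (h1 : θ < 1) {L' ℓ : ℕ} (hℓ : 1 ≤ ℓ) {u : E}
    (hu : T.lev u = L' + ℓ) (a : Bool) (e : E) (s' : Option Bool) :
    ∑ s, w3 θ s * kap T θ L' ℓ u a e s s' ≤
      ((if Fst T ℓ u e then 2 * θ / (1 + θ) else 1) *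
        (if Lst T L' ℓ u e then (1 + θ) / (1 - θ) else 1)) * w3 θ s' := by
  have h2 : 0 < 1 + θ := by linarith
  have h3 : 0 < 1 - θ := by linarith
  have hx : 0 ≤ 2 * θ / (1 + θ) := by positivity
  have hy : 1 ≤ (1 + θ) / (1 - θ) := by
    rw [le_div_iff₀ h3]
    linarith
  have hyy : (1 + θ) / (1 - θ) * ((1 - θ) / 2) = (1 + θ) / 2 := by
    field_simp
  rw [Fintype.sum_option, Fintype.sum_bool]
  have hw : ∀ b, w3 θ (some b) = (1 - θ) / 2 := fun b => by simp [w3]
  have hw0 : w3 θ none = θ := by simp [w3]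
  have hws : 0 ≤ w3 θ s' := by
    cases s' with
    | none => rw [hw0]; exact h0
    | some b => rw [hw]; linarith
  rw [hw, hw, hw0]
  by_cases hF : Fst T ℓ u e
  · have hk : ∀ b, kap T θ L' ℓ u a e (some b) s' = 0 := fun b => by simp [kap, hF]
    rw [hk, hk, if_pos hF]
    have hm : 2 * θ / (1 + θ) * w3 θ s' ≤
        2 * θ / (1 + θ) * (if Lst T L' ℓ u e then (1 + θ) / (1 - θ) else 1) * w3 θ s' := by
      apply mul_le_mul_of_nonneg_right _ hws
      split_ifs
      · nlinarith
      · rw [mul_one]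
    refine le_trans ?_ hm
    rw [mul_zero, add_zero, add_zero]
    cases s' with
    | none =>
      rw [hw0]
      simp only [kap, if_pos hF, if_true]
      rw [mul_comm]
    | some b =>
      rw [hw]
      have hk2 : kap T θ L' ℓ u a e none (some b) ≤ (1 - θ) / (1 + θ) := by
        simp only [kap, if_pos hF, if_true, reduceCtorEq, if_false]
        split_ifs
        · exact le_rfl
        · exact div_nonneg h3.le h2.le
      calc θ * kap T θ L' ℓ u a e none (some b) ≤ θ * ((1 - θ) / (1 + θ)) :=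
            mul_le_mul_of_nonneg_left hk2 h0
        _ = 2 * θ / (1 + θ) * ((1 - θ) / 2) := by field_simp
  · rw [if_neg hF, one_mul]
    by_cases hl : e = T.par^[ℓ - 1] u
    · have hL : Lst T L' ℓ u e := by rw [hl]; exact lst_last T hℓ hu
      rw [if_pos hL]
      have hk : ∀ b, kap T θ L' ℓ u a e (some b) s' = 0 := fun b => by
        simp only [kap, if_neg hF, if_pos hl]
        simp
      rw [hk, hk, mul_zero, add_zero, add_zero]
      cases s' with
      | none =>
        have hk2 : kap T θ L' ℓ u a e none none = 0 := by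
          simp only [kap, if_neg hF, if_pos hl]
          simp
        rw [hk2, mul_zero, hw0]
        exact mul_nonneg (by linarith) h0
      | some b =>
        rw [hw, hyy]
        have hk2 : kap T θ L' ℓ u a e none (some b) ≤ 1 := by
          simp only [kap, if_neg hF, if_pos hl]
          split_ifs
          · exact le_rfl
          · exact zero_le_one
        calc θ * kap T θ L' ℓ u a e none (some b) ≤ θ * 1 := mul_le_mul_of_nonneg_left hk2 h0
          _ ≤ (1 + θ) / 2 := by linarith
    · by_cases hL : Lst T L' ℓ u e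
      · rw [if_pos hL]
        simp only [kap, if_neg hF, if_neg hl, if_pos hL]
        cases s' with
        | none =>
          simp only [reduceCtorEq, if_false, mul_zero, add_zero]
          exact mul_nonneg (by linarith) hws
        | some b =>
          rw [hw, hyy]
          cases a <;> cases b <;> simp <;> linarith
      · rw [if_neg hL, one_mul]
        simp only [kap, if_neg hF, if_neg hl, if_neg hL]
        cases s' with
        | none => simp [hw0]
        | some b =>
          rw [hw]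
          cases b <;> simp

variable [Fintype E]

theorem sum_prod (f : E → Option Bool → ℝ) :
    ∑ σ : E → Option Bool, ∏ e, f e (σ e) = ∏ e, ∑ s, f e s := by
  rw [Finset.prod_univ_sum, Fintype.piFinset_univ]

/-- the kernel -/
noncomputable def ker (T : Tree E) (θ : ℝ) (L' ℓ : ℕ) (u : E) (a : Bool)
    (σ σ' : E → Option Bool) : ℝ :=
  if T.lev u = L' + ℓ then ∏ e, kap T θ L' ℓ u a e (σ e) (σ' e) else 0

theorem ker_ne {T : Tree E} {θ : ℝ} {L' ℓ : ℕ} (hℓ : 1 ≤ ℓ) {u : E} {a : Bool}
    {σ σ' : E → Option Bool} (h : ker T θ L' ℓ u a σ σ' ≠ 0) :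
    T.lev u = L' + ℓ ∧ Good T L' ℓ u a σ σ' := by
  unfold ker at h
  by_cases hu : T.lev u = L' + ℓ
  · rw [if_pos hu] at h
    exact ⟨hu, good_of hℓ hu fun e => (Finset.prod_ne_zero_iff.1 h) e (mem_univ e)⟩
  · rw [if_neg hu] at h
    exact absurd rfl h

/-- the system -/
noncomputable def sysP (T : Tree E) {θ : ℝ} (h0 : 0 ≤ θ) (h1 : θ < 1) (L' : ℕ) {ℓ : ℕ}
    (hℓ : 1 ≤ ℓ) : Sys E E (E → Option Bool) (E → Option Bool) where
  bl u := T.par^[ℓ] u
  view σ u := if T.lev u = L' + ℓ then vlook T.par σ ℓ u else some false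
  co b σ := fun e =>
    if L' < T.lev e ∧ T.lev e ≤ L' + ℓ ∧ T.par^[T.lev e - L'] e = b then σ e else none
  T := ker T θ L' ℓ
  T_nonneg := by
    intro u a σ σ'
    unfold ker
    split_ifs
    · exact Finset.prod_nonneg fun e _ => kap_nonneg T h0 h1 _ _ _ _ _ _ _
    · exact le_rfl
  co_view := by
    intro σ σ' u h
    by_cases hu : T.lev u = L' + ℓ
    · rw [if_pos hu, if_pos hu]
      apply vlook_congr
      intro i hi
      have h2 := congrFun h (T.par^[i] u)
      have h3 := lev_iter T hu i (by omega)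
      have h4 : L' < T.lev (T.par^[i] u) ∧ T.lev (T.par^[i] u) ≤ L' + ℓ ∧
          T.par^[T.lev (T.par^[i] u) - L'] (T.par^[i] u) = T.par^[ℓ] u := by
        refine ⟨by omega, by omega, ?_⟩
        rw [← Function.iterate_add_apply, h3]
        congr 2
        omega
      rw [if_pos h4, if_pos h4] at h2
      exact h2
    · rw [if_neg hu, if_neg hu]
  T_co := by
    intro u a σ σ' h b hb
    obtain ⟨hu, hg⟩ := ker_ne hℓ h
    funext e
    split_ifs with he
    · apply hg.f2
      · rintro ⟨i, hi, hei⟩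
        apply hb
        have h3 := lev_iter T hu i (by omega)
        rw [← hei] at h3
        rw [← he.2.2, h3, hei, ← Function.iterate_add_apply]
        congr 2
        omega
      · intro hL
        apply hb
        rw [← he.2.2, hL.1, ← hL.2]
        have h5 : L' + 1 - L' = 1 := by omega
        rw [h5]
        rfl
    · rfl
  T_view := by
    intro u a σ σ' h u' hu'
    obtain ⟨hu, hg⟩ := ker_ne hℓ h
    by_cases hl : T.lev u' = L' + ℓ
    · rw [if_pos hl, if_pos hl]
      obtain ⟨n, rfl⟩ : ∃ n, ℓ = n + 1 := ⟨ℓ - 1, by omega⟩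
      exact hg.view hu n u' hl hu' le_rfl
    · rw [if_neg hl, if_neg hl]
      rfl
  T_sum := by
    intro u a σ h
    by_cases hu : T.lev u = L' + ℓ
    · rw [if_pos hu] at h
      unfold ker
      simp only [if_pos hu]
      rw [sum_prod (fun e s' => kap T θ L' ℓ u a e (σ e) s')]
      rw [Finset.prod_eq_one]
      intro e _
      apply sum_kap T h0 L' ℓ u a e (σ e) _ hℓ
      rintro ⟨i, hi, rfl⟩
      exact none_of_vlook h i hi
    · rw [if_neg hu] at h
      exact absurd h (by simp)

theorem prod_ite_card (p : E → Prop) (x : ℝ) :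
    ∏ e, (if p e then x else 1) = x ^ (univ.filter p).card := by
  rw [Finset.prod_ite, Finset.prod_const, Finset.prod_const_one, mul_one]

theorem ti (T : Tree E) (D : ℕ) (hD : T.Deg D) {θ : ℝ} (h0 : 0 ≤ θ) (h1 : θ < 1) (L' : ℕ)
    {ℓ : ℕ} (hℓ : 1 ≤ ℓ) (τ : E → Option Bool) (b : E) :
    TI (sysP T h0 h1 L' hℓ) ((2 * θ / (1 + θ)) ^ (ℓ - 1) * ((1 + θ) / (1 - θ)) ^ D)
      (fun σ => (∏ e, w3 θ (σ e)) * ind (hi T (L' + ℓ) σ = τ)) b := by
  intro u _ a σ'
  have hw : ∀ s, 0 ≤ w3 θ s := by
    intro s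
    unfold w3
    split_ifs <;> linarith
  have hind : ∀ p : Prop, 0 ≤ ind p := by
    intro p
    unfold ind
    split_ifs <;> simp
  have h2 : 0 < 1 + θ := by linarith
  have h3 : 0 < 1 - θ := by linarith
  have hx : 0 ≤ 2 * θ / (1 + θ) := by positivity
  have hx1 : 2 * θ / (1 + θ) ≤ 1 := by
    rw [div_le_one h2]
    linarith
  have hy : 1 ≤ (1 + θ) / (1 - θ) := by
    rw [le_div_iff₀ h3]
    linarith
  have hp : 0 ≤ (2 * θ / (1 + θ)) ^ (ℓ - 1) * ((1 + θ) / (1 - θ)) ^ D :=
    mul_nonneg (pow_nonneg hx _) (pow_nonneg (by linarith) _)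
  have hprod : ∀ σ : E → Option Bool, 0 ≤ ∏ e, w3 θ (σ e) :=
    fun σ => Finset.prod_nonneg fun e _ => hw _
  change ∑ σ, ((∏ e, w3 θ (σ e)) * ind (hi T (L' + ℓ) σ = τ)) * ker T θ L' ℓ u a σ σ' ≤
    (2 * θ / (1 + θ)) ^ (ℓ - 1) * ((1 + θ) / (1 - θ)) ^ D *
      ((∏ e, w3 θ (σ' e)) * ind (hi T (L' + ℓ) σ' = τ))
  by_cases hu : T.lev u = L' + ℓ
  swap
  · have : ∀ σ, ker T θ L' ℓ u a σ σ' = 0 := fun σ => by
      unfold ker
      rw [if_neg hu]
    simp only [this, mul_zero, Finset.sum_const_zero]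
    exact mul_nonneg hp (mul_nonneg (hprod _) (hind _))
  have hterm : ∀ σ, ((∏ e, w3 θ (σ e)) * ind (hi T (L' + ℓ) σ = τ)) * ker T θ L' ℓ u a σ σ' =
      ind (hi T (L' + ℓ) σ' = τ) * ∏ e, (w3 θ (σ e) * kap T θ L' ℓ u a e (σ e) (σ' e)) := by
    intro σ
    by_cases hk : ker T θ L' ℓ u a σ σ' = 0
    · rw [hk, mul_zero, Finset.prod_mul_distrib]
      unfold ker at hk
      rw [if_pos hu] at hk
      rw [hk, mul_zero, mul_zero]
    · obtain ⟨-, hg⟩ := ker_ne hℓ hk
      have hhi : hi T (L' + ℓ) σ = hi T (L' + ℓ) σ' := by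
        funext e
        unfold hi
        split_ifs with he
        · symm
          apply hg.f2
          · rintro ⟨i, hi, rfl⟩
            rw [lev_iter T hu i (by omega)] at he
            omega
          · intro hL
            have := hL.1
            omega
        · rfl
      rw [hhi, Finset.prod_mul_distrib]
      unfold ker
      rw [if_pos hu]
      ring
  rw [Finset.sum_congr rfl fun σ _ => hterm σ, ← Finset.mul_sum,
    sum_prod (fun e s => w3 θ s * kap T θ L' ℓ u a e s (σ' e))]
  have hle : ∏ e, ∑ s, w3 θ s * kap T θ L' ℓ u a e s (σ' e) ≤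
      (2 * θ / (1 + θ)) ^ (ℓ - 1) * ((1 + θ) / (1 - θ)) ^ D * ∏ e, w3 θ (σ' e) := by
    refine (Finset.prod_le_prod (fun e _ => Finset.sum_nonneg fun s _ =>
      mul_nonneg (hw s) (kap_nonneg T h0 h1 _ _ _ _ _ _ _))
      (fun e _ => kap_le T h0 h1 hℓ hu a e (σ' e))).trans ?_
    rw [Finset.prod_mul_distrib, Finset.prod_mul_distrib, prod_ite_card, prod_ite_card]
    apply mul_le_mul_of_nonneg_right _ (hprod _)
    apply mul_le_mul _ _ (pow_nonneg (by linarith) _) (pow_nonneg hx _)
    · apply pow_le_pow_of_le_one hx hx1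
      have hinj : Set.InjOn (fun i => T.par^[i] u) (Finset.range (ℓ - 1) : Set ℕ) := by
        intro i hi j hj hij
        simp only [Finset.coe_range, Set.mem_Iio] at hi hj
        simp only at hij
        have h5 := lev_iter T hu i (by omega)
        have h6 := lev_iter T hu j (by omega)
        rw [hij] at h5
        omega
      have h7 := Finset.card_le_card_of_injOn (s := Finset.range (ℓ - 1))
        (t := univ.filter (Fst T ℓ u)) (fun i => T.par^[i] u)
        (fun i hi => by
          have hi' := Finset.mem_range.1 (Finset.mem_coe.1 hi)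
          exact Finset.mem_coe.2 (Finset.mem_filter.2 ⟨mem_univ _, i, by omega, rfl⟩)) hinj
      rwa [Finset.card_range] at h7
    · apply pow_le_pow_right₀ hy
      refine (Finset.card_le_card ?_).trans (hD (T.par^[ℓ] u))
      intro e he
      have h8 := (Finset.mem_filter.1 he).2
      exact Finset.mem_filter.2 ⟨mem_univ _, by rw [h8.1]; omega, h8.2⟩
  calc ind (hi T (L' + ℓ) σ' = τ) * ∏ e, ∑ s, w3 θ s * kap T θ L' ℓ u a e s (σ' e)
      ≤ ind (hi T (L' + ℓ) σ' = τ) *
        ((2 * θ / (1 + θ)) ^ (ℓ - 1) * ((1 + θ) / (1 - θ)) ^ D * ∏ e, w3 θ (σ' e)) :=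
        mul_le_mul_of_nonneg_left hle (hind _)
    _ = _ := by ring

end SysPAux

open SysPAux

theorem perc_sys {E : Type} [Fintype E] (T : Tree E) (D : ℕ) (hD : T.Deg D) (θ : ℝ) (h0 : 0 ≤ θ)
    (h1 : θ < 1) (L' ℓ : ℕ) (hℓ : 1 ≤ ℓ) :
    ∃ S : Sys E E (E → Option Bool) (E → Option Bool),
      (∀ u, S.bl u = T.par^[ℓ] u) ∧
      (∀ σ u, S.view σ u = if T.lev u = L' + ℓ then vlook T.par σ ℓ u else some false) ∧
      (∀ (τ : E → Option Bool) (b : E),
        TI S ((2 * θ / (1 + θ)) ^ (ℓ - 1) * ((1 + θ) / (1 - θ)) ^ D)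
          (fun σ => (∏ e, w3 θ (σ e)) * ind (hi T (L' + ℓ) σ = τ)) b) := by
  exact ⟨sysP T h0 h1 L' hℓ, fun _ => rfl, fun _ _ => rfl, ti T D hD h0 h1 L' hℓ⟩

end Pool.Agent.P325ac
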