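import Mathlib
import Pool.Agent.Lib.P325ac.Defs
import Pool.Agent.Lib.P325ac.Sw
import Pool.Agent.Lib.P325ac.SysP

/-!
# P325ac.Chunk (0.4 h): one chunk of levels

`switching` for the system of `perc_sys`, `π = fun _ => none`, `w = t`, exponent `t + 1`,
`μ σ = (∏ e, w3 θ (σ e)) * ind (hi T (L' + ℓ) σ = τ)`:
`rs S π σ (evalD F) = fun Y => evalD F (fun u => if lev u = L' + ℓ then look par σ Y ℓ u else false)` by `look_eq`
(`vw S π σ u = view σ u` as `π = none`).
-/

open Finset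
open scoped BigOperators Classical

namespace Pool.Agent.P325ac

theorem chunk {E : Type} [Fintype E] (T : Tree E) (D : ℕ) (hD : T.Deg D) (θ : ℝ) (h0 : 0 ≤ θ)
    (h1 : θ < 1) (L' ℓ t : ℕ) (hℓ : 1 ≤ ℓ)
    (hp : 8 * t * ((2 * θ / (1 + θ)) ^ (ℓ - 1) * ((1 + θ) / (1 - θ)) ^ D) ≤ 1)
    (F : List (List (E × Bool))) (hF : ∀ C ∈ F, C.length ≤ t) (τ : E → Option Bool) :
    ∑ σ : E → Option Bool, (∏ e, w3 θ (σ e)) * ind (hi T (L' + ℓ) σ = τ) *
        ind (¬ DT (t + 1) (fun Y : E → Bool =>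
          evalD F (fun u => if T.lev u = L' + ℓ then look T.par σ Y ℓ u else false)))
      ≤ (1 / 2) ^ (t + 1) *
        ∑ σ : E → Option Bool, (∏ e, w3 θ (σ e)) * ind (hi T (L' + ℓ) σ = τ) := by
  obtain ⟨S, hbl, hview, hTI⟩ := perc_sys T D hD θ h0 h1 L' ℓ hℓ
  have h2 : 0 ≤ 2 * θ / (1 + θ) := by positivity
  have h3 : 0 ≤ (1 + θ) / (1 - θ) := div_nonneg (by linarith) (by linarith)
  have hμ : ∀ σ : E → Option Bool, 0 ≤ (∏ e, w3 θ (σ e)) * ind (hi T (L' + ℓ) σ = τ) := by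
    intro σ
    refine mul_nonneg (Finset.prod_nonneg fun e _ => ?_) ?_
    · unfold w3
      split_ifs
      · exact h0
      · linarith
    · unfold ind
      split_ifs <;> norm_num
  have key := switching S ((2 * θ / (1 + θ)) ^ (ℓ - 1) * ((1 + θ) / (1 - θ)) ^ D)
    (mul_nonneg (pow_nonneg h2 _) (pow_nonneg h3 _)) t hp F hF (fun _ => none)
    (fun σ => (∏ e, w3 θ (σ e)) * ind (hi T (L' + ℓ) σ = τ)) hμ (fun b _ => hTI τ b) (t + 1)
  have hrs : ∀ σ : E → Option Bool, rs S (fun _ => none) σ (evalD F) = fun Y : E → Bool =>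
      evalD F (fun u => if T.lev u = L' + ℓ then look T.par σ Y ℓ u else false) := by
    intro σ
    funext Y
    unfold rs
    congr 1
    funext u
    have hvw : vw S (fun _ => none) σ u = S.view σ u := by
      unfold vw
      cases S.view σ u <;> rfl
    rw [hvw, hview, hbl]
    by_cases hl : T.lev u = L' + ℓ
    · rw [if_pos hl, if_pos hl, look_eq]
    · rw [if_neg hl, if_neg hl]
      rfl
  simp only [hrs] at key
  exact key

end Pool.Agent.P325ac
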