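import Mathlib
import Pool.Agent.Lib.P325ac.Base

/-!
# P325ac.Circ: substitution in circuits
-/

namespace Pool.Agent.P325ac

theorem IsCirc.subst {X Y G : Type} {inp : (X → Bool) → Prop} {lv : G → ℕ}
    {val : G → X → Bool} (hc : IsCirc inp lv val) (φ : Y → X) :
    IsCirc (fun f' => ∃ f, inp f ∧ f' = fun y => f (φ y)) lv (fun g y => val g (φ y)) := by
  intro g
  obtain ⟨W, hW, h⟩ := hc g
  refine ⟨{f' | ∃ f ∈ W, f' = fun y => f (φ y)}, ?_, ?_⟩
  · rintro f' ⟨f, hf, rfl⟩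
    rcases hW f hf with h1 | ⟨g', hg', h2 | h2⟩
    · exact Or.inl ⟨f, h1, rfl⟩
    · exact Or.inr ⟨g', hg', Or.inl (by rw [h2])⟩
    · exact Or.inr ⟨g', hg', Or.inr (by rw [h2])⟩
  · rcases h with h | h
    · left
      intro y
      rw [h]
      constructor
      · rintro ⟨f, hf, hfy⟩
        exact ⟨_, ⟨f, hf, rfl⟩, hfy⟩
      · rintro ⟨f', ⟨f, hf, rfl⟩, hfy⟩
        exact ⟨f, hf, hfy⟩
    · right
      intro y
      rw [h]
      constructor
      · rintro h1 f' ⟨f, hf, rfl⟩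
        exact h1 f hf
      · intro h1 f hf
        exact h1 _ ⟨f, hf, rfl⟩

/-- Two copies of a circuit (or several): the gates `(g, a)` compute `val g ∘ φ a`. -/
theorem IsCirc.copies {X Y G A : Type} {inp : (X → Bool) → Prop} {lv : G → ℕ}
    {val : G → X → Bool} (hc : IsCirc inp lv val) (φ : A → Y → X) :
    IsCirc (fun f' => ∃ f a, inp f ∧ f' = fun y => f (φ a y)) (fun p : G × A => lv p.1)
      (fun p y => val p.1 (φ p.2 y)) := by
  rintro ⟨g, a⟩
  obtain ⟨W, hW, h⟩ := hc.subst (φ a) g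
  refine ⟨W, ?_, h⟩
  intro f hf
  rcases hW f hf with ⟨f0, h1, h2⟩ | ⟨g', hg', h2⟩
  · exact Or.inl ⟨f0, a, h1, h2⟩
  · exact Or.inr ⟨(g', a), hg', h2⟩

end Pool.Agent.P325ac
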