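import Mathlib
import Pool.Agent.Lib.P325ac.Defs
import Pool.Agent.Lib.P325ac.PE

/-!
# P325ac.Cond (0.8 h): from `multi` to conditioned probability weights

`multi src tgt k θ f = ∑ c, w c * f c` with `w c = pe .. (fun ω => ind ((fun e i => cob ..) = c)) ≥ 0`, `∑ c, w c = 1`. Let `P c` be the event,
`a = ∑ c, w c * ind (P c) ≥ 1 - η > 0`, `μ c = w c * ind (P c) / a`. For `0 ≤ f ≤ 1`: `a ∑ μ f = ∑ w ind(P) f`, and
`∑ w f = a ∑ μ f + ∑ w ind(¬P) f`, with `0 ≤ ∑ w ind(¬P) f ≤ 1 - a`, so `|∑ μ f - ∑ w f| = |(1 - a) ∑ μ f - ∑ w ind(¬P) f| ≤ 1 - a ≤ η`.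
-/

open Finset
open scoped BigOperators Classical

namespace Pool.Agent.P325ac

namespace CondAux

theorem ind_nonneg (p : Prop) : 0 ≤ ind p := by
  unfold ind
  split_ifs <;> norm_num

theorem ind_le_one (p : Prop) : ind p ≤ 1 := by
  unfold ind
  split_ifs <;> norm_num

theorem ind_add_not (p : Prop) : ind p + ind (¬ p) = 1 := by
  unfold ind
  by_cases h : p
  · rw [if_pos h, if_neg (not_not.2 h), add_zero]
  · rw [if_neg h, if_pos h, zero_add]

theorem gen {C : Type} [Fintype C] (w : C → ℝ) (hw : ∀ c, 0 ≤ w c) (hs : ∑ c, w c = 1)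
    (P : C → Prop) (η : ℝ) (hη : η < 1) (hP : 1 - η ≤ ∑ c, w c * ind (P c)) :
    ∃ μ : C → ℝ, IsProb μ ∧ (∀ c, μ c ≠ 0 → P c) ∧
      ∀ f : C → ℝ, (∀ c, 0 ≤ f c) → (∀ c, f c ≤ 1) →
        |∑ c, μ c * f c - ∑ c, w c * f c| ≤ η := by
  obtain ⟨a, ha⟩ : ∃ a, a = ∑ c, w c * ind (P c) := ⟨_, rfl⟩
  have ha0 : 0 < a := by rw [ha]; linarith
  have hη' : 1 - a ≤ η := by rw [ha]; linarith
  refine ⟨fun c => w c * ind (P c) / a, ⟨fun c => ?_, ?_⟩, fun c hc => ?_, fun f hf0 hf1 => ?_⟩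
  · exact div_nonneg (mul_nonneg (hw c) (ind_nonneg _)) ha0.le
  · rw [← Finset.sum_div, ← ha, div_self ha0.ne']
  · by_contra hn
    refine hc ?_
    have : ind (P c) = 0 := by
      unfold ind
      rw [if_neg hn]
    show w c * ind (P c) / a = 0
    rw [this, mul_zero, zero_div]
  · obtain ⟨F, hF⟩ : ∃ F, F = ∑ c, w c * ind (P c) * f c := ⟨_, rfl⟩
    obtain ⟨R, hR⟩ : ∃ R, R = ∑ c, w c * ind (¬ P c) * f c := ⟨_, rfl⟩
    have h1 : ∑ c, w c * ind (P c) / a * f c = F / a := by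
      rw [hF, Finset.sum_div]
      exact Finset.sum_congr rfl fun c _ => by ring
    have h2 : ∑ c, w c * f c = F + R := by
      rw [hF, hR, ← Finset.sum_add_distrib]
      refine Finset.sum_congr rfl fun c _ => ?_
      rw [← add_mul, ← mul_add, ind_add_not, mul_one]
    have hF0 : 0 ≤ F := by
      rw [hF]
      exact Finset.sum_nonneg fun c _ => mul_nonneg (mul_nonneg (hw c) (ind_nonneg _)) (hf0 c)
    have hFa : F ≤ a := by
      rw [hF, ha]
      refine Finset.sum_le_sum fun c _ => ?_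
      exact mul_le_of_le_one_right (mul_nonneg (hw c) (ind_nonneg _)) (hf1 c)
    have hR0 : 0 ≤ R := by
      rw [hR]
      exact Finset.sum_nonneg fun c _ => mul_nonneg (mul_nonneg (hw c) (ind_nonneg _)) (hf0 c)
    have hRa : R ≤ 1 - a := by
      have h3 : R ≤ ∑ c, w c * ind (¬ P c) := by
        rw [hR]
        refine Finset.sum_le_sum fun c _ => ?_
        exact mul_le_of_le_one_right (mul_nonneg (hw c) (ind_nonneg _)) (hf1 c)
      have h4 : a + ∑ c, w c * ind (¬ P c) = 1 := by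
        rw [ha, ← hs, ← Finset.sum_add_distrib]
        refine Finset.sum_congr rfl fun c _ => ?_
        rw [← mul_add, ind_add_not, mul_one]
      linarith
    have ha1 : a ≤ 1 := by linarith
    have h5 : F / a - F = F / a * (1 - a) := by
      field_simp
    have h6 : F / a ≤ 1 := (div_le_one ha0).2 hFa
    have h7 : 0 ≤ F / a := div_nonneg hF0 ha0.le
    have h8 : F / a * (1 - a) ≤ 1 - a := mul_le_of_le_one_left (by linarith) h6
    have h9 : 0 ≤ F / a * (1 - a) := mul_nonneg h7 (by linarith)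
    rw [h1, h2, abs_le]
    constructor <;> linarith

end CondAux

theorem cond_multi {V E : Type} [Fintype V] [Fintype E] (src tgt : E → V) (k : ℕ) (θ : ℝ)
    (h0 : 0 ≤ θ) (h1 : θ ≤ 1) (P : (E → Fin k → Bool) → Prop) (η : ℝ) (hη : η < 1)
    (hP : 1 - η ≤ multi src tgt k θ (fun c => ind (P c))) :
    ∃ μ : (E → Fin k → Bool) → ℝ, IsProb μ ∧ (∀ c, μ c ≠ 0 → P c) ∧
      ∀ f : (E → Fin k → Bool) → ℝ, (∀ c, 0 ≤ f c) → (∀ c, f c ≤ 1) →
        |∑ c, μ c * f c - multi src tgt k θ f| ≤ η := by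
  have key : ∃ w : (E → Fin k → Bool) → ℝ, (∀ c, 0 ≤ w c) ∧ ∑ c, w c = 1 ∧
      ∀ f : (E → Fin k → Bool) → ℝ, multi src tgt k θ f = ∑ c, w c * f c := by
    obtain ⟨W, hW⟩ : ∃ W : Fin k → (V → Bool) × (E → Bool) → ℝ,
      W = fun _ s => (∏ v, wn 0 (s.1 v)) * ∏ e, wn θ (s.2 e) := ⟨_, rfl⟩
    have hW0 : ∀ i s, 0 ≤ W i s := fun i s => by
      rw [hW]
      exact mul_nonneg (Finset.prod_nonneg fun v _ => wn_nonneg le_rfl zero_le_one _)
        (Finset.prod_nonneg fun e _ => wn_nonneg h0 h1 _)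
    have hW1 : ∀ i, ∑ s, W i s = 1 := fun i => by
      rw [hW, Fintype.sum_prod_type]
      have h2 : ∀ z : V → Bool, ∑ τ : E → Bool, (∏ v, wn 0 (z v)) * ∏ e, wn θ (τ e) =
          ∏ v, wn 0 (z v) := fun z => by
        rw [← Finset.mul_sum, PEAux.sum_W (W := fun _ : E => wn θ) (fun _ => wn_sum θ), mul_one]
      rw [Finset.sum_congr rfl fun z _ => h2 z]
      exact PEAux.sum_W (W := fun _ : V => wn 0) (fun _ => wn_sum 0)
    obtain ⟨G, hG⟩ : ∃ G : (Fin k → (V → Bool) × (E → Bool)) → E → Fin k → Bool,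
      G = fun ω e i => cob src tgt (ω i).1 (ω i).2 e := ⟨_, rfl⟩
    have hm : ∀ f, multi src tgt k θ f = pe W (fun ω => f (G ω)) := fun f => by
      rw [hW, hG]
      rfl
    have h3 : ∀ f : (E → Fin k → Bool) → ℝ, multi src tgt k θ f =
        ∑ c, pe W (fun ω => ind (G ω = c)) * f c := fun f => by
      rw [hm f]
      have h4 : ∀ ω, f (G ω) = ∑ c, f c * ind (G ω = c) := fun ω => by
        rw [Finset.sum_eq_single (G ω)]
        · unfold ind
          rw [if_pos rfl, mul_one]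
        · intro c _ hc
          unfold ind
          rw [if_neg (Ne.symm hc), mul_zero]
        · intro hcon
          exact absurd (Finset.mem_univ _) hcon
      rw [show (fun ω => f (G ω)) = (fun ω => ∑ c, f c * ind (G ω = c)) from funext h4,
        pe_fsum univ W (fun c ω => f c * ind (G ω = c))]
      refine Finset.sum_congr rfl fun c _ => ?_
      rw [pe_mul, mul_comm]
    refine ⟨fun c => pe W (fun ω => ind (G ω = c)), fun c => pe_nonneg hW0 fun ω =>
      CondAux.ind_nonneg _, ?_, h3⟩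
    have h5 := h3 (fun _ => 1)
    rw [hm, pe_const hW1] at h5
    simp only [mul_one] at h5
    exact h5.symm
  obtain ⟨w, hw0, hw1, hw⟩ := key
  rw [hw] at hP
  obtain ⟨μ, hμ, hμP, hμf⟩ := CondAux.gen w hw0 hw1 P η hη hP
  refine ⟨μ, hμ, hμP, fun f hf0 hf1 => ?_⟩
  rw [hw f]
  exact hμf f hf0 hf1

end Pool.Agent.P325ac
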