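import Mathlib
import Pool.Agent.Lib.P325ac.Defs
import Pool.Agent.Lib.P325ac.TwoP

/-!
# P325ac.Extr (1.5 h): dense bipartite graphs without short cycles

Among all `Ed` with `MaxDeg Ed d` and `NoShort (gr Ed) (2 * r)` (the empty set is one: no edges, so no cycle; e.g. a cycle has an edge)
take one with the most elements (`Finset.exists_max_image` on the filtered powerset of `univ`). Suppose `2 * Ed.card < d * N`. The left vertices of
degree `< d`: if at most `N / 2` of them, then `Ed.card = ∑ i, deg i ≥ d * (number of vertices of degree d) ≥ d N / 2`. So more than `N / 2` left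
vertices are deficient, and more than `N / 2` right vertices. Fix a deficient left vertex `i`, `u = Sum.inl i`.
BALL: the number of vertices `v` with a walk of `gr Ed` from `u` to `v` of length exactly `n` is at most `d ^ n` (induction: every vertex has
at most `d` neighbours by `MaxDeg`), so at most `∑ n < 2 r, d ^ n < d ^ (2 r) ≤ N / 2` vertices have a walk from `u` of length `< 2 r`
(`d ≥ 2`). So there is a deficient right vertex `j`, `v = Sum.inr j`, with no walk of length `≤ 2 r - 1` from `u`; `(i, j) ∉ Ed`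
(`2 r - 1 ≥ 1`). `Ed' = insert (i, j) Ed`: `MaxDeg`; `gr Ed' = gr Ed ⊔ edge u v`; a cycle of `gr Ed'` of length `≤ 2 r` gives by `cycle_add` a
cycle of the same length in `gr Ed` (contradiction to `NoShort`) or a walk from `u` to `v` of length `≤ 2 r - 1` (contradiction). So `Ed'`
contradicts the maximality.
-/

open Finset
open scoped BigOperators Classical

namespace Pool.Agent.P325ac

namespace ExtrAux

/-- more than half of the vertices on one side are deficient -/
theorem deficient {N d : ℕ} (hd : 0 < d) (Ed : Finset (Fin N × Fin N)) (g : Fin N × Fin N → Fin N)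
    (h : 2 * Ed.card < d * N) :
    N < 2 * (univ.filter (fun i : Fin N => (Ed.filter (fun p => g p = i)).card < d)).card := by
  have h1 : Ed.card = ∑ i : Fin N, (Ed.filter (fun p => g p = i)).card :=
    Finset.card_eq_sum_card_fiberwise (fun _ _ => mem_univ _)
  have h2 : ∑ _i : Fin N, d ≤ ∑ i : Fin N, ((Ed.filter (fun p => g p = i)).card +
      if (Ed.filter (fun p => g p = i)).card < d then d else 0) := by
    refine Finset.sum_le_sum fun i _ => ?_
    split_ifs with h3
    · omega
    · omega
  rw [Finset.sum_add_distrib, ← h1, ← Finset.sum_filter, Finset.sum_const, Finset.sum_const,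
    smul_eq_mul, smul_eq_mul, Finset.card_univ, Fintype.card_fin] at h2
  by_contra hcon
  push Not at hcon
  have h4 := Nat.mul_le_mul_left d hcon
  nlinarith

/-- the neighbours -/
noncomputable def nb {V : Type} [Fintype V] (G : SimpleGraph V) (v : V) : Finset V :=
  univ.filter (fun w => G.Adj v w)

/-- the ends of the walks of length `n` -/
noncomputable def ball {V : Type} [Fintype V] (G : SimpleGraph V) : ℕ → V → Finset V
  | 0, a => {a}
  | n + 1, a => (nb G a).biUnion (ball G n)

theorem ball_card {V : Type} [Fintype V] (G : SimpleGraph V) {d : ℕ}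
    (h : ∀ v, (nb G v).card ≤ d) : ∀ (n : ℕ) (a : V), (ball G n a).card ≤ d ^ n := by
  intro n
  induction n with
  | zero => intro a; simp [ball]
  | succ n ih =>
    intro a
    unfold ball
    refine (Finset.card_biUnion_le_card_mul _ _ _ (fun v _ => ih v)).trans ?_
    rw [pow_succ, mul_comm]
    exact Nat.mul_le_mul_left _ (h a)

theorem mem_ball {V : Type} [Fintype V] (G : SimpleGraph V) {a b : V} (p : G.Walk a b) :
    b ∈ ball G p.length a := by
  induction p with
  | nil => simp [ball]
  | cons h p ih =>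
    rw [SimpleGraph.Walk.length_cons]
    unfold ball
    rw [Finset.mem_biUnion]
    exact ⟨_, by simp [nb, h], ih⟩

theorem nb_card {N d : ℕ} {Ed : Finset (Fin N × Fin N)} (h : MaxDeg Ed d) (v : Fin N ⊕ Fin N) :
    (nb (gr Ed) v).card ≤ d := by
  rcases v with i | j
  · have h1 : nb (gr Ed) (Sum.inl i) ⊆ (Ed.filter (fun p => p.1 = i)).image
        (fun p => (Sum.inr p.2 : Fin N ⊕ Fin N)) := by
      intro w hw
      rw [nb, Finset.mem_filter] at hw
      rcases hw.2 with ⟨p, hp, e1, e2⟩ | ⟨p, hp, e1, e2⟩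
      · rw [Finset.mem_image]
        exact ⟨p, Finset.mem_filter.2 ⟨hp, (Sum.inl.inj e1).symm⟩, e2.symm⟩
      · exact absurd e1 (by simp)
    exact (Finset.card_le_card h1).trans (Finset.card_image_le.trans (h.1 i))
  · have h1 : nb (gr Ed) (Sum.inr j) ⊆ (Ed.filter (fun p => p.2 = j)).image
        (fun p => (Sum.inl p.1 : Fin N ⊕ Fin N)) := by
      intro w hw
      rw [nb, Finset.mem_filter] at hw
      rcases hw.2 with ⟨p, hp, e1, e2⟩ | ⟨p, hp, e1, e2⟩
      · exact absurd e1 (by simp)
      · rw [Finset.mem_image]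
        exact ⟨p, Finset.mem_filter.2 ⟨hp, (Sum.inr.inj e1).symm⟩, e2.symm⟩
    exact (Finset.card_le_card h1).trans (Finset.card_image_le.trans (h.2 j))

theorem gr_insert {N : ℕ} (Ed : Finset (Fin N × Fin N)) (i j : Fin N) :
    gr (insert (i, j) Ed) = gr Ed ⊔ SimpleGraph.edge (Sum.inl i) (Sum.inr j) := by
  ext u v
  rw [SimpleGraph.sup_adj, SimpleGraph.edge_adj]
  constructor
  · rintro (⟨p, hp, e1, e2⟩ | ⟨p, hp, e1, e2⟩)
    · rcases Finset.mem_insert.1 hp with rfl | hp
      · right
        rw [e1, e2]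
        simp
      · exact Or.inl (Or.inl ⟨p, hp, e1, e2⟩)
    · rcases Finset.mem_insert.1 hp with rfl | hp
      · right
        rw [e1, e2]
        simp
      · exact Or.inl (Or.inr ⟨p, hp, e1, e2⟩)
  · rintro ((⟨p, hp, e1, e2⟩ | ⟨p, hp, e1, e2⟩) | ⟨⟨e1, e2⟩ | ⟨e1, e2⟩, -⟩)
    · exact Or.inl ⟨p, Finset.mem_insert_of_mem hp, e1, e2⟩
    · exact Or.inr ⟨p, Finset.mem_insert_of_mem hp, e1, e2⟩
    · exact Or.inl ⟨(i, j), Finset.mem_insert_self _ _, e1, e2⟩
    · exact Or.inr ⟨(i, j), Finset.mem_insert_self _ _, e1, e2⟩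

theorem filter_insert_le {N d : ℕ} (Ed : Finset (Fin N × Fin N)) (g : Fin N × Fin N → Fin N)
    (q : Fin N × Fin N) (h : ∀ i, (Ed.filter (fun p => g p = i)).card ≤ d)
    (hq : (Ed.filter (fun p => g p = g q)).card < d) (i : Fin N) :
    ((insert q Ed).filter (fun p => g p = i)).card ≤ d := by
  rw [Finset.filter_insert]
  split_ifs with h1
  · subst h1
    exact (Finset.card_insert_le _ _).trans hq
  · exact h i

end ExtrAux

open ExtrAux in
theorem extr {N d r : ℕ} (hd : 2 ≤ d) (hr : 1 ≤ r) (hN : 2 * d ^ (2 * r) ≤ N) :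
    ∃ Ed : Finset (Fin N × Fin N), d * N ≤ 2 * Ed.card ∧ MaxDeg Ed d ∧
      NoShort (gr Ed) (2 * r) := by
  obtain ⟨Ed, hEd, hmax⟩ := Finset.exists_max_image
    ((univ : Finset (Finset (Fin N × Fin N))).filter
      (fun Ed => MaxDeg Ed d ∧ NoShort (gr Ed) (2 * r))) Finset.card (by
      refine ⟨∅, ?_⟩
      rw [Finset.mem_filter]
      refine ⟨mem_univ _, ⟨fun i => by simp, fun i => by simp⟩, fun v c hc => ?_⟩
      exfalso
      cases c with
      | nil => exact hc.ne_nil rfl
      | cons h p =>
        rcases h with ⟨q, hq, -⟩ | ⟨q, hq, -⟩ <;> simp at hq)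
  rw [Finset.mem_filter] at hEd
  obtain ⟨-, hM, hS⟩ := hEd
  refine ⟨Ed, ?_, hM, hS⟩
  by_contra hcon
  push Not at hcon
  have hd0 : 0 < d := by omega
  have hL := deficient hd0 Ed Prod.fst hcon
  have hR := deficient hd0 Ed Prod.snd hcon
  obtain ⟨i, hi⟩ : (univ.filter (fun i : Fin N =>
      (Ed.filter (fun p => p.1 = i)).card < d)).Nonempty := by
    rw [← Finset.card_pos]
    omega
  rw [Finset.mem_filter] at hi
  obtain ⟨T, hT⟩ : ∃ T, T = (Finset.range (2 * r)).biUnion
    (fun n => ball (gr Ed) n (Sum.inl i)) := ⟨_, rfl⟩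
  have hTc : T.card < d ^ (2 * r) := by
    rw [hT]
    refine (Finset.card_biUnion_le).trans_lt ?_
    refine (Finset.sum_le_sum (fun n _ => ball_card (gr Ed) (nb_card hM) n (Sum.inl i))).trans_lt ?_
    exact Nat.geomSum_lt hd (fun k hk => Finset.mem_range.1 hk)
  have hcard : T.card < ((univ.filter (fun j : Fin N =>
      (Ed.filter (fun p => p.2 = j)).card < d)).image
        (fun j => (Sum.inr j : Fin N ⊕ Fin N))).card := by
    rw [Finset.card_image_of_injective _ Sum.inr_injective]
    omega
  obtain ⟨v, hv, hvT⟩ := Finset.exists_mem_notMem_of_card_lt_card hcard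
  rw [Finset.mem_image] at hv
  obtain ⟨j, hj, rfl⟩ := hv
  rw [Finset.mem_filter] at hj
  have hwalk : ∀ p : (gr Ed).Walk (Sum.inl i) (Sum.inr j), 2 * r ≤ p.length := by
    intro p
    by_contra h
    push Not at h
    apply hvT
    rw [hT, Finset.mem_biUnion]
    exact ⟨p.length, Finset.mem_range.2 h, mem_ball (gr Ed) p⟩
  have hij : (i, j) ∉ Ed := by
    intro h
    have hadj : (gr Ed).Adj (Sum.inl i) (Sum.inr j) := Or.inl ⟨(i, j), h, rfl, rfl⟩
    have h1 := hwalk (SimpleGraph.Walk.cons hadj SimpleGraph.Walk.nil)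
    simp at h1
    omega
  have hmem : insert (i, j) Ed ∈ (univ : Finset (Finset (Fin N × Fin N))).filter
      (fun Ed => MaxDeg Ed d ∧ NoShort (gr Ed) (2 * r)) := by
    rw [Finset.mem_filter]
    refine ⟨mem_univ _, ⟨filter_insert_le Ed Prod.fst (i, j) hM.1 hi.2,
      filter_insert_le Ed Prod.snd (i, j) hM.2 hj.2⟩, ?_⟩
    rw [gr_insert]
    intro w c hc
    rcases cycle_add (gr Ed) (by simp) c hc with ⟨x, c', hc', hl⟩ | ⟨p, hp⟩
    · rw [← hl]
      exact hS x c' hc'
    · have := hwalk p
      omega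
  have h2 := hmax _ hmem
  rw [Finset.card_insert_of_notMem hij] at h2
  omega

end Pool.Agent.P325ac
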