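import Mathlib

/-!
# P325ac.Fin: the real inequality at the end
-/

namespace Pool.Agent.P325ac

/-- The real inequality at the end. -/
theorem final_ineq (k d h w t s N r m : ℕ) (ε δ L A B0 e0 : ℝ) (hk : 7 ≤ k) (hd : 17 ≤ d)
    (hε : 0 < ε) (hε1 : ε < 1) (hδ1 : δ < 1) (hh : 1 ≤ h) (hw : 1 ≤ w)
    (hs : 1 ≤ s) (hN : 1 ≤ N) (hr : N < 2 * (d ^ 2) ^ (r + 1))
    (hm : 8 * (N : ℝ) ≤ δ * m)
    (hL : L = w + Real.log ((s : ℝ) * N))
    (ht1 : 1 ≤ t) (ht : (t : ℝ) ≤ 5 * L)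
    (hA : A = 1024 * (((1 + (1 - ε / k)) / (1 - (1 - ε / k))) ^ d) ^ 2 * (32 / (ε / k)))
    (hB0 : B0 = 5 * k + 2 / ε + 1)
    (he0 : e0 = ε / (2 * k * Real.log d)) :
    Real.exp (-(ε * m / 10)) + k * (2 * t ^ 2 * (1 - ε / k) ^ r *
          (1024 * t ^ 2 * (((1 + (1 - ε / k)) / (1 - (1 - ε / k))) ^ d) ^ 2 *
            (32 * t / (1 - (1 - ε / k)))) ^ h + 1 / N) + Real.exp (-(δ * m / 8))
      ≤ (5 * (B0 * A) * L) ^ (5 * h) / (N : ℝ) ^ e0 := by
  have hkR : (7 : ℝ) ≤ k := by exact_mod_cast hk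
  have hdR : (17 : ℝ) ≤ d := by exact_mod_cast hd
  have hNR : (1 : ℝ) ≤ N := by exact_mod_cast hN
  have hk0 : (0 : ℝ) < k := by linarith
  have hNpos : (0 : ℝ) < N := by linarith
  have hlogd : 1 ≤ Real.log d := by
    rw [Real.le_log_iff_exp_le (by linarith)]
    have := Real.exp_one_lt_d9
    linarith
  have hlogd0 : 0 < Real.log d := by linarith
  have hlogN : 0 ≤ Real.log N := Real.log_nonneg hNR
  have hεk : 0 < ε / k := by positivity
  have hεk1 : ε / k ≤ 1 / 7 := by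
    rw [div_le_div_iff₀ hk0 (by norm_num)]
    nlinarith
  have he0pos : 0 < e0 := by rw [he0]; positivity
  have he01 : e0 ≤ 1 := by
    rw [he0, div_le_one (by positivity)]
    nlinarith
  -- the power of N
  set P : ℝ := (N : ℝ) ^ e0 with hP
  have hPpos : 0 < P := Real.rpow_pos_of_pos hNpos _
  have hPN : P ≤ N := by
    calc P ≤ (N : ℝ) ^ (1 : ℝ) := Real.rpow_le_rpow_of_exponent_le hNR he01
      _ = N := Real.rpow_one _
  have h1N : 1 / (N : ℝ) ≤ 1 / P := one_div_le_one_div_of_le hPpos hPN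
  -- rho ^ r
  have hρr : (1 - ε / k) ^ r ≤ 2 / P := by
    have e1 : (1 - ε / k) ≤ Real.exp (-(ε / k)) := by
      have := Real.add_one_le_exp (-(ε / k)); linarith
    have e2 : (1 - ε / k) ^ r ≤ Real.exp (-(ε / k)) ^ r :=
      pow_le_pow_left₀ (by linarith) e1 r
    rw [← Real.exp_nat_mul] at e2
    have e3 : Real.log N ≤ (2 * r + 3) * Real.log d := by
      have hNd : (N : ℝ) ≤ (d : ℝ) ^ (2 * r + 3) := by
        have q1 : (N : ℝ) < 2 * ((d : ℝ) ^ 2) ^ (r + 1) := by exact_mod_cast hr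
        have q2 : ((d : ℝ) ^ 2) ^ (r + 1) = (d : ℝ) ^ (2 * r + 2) := by
          rw [← pow_mul]; ring_nf
        rw [q2] at q1
        have q3 : (d : ℝ) ^ (2 * r + 3) = d * (d : ℝ) ^ (2 * r + 2) := by ring
        rw [q3]
        have q4 : (0 : ℝ) < (d : ℝ) ^ (2 * r + 2) := by positivity
        nlinarith
      have := Real.log_le_log hNpos hNd
      rw [Real.log_pow] at this
      push_cast at this
      exact this
    have e4 : (r : ℝ) * (-(ε / k)) ≤ 3 / 14 - e0 * Real.log N := by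
      have q1 : e0 * Real.log N ≤ (ε / k) * (r + 3 / 2) := by
        have : e0 * Real.log N ≤ e0 * ((2 * r + 3) * Real.log d) :=
          mul_le_mul_of_nonneg_left e3 he0pos.le
        have q2 : e0 * ((2 * r + 3) * Real.log d) = (ε / k) * (r + 3 / 2) := by
          rw [he0]; field_simp
        linarith
      nlinarith
    have e5 : (1 - ε / k) ^ r ≤ Real.exp (3 / 14 - e0 * Real.log N) :=
      e2.trans (Real.exp_le_exp.mpr e4)
    have e6 : Real.exp (3 / 14 - e0 * Real.log N) = Real.exp (3 / 14) / P := by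
      rw [Real.exp_sub, hP, Real.rpow_def_of_pos hNpos, mul_comm e0]
    rw [e6] at e5
    refine e5.trans ?_
    apply div_le_div_of_nonneg_right _ hPpos.le
    have q := Real.exp_one_lt_d9
    have q2 : Real.exp (3 / 14) ≤ Real.exp (Real.log 2) := by
      apply Real.exp_le_exp.mpr
      have := Real.log_two_gt_d9
      linarith
    rwa [Real.exp_log (by norm_num)] at q2
  -- the exponentials
  have hmR : 8 * (N : ℝ) ≤ m := by
    have : δ * m ≤ 1 * m := mul_le_mul_of_nonneg_right hδ1.le (Nat.cast_nonneg m)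
    linarith
  have hexp : ∀ x : ℝ, 0 < x → Real.exp (-x) ≤ 1 / x := by
    intro x hx
    rw [Real.exp_neg, ← one_div]
    apply one_div_le_one_div_of_le hx
    have := Real.add_one_le_exp x
    linarith
  have hex1 : Real.exp (-(ε * m / 10)) ≤ (2 / ε) / P := by
    have q1 : 0 < ε * m / 10 := by
      have : (0 : ℝ) < m := by linarith
      positivity
    have q2 := hexp _ q1
    have q3 : 1 / (ε * m / 10) ≤ (2 / ε) * (1 / N) := by
      have : (2 / ε) * (1 / (N : ℝ)) = 1 / (ε * N / 2) := by field_simp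
      rw [this]
      apply one_div_le_one_div_of_le (by positivity)
      have : ε * (8 * N) ≤ ε * m := mul_le_mul_of_nonneg_left hmR hε.le
      have hNe : 0 < ε * N := by positivity
      linarith
    have q4 : (2 / ε) * (1 / (N : ℝ)) ≤ (2 / ε) * (1 / P) :=
      mul_le_mul_of_nonneg_left h1N (by positivity)
    calc _ ≤ _ := q2
      _ ≤ _ := q3
      _ ≤ _ := q4
      _ = _ := by ring
  have hex2 : Real.exp (-(δ * m / 8)) ≤ 1 / P := by
    have q1 : (N : ℝ) ≤ δ * m / 8 := by linarith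
    have q2 := hexp (δ * m / 8) (by linarith)
    refine q2.trans (le_trans ?_ h1N)
    exact one_div_le_one_div_of_le hNpos q1
  -- the main term
  have hρρ : 1 - (1 - ε / (k : ℝ)) = ε / k := by ring
  have htR : (1 : ℝ) ≤ t := by exact_mod_cast ht1
  have hA1 : 1 ≤ A := by
    rw [hA, hρρ]
    have q1 : 1 ≤ ((1 + (1 - ε / k)) / (ε / k)) ^ d := by
      apply one_le_pow₀
      rw [le_div_iff₀ hεk]
      linarith
    have q2 : 1 ≤ (((1 + (1 - ε / k)) / (ε / k)) ^ d) ^ 2 := one_le_pow₀ q1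
    have q3 : 1 ≤ 32 / (ε / k) := by
      rw [le_div_iff₀ hεk]
      linarith
    nlinarith [mul_le_mul q2 q3 (by norm_num) (by linarith : (0:ℝ) ≤ (((1 + (1 - ε / k)) / (ε / k)) ^ d) ^ 2)]
  have hB1 : 1 ≤ B0 := by
    rw [hB0]
    have : 0 < 2 / ε := by positivity
    linarith
  have hmain : (1024 * (t : ℝ) ^ 2 * (((1 + (1 - ε / k)) / (1 - (1 - ε / k))) ^ d) ^ 2 *
            (32 * t / (1 - (1 - ε / k)))) = A * t ^ 3 := by
    rw [hA]; ring
  rw [hmain]
  have hAt : 1 ≤ A * (t : ℝ) ^ 3 := by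
    have : 1 ≤ (t : ℝ) ^ 3 := one_le_pow₀ htR
    nlinarith
  have hAth : 1 ≤ (A * (t : ℝ) ^ 3) ^ h := one_le_pow₀ hAt
  have ht2 : 1 ≤ (t : ℝ) ^ 2 := one_le_pow₀ htR
  set M : ℝ := (t : ℝ) ^ 2 * (A * (t : ℝ) ^ 3) ^ h with hM
  have hM1 : 1 ≤ M := by
    rw [hM]; nlinarith
  have hstep1 : Real.exp (-(ε * m / 10)) + k * (2 * (t : ℝ) ^ 2 * (1 - ε / k) ^ r *
          (A * t ^ 3) ^ h + 1 / N) + Real.exp (-(δ * m / 8)) ≤ (B0 * M) / P := by
    have q1 : 2 * (t : ℝ) ^ 2 * (1 - ε / k) ^ r * (A * t ^ 3) ^ h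
        = 2 * M * (1 - ε / k) ^ r := by rw [hM]; ring
    rw [q1]
    have q2 : 2 * M * (1 - ε / k) ^ r ≤ 2 * M * (2 / P) :=
      mul_le_mul_of_nonneg_left hρr (by linarith)
    have q3 : (1 : ℝ) / P ≤ M / P := div_le_div_of_nonneg_right hM1 hPpos.le
    have q4 : (2 / ε) / P ≤ (2 / ε) * (M / P) := by
      have : (2 / ε) / P = (2 / ε) * (1 / P) := by ring
      rw [this]
      exact mul_le_mul_of_nonneg_left q3 (by positivity)
    have q5 : (k : ℝ) * (2 * M * (1 - ε / k) ^ r + 1 / N) ≤ k * (5 * (M / P)) := by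
      apply mul_le_mul_of_nonneg_left _ hk0.le
      have : 2 * M * (2 / P) = 4 * (M / P) := by ring
      linarith
    have q6 : (B0 * M) / P = (2 / ε) * (M / P) + k * (5 * (M / P)) + M / P := by
      rw [hB0]; ring
    rw [q6]
    linarith
  refine hstep1.trans ?_
  apply div_le_div_of_nonneg_right _ hPpos.le
  -- B0 * M ≤ (5 (B0 A) L)^(5h)
  have hL1 : 1 ≤ L := by
    rw [hL]
    have q1 : (1 : ℝ) ≤ w := by exact_mod_cast hw
    have q2 : (1 : ℝ) ≤ s := by exact_mod_cast hs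
    have q3 : 0 ≤ Real.log ((s : ℝ) * N) := Real.log_nonneg (by nlinarith)
    linarith
  have hBA1 : 1 ≤ B0 * A := by nlinarith
  have c1 : B0 * M ≤ (B0 * A) ^ h * (t : ℝ) ^ (5 * h) := by
    have q1 : B0 ≤ B0 ^ h := by
      calc B0 = B0 ^ 1 := (pow_one _).symm
        _ ≤ B0 ^ h := pow_le_pow_right₀ hB1 hh
    have q2 : M = A ^ h * (t : ℝ) ^ (3 * h + 2) := by
      rw [hM, mul_pow, ← pow_mul]; ring
    have q3 : (t : ℝ) ^ (3 * h + 2) ≤ (t : ℝ) ^ (5 * h) :=
      pow_le_pow_right₀ htR (by omega)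
    rw [q2, mul_pow]
    have q4 : 0 ≤ A ^ h := by positivity
    calc B0 * (A ^ h * (t : ℝ) ^ (3 * h + 2)) ≤ B0 ^ h * (A ^ h * (t : ℝ) ^ (5 * h)) := by
          apply mul_le_mul q1 _ (by positivity) (by positivity)
          exact mul_le_mul_of_nonneg_left q3 q4
      _ = _ := by ring
  have c2 : (B0 * A) ^ h ≤ (B0 * A) ^ (5 * h) := pow_le_pow_right₀ hBA1 (by omega)
  have c3 : (t : ℝ) ^ (5 * h) ≤ (5 * L) ^ (5 * h) := pow_le_pow_left₀ (by linarith) ht _
  calc B0 * M ≤ (B0 * A) ^ h * (t : ℝ) ^ (5 * h) := c1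
    _ ≤ (B0 * A) ^ (5 * h) * (5 * L) ^ (5 * h) := by
        apply mul_le_mul c2 c3 (by positivity) (by positivity)
    _ = (5 * (B0 * A) * L) ^ (5 * h) := by rw [← mul_pow]; ring_nf

end Pool.Agent.P325ac
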