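import Mathlib
import Pool.Agent.Lib.P325ac.Defs
import Pool.Agent.Lib.P325ac.PE

/-!
# P325ac.Gauge (2 h): the gauge transformation at the root of a ball

`x = src e0`. For `τ` and a spin `b` let `X τ b e = nz par τ b (lev e) e`, and for a vertex `v` let `sh τ b v = X τ b e` if `v = low e` for
the (unique, `low_inj`) `e` with `lev e ≠ 0`, `lev e < r`, and `false` for all other `v` (among them `x` by `low_root`, `tgt e0` by `tgt0`, and
the `low e` with `lev e = r`). For fixed `τ` the map `z ↦ z' = fun v => xor (z v) (sh τ (z x) v)` is an involution of `V → Bool` (`z' x = z x`),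
and the weights `wn 0` are constant (`wn 0 b = 1 / 2`), so (after `pe_comm`, for fixed `τ`)
`ex .. = pe_z pe_τ (ε (z x) * η (z (tgt e0)) * G (cob src tgt z' τ))` (`z' x = z x`, `z' (tgt e0) = z (tgt e0)`). Claim: `cob src tgt z' τ` and
`chat Bl z τ (X τ (z x))` agree at all `e ≠ e0` (and `G` ignores `e0`: `hG`). Indeed with `b = z x`:
- `lev e = 0`, `e ≠ e0`: neither end of `e` is `x` (`root_edge` would give level `1`) nor `low f` with `lev f ≠ 0, < r` (`low_edge`: `e = f`
  or `lev e = lev f + 1`): `sh = false` at both ends.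
- `lev e = 1`: `up e = x`, `sh x = false`; `τ e + z x + z (low e) + sh (low e)`, `X e = τ e + b`; if `1 < r`: `sh (low e) = X e`, the sum is
  `z (low e) = upd z x false (up e) + upd z x false (low e)`; if `r = 1`: `sh (low e) = false`, the sum is `X e + z (low e)`.
- `lev e ≥ 2`: `up e = low (par e)`, `lev (par e) = lev e - 1 ≠ 0, < r`: `sh (up e) = X (par e)`; `X e = τ e + X (par e)`. If `lev e < r`:
  `τ e + z (up e) + X (par e) + z (low e) + X e = z (up e) + z (low e)`; if `lev e = r`: `X e + z (up e) + z (low e)`. Here `up e, low e ≠ x`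
  (`low_root`), so `upd z x false` is `z` there. (`ends` gives `z (src e) + z (tgt e) = z (up e) + z (low e)`.)
So `ex .. = pe_z pe_τ (ε (z x) * η (z (tgt e0)) * G (chat Bl z τ (X τ (z x))))`. `chat Bl z τ Y` does not depend on `z x` off `e0` (`upd`, and
`lev e = 0` edges other than `e0` do not touch `x`); `tgt e0 ≠ x`. By `pe_resample` at `x` (`wn 0 b = 1 / 2`) the factor with `z x` becomes
`(1 / 2) * ∑ b, ε b * G (chat Bl z τ (X τ b))`. Finally `chat Bl z τ Y` uses `τ` only at edges of level `0` and `X τ b e` uses `τ` only at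
edges of level `≠ 0`: `pe_mix` with `A e := lev e ≠ 0` gives the independent `τ'`.
-/

open Finset
open scoped BigOperators Classical

namespace Pool.Agent.P325ac

namespace GaugeAux

variable {V E : Type} {src tgt : E → V} {e0 : E} {r : ℕ}

/-- the shift of the spins -/
noncomputable def sh (Bl : Ball src tgt e0 r) (τ : E → Bool) (b : Bool) (v : V) : Bool :=
  if h : ∃ e, Bl.T.lev e ≠ 0 ∧ Bl.T.lev e < r ∧ Bl.low e = v then
    nz Bl.T.par τ b (Bl.T.lev h.choose) h.choose
  else false

theorem sh_low (Bl : Ball src tgt e0 r) (τ : E → Bool) (b : Bool) {e : E}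
    (h0 : Bl.T.lev e ≠ 0) (h1 : Bl.T.lev e < r) :
    sh Bl τ b (Bl.low e) = nz Bl.T.par τ b (Bl.T.lev e) e := by
  have h : ∃ f, Bl.T.lev f ≠ 0 ∧ Bl.T.lev f < r ∧ Bl.low f = Bl.low e := ⟨e, h0, h1, rfl⟩
  have h2 := h.choose_spec
  have h3 : h.choose = e := Bl.low_inj _ _ h2.1 h0 h2.2.2
  unfold sh
  rw [dif_pos h, h3]

theorem sh_none (Bl : Ball src tgt e0 r) (τ : E → Bool) (b : Bool) {v : V}
    (h : ∀ e, Bl.T.lev e ≠ 0 → Bl.T.lev e < r → Bl.low e ≠ v) :
    sh Bl τ b v = false := by
  unfold sh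
  rw [dif_neg]
  rintro ⟨e, h1, h2, h3⟩
  exact h e h1 h2 h3

/-- the gauge transformation -/
noncomputable def gz (Bl : Ball src tgt e0 r) (τ : E → Bool) (z : V → Bool) : V → Bool :=
  fun v => xor (z v) (sh Bl τ (z (src e0)) v)

theorem gz_root (Bl : Ball src tgt e0 r) (τ : E → Bool) (z : V → Bool) :
    gz Bl τ z (src e0) = z (src e0) := by
  unfold gz
  rw [sh_none Bl τ _ (fun e h _ => Bl.low_root e h), Bool.xor_false]

theorem gz_tgt (Bl : Ball src tgt e0 r) (τ : E → Bool) (z : V → Bool) :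
    gz Bl τ z (tgt e0) = z (tgt e0) := by
  unfold gz
  rw [sh_none Bl τ _ (fun e h h' => Bl.tgt0 e h h'), Bool.xor_false]

theorem gz_inv (Bl : Ball src tgt e0 r) (τ : E → Bool) : Function.Involutive (gz Bl τ) := by
  intro z
  funext v
  show xor (gz Bl τ z v) (sh Bl τ (gz Bl τ z (src e0)) v) = z v
  rw [gz_root]
  unfold gz
  rw [Bool.xor_assoc, Bool.xor_self, Bool.xor_false]

theorem nz_congr (T : Tree E) {τ τ' : E → Bool} (b : Bool)
    (h : ∀ e, T.lev e ≠ 0 → τ e = τ' e) :
    ∀ (n : ℕ) (e : E), n = T.lev e → nz T.par τ b n e = nz T.par τ' b n e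
  | 0, _, _ => rfl
  | n + 1, e, he => by
    have h0 : T.lev e ≠ 0 := by omega
    have h1 := T.hpar e h0
    show xor (τ e) (nz T.par τ b n (T.par e)) = xor (τ' e) (nz T.par τ' b n (T.par e))
    rw [h e h0, nz_congr T b h n (T.par e) (by omega)]

theorem upd_ne {I S : Type} (Y : I → S) {i j : I} (a : S) (h : j ≠ i) : upd Y i a j = Y j := by
  unfold upd
  rw [if_neg h]

theorem upd_eq {I S : Type} (Y : I → S) (i : I) (a : S) : upd Y i a i = a := by
  unfold upd
  rw [if_pos rfl]

theorem cob_gz (Bl : Ball src tgt e0 r) (τ : E → Bool) (z : V → Bool) (e : E) (_ : e ≠ e0) :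
    cob src tgt (gz Bl τ z) τ e =
      chat Bl z τ (fun f => nz Bl.T.par τ (z (src e0)) (Bl.T.lev f) f) e := by
  show xor (τ e) (xor (gz Bl τ z (src e)) (gz Bl τ z (tgt e))) = _
  by_cases h0 : Bl.T.lev e = 0
  · have h1 : ∀ v, (src e = v ∨ tgt e = v) → sh Bl τ (z (src e0)) v = false := by
      intro v hv
      refine sh_none Bl τ _ ?_
      intro f hf hfr hlow
      have h2 : e ≠ f := by
        intro h
        rw [h] at h0
        exact hf h0
      have h3 := (Bl.low_edge f e hf hfr (by rw [hlow]; exact hv) h2).1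
      omega
    unfold chat
    rw [if_pos h0]
    unfold gz
    rw [h1 (src e) (Or.inl rfl), h1 (tgt e) (Or.inr rfl), Bool.xor_false, Bool.xor_false]
  · have hle := Bl.lev_le e
    have h1 : xor (gz Bl τ z (src e)) (gz Bl τ z (tgt e)) =
        xor (gz Bl τ z (Bl.up e)) (gz Bl τ z (Bl.low e)) := by
      rcases Bl.ends e h0 with h | h
      · rw [h.1, h.2]
      · rw [h.1, h.2, Bool.xor_comm]
    have h2 : upd z (src e0) false (Bl.low e) = z (Bl.low e) := upd_ne _ _ (Bl.low_root e h0)
    have h3 : ¬ Bl.T.lev e < r → sh Bl τ (z (src e0)) (Bl.low e) = false := by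
      intro h
      refine sh_none Bl τ _ ?_
      intro f hf hfr hlow
      have := Bl.low_inj f e hf h0 hlow
      rw [this] at hfr
      exact h hfr
    rw [h1]
    unfold chat
    rw [if_neg h0, h2]
    by_cases h4 : Bl.T.lev e = 1
    · have h5 := (Bl.up_one e h4).1
      have h6 : nz Bl.T.par τ (z (src e0)) (Bl.T.lev e) e = xor (τ e) (z (src e0)) := by
        rw [h4]
        rfl
      rw [h5, gz_root, upd_eq]
      by_cases h7 : Bl.T.lev e < r
      · rw [if_pos h7]
        unfold gz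
        rw [sh_low Bl τ _ h0 h7, h6]
        cases τ e <;> cases z (src e0) <;> cases z (Bl.low e) <;> rfl
      · rw [if_neg h7]
        beta_reduce
        rw [h6]
        unfold gz
        rw [h3 h7]
        cases τ e <;> cases z (src e0) <;> cases z (Bl.low e) <;> rfl
    · have h5 : 2 ≤ Bl.T.lev e := by omega
      have h6 := Bl.T.hpar e h0
      have h7 := Bl.up_par e h5
      have h8 : Bl.T.lev (Bl.T.par e) ≠ 0 := by omega
      have h9 : Bl.T.lev (Bl.T.par e) < r := by omega
      have h10 : nz Bl.T.par τ (z (src e0)) (Bl.T.lev e) e =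
          xor (τ e) (nz Bl.T.par τ (z (src e0)) (Bl.T.lev (Bl.T.par e)) (Bl.T.par e)) := by
        rw [← h6]
        rfl
      have h11 : gz Bl τ z (Bl.up e) =
          xor (z (Bl.up e)) (nz Bl.T.par τ (z (src e0)) (Bl.T.lev (Bl.T.par e)) (Bl.T.par e)) := by
        unfold gz
        rw [h7, sh_low Bl τ _ h8 h9]
      have h12 : upd z (src e0) false (Bl.up e) = z (Bl.up e) := by
        refine upd_ne _ _ ?_
        rw [h7]
        exact Bl.low_root _ h8
      rw [h11, h12]
      generalize nz Bl.T.par τ (z (src e0)) (Bl.T.lev (Bl.T.par e)) (Bl.T.par e) = q at h10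
      by_cases h13 : Bl.T.lev e < r
      · rw [if_pos h13]
        unfold gz
        rw [sh_low Bl τ _ h0 h13, h10]
        cases τ e <;> cases z (Bl.up e) <;> cases z (Bl.low e) <;> cases q <;> rfl
      · rw [if_neg h13]
        beta_reduce
        rw [h10]
        unfold gz
        rw [h3 h13]
        cases τ e <;> cases z (Bl.up e) <;> cases z (Bl.low e) <;> cases q <;> rfl

theorem chat_upd (Bl : Ball src tgt e0 r) (τ : E → Bool) (z : V → Bool) (s : Bool)
    (X : E → Bool) (e : E) (he : e ≠ e0) :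
    chat Bl (upd z (src e0) s) τ X e = chat Bl z τ X e := by
  have h1 : ∀ v, upd (upd z (src e0) s) (src e0) false v = upd z (src e0) false v := by
    intro v
    unfold upd
    by_cases h : v = src e0
    · rw [if_pos h, if_pos h]
    · rw [if_neg h, if_neg h, if_neg h]
  unfold chat
  by_cases h0 : Bl.T.lev e = 0
  · rw [if_pos h0, if_pos h0]
    have h2 : src e ≠ src e0 := by
      intro h
      have := Bl.root_edge e he (Or.inl h)
      omega
    have h3 : tgt e ≠ src e0 := by
      intro h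
      have := Bl.root_edge e he (Or.inr h)
      omega
    rw [upd_ne _ _ h2, upd_ne _ _ h3]
  · rw [if_neg h0, if_neg h0, h1, h1]

theorem chat_mix (Bl : Ball src tgt e0 r) (z : V → Bool) (b : Bool) {m τ τ' : E → Bool}
    (h1 : ∀ i, Bl.T.lev i ≠ 0 → m i = τ' i) (h2 : ∀ i, Bl.T.lev i = 0 → m i = τ i) :
    chat Bl z m (fun e => nz Bl.T.par m b (Bl.T.lev e) e) =
      chat Bl z τ (fun e => nz Bl.T.par τ' b (Bl.T.lev e) e) := by
  funext e
  unfold chat
  by_cases h0 : Bl.T.lev e = 0
  · rw [if_pos h0, if_pos h0, h2 e h0]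
  · have h4 : nz Bl.T.par m b (Bl.T.lev e) e = nz Bl.T.par τ' b (Bl.T.lev e) e :=
      nz_congr Bl.T b h1 _ e rfl
    rw [if_neg h0, if_neg h0]
    simp only [h4]

theorem G_congr {G : (E → Bool) → ℝ} (hG : ∀ c a, G (upd c e0 a) = G c) {c c' : E → Bool}
    (h : ∀ e, e ≠ e0 → c e = c' e) : G c = G c' := by
  rw [← hG c (c' e0)]
  refine congrArg G (funext fun e => ?_)
  by_cases he : e = e0
  · rw [he, upd_eq]
  · rw [upd_ne _ _ he, h e he]

theorem wn_zero (b : Bool) : wn 0 b = 1 / 2 := by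
  unfold wn
  split_ifs <;> norm_num

theorem pe_inv [Fintype V] (φ : (V → Bool) → (V → Bool)) (hφ : Function.Involutive φ)
    (K : (V → Bool) → ℝ) :
    pe (fun _ : V => wn 0) K = pe (fun _ : V => wn 0) (fun z => K (φ z)) := by
  unfold pe
  simp only [wn_zero]
  rw [← Equiv.sum_comp hφ.toPerm (fun z : V → Bool => (∏ _i : V, (1 / 2 : ℝ)) * K z)]
  rfl

end GaugeAux

open GaugeAux

theorem gauge {V E : Type} [Fintype V] [Fintype E] (src tgt : E → V) (e0 : E) (r : ℕ)
    (hr : 1 ≤ r) (Bl : Ball src tgt e0 r) (θ : ℝ) (G : (E → Bool) → ℝ)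
    (hG : ∀ c a, G (upd c e0 a) = G c) (ε η : Bool → ℝ) :
    ex src tgt θ (fun z c => ε (z (src e0)) * η (z (tgt e0)) * G c) =
      pe (fun _ : V => wn 0) (fun z => pe (fun _ : E => wn θ) (fun τ =>
        η (z (tgt e0)) * ((1 / 2) * ∑ b, ε b *
          pe (fun _ : E => wn θ) (fun τ' =>
            G (chat Bl z τ (fun e => nz Bl.T.par τ' b (Bl.T.lev e) e)))))) := by
  unfold ex
  rw [pe_comm]
  have h1 : ∀ τ : E → Bool,
      pe (fun _ : V => wn 0) (fun z => ε (z (src e0)) * η (z (tgt e0)) * G (cob src tgt z τ)) =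
      pe (fun _ : V => wn 0) (fun z => η (z (tgt e0)) * ((1 / 2) * ∑ b, ε b *
        G (chat Bl z τ (fun e => nz Bl.T.par τ b (Bl.T.lev e) e)))) := by
    intro τ
    rw [pe_inv (gz Bl τ) (gz_inv Bl τ)]
    have h2 : ∀ z : V → Bool,
        ε (gz Bl τ z (src e0)) * η (gz Bl τ z (tgt e0)) * G (cob src tgt (gz Bl τ z) τ) =
        ε (z (src e0)) * η (z (tgt e0)) *
          G (chat Bl z τ (fun f => nz Bl.T.par τ (z (src e0)) (Bl.T.lev f) f)) := by
      intro z
      rw [gz_root, gz_tgt, G_congr hG (cob_gz Bl τ z)]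
    rw [show (fun z : V → Bool => ε (gz Bl τ z (src e0)) * η (gz Bl τ z (tgt e0)) *
      G (cob src tgt (gz Bl τ z) τ)) = _ from funext h2]
    rw [pe_resample (fun _ => wn_sum 0) (src e0)]
    refine congrArg (pe _) (funext fun z => ?_)
    rw [Finset.mul_sum, Finset.mul_sum]
    refine Finset.sum_congr rfl fun s _ => ?_
    rw [wn_zero, upd_eq, upd_ne _ _ Bl.tgt0_ne,
      G_congr hG (chat_upd Bl τ z s (fun f => nz Bl.T.par τ s (Bl.T.lev f) f))]
    ring
  rw [show (fun τ : E → Bool => pe (fun _ : V => wn 0) (fun z =>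
    ε (z (src e0)) * η (z (tgt e0)) * G (cob src tgt z τ))) = _ from funext h1]
  rw [pe_comm]
  refine congrArg (pe _) (funext fun z => ?_)
  rw [pe_mix (fun _ => wn_sum θ) (fun e => Bl.T.lev e ≠ 0)]
  refine congrArg (pe _) (funext fun τ => ?_)
  rw [pe_mul, pe_mul, pe_fsum]
  refine congrArg _ (congrArg _ (Finset.sum_congr rfl fun b _ => ?_))
  rw [pe_mul]
  refine congrArg _ (congrArg _ (funext fun τ' => ?_))
  exact congrArg G (chat_mix Bl z b (fun i hi => if_pos hi) (fun i hi => if_neg (not_not.mpr hi)))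

end Pool.Agent.P325ac
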