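import Mathlib
import Pool.Agent.Lib.P325ac.Defs
import Pool.Agent.Lib.P325ac.PE

/-!
# P325ac.Hyb (0.8 h): exchanging the layers

`hybrid`: for a finset `A` of coordinates let `W_A i = if i ∈ A then α else β`. By induction on `A`:
`|pe W_A K - pe (fun _ => β) K| ≤ card A * B`. Step `A → insert i A`: by `pe_resample` at `i`, `pe W_{insert i A} K = pe W (fun σ => ∑ s, α s * K (upd σ i s))`
and `pe W_A K = pe W (fun σ => ∑ s, β s * K (upd σ i s))`, where both inner functions ignore the coordinate `i`, so the weights at `i` do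
not matter (the expectation of a function that ignores `i` is the same for two weight systems that agree off `i`; e.g. apply
`pe_resample` once more, or `pe_map1`-style: `∑ σ, (∏ j, W j (σ j)) H σ` with `H (upd σ i s) = H σ` equals
`∑ σ', (∏ j ≠ i, ..) H` times `∑ s, W i s = 1`). Difference `≤ B` (`pe_sub`, `abs_pe_le`, `pe_le`, `pe_const`).
`multi_bound`: `multi` is `pe` with `I = Fin k`, `S = (V → Bool) × (E → Bool)`, `α s = (∏ v, wn 0 (s.1 v)) * ∏ e, wn θ (s.2 e)`, `β` the same with
`θ = 0`; `∑ s, α s * K s = ex src tgt θ (..)` (`Fintype.sum_prod_type`), and replacing `ω i` by `s` replaces the layer `i` of the instance by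
`cob src tgt s.1 s.2`.
-/

open Finset
open scoped BigOperators Classical

namespace Pool.Agent.P325ac

namespace HybAux

/-- a function that ignores the coordinate `i` has the same expectation for weights that agree off `i` -/
theorem pe_indep {I S : Type} [Fintype I] [Fintype S] {W W' : I → S → ℝ}
    (hW : ∀ i, ∑ s, W i s = 1) (hW' : ∀ i, ∑ s, W' i s = 1) (i : I)
    (hoff : ∀ j, j ≠ i → W j = W' j) (H : (I → S) → ℝ) (hH : ∀ σ s, H (upd σ i s) = H σ) :
    pe W H = pe W' H := by
  have h1 := pe_map W W' W' (fun j s s' => if j = i then s' else s) (fun j t => by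
    by_cases hj : j = i
    · subst hj
      have e : ∀ s s', W j s * W' j s' * ind ((if j = j then s' else s) = t) =
          W j s * (W' j s' * ind (s' = t)) := by
        intro s s'
        rw [if_pos rfl]
        ring
      have e2 : ∑ s', W' j s' * ind (s' = t) = W' j t := by
        rw [Finset.sum_eq_single t]
        · unfold ind
          rw [if_pos rfl, mul_one]
        · intro b _ hb
          unfold ind
          rw [if_neg hb, mul_zero]
        · intro hcon
          exact absurd (Finset.mem_univ _) hcon
      rw [Finset.sum_congr rfl fun s _ => Finset.sum_congr rfl fun s' _ => e s s']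
      rw [Finset.sum_congr rfl fun s _ => (Finset.mul_sum _ _ _).symm, e2, ← Finset.sum_mul, hW,
        one_mul]
    · have e : ∀ s s', W j s * W' j s' * ind ((if j = i then s' else s) = t) =
          (W j s * ind (s = t)) * W' j s' := by
        intro s s'
        rw [if_neg hj]
        ring
      have e2 : ∑ s, W j s * ind (s = t) = W j t := by
        rw [Finset.sum_eq_single t]
        · unfold ind
          rw [if_pos rfl, mul_one]
        · intro b _ hb
          unfold ind
          rw [if_neg hb, mul_zero]
        · intro hcon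
          exact absurd (Finset.mem_univ _) hcon
      rw [Finset.sum_congr rfl fun s _ => Finset.sum_congr rfl fun s' _ => e s s']
      rw [Finset.sum_congr rfl fun s _ => (Finset.mul_sum _ _ _).symm,
        Finset.sum_congr rfl fun s _ => by rw [hW' j, mul_one], e2, hoff j hj]) H
  rw [← h1]
  refine congrArg (pe W) (funext fun σ => ?_)
  have h2 : ∀ σ' : I → S, H (fun j => if j = i then σ' j else σ j) = H σ := by
    intro σ'
    rw [← hH σ (σ' i)]
    refine congrArg H (funext fun j => ?_)
    unfold upd
    by_cases hj : j = i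
    · rw [if_pos hj, if_pos hj, hj]
    · rw [if_neg hj, if_neg hj]
  rw [show (fun σ' : I → S => H (fun j => if j = i then σ' j else σ j)) = fun _ => H σ from
    funext h2]
  exact (pe_const hW' _).symm

theorem upd_upd {I S : Type} (σ : I → S) (i : I) (a s : S) : upd (upd σ i a) i s = upd σ i s := by
  funext j
  unfold upd
  by_cases hj : j = i
  · rw [if_pos hj, if_pos hj]
  · rw [if_neg hj, if_neg hj, if_neg hj]

theorem hybrid_aux {I S : Type} [Fintype I] [Fintype S] (α β : S → ℝ) (hα : IsProb α)
    (hβ : IsProb β) (K : (I → S) → ℝ) (B : ℝ)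
    (h : ∀ i σ, |∑ s, α s * K (upd σ i s) - ∑ s, β s * K (upd σ i s)| ≤ B) (A : Finset I) :
    |pe (fun i : I => if i ∈ A then α else β) K - pe (fun _ : I => β) K| ≤ A.card * B := by
  induction A using Finset.induction_on with
  | empty =>
    simp only [Finset.notMem_empty, if_false, sub_self, abs_zero, Finset.card_empty,
      Nat.cast_zero, zero_mul, le_refl]
  | insert i A hi ih =>
    have hsum : ∀ (A : Finset I) (j : I), ∑ s, (if j ∈ A then α else β) s = 1 := by
      intro A j
      split_ifs
      · exact hα.2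
      · exact hβ.2
    have hpos : ∀ (A : Finset I) (j : I) (s : S), 0 ≤ (if j ∈ A then α else β) s := by
      intro A j s
      split_ifs
      · exact hα.1 s
      · exact hβ.1 s
    have e1 : pe (fun j : I => if j ∈ insert i A then α else β) K =
        pe (fun j : I => if j ∈ A then α else β) (fun σ => ∑ s, α s * K (upd σ i s)) := by
      rw [pe_resample (W := fun j : I => if j ∈ insert i A then α else β) (hsum _) i K]
      have e3 : (fun σ : I → S => ∑ s, (if i ∈ insert i A then α else β) s * K (upd σ i s)) =
          fun σ => ∑ s, α s * K (upd σ i s) := by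
        rw [if_pos (Finset.mem_insert_self i A)]
      show pe _ (fun σ : I → S => ∑ s, (if i ∈ insert i A then α else β) s * K (upd σ i s)) = _
      rw [e3]
      refine pe_indep (hsum _) (hsum _) i (fun j hj => ?_) _ (fun σ a => ?_)
      · by_cases hjA : j ∈ A
        · rw [if_pos hjA, if_pos (Finset.mem_insert_of_mem hjA)]
        · rw [if_neg hjA, if_neg (fun hcon => (Finset.mem_insert.1 hcon).elim hj hjA)]
      · exact Finset.sum_congr rfl fun s _ => by rw [upd_upd]
    have e2 : pe (fun j : I => if j ∈ A then α else β) K =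
        pe (fun j : I => if j ∈ A then α else β) (fun σ => ∑ s, β s * K (upd σ i s)) := by
      rw [pe_resample (W := fun j : I => if j ∈ A then α else β) (hsum _) i K]
      show pe _ (fun σ : I → S => ∑ s, (if i ∈ A then α else β) s * K (upd σ i s)) = _
      rw [if_neg hi]
    have e4 : |pe (fun j : I => if j ∈ insert i A then α else β) K -
        pe (fun j : I => if j ∈ A then α else β) K| ≤ B := by
      rw [e1, e2, ← pe_sub]
      refine (abs_pe_le (hpos A) _).trans ?_
      refine (pe_le (hpos A) (K' := fun _ => B) (fun σ => h i σ)).trans ?_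
      rw [pe_const (hsum A)]
    have e5 := abs_sub_le (pe (fun j : I => if j ∈ insert i A then α else β) K)
      (pe (fun j : I => if j ∈ A then α else β) K) (pe (fun _ : I => β) K)
    rw [Finset.card_insert_of_notMem hi]
    push_cast
    linarith

theorem isProb_layer {V E : Type} [Fintype V] [Fintype E] {θ : ℝ} (h0 : 0 ≤ θ) (h1 : θ ≤ 1) :
    IsProb (fun s : (V → Bool) × (E → Bool) => (∏ v, wn 0 (s.1 v)) * ∏ e, wn θ (s.2 e)) := by
  refine ⟨fun s => mul_nonneg (Finset.prod_nonneg fun v _ => wn_nonneg le_rfl zero_le_one _)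
    (Finset.prod_nonneg fun e _ => wn_nonneg h0 h1 _), ?_⟩
  rw [Fintype.sum_prod_type]
  have e1 : ∀ z : V → Bool, ∑ τ : E → Bool, (∏ v, wn 0 (z v)) * ∏ e, wn θ (τ e) =
      ∏ v, wn 0 (z v) := by
    intro z
    rw [← Finset.mul_sum, PEAux.sum_W (W := fun _ : E => wn θ) (fun _ => wn_sum θ), mul_one]
  rw [Finset.sum_congr rfl fun z _ => e1 z]
  exact PEAux.sum_W (W := fun _ : V => wn 0) (fun _ => wn_sum 0)

theorem layer_sum {V E : Type} [Fintype V] [Fintype E] (src tgt : E → V) (k : ℕ) (θ : ℝ)
    (f : (E → Fin k → Bool) → ℝ) (i : Fin k) (ω : Fin k → (V → Bool) × (E → Bool)) :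
    ∑ s : (V → Bool) × (E → Bool), ((∏ v, wn 0 (s.1 v)) * ∏ e, wn θ (s.2 e)) *
      f (fun e j => cob src tgt (upd ω i s j).1 (upd ω i s j).2 e) =
    ex src tgt θ (fun _ c => f (fun e j => if j = i then c e else
      cob src tgt (ω j).1 (ω j).2 e)) := by
  rw [Fintype.sum_prod_type]
  unfold ex pe
  refine Finset.sum_congr rfl fun z _ => ?_
  rw [Finset.mul_sum]
  refine Finset.sum_congr rfl fun τ _ => ?_
  rw [mul_assoc]
  congr 2
  refine congrArg f (funext fun e => funext fun j => ?_)
  unfold upd
  by_cases hj : j = i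
  · rw [if_pos hj, if_pos hj]
  · rw [if_neg hj, if_neg hj]

end HybAux

open HybAux

theorem hybrid {I S : Type} [Fintype I] [Fintype S] (α β : S → ℝ) (hα : IsProb α)
    (hβ : IsProb β) (K : (I → S) → ℝ) (B : ℝ)
    (h : ∀ i σ, |∑ s, α s * K (upd σ i s) - ∑ s, β s * K (upd σ i s)| ≤ B) :
    |pe (fun _ : I => α) K - pe (fun _ : I => β) K| ≤ Fintype.card I * B := by
  have h1 := hybrid_aux α β hα hβ K B h Finset.univ
  have h2 : (fun i : I => if i ∈ (Finset.univ : Finset I) then α else β) = fun _ => α := by
    funext i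
    rw [if_pos (Finset.mem_univ i)]
  rw [h2, Finset.card_univ] at h1
  exact h1

theorem multi_bound {V E : Type} [Fintype V] [Fintype E] (src tgt : E → V) (k : ℕ) (θ : ℝ)
    (h0 : 0 ≤ θ) (h1 : θ ≤ 1) (f : (E → Fin k → Bool) → ℝ) (B : ℝ)
    (h : ∀ (i : Fin k) (c0 : E → Fin k → Bool),
      |ex src tgt θ (fun _ c => f (fun e j => if j = i then c e else c0 e j)) -
        ex src tgt 0 (fun _ c => f (fun e j => if j = i then c e else c0 e j))| ≤ B) :
    |multi src tgt k θ f - multi src tgt k 0 f| ≤ k * B := by
  have h2 := hybrid (I := Fin k)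
    (fun s : (V → Bool) × (E → Bool) => (∏ v, wn 0 (s.1 v)) * ∏ e, wn θ (s.2 e))
    (fun s : (V → Bool) × (E → Bool) => (∏ v, wn 0 (s.1 v)) * ∏ e, wn 0 (s.2 e))
    (isProb_layer h0 h1) (isProb_layer le_rfl zero_le_one)
    (fun ω => f (fun e i => cob src tgt (ω i).1 (ω i).2 e)) B
    (fun i ω => by
      have e1 := layer_sum src tgt k θ f i ω
      have e2 := layer_sum src tgt k 0 f i ω
      have e3 := h i (fun e j => cob src tgt (ω j).1 (ω j).2 e)
      rw [← e1, ← e2] at e3
      exact e3)
  rw [Fintype.card_fin] at h2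
  exact h2

end Pool.Agent.P325ac
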