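import Mathlib
import Pool.Agent.Lib.P325ac.Defs
import Pool.Agent.Lib.P325ac.PE

/-!
# P325ac.Mark (1 h): two descriptions of the broadcast process

(1) `pe (fun _ => wn θ) K = pe (fun _ => w3 θ) (fun σ => K (fun e => (σ e).getD false))` (`pe_map1`: `∑ s, w3 θ s * ind (s.getD false = x) = wn θ x`).
(2) For `σ` let `y σ e = nz par (fun f => (σ f).getD false) b (lev e - 1) (par e)` if `lev e ≠ 0` and `false` if `lev e = 0`, and
`Φ σ e = (σ e).map (xor (y σ e))`. Claim: for `lev e ≠ 0`: `lk T (Φ σ) 0 (const b) e = nz par (getD false ∘ σ) b (lev e) e`, by induction on `lev e`: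
both sides: `σ e = none`: the value at the parent; `σ e = some c`: `c xor (value at the parent)`. (For `lev e = 0` both sides are `b`.)
(3) `Φ` is a bijection of `E → Option Bool`: it is injective: if `Φ σ = Φ σ'` then `σ e = σ' e` by induction on `lev e`
(`y σ e` depends only on `σ` at edges of smaller level `≥ 1`; for `lev e = 0`, `y = false`; `Option.map (xor y)` is injective);
injective on a finite type. It keeps the weights (`(Φ σ e = none) ↔ (σ e = none)`).
So `bc T θ b g = pe (w3) (fun σ => g (lk T (Φ σ) 0 (const b))) = pe (w3) (fun σ => g (fun e => nz .. )) = pe (wn) ..`.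
-/

open Finset
open scoped BigOperators Classical

namespace Pool.Agent.P325ac

namespace MarkAux

variable {E : Type}

/-- the value at the parent, computed from the noise bits -/
def yy (T : Tree E) (b : Bool) (σ : E → Option Bool) (e : E) : Bool :=
  if T.lev e = 0 then false
  else nz T.par (fun f => (σ f).getD false) b (T.lev e - 1) (T.par e)

/-- the change of the closed bits -/
def Phi (T : Tree E) (b : Bool) (σ : E → Option Bool) : E → Option Bool :=
  fun e => (σ e).map (xor (yy T b σ e))

/-- the inverse of `Phi` -/
def Psi (T : Tree E) (b : Bool) (ρ : E → Option Bool) : E → Option Bool :=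
  fun e => (ρ e).map (xor (if T.lev e = 0 then false
    else look T.par ρ (fun _ => b) (T.lev e - 1) (T.par e)))

theorem look_Phi (T : Tree E) (b : Bool) (σ : E → Option Bool) : ∀ (n : ℕ) (e : E), T.lev e = n →
    look T.par (Phi T b σ) (fun _ => b) n e = nz T.par (fun f => (σ f).getD false) b n e := by
  intro n
  induction n with
  | zero => intro e _; rfl
  | succ n ih =>
    intro e he
    have hne : T.lev e ≠ 0 := by omega
    have hp : T.lev (T.par e) = n := by
      have := T.hpar e hne
      omega
    have h1 := ih (T.par e) hp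
    have hy : yy T b σ e = nz T.par (fun f => (σ f).getD false) b n (T.par e) := by
      unfold yy
      rw [if_neg hne]
      have : T.lev e - 1 = n := by omega
      rw [this]
    show (Phi T b σ e).getD (look T.par (Phi T b σ) (fun _ => b) n (T.par e)) =
      xor ((σ e).getD false) (nz T.par (fun f => (σ f).getD false) b n (T.par e))
    rw [h1]
    unfold Phi
    rw [hy]
    cases σ e with
    | none => simp
    | some c => simp [Bool.xor_comm]

theorem Psi_Phi (T : Tree E) (b : Bool) (σ : E → Option Bool) : Psi T b (Phi T b σ) = σ := by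
  funext e
  have hy : (if T.lev e = 0 then false
      else look T.par (Phi T b σ) (fun _ => b) (T.lev e - 1) (T.par e)) = yy T b σ e := by
    unfold yy
    by_cases h : T.lev e = 0
    · rw [if_pos h, if_pos h]
    · rw [if_neg h, if_neg h]
      refine look_Phi T b σ _ _ ?_
      have := T.hpar e h
      omega
  show ((Phi T b σ e)).map (xor (if T.lev e = 0 then false
      else look T.par (Phi T b σ) (fun _ => b) (T.lev e - 1) (T.par e))) = σ e
  rw [hy]
  show ((σ e).map (xor (yy T b σ e))).map (xor (yy T b σ e)) = σ e
  cases σ e with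
  | none => rfl
  | some c => simp

theorem Phi_bij [Finite E] (T : Tree E) (b : Bool) : Function.Bijective (Phi T b) :=
  Finite.injective_iff_bijective.mp (Function.LeftInverse.injective (Psi_Phi T b))

theorem w3_Phi (T : Tree E) (b : Bool) (θ : ℝ) (σ : E → Option Bool) (e : E) :
    w3 θ (Phi T b σ e) = w3 θ (σ e) := by
  unfold w3 Phi
  cases σ e with
  | none => simp
  | some c => simp

theorem w3_wn (θ : ℝ) (t : Bool) :
    ∑ s : Option Bool, w3 θ s * ind (s.getD false = t) = wn θ t := by
  rw [Fintype.sum_option, Fintype.sum_bool]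
  cases t
  · simp [w3, ind, wn]
    ring
  · simp [w3, ind, wn]

end MarkAux

open MarkAux

theorem markov {E : Type} [Fintype E] (T : Tree E) (θ : ℝ) (b : Bool) (g : (E → Bool) → ℝ) :
    bc T θ b g = pe (fun _ : E => wn θ) (fun τ => g (fun e => nz T.par τ b (T.lev e) e)) := by
  rw [← pe_map1 (fun _ : E => w3 θ) (fun _ : E => wn θ) (fun _ s => s.getD false)
    (fun _ t => w3_wn θ t) (fun τ => g (fun e => nz T.par τ b (T.lev e) e))]
  unfold bc pe
  rw [← Equiv.sum_comp (Equiv.ofBijective (Phi T b) (Phi_bij T b))
    (fun σ : E → Option Bool => (∏ i, w3 θ (σ i)) * g (lk T σ 0 (fun _ => b)))]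
  refine Finset.sum_congr rfl fun σ _ => ?_
  show (∏ i, w3 θ (Phi T b σ i)) * g (lk T (Phi T b σ) 0 (fun _ => b)) = _
  congr 1
  · exact Finset.prod_congr rfl fun i _ => w3_Phi T b θ σ i
  · congr 1
    funext e
    exact look_Phi T b σ (T.lev e) e rfl

end Pool.Agent.P325ac
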