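import Mathlib
import Pool.Agent.Lib.P325ac.Defs
import Pool.Agent.Lib.P325ac.PE

/-!
# P325ac.Lk (1 h): the values `lk T σ L Y`, facts

`look_congr`: `look par σ Y n e` depends only on `σ` at `e, par e, .., par^[n-1] e` and on `Y (par^[n] e)`; induction on `n`.
`lk_le`: `lev e - L = 0`.
`lk_lk` (`L' ≤ L`): for `lev e ≤ L` by `lk_le`; for `lev e = L + n` by induction on `n` (`look` with `n + 1` steps reads `σ e`, then
`par e`, of level `L + n`).
`lk_hi`: the edges read have level `> L`. `lk_agree`: for `lev e = r > L`: the end `par^[r - L] e` has level `L`; `lev e ≤ L`: `Y e` itself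
(if `r = L`). So if `g` depends only on level `r ≥ L`, then `fun Y => g (lk T σ L Y)` depends only on level `L`.
`lk_form`: every value is a constant or a variable: `(vv e).getD (Y (bb e))`.
`bc_split`: `bc T θ b g = pe (w3) (fun σ => bc T θ b (fun Y => g (lk T σ L Y)))`: by `pe_mix` with `A e := lev e ≤ L`:
`bc T θ b g = pe (fun σ => pe (fun σ' => g (lk T (mix σ' σ) 0 (const b))))`, `mix = if lev e ≤ L then σ' e else σ e`, and
`lk T mix 0 Y = lk T mix L (lk T mix 0 Y)` (`lk_lk`) `= lk T σ L (lk T σ' 0 Y)` (`lk T · L` reads states of level `> L` only and values of level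
`≤ L` only; there `lk T mix 0 Y e = lk T σ' 0 Y e` for `lev e ≤ L`).
-/

open Finset
open scoped BigOperators Classical

namespace Pool.Agent.P325ac

namespace LkAux

theorem lev_iter {E : Type} (T : Tree E) (e : E) : ∀ k : ℕ, k ≤ T.lev e →
    T.lev (T.par^[k] e) + k = T.lev e := by
  intro k
  induction k with
  | zero =>
    intro _
    rfl
  | succ k ih =>
    intro hk
    have h1 := ih (by omega)
    rw [Function.iterate_succ_apply']
    have h2 := T.hpar (T.par^[k] e) (by omega)
    omega

theorem look_congr {E : Type} (par : E → E) {σ τ : E → Option Bool} {Y Y' : E → Bool} :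
    ∀ (n : ℕ) (e : E), (∀ k, k < n → σ (par^[k] e) = τ (par^[k] e)) →
      Y (par^[n] e) = Y' (par^[n] e) → look par σ Y n e = look par τ Y' n e := by
  intro n
  induction n with
  | zero =>
    intro e _ h
    exact h
  | succ n ih =>
    intro e h1 h2
    have h0 : σ e = τ e := h1 0 (by omega)
    have h3 := ih (par e) (fun k hk => by
      have := h1 (k + 1) (by omega)
      rwa [Function.iterate_succ_apply] at this) (by
      rwa [Function.iterate_succ_apply] at h2)
    show (σ e).getD (look par σ Y n (par e)) = (τ e).getD (look par τ Y' n (par e))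
    rw [h0, h3]

/-- agreement of the states above level `L` and of the values on level `≤ L` -/
theorem lk_agree {E : Type} (T : Tree E) {σ τ : E → Option Bool} {L : ℕ} {Y Y' : E → Bool}
    (hσ : ∀ e, L < T.lev e → σ e = τ e) (hY : ∀ e, T.lev e ≤ L → Y e = Y' e) :
    lk T σ L Y = lk T τ L Y' := by
  funext e
  apply look_congr
  · intro k hk
    apply hσ
    have := lev_iter T e k (by omega)
    omega
  · apply hY
    have := lev_iter T e (T.lev e - L) (by omega)
    omega

theorem lk_lk_aux {E : Type} (T : Tree E) (σ : E → Option Bool) {L L' : ℕ} (h : L' ≤ L)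
    (Y : E → Bool) : ∀ (n : ℕ) (e : E), T.lev e = L + n →
      look T.par σ (lk T σ L' Y) n e = lk T σ L' Y e := by
  intro n
  induction n with
  | zero =>
    intro e _
    rfl
  | succ n ih =>
    intro e he
    have h1 := T.hpar e (by omega)
    have h2 := ih (T.par e) (by omega)
    show (σ e).getD (look T.par σ (lk T σ L' Y) n (T.par e)) = look T.par σ Y (T.lev e - L') e
    rw [h2]
    have e1 : T.lev e - L' = (T.lev (T.par e) - L') + 1 := by omega
    rw [e1]
    rfl

theorem look_form {E : Type} (par : E → E) (σ : E → Option Bool) : ∀ (n : ℕ) (e : E),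
    ∃ (v : Option Bool) (b : E), ∀ Y : E → Bool, look par σ Y n e = v.getD (Y b) := by
  intro n
  induction n with
  | zero =>
    intro e
    exact ⟨none, e, fun Y => rfl⟩
  | succ n ih =>
    intro e
    rcases hs : σ e with _ | c
    · obtain ⟨v, b, h⟩ := ih (par e)
      refine ⟨v, b, fun Y => ?_⟩
      show (σ e).getD (look par σ Y n (par e)) = v.getD (Y b)
      rw [hs, ← h Y]
      rfl
    · refine ⟨some c, e, fun Y => ?_⟩
      show (σ e).getD (look par σ Y n (par e)) = c
      rw [hs]
      rfl

end LkAux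

open LkAux

theorem lk_le {E : Type} (T : Tree E) (σ : E → Option Bool) {L : ℕ} (Y : E → Bool) {e : E}
    (h : T.lev e ≤ L) : lk T σ L Y e = Y e := by
  unfold lk
  rw [Nat.sub_eq_zero_of_le h]
  rfl

theorem lk_lk {E : Type} (T : Tree E) (σ : E → Option Bool) {L L' : ℕ} (h : L' ≤ L)
    (Y : E → Bool) : lk T σ L (lk T σ L' Y) = lk T σ L' Y := by
  funext e
  rcases le_or_gt (T.lev e) L with h1 | h1
  · exact lk_le T σ _ h1
  · exact lk_lk_aux T σ h Y (T.lev e - L) e (by omega)

theorem lk_hi {E : Type} (T : Tree E) (σ : E → Option Bool) (L : ℕ) (Y : E → Bool) :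
    lk T (hi T L σ) L Y = lk T σ L Y := by
  apply lk_agree
  · intro e he
    unfold hi
    rw [if_pos he]
  · intro e _
    rfl

theorem lk_congr_hi {E : Type} (T : Tree E) {σ τ : E → Option Bool} {L : ℕ}
    (h : hi T L σ = hi T L τ) (Y : E → Bool) : lk T σ L Y = lk T τ L Y := by
  rw [← lk_hi T σ, h, lk_hi]

theorem lk_dep {E X : Type} (T : Tree E) (σ : E → Option Bool) {L r : ℕ} (h : L ≤ r)
    {g : (E → Bool) → X} (hg : DepOn (fun e => T.lev e = r) g) :
    DepOn (fun e => T.lev e = L) (fun Y => g (lk T σ L Y)) := by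
  intro Y Y' hY
  apply hg
  intro e he
  apply look_congr
  · intro k _
    rfl
  · apply hY
    have := lev_iter T e (T.lev e - L) (by omega)
    omega

theorem lk_form {E : Type} (T : Tree E) (σ : E → Option Bool) (L : ℕ) :
    ∃ (vv : E → Option Bool) (bb : E → E), ∀ Y e, lk T σ L Y e = (vv e).getD (Y (bb e)) := by
  have h : ∀ e, ∃ (v : Option Bool) (b : E), ∀ Y : E → Bool,
      look T.par σ Y (T.lev e - L) e = v.getD (Y b) := fun e => look_form T.par σ _ e
  choose vv bb hb using h
  exact ⟨vv, bb, fun Y e => hb e Y⟩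

theorem bc_split {E : Type} [Fintype E] (T : Tree E) (θ : ℝ) (b : Bool) (L : ℕ)
    (g : (E → Bool) → ℝ) :
    bc T θ b g = pe (fun _ : E => w3 θ) (fun σ => bc T θ b (fun Y => g (lk T σ L Y))) := by
  unfold bc
  rw [pe_mix (fun _ => w3_sum θ) (fun e => T.lev e ≤ L)]
  congr 1
  funext σ
  congr 1
  funext σ'
  congr 1
  refine (lk_lk T _ (Nat.zero_le L) (fun _ => b)).symm.trans ?_
  apply lk_agree
  · intro e he
    exact if_neg (by omega)
  · intro e he
    apply look_congr
    · intro k hk
      have h1 := lev_iter T e k (by omega)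
      exact if_pos (by omega)
    · rfl

end Pool.Agent.P325ac
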