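import Mathlib
import Pool.Agent.Lib.P325ac.Defs
import Pool.Agent.Lib.P325ac.PE

/-!
# P325ac.Pat (1.5 h): the relative bound for products, and for decision trees with given leaves

(0) For `|a|, |b| ≤ 1`: `|a + b| ≤ (|a| + |b|) (1 + a b)` (same signs: `1 + ab ≥ 1`; opposite signs, `x = |a| ≥ y = |b|`:
`x - y ≤ (x + y)(1 - x y)` iff `y (x (x + y) - 2) ≤ 0`). In the form used (`prod2`): `0 ≤ p, p', q, q'`, `|p - p'| ≤ δ (p + p')`,
`|q - q'| ≤ ε (q + q')`, `δ, ε ≥ 0` imply `|p q - p' q'| ≤ (δ + ε) (p q + p' q')`: if `p + p' = 0` or `q + q' = 0` trivial, otherwise put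
`a = (p - p')/(p + p')`, `b = (q - q')/(q + q')`: `p q - p' q' = (p+p')(q+q')(a + b)/2`, `p q + p' q' = (p+p')(q+q')(1 + ab)/2`.
(1) So for a finite product of `φ i` with `δ i`: `|∏ φ i false - ∏ φ i true| ≤ (∑ δ i) (∏ φ i false + ∏ φ i true)`.
(2) `pat`, induction on `R` (for all `φ`, `δ`). `bc T θ b g = pe (w3 θ) (fun σ => g (lk T σ 0 (fun _ => b)))`.
`R = 0`: `lk T σ 0 (const b) e = b` for `lev e = 0`; the value is `∏ φ e b` (`pe_const`), use (1).
`R + 1`: for `lev e = R + 1`, `lk T σ 0 Y e = (σ e).getD (lk T σ 0 Y (par e))` and `lev (par e) = R`, whose value does not depend on the states of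
level `R + 1`. `pe_prod` with `A` = the edges of level `R + 1` and `ψ e s σ = φ e (s.getD (lk T σ 0 Y (par e)))`: the value is
`pe (fun σ => ∏ e ∈ A, φ' e (X_{par e}))`, `φ' e x = ∑ s, w3 θ s * φ e (s.getD x) = θ φ e x + (1 - θ)/2 (φ e false + φ e true)`. So
`φ' e false - φ' e true = θ (φ e false - φ e true)`, `φ' e false + φ' e true = φ e false + φ e true`: `δ' e = θ δ e`. Group by the parent:
`∏ e ∈ A, φ' e (X (par e)) = ∏ f with lev f = R, Φ f (X f)`, `Φ f x = ∏ e ∈ A with par e = f, φ' e x` (`Finset.prod_fiberwise_of_maps_to`), with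
`Δ f = ∑ e ∈ A with par e = f, θ δ e` by (1). Induction hypothesis: `θ ^ R * ∑ Δ f = θ ^ (R + 1) * ∑ δ e`.
(3) `rel_leaves`: for one leaf `ind (∀ v ∈ Q, Y v = α v) = ∏ v with lev v = R, φ v (Y v)`, `φ v x = if v ∈ Q then (if x = α v then 1 else 0)
else 1`, `δ v = if v ∈ Q then 1 else 0`, `∑ δ = card Q ≤ t`. Sum with the weights `|x j|`:
`|bc false g - bc true g| ≤ ∑ j |x j| |P_j false - P_j true| ≤ t θ^R ∑ j |x j| (P_j false + P_j true)`.
-/

open Finset
open scoped BigOperators Classical

namespace Pool.Agent.P325ac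

namespace PatAux

theorem addmul (x y : ℝ) (hx : |x| ≤ 1) (hy : |y| ≤ 1) :
    |x + y| ≤ (|x| + |y|) * (1 + x * y) := by
  rw [abs_le] at hx hy
  rcases le_total 0 x with h1 | h1 <;> rcases le_total 0 y with h2 | h2
  · rw [abs_of_nonneg h1, abs_of_nonneg h2, abs_of_nonneg (by linarith)]
    have := mul_nonneg h1 h2
    nlinarith
  · rw [abs_of_nonneg h1, abs_of_nonpos h2]
    rw [abs_le]
    constructor
    · nlinarith [mul_nonneg h1 (neg_nonneg.mpr h2), hx.1, hx.2, hy.1, hy.2,
        mul_nonneg (sub_nonneg.mpr hx.2) (neg_nonneg.mpr h2),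
        mul_nonneg h1 (by linarith [hy.1] : (0:ℝ) ≤ 1 + y),
        mul_nonneg (mul_nonneg h1 (neg_nonneg.mpr h2)) (sub_nonneg.mpr hx.2),
        mul_nonneg (mul_nonneg h1 (neg_nonneg.mpr h2)) (by linarith [hy.1] : (0:ℝ) ≤ 1 + y)]
    · nlinarith [mul_nonneg h1 (neg_nonneg.mpr h2), hx.1, hx.2, hy.1, hy.2,
        mul_nonneg (sub_nonneg.mpr hx.2) (neg_nonneg.mpr h2),
        mul_nonneg h1 (by linarith [hy.1] : (0:ℝ) ≤ 1 + y),
        mul_nonneg (mul_nonneg h1 (neg_nonneg.mpr h2)) (sub_nonneg.mpr hx.2),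
        mul_nonneg (mul_nonneg h1 (neg_nonneg.mpr h2)) (by linarith [hy.1] : (0:ℝ) ≤ 1 + y)]
  · rw [abs_of_nonpos h1, abs_of_nonneg h2]
    rw [abs_le]
    constructor
    · nlinarith [mul_nonneg (neg_nonneg.mpr h1) h2, hx.1, hx.2, hy.1, hy.2,
        mul_nonneg (sub_nonneg.mpr hy.2) (neg_nonneg.mpr h1),
        mul_nonneg h2 (by linarith [hx.1] : (0:ℝ) ≤ 1 + x),
        mul_nonneg (mul_nonneg (neg_nonneg.mpr h1) h2) (sub_nonneg.mpr hy.2),
        mul_nonneg (mul_nonneg (neg_nonneg.mpr h1) h2) (by linarith [hx.1] : (0:ℝ) ≤ 1 + x)]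
    · nlinarith [mul_nonneg (neg_nonneg.mpr h1) h2, hx.1, hx.2, hy.1, hy.2,
        mul_nonneg (sub_nonneg.mpr hy.2) (neg_nonneg.mpr h1),
        mul_nonneg h2 (by linarith [hx.1] : (0:ℝ) ≤ 1 + x),
        mul_nonneg (mul_nonneg (neg_nonneg.mpr h1) h2) (sub_nonneg.mpr hy.2),
        mul_nonneg (mul_nonneg (neg_nonneg.mpr h1) h2) (by linarith [hx.1] : (0:ℝ) ≤ 1 + x)]
  · rw [abs_of_nonpos h1, abs_of_nonpos h2, abs_of_nonpos (by linarith)]
    have := mul_nonneg (neg_nonneg.mpr h1) (neg_nonneg.mpr h2)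
    nlinarith

theorem prod2 {p p' q q' δ ε : ℝ} (hp : 0 ≤ p) (hp' : 0 ≤ p') (hq : 0 ≤ q) (hq' : 0 ≤ q')
    (h1 : |p - p'| ≤ δ * (p + p')) (h2 : |q - q'| ≤ ε * (q + q')) :
    |p * q - p' * q'| ≤ (δ + ε) * (p * q + p' * q') := by
  rcases (add_nonneg hp hp').eq_or_lt with hA | hA
  · have e1 : p = 0 := by linarith
    have e2 : p' = 0 := by linarith
    simp [e1, e2]
  rcases (add_nonneg hq hq').eq_or_lt with hB | hB
  · have e1 : q = 0 := by linarith
    have e2 : q' = 0 := by linarith
    simp [e1, e2]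
  set x := (p - p') / (p + p') with hx
  set y := (q - q') / (q + q') with hy
  have hx1 : |x| ≤ 1 := by
    rw [hx, abs_div, abs_of_pos hA, div_le_one hA, abs_le]
    constructor <;> linarith
  have hy1 : |y| ≤ 1 := by
    rw [hy, abs_div, abs_of_pos hB, div_le_one hB, abs_le]
    constructor <;> linarith
  have hxδ : |x| ≤ δ := by
    rw [hx, abs_div, abs_of_pos hA, div_le_iff₀ hA]
    exact h1
  have hyε : |y| ≤ ε := by
    rw [hy, abs_div, abs_of_pos hB, div_le_iff₀ hB]
    exact h2
  have k1 := addmul x y hx1 hy1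
  have hxy : 0 ≤ 1 + x * y := by
    rw [abs_le] at hx1 hy1
    nlinarith [mul_nonneg (by linarith [hx1.1] : (0:ℝ) ≤ 1 + x) (by linarith [hy1.1] : (0:ℝ) ≤ 1 + y),
      mul_nonneg (by linarith [hx1.2] : (0:ℝ) ≤ 1 - x) (by linarith [hy1.2] : (0:ℝ) ≤ 1 - y)]
  have k2 : |x + y| ≤ (δ + ε) * (1 + x * y) :=
    k1.trans (mul_le_mul_of_nonneg_right (by linarith) hxy)
  have c : 0 < (p + p') * (q + q') / 2 := by positivity
  have e1 : p * q - p' * q' = ((p + p') * (q + q') / 2) * (x + y) := by
    rw [hx, hy]; field_simp; ring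
  have e2 : p * q + p' * q' = ((p + p') * (q + q') / 2) * (1 + x * y) := by
    rw [hx, hy]; field_simp; ring
  rw [e1, e2, abs_mul, abs_of_pos c]
  calc (p + p') * (q + q') / 2 * |x + y| ≤
        (p + p') * (q + q') / 2 * ((δ + ε) * (1 + x * y)) := mul_le_mul_of_nonneg_left k2 c.le
    _ = _ := by ring

theorem prodn {E : Type} (s : Finset E) (φ : E → Bool → ℝ) (δ : E → ℝ)
    (hφ : ∀ e x, 0 ≤ φ e x)
    (hδ : ∀ e, |φ e false - φ e true| ≤ δ e * (φ e false + φ e true)) :
    |∏ e ∈ s, φ e false - ∏ e ∈ s, φ e true| ≤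
      (∑ e ∈ s, δ e) * (∏ e ∈ s, φ e false + ∏ e ∈ s, φ e true) := by
  induction s using Finset.induction_on with
  | empty => simp
  | insert a s ha ih =>
    rw [Finset.prod_insert ha, Finset.prod_insert ha, Finset.sum_insert ha]
    exact prod2 (hφ a false) (hφ a true) (Finset.prod_nonneg fun e _ => hφ e false)
      (Finset.prod_nonneg fun e _ => hφ e true) (hδ a) ih

theorem look_congr' {E : Type} (T : Tree E) (Y : E → Bool) {σ σ' : E → Option Bool} (n : ℕ) :
    ∀ e, T.lev e = n → (∀ j, T.lev j ≤ n → σ j = σ' j) →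
      look T.par σ Y n e = look T.par σ' Y n e := by
  induction n with
  | zero => intro e _ _; rfl
  | succ n ih =>
    intro e he h
    have hp := T.hpar e (by omega)
    unfold look
    rw [h e (by omega), ih (T.par e) (by omega) (fun j hj => h j (by omega))]

theorem sum_w3 (θ : ℝ) (f : Bool → ℝ) (x : Bool) :
    ∑ s : Option Bool, w3 θ s * f (s.getD x) = θ * f x + (1 - θ) / 2 * (f false + f true) := by
  rw [Fintype.sum_option, Fintype.sum_bool]
  simp [w3]
  ring

end PatAux

open PatAux

theorem pat {E : Type} [Fintype E] (T : Tree E) (θ : ℝ) (h0 : 0 ≤ θ) (h1 : θ ≤ 1) (R : ℕ)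
    (φ : E → Bool → ℝ) (δ : E → ℝ) (hφ : ∀ e x, 0 ≤ φ e x) (hδ0 : ∀ e, 0 ≤ δ e)
    (hδ : ∀ e, |φ e false - φ e true| ≤ δ e * (φ e false + φ e true)) :
    |bc T θ false (fun Y => ∏ e ∈ univ.filter (fun e => T.lev e = R), φ e (Y e)) -
        bc T θ true (fun Y => ∏ e ∈ univ.filter (fun e => T.lev e = R), φ e (Y e))|
      ≤ θ ^ R * (∑ e ∈ univ.filter (fun e => T.lev e = R), δ e) *
        (bc T θ false (fun Y => ∏ e ∈ univ.filter (fun e => T.lev e = R), φ e (Y e)) +
          bc T θ true (fun Y => ∏ e ∈ univ.filter (fun e => T.lev e = R), φ e (Y e))) := by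
  induction R generalizing φ δ with
  | zero =>
    have hb : ∀ b, bc T θ b (fun Y => ∏ e ∈ univ.filter (fun e => T.lev e = 0), φ e (Y e)) =
        ∏ e ∈ univ.filter (fun e => T.lev e = 0), φ e b := by
      intro b
      unfold bc
      have : (fun σ : E → Option Bool => ∏ e ∈ univ.filter (fun e => T.lev e = 0),
          φ e (lk T σ 0 (fun _ => b) e)) =
          fun _ => ∏ e ∈ univ.filter (fun e => T.lev e = 0), φ e b := by
        funext σ
        apply Finset.prod_congr rfl
        intro e he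
        rw [Finset.mem_filter] at he
        unfold lk
        rw [he.2]
        rfl
      rw [this, pe_const (fun _ => w3_sum θ)]
    rw [hb, hb, pow_zero, one_mul]
    exact prodn _ φ δ hφ hδ
  | succ R ih =>
    set φ' : E → Bool → ℝ := fun e x => θ * φ e x + (1 - θ) / 2 * (φ e false + φ e true) with hφ'
    set A : Finset E := univ.filter (fun e => T.lev e = R + 1) with hA
    set B : Finset E := univ.filter (fun e => T.lev e = R) with hB
    set Φ : E → Bool → ℝ := fun f x => ∏ e ∈ A.filter (fun e => T.par e = f), φ' e x with hΦ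
    set Δ : E → ℝ := fun f => ∑ e ∈ A.filter (fun e => T.par e = f), θ * δ e with hΔ
    have hφ'0 : ∀ e x, 0 ≤ φ' e x := by
      intro e x
      have q1 := hφ e x
      have q2 := hφ e false
      have q3 := hφ e true
      have q4 : 0 ≤ (1 - θ) / 2 := by linarith
      have q5 := mul_nonneg h0 q1
      have q6 := mul_nonneg q4 (add_nonneg q2 q3)
      simp only [hφ']
      linarith
    have hφ'δ : ∀ e, |φ' e false - φ' e true| ≤ θ * δ e * (φ' e false + φ' e true) := by
      intro e
      have e1 : φ' e false - φ' e true = θ * (φ e false - φ e true) := by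
        simp only [hφ']; ring
      have e2 : φ' e false + φ' e true = φ e false + φ e true := by
        simp only [hφ']; ring
      rw [e1, e2, abs_mul, abs_of_nonneg h0, mul_assoc]
      exact mul_le_mul_of_nonneg_left (hδ e) h0
    have hmaps : ∀ e ∈ A, T.par e ∈ B := by
      intro e he
      rw [hA, Finset.mem_filter] at he
      rw [hB, Finset.mem_filter]
      have := T.hpar e (by omega)
      exact ⟨Finset.mem_univ _, by omega⟩
    have hb : ∀ b, bc T θ b (fun Y => ∏ e ∈ A, φ e (Y e)) =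
        bc T θ b (fun Y => ∏ e ∈ B, Φ e (Y e)) := by
      intro b
      unfold bc
      set Y0 : E → Bool := fun _ => b with hY0
      have s1 : (fun σ : E → Option Bool => ∏ e ∈ A, φ e (lk T σ 0 Y0 e)) =
          fun σ => ∏ e ∈ A, (fun e (s : Option Bool) (σ : E → Option Bool) =>
            φ e (s.getD (look T.par σ Y0 R (T.par e)))) e (σ e) σ := by
        funext σ
        apply Finset.prod_congr rfl
        intro e he
        rw [hA, Finset.mem_filter] at he
        unfold lk
        rw [he.2]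
        rfl
      rw [s1]
      refine (pe_prod (W := fun _ : E => w3 θ) (fun _ => w3_sum θ) A
        (fun e (s : Option Bool) (σ : E → Option Bool) =>
          φ e (s.getD (look T.par σ Y0 R (T.par e)))) ?_).trans ?_
      swap
      · congr 1
        funext σ
        have s2 : ∀ e ∈ A, ∑ s, w3 θ s * φ e (s.getD (look T.par σ Y0 R (T.par e))) =
            φ' e (lk T σ 0 Y0 (T.par e)) := by
          intro e he
          rw [hA, Finset.mem_filter] at he
          have := T.hpar e (by omega)
          have hl : T.lev (T.par e) = R := by omega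
          rw [sum_w3 θ (φ e)]
          unfold lk
          rw [hl]
          rfl
        rw [Finset.prod_congr rfl s2, ← Finset.prod_fiberwise_of_maps_to hmaps]
        apply Finset.prod_congr rfl
        intro f _
        simp only [hΦ]
        apply Finset.prod_congr rfl
        intro e he
        rw [Finset.mem_filter] at he
        rw [he.2]
      · intro e he s σ σ' hσ
        rw [hA, Finset.mem_filter] at he
        have hp := T.hpar e (by omega)
        have : look T.par σ Y0 R (T.par e) = look T.par σ' Y0 R (T.par e) := by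
          apply look_congr' T Y0 R _ (by omega)
          intro j hj
          apply hσ
          rw [hA, Finset.mem_filter]
          rintro ⟨-, h⟩
          omega
        simp only [this]
    rw [hb, hb]
    have hΦ0 : ∀ e x, 0 ≤ Φ e x := fun e x => Finset.prod_nonneg fun e' _ => hφ'0 e' x
    have hΔ0 : ∀ e, 0 ≤ Δ e := fun e => Finset.sum_nonneg fun e' _ => mul_nonneg h0 (hδ0 e')
    have hΔ1 : ∀ e, |Φ e false - Φ e true| ≤ Δ e * (Φ e false + Φ e true) := by
      intro e
      exact prodn _ φ' (fun e => θ * δ e) hφ'0 hφ'δ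
    have key := ih Φ Δ hΦ0 hΔ0 hΔ1
    have hsum : ∑ e ∈ B, Δ e = θ * ∑ e ∈ A, δ e := by
      simp only [hΔ]
      rw [Finset.sum_fiberwise_of_maps_to hmaps, Finset.mul_sum]
    rw [hsum] at key
    have : θ ^ (R + 1) * ∑ e ∈ A, δ e = θ ^ R * (θ * ∑ e ∈ A, δ e) := by ring
    rw [this]
    exact key

theorem rel_leaves {E : Type} [Fintype E] (T : Tree E) (θ : ℝ) (h0 : 0 ≤ θ) (h1 : θ ≤ 1)
    (R t m : ℕ) (Q : Fin m → Finset E) (α : Fin m → E → Bool) (x : Fin m → ℝ)
    (hQ : ∀ j, ∀ v ∈ Q j, T.lev v = R) (hc : ∀ j, (Q j).card ≤ t) (g : (E → Bool) → ℝ)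
    (hg : ∀ Y, g Y = ∑ j, x j * ind (∀ v ∈ Q j, Y v = α j v))
    (hg' : ∀ Y, |g Y| = ∑ j, |x j| * ind (∀ v ∈ Q j, Y v = α j v)) :
    |bc T θ false g - bc T θ true g| ≤ t * θ ^ R *
      (bc T θ false (fun Y => |g Y|) + bc T θ true (fun Y => |g Y|)) := by
  set P : Fin m → Bool → ℝ := fun j b => bc T θ b (fun Y => ind (∀ v ∈ Q j, Y v = α j v)) with hP
  have e1 : ∀ b, bc T θ b g = ∑ j, x j * P j b := by
    intro b
    simp only [hP, bc]
    have : (fun σ : E → Option Bool => g (lk T σ 0 (fun _ => b))) = fun σ =>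
        ∑ j, x j * ind (∀ v ∈ Q j, lk T σ 0 (fun _ => b) v = α j v) := by
      funext σ; exact hg _
    rw [this, pe_fsum]
    apply Finset.sum_congr rfl
    intro j _
    rw [pe_mul]
  have e2 : ∀ b, bc T θ b (fun Y => |g Y|) = ∑ j, |x j| * P j b := by
    intro b
    simp only [hP, bc]
    have : (fun σ : E → Option Bool => |g (lk T σ 0 (fun _ => b))|) = fun σ =>
        ∑ j, |x j| * ind (∀ v ∈ Q j, lk T σ 0 (fun _ => b) v = α j v) := by
      funext σ; exact hg' _
    rw [this, pe_fsum]
    apply Finset.sum_congr rfl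
    intro j _
    rw [pe_mul]
  have key : ∀ j, |P j false - P j true| ≤ t * θ ^ R * (P j false + P j true) := by
    intro j
    set φ : E → Bool → ℝ := fun e y => if e ∈ Q j then (if y = α j e then 1 else 0) else 1
      with hφ
    set δ : E → ℝ := fun e => if e ∈ Q j then 1 else 0 with hδ
    have f1 : ∀ Y : E → Bool, ind (∀ v ∈ Q j, Y v = α j v) =
        ∏ e ∈ univ.filter (fun e => T.lev e = R), φ e (Y e) := by
      intro Y
      unfold ind
      by_cases h : ∀ v ∈ Q j, Y v = α j v
      · rw [if_pos h]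
        symm
        apply Finset.prod_eq_one
        intro e _
        simp only [hφ]
        by_cases he : e ∈ Q j
        · rw [if_pos he, if_pos (h e he)]
        · rw [if_neg he]
      · rw [if_neg h]
        symm
        push Not at h
        obtain ⟨v, hv, hne⟩ := h
        apply Finset.prod_eq_zero (i := v)
        · rw [Finset.mem_filter]; exact ⟨Finset.mem_univ _, hQ j v hv⟩
        · simp only [hφ]
          rw [if_pos hv, if_neg hne]
    have f2 : ∀ b, P j b = bc T θ b
        (fun Y => ∏ e ∈ univ.filter (fun e => T.lev e = R), φ e (Y e)) := by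
      intro b
      simp only [hP]
      congr 1
      funext Y
      exact f1 Y
    have f3 := pat T θ h0 h1 R φ δ (by
      intro e y; simp only [hφ]; split_ifs <;> norm_num) (by
      intro e; simp only [hδ]; split_ifs <;> norm_num) (by
      intro e
      simp only [hφ, hδ]
      by_cases he : e ∈ Q j
      · simp only [if_pos he]
        cases α j e <;> simp
      · simp only [if_neg he]
        simp)
    rw [← f2, ← f2] at f3
    have hPnn : 0 ≤ P j false + P j true := by
      have : ∀ b, 0 ≤ P j b := by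
        intro b
        simp only [hP, bc]
        apply pe_nonneg (fun _ s => w3_nonneg h0 h1 s)
        intro σ
        unfold ind
        split_ifs <;> norm_num
      exact add_nonneg (this _) (this _)
    refine f3.trans (mul_le_mul_of_nonneg_right ?_ hPnn)
    rw [mul_comm (t : ℝ)]
    apply mul_le_mul_of_nonneg_left _ (pow_nonneg h0 R)
    calc ∑ e ∈ univ.filter (fun e => T.lev e = R), δ e ≤ ∑ e, δ e := by
          apply Finset.sum_le_sum_of_subset_of_nonneg (Finset.filter_subset _ _)
          intro e _ _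
          simp only [hδ]; split_ifs <;> norm_num
      _ = (Q j).card := by
          simp only [hδ]
          rw [Finset.sum_ite_mem, Finset.univ_inter, Finset.sum_const, nsmul_eq_mul, mul_one]
      _ ≤ t := by exact_mod_cast hc j
  rw [e1, e1, e2, e2, ← Finset.sum_sub_distrib]
  calc |∑ j, (x j * P j false - x j * P j true)| ≤ ∑ j, |x j * P j false - x j * P j true| :=
        Finset.abs_sum_le_sum_abs _ _
    _ ≤ ∑ j, |x j| * (t * θ ^ R * (P j false + P j true)) := by
        apply Finset.sum_le_sum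
        intro j _
        rw [← mul_sub, abs_mul]
        exact mul_le_mul_of_nonneg_left (key j) (abs_nonneg _)
    _ = _ := by
        rw [← Finset.sum_add_distrib, Finset.mul_sum]
        apply Finset.sum_congr rfl
        intro j _
        ring

end Pool.Agent.P325ac
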