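import Mathlib
import Pool.Agent.Lib.P325ac.Defs
import Pool.Agent.Lib.P325ac.PE
import Pool.Agent.Lib.P325ac.DTb
import Pool.Agent.Lib.P325ac.DTl
import Pool.Agent.Lib.P325ac.Lk
import Pool.Agent.Lib.P325ac.Chunk

/-!
# P325ac.TreeInd (1.5 h): circuits under percolation

For `i ≤ h` let `bad i σ := ∃ g, lv g < i ∧ ¬ DT (t + 1) (fun Y => val g (lk T σ (r - i ℓ) Y))`. Claim:
`pe (w3) (fun σ => ind (bad i σ)) ≤ #{g | lv g < i} * (1 / 2) ^ (t + 1)`; `i = 0`: no `g`. Then `i = h`.
Step `i → i + 1 ≤ h`: `L = r - i ℓ`, `L' = r - (i + 1) ℓ`, `L = L' + ℓ` (`h ℓ ≤ r`). `bad (i + 1) σ` implies `bad i σ` or there is `g` with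
`lv g = i`, `¬ bad i σ` and `¬ DT (t + 1) (fun Y => val g (lk T σ L' Y))`: for `lv g < i`, `¬ bad i σ`:
`val g (lk T σ L' Y) = val g (lk T σ L (lk T σ L' Y))` (`lk_lk`) and `DT.subst` with `lk_form` (for `σ`, `L'`).
Union bound: it suffices, for `lv g = i`, that `pe (fun σ => ind (¬ bad i σ ∧ ¬ DT ..)) ≤ (1 / 2) ^ (t + 1)`. Group the sum over `σ` by
`τ = hi T L σ` (`Finset.sum_fiberwise` or insert `1 = ∑ τ, ind (hi T L σ = τ)`). `bad i σ` depends only on `τ` (`lk_congr_hi`,
`hi T L (hi T L σ) = hi T L σ`). Fix `τ`; if there is no `σ` with `hi T L σ = τ` and `¬ bad i σ` the sum is `0`; otherwise fix one, `σ0`. For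
`f` in the set `W` of the gate `g`, `fun Y => f (lk T σ0 L Y)` is `DT (t + 1)`: input functions by `DT.subst` with `lk_form`, gates of level `< i` by
`¬ bad i σ0`, negations by `DT.comp`. `gate_dnf` for `val' Y = val g (lk T σ0 L Y)` and `W' = {f ∘ lk T σ0 L | f ∈ W}`: a DNF `F` of width `≤ t`,
`val' = evalD F` or `val' = !evalD F`. For `σ` with `hi T L σ = τ`: `val g (lk T σ L' Y) = val' (lk T σ L' Y)` (`lk_lk`, `lk_congr_hi`)
`= val' (fun u => if lev u = L' + ℓ then look par σ Y ℓ u else false)` (`lk_dep`: `val'` depends only on level `L`, and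
`lk T σ L' Y u = look par σ Y ℓ u` for `lev u = L' + ℓ`). So `¬ DT (t + 1)` for `val g (lk T σ L' ·)` is `¬ DT (t + 1)` for the function in
`chunk` (`DT.comp` with `not` in the second case). `chunk` bounds the sum over `σ` with `hi T L σ = τ`; sum over `τ`, `pe_const`.
-/

open Finset
open scoped BigOperators Classical

namespace Pool.Agent.P325ac

namespace TreeIndAux

theorem ind_nonneg' (p : Prop) : 0 ≤ ind p := by
  unfold ind
  split_ifs <;> norm_num

theorem ind_le_one' (p : Prop) : ind p ≤ 1 := by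
  unfold ind
  split_ifs <;> norm_num

theorem subst_lk {E X : Type} (T : Tree E) (σ : E → Option Bool) (L : ℕ) {t : ℕ}
    {g : (E → Bool) → X} (hg : DT t g) : DT t (fun Y => g (lk T σ L Y)) := by
  obtain ⟨vv, bb, h⟩ := lk_form T σ L
  have e : (fun Y => g (lk T σ L Y)) =
      (fun Z : E → Bool => g (fun v => (vv v).getD (Z (bb v)))) := by
    funext Y
    congr 1
    funext v
    exact h Y v
  rw [e]
  exact DT.subst vv bb hg

/-- the event of one gate, on one fiber -/
theorem gate_fiber {E G : Type} [Fintype E] [Fintype G] (T : Tree E) (D : ℕ) (hD : T.Deg D)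
    (θ : ℝ) (h0 : 0 ≤ θ) (h1 : θ < 1) (r t ℓ L' : ℕ) (hℓ : 1 ≤ ℓ)
    (hp : 8 * t * ((2 * θ / (1 + θ)) ^ (ℓ - 1) * ((1 + θ) / (1 - θ)) ^ D) ≤ 1)
    (hr : L' + ℓ ≤ r) (inp : ((E → Bool) → Bool) → Prop) (hinp : ∀ f, inp f → DT (t + 1) f)
    (lv : G → ℕ) (val : G → (E → Bool) → Bool) (hc : IsCirc inp lv val)
    (hdep : ∀ g, DepOn (fun e => T.lev e = r) (val g)) (g : G) (τ : E → Option Bool) :
    ∑ σ : E → Option Bool, (∏ e, w3 θ (σ e)) * ind (hi T (L' + ℓ) σ = τ) *
        ind ((∀ g', lv g' < lv g → DT (t + 1) (fun Y => val g' (lk T σ (L' + ℓ) Y))) ∧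
          ¬ DT (t + 1) (fun Y => val g (lk T σ L' Y)))
      ≤ (1 / 2) ^ (t + 1) *
        ∑ σ : E → Option Bool, (∏ e, w3 θ (σ e)) * ind (hi T (L' + ℓ) σ = τ) := by
  have hw : ∀ σ : E → Option Bool, 0 ≤ ∏ e, w3 θ (σ e) := fun σ =>
    Finset.prod_nonneg fun e _ => w3_nonneg h0 h1.le _
  by_cases hσ : ∃ σ0, hi T (L' + ℓ) σ0 = τ ∧
      ∀ g', lv g' < lv g → DT (t + 1) (fun Y => val g' (lk T σ0 (L' + ℓ) Y))
  · obtain ⟨σ0, hτ, hg'⟩ := hσ
    obtain ⟨W, hW, hval⟩ := hc g
    obtain ⟨F, hF, hF2⟩ := gate_dnf (t := t) (fun Y => val g (lk T σ0 (L' + ℓ) Y))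
      {f' | ∃ f ∈ W, f' = fun Y => f (lk T σ0 (L' + ℓ) Y)} (by
        rintro f' ⟨f, hf, rfl⟩
        rcases hW f hf with h | ⟨g', hlt, h | h⟩
        · exact subst_lk T σ0 _ (hinp f h)
        · subst h
          exact hg' g' hlt
        · subst h
          exact DT.comp (fun b => !b) (hg' g' hlt)) (by
        rcases hval with h | h
        · refine Or.inl fun Y => ?_
          rw [h]
          constructor
          · rintro ⟨f, hf, hfx⟩
            exact ⟨_, ⟨f, hf, rfl⟩, hfx⟩
          · rintro ⟨f', ⟨f, hf, rfl⟩, hfx⟩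
            exact ⟨f, hf, hfx⟩
        · refine Or.inr fun Y => ?_
          rw [h]
          constructor
          · rintro hall f' ⟨f, hf, rfl⟩
            exact hall f hf
          · intro hall f hf
            exact hall _ ⟨f, hf, rfl⟩)
    refine le_trans ?_ (chunk T D hD θ h0 h1 L' ℓ t hℓ hp F hF τ)
    refine Finset.sum_le_sum fun σ _ => ?_
    by_cases hs : hi T (L' + ℓ) σ = τ
    · refine mul_le_mul_of_nonneg_left ?_ (mul_nonneg (hw σ) (ind_nonneg' _))
      by_cases hdt : DT (t + 1) (fun Y : E → Bool =>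
          evalD F (fun u => if T.lev u = L' + ℓ then look T.par σ Y ℓ u else false))
      · have hbad : ¬ ((∀ g', lv g' < lv g → DT (t + 1) (fun Y => val g' (lk T σ (L' + ℓ) Y))) ∧
            ¬ DT (t + 1) (fun Y => val g (lk T σ L' Y))) := by
          rintro ⟨_, hn⟩
          apply hn
          have key : ∀ Y, val g (lk T σ L' Y) = val g (lk T σ0 (L' + ℓ)
              (fun u => if T.lev u = L' + ℓ then look T.par σ Y ℓ u else false)) := by
            intro Y
            have e1 : lk T σ L' Y = lk T σ0 (L' + ℓ) (lk T σ L' Y) := by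
              rw [← lk_congr_hi T (hs.trans hτ.symm) (lk T σ L' Y)]
              exact (lk_lk T σ (Nat.le_add_right _ _) Y).symm
            rw [e1]
            refine lk_dep T σ0 hr (hdep g) _ _ ?_
            intro u hu
            show look T.par σ Y (T.lev u - L') u = if T.lev u = L' + ℓ then look T.par σ Y ℓ u else false
            have hu' : T.lev u = L' + ℓ := hu
            rw [if_pos hu', hu', Nat.add_sub_cancel_left]
          rcases hF2 with h | h
          · have e2 : (fun Y => val g (lk T σ L' Y)) = (fun Y : E → Bool =>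
                evalD F (fun u => if T.lev u = L' + ℓ then look T.par σ Y ℓ u else false)) := by
              funext Y
              rw [key Y]
              exact h _
            rw [e2]
            exact hdt
          · have e2 : (fun Y => val g (lk T σ L' Y)) = (fun Y : E → Bool =>
                !(evalD F (fun u => if T.lev u = L' + ℓ then look T.par σ Y ℓ u else false))) := by
              funext Y
              rw [key Y]
              exact h _
            rw [e2]
            exact DT.comp (fun b => !b) hdt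
        rw [DTlAux.ind_false hbad]
        exact ind_nonneg' _
      · rw [DTlAux.ind_true hdt]
        exact ind_le_one' _
    · rw [DTlAux.ind_false hs]
      simp
  · have hz : ∀ σ : E → Option Bool, (∏ e, w3 θ (σ e)) * ind (hi T (L' + ℓ) σ = τ) *
        ind ((∀ g', lv g' < lv g → DT (t + 1) (fun Y => val g' (lk T σ (L' + ℓ) Y))) ∧
          ¬ DT (t + 1) (fun Y => val g (lk T σ L' Y))) = 0 := by
      intro σ
      by_cases hs : hi T (L' + ℓ) σ = τ
      · have : ¬ ((∀ g', lv g' < lv g → DT (t + 1) (fun Y => val g' (lk T σ (L' + ℓ) Y))) ∧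
            ¬ DT (t + 1) (fun Y => val g (lk T σ L' Y))) := fun hh => hσ ⟨σ, hs, hh.1⟩
        rw [DTlAux.ind_false this, mul_zero]
      · rw [DTlAux.ind_false hs, mul_zero, zero_mul]
    rw [Finset.sum_eq_zero fun σ _ => hz σ]
    exact mul_nonneg (by positivity)
      (Finset.sum_nonneg fun σ _ => mul_nonneg (hw σ) (ind_nonneg' _))

theorem sum_fib {E : Type} [Fintype E] (T : Tree E) (L : ℕ) (K : (E → Option Bool) → ℝ) :
    ∑ σ, K σ = ∑ τ : E → Option Bool, ∑ σ, K σ * ind (hi T L σ = τ) := by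
  rw [Finset.sum_comm]
  refine Finset.sum_congr rfl fun σ _ => ?_
  rw [← Finset.mul_sum]
  have : ∑ τ : E → Option Bool, ind (hi T L σ = τ) = 1 := by
    rw [Finset.sum_eq_single (hi T L σ)]
    · exact DTlAux.ind_true rfl
    · intro τ _ hτ
      exact DTlAux.ind_false fun h => hτ h.symm
    · intro h
      exact absurd (Finset.mem_univ _) h
  rw [this, mul_one]

/-- the event of one gate -/
theorem gate_step {E G : Type} [Fintype E] [Fintype G] (T : Tree E) (D : ℕ) (hD : T.Deg D)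
    (θ : ℝ) (h0 : 0 ≤ θ) (h1 : θ < 1) (r t ℓ L' : ℕ) (hℓ : 1 ≤ ℓ)
    (hp : 8 * t * ((2 * θ / (1 + θ)) ^ (ℓ - 1) * ((1 + θ) / (1 - θ)) ^ D) ≤ 1)
    (hr : L' + ℓ ≤ r) (inp : ((E → Bool) → Bool) → Prop) (hinp : ∀ f, inp f → DT (t + 1) f)
    (lv : G → ℕ) (val : G → (E → Bool) → Bool) (hc : IsCirc inp lv val)
    (hdep : ∀ g, DepOn (fun e => T.lev e = r) (val g)) (g : G) :
    pe (fun _ : E => w3 θ) (fun σ =>
        ind ((∀ g', lv g' < lv g → DT (t + 1) (fun Y => val g' (lk T σ (L' + ℓ) Y))) ∧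
          ¬ DT (t + 1) (fun Y => val g (lk T σ L' Y))))
      ≤ (1 / 2) ^ (t + 1) := by
  have h2 : pe (fun _ : E => w3 θ) (fun _ => (1 : ℝ)) = 1 := pe_const (fun _ => w3_sum θ) 1
  have h3 : (1 / 2 : ℝ) ^ (t + 1) = (1 / 2) ^ (t + 1) * pe (fun _ : E => w3 θ) (fun _ => (1 : ℝ)) := by
    rw [h2, mul_one]
  rw [h3]
  unfold pe
  rw [sum_fib T (L' + ℓ), sum_fib T (L' + ℓ) (fun σ => (∏ i, w3 θ (σ i)) * 1), Finset.mul_sum]
  refine Finset.sum_le_sum fun τ _ => ?_
  have h4 := gate_fiber T D hD θ h0 h1 r t ℓ L' hℓ hp hr inp hinp lv val hc hdep g τ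
  refine le_trans (le_of_eq ?_) (h4.trans (le_of_eq ?_))
  · refine Finset.sum_congr rfl fun σ _ => ?_
    ring
  · congr 1
    refine Finset.sum_congr rfl fun σ _ => ?_
    rw [mul_one]

theorem main {E G : Type} [Fintype E] [Fintype G] (T : Tree E) (D : ℕ) (hD : T.Deg D)
    (θ : ℝ) (h0 : 0 ≤ θ) (h1 : θ < 1) (r h t ℓ : ℕ) (hℓ : 1 ≤ ℓ)
    (hp : 8 * t * ((2 * θ / (1 + θ)) ^ (ℓ - 1) * ((1 + θ) / (1 - θ)) ^ D) ≤ 1)
    (hr : h * ℓ ≤ r) (inp : ((E → Bool) → Bool) → Prop) (hinp : ∀ f, inp f → DT (t + 1) f)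
    (lv : G → ℕ) (val : G → (E → Bool) → Bool) (hc : IsCirc inp lv val)
    (hdep : ∀ g, DepOn (fun e => T.lev e = r) (val g)) : ∀ i : ℕ, i ≤ h →
    pe (fun _ : E => w3 θ)
        (fun σ => ind (∃ g, lv g < i ∧ ¬ DT (t + 1) (fun Y => val g (lk T σ (r - i * ℓ) Y))))
      ≤ ((univ.filter (fun g : G => lv g < i)).card : ℝ) * (1 / 2) ^ (t + 1) := by
  intro i
  induction i with
  | zero =>
    intro _
    have e : (fun σ : E → Option Bool =>
        ind (∃ g, lv g < 0 ∧ ¬ DT (t + 1) (fun Y => val g (lk T σ (r - 0 * ℓ) Y)))) =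
        (fun _ => (0 : ℝ)) := by
      funext σ
      apply DTlAux.ind_false
      rintro ⟨g, hg, _⟩
      exact absurd hg (Nat.not_lt_zero _)
    rw [e, pe_const (fun _ => w3_sum θ)]
    positivity
  | succ i ih =>
    intro hi'
    have h5 := ih (by omega)
    have h6 : (i + 1) * ℓ ≤ r := (Nat.mul_le_mul_right ℓ hi').trans hr
    have h7 : (i + 1) * ℓ = i * ℓ + ℓ := Nat.succ_mul i ℓ
    obtain ⟨L', hL'⟩ : ∃ L', L' = r - (i + 1) * ℓ := ⟨_, rfl⟩
    have hL : r - i * ℓ = L' + ℓ := by omega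
    rw [← hL']
    rw [hL] at h5
    have hbd : ∀ σ : E → Option Bool,
        ind (∃ g, lv g < i + 1 ∧ ¬ DT (t + 1) (fun Y => val g (lk T σ L' Y))) ≤
        ind (∃ g, lv g < i ∧ ¬ DT (t + 1) (fun Y => val g (lk T σ (L' + ℓ) Y))) +
        ∑ g ∈ univ.filter (fun g : G => lv g = i),
          ind ((∀ g', lv g' < lv g → DT (t + 1) (fun Y => val g' (lk T σ (L' + ℓ) Y))) ∧
            ¬ DT (t + 1) (fun Y => val g (lk T σ L' Y))) := by
      intro σ
      have hs0 : 0 ≤ ∑ g ∈ univ.filter (fun g : G => lv g = i),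
          ind ((∀ g', lv g' < lv g → DT (t + 1) (fun Y => val g' (lk T σ (L' + ℓ) Y))) ∧
            ¬ DT (t + 1) (fun Y => val g (lk T σ L' Y))) :=
        Finset.sum_nonneg fun g _ => ind_nonneg' _
      by_cases hb : ∃ g, lv g < i ∧ ¬ DT (t + 1) (fun Y => val g (lk T σ (L' + ℓ) Y))
      · rw [DTlAux.ind_true hb]
        have := ind_le_one' (∃ g, lv g < i + 1 ∧ ¬ DT (t + 1) (fun Y => val g (lk T σ L' Y)))
        linarith
      · by_cases hb2 : ∃ g, lv g < i + 1 ∧ ¬ DT (t + 1) (fun Y => val g (lk T σ L' Y))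
        · rw [DTlAux.ind_true hb2, DTlAux.ind_false hb, zero_add]
          obtain ⟨g, hg1, hg2⟩ := hb2
          have hgood : ∀ g', lv g' < i → DT (t + 1) (fun Y => val g' (lk T σ (L' + ℓ) Y)) := by
            intro g' hg'
            by_contra hcon
            exact hb ⟨g', hg', hcon⟩
          have hgi : lv g = i := by
            by_contra hne
            have hlt : lv g < i := by omega
            apply hg2
            have e3 := subst_lk T σ L' (hgood g hlt)
            have e4 : (fun Y => val g (lk T σ L' Y)) =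
                (fun Y => val g (lk T σ (L' + ℓ) (lk T σ L' Y))) := by
              funext Y
              rw [lk_lk T σ (Nat.le_add_right _ _) Y]
            rw [e4]
            exact e3
          have hev : (∀ g', lv g' < lv g → DT (t + 1) (fun Y => val g' (lk T σ (L' + ℓ) Y))) ∧
              ¬ DT (t + 1) (fun Y => val g (lk T σ L' Y)) :=
            ⟨fun g' hg' => hgood g' (hgi ▸ hg'), hg2⟩
          have hmem : g ∈ univ.filter (fun g : G => lv g = i) := by
            rw [Finset.mem_filter]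
            exact ⟨Finset.mem_univ _, hgi⟩
          have h8 := Finset.single_le_sum (f := fun g : G =>
            ind ((∀ g', lv g' < lv g → DT (t + 1) (fun Y => val g' (lk T σ (L' + ℓ) Y))) ∧
            ¬ DT (t + 1) (fun Y => val g (lk T σ L' Y))))
            (fun g _ => ind_nonneg' _) hmem
          have h9 : ind ((∀ g', lv g' < lv g → DT (t + 1) (fun Y => val g' (lk T σ (L' + ℓ) Y))) ∧
            ¬ DT (t + 1) (fun Y => val g (lk T σ L' Y))) = 1 := DTlAux.ind_true hev
          rw [← h9]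
          exact h8
        · rw [DTlAux.ind_false hb2]
          exact add_nonneg (ind_nonneg' _) hs0
    refine (pe_le (fun _ s => w3_nonneg h0 h1.le s) hbd).trans ?_
    rw [pe_add, pe_fsum]
    have h10 : ∑ g ∈ univ.filter (fun g : G => lv g = i), pe (fun _ : E => w3 θ) (fun σ =>
          ind ((∀ g', lv g' < lv g → DT (t + 1) (fun Y => val g' (lk T σ (L' + ℓ) Y))) ∧
            ¬ DT (t + 1) (fun Y => val g (lk T σ L' Y))))
        ≤ ((univ.filter (fun g : G => lv g = i)).card : ℝ) * (1 / 2) ^ (t + 1) := by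
      rw [← nsmul_eq_mul]
      refine Finset.sum_le_card_nsmul _ _ _ fun g _ => ?_
      exact gate_step T D hD θ h0 h1 r t ℓ L' hℓ hp (by omega) inp hinp lv val hc hdep g
    have h11 : (univ.filter (fun g : G => lv g < i + 1)).card =
        (univ.filter (fun g : G => lv g < i)).card + (univ.filter (fun g : G => lv g = i)).card := by
      rw [← Finset.card_union_of_disjoint]
      · congr 1
        ext g
        simp only [Finset.mem_filter, Finset.mem_univ, true_and, Finset.mem_union]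
        omega
      · rw [Finset.disjoint_filter]
        intro g _ hg
        omega
    rw [h11, Nat.cast_add, add_mul]
    exact add_le_add h5 h10

end TreeIndAux

open TreeIndAux

theorem tree_ind {E G : Type} [Fintype E] [Fintype G] (T : Tree E) (D : ℕ) (hD : T.Deg D)
    (θ : ℝ) (h0 : 0 ≤ θ) (h1 : θ < 1) (r h t ℓ : ℕ) (hℓ : 1 ≤ ℓ)
    (hp : 8 * t * ((2 * θ / (1 + θ)) ^ (ℓ - 1) * ((1 + θ) / (1 - θ)) ^ D) ≤ 1)
    (hr : h * ℓ ≤ r) (inp : ((E → Bool) → Bool) → Prop) (hinp : ∀ f, inp f → DT (t + 1) f)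
    (lv : G → ℕ) (val : G → (E → Bool) → Bool) (hc : IsCirc inp lv val) (hlv : ∀ g, lv g < h)
    (hdep : ∀ g, DepOn (fun e => T.lev e = r) (val g)) :
    pe (fun _ : E => w3 θ)
        (fun σ => ind (∃ g, ¬ DT (t + 1) (fun Y => val g (lk T σ (r - h * ℓ) Y))))
      ≤ Fintype.card G * (1 / 2) ^ (t + 1) := by
  have h2 := TreeIndAux.main T D hD θ h0 h1 r h t ℓ hℓ hp hr inp hinp lv val hc hdep h le_rfl
  have e1 : (univ.filter (fun g : G => lv g < h)).card = Fintype.card G := by
    rw [Finset.filter_true_of_mem fun g _ => hlv g]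
    rfl
  have e2 : (fun σ : E → Option Bool =>
      ind (∃ g, lv g < h ∧ ¬ DT (t + 1) (fun Y => val g (lk T σ (r - h * ℓ) Y)))) =
      (fun σ => ind (∃ g, ¬ DT (t + 1) (fun Y => val g (lk T σ (r - h * ℓ) Y)))) := by
    funext σ
    congr 1
    apply propext
    constructor
    · rintro ⟨g, _, hg⟩
      exact ⟨g, hg⟩
    · rintro ⟨g, hg⟩
      exact ⟨g, hlv g, hg⟩
  rw [e1, e2] at h2
  exact h2

end Pool.Agent.P325ac
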