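import Mathlib
import Pool.Agent.Lib.P325ac.Defs
import Pool.Agent.Lib.P325ac.PE
import Pool.Agent.Lib.P325ac.DTb
import Pool.Agent.Lib.P325ac.DTl
import Pool.Agent.Lib.P325ac.Lk
import Pool.Agent.Lib.P325ac.TreeInd
import Pool.Agent.Lib.P325ac.Pat

/-!
# P325ac.TreeRoot (0.8 h): the root lemma on a tree

`F Y = br (val g0 Y) - br (val g1 Y)`, `L = r - h ℓ`. By `bc_split`: `bc T θ b F = pe (w3) (fun σ => bc T θ b (F^σ))`,
`F^σ Y = F (lk T σ L Y)`, and the same for `|F|`. Call `σ` bad if some `fun Y => val g (lk T σ L Y)` is not `DT (t + 1)`; by `tree_ind` the bad `σ`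
have weight `≤ card G (1/2)^(t+1)`. For good `σ`: `F^σ` is `DT (2 t + 1)` (`DT.pair`, `DT.comp`) and depends only on level `L` (`lk_dep`), so
`DT.leaves` and `rel_leaves` give `|bc false F^σ - bc true F^σ| ≤ 2 t θ^L (bc false |F^σ| + bc true |F^σ|)`. For bad `σ` the left side is at most
`2` (`|F| ≤ 1`) and the right side is `≥ 0`. Average over `σ` (`abs_pe_le`, `pe_le`).
-/

open Finset
open scoped BigOperators Classical

namespace Pool.Agent.P325ac

namespace TreeRootAux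

theorem abs_br_sub_le (a b : Bool) : |br a - br b| ≤ 1 := by
  cases a <;> cases b <;> simp [br]

theorem bc_abs_le {E : Type} [Fintype E] (T : Tree E) {θ : ℝ} (h0 : 0 ≤ θ) (h1 : θ ≤ 1) (b : Bool)
    {g : (E → Bool) → ℝ} (hg : ∀ Y, |g Y| ≤ 1) : |bc T θ b g| ≤ 1 := by
  unfold bc
  refine (abs_pe_le (fun _ s => w3_nonneg h0 h1 s) _).trans ?_
  refine (pe_le (fun _ s => w3_nonneg h0 h1 s) (K' := fun _ => 1) (fun σ => hg _)).trans ?_
  rw [pe_const (fun _ => w3_sum θ)]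

theorem bc_nonneg {E : Type} [Fintype E] (T : Tree E) {θ : ℝ} (h0 : 0 ≤ θ) (h1 : θ ≤ 1) (b : Bool)
    {g : (E → Bool) → ℝ} (hg : ∀ Y, 0 ≤ g Y) : 0 ≤ bc T θ b g := by
  unfold bc
  exact pe_nonneg (fun _ s => w3_nonneg h0 h1 s) (fun σ => hg _)

theorem good_bound {E : Type} [Fintype E] (T : Tree E) {θ : ℝ} (h0 : 0 ≤ θ) (h1 : θ ≤ 1) (L t : ℕ)
    {f0 f1 : (E → Bool) → Bool} (hf0 : DT (t + 1) f0) (hf1 : DT (t + 1) f1)
    (hd0 : DepOn (fun e => T.lev e = L) f0) (hd1 : DepOn (fun e => T.lev e = L) f1) :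
    |bc T θ false (fun Y => br (f0 Y) - br (f1 Y)) - bc T θ true (fun Y => br (f0 Y) - br (f1 Y))|
      ≤ 2 * t * θ ^ L * (bc T θ false (fun Y => |br (f0 Y) - br (f1 Y)|) +
            bc T θ true (fun Y => |br (f0 Y) - br (f1 Y)|)) := by
  have h2 : DT (t + t + 1) (fun Y => br (f0 Y) - br (f1 Y)) :=
    DT.comp (fun p : Bool × Bool => br p.1 - br p.2) (DT.pair hf0 hf1)
  have h3 : DepOn (fun e => T.lev e = L) (fun Y => br (f0 Y) - br (f1 Y)) := by
    intro Y Y' hY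
    show br (f0 Y) - br (f1 Y) = br (f0 Y') - br (f1 Y')
    rw [hd0 Y Y' hY, hd1 Y Y' hY]
  obtain ⟨m, Q, α, x, hQ, hc, hg, hg'⟩ := DT.leaves _ h3 h2
  have h4 := rel_leaves T θ h0 h1 L (t + t) m Q α x hQ hc _ hg hg'
  have h5 : ((t + t : ℕ) : ℝ) = 2 * t := by
    push_cast
    ring
  rw [h5] at h4
  exact h4

end TreeRootAux

open TreeRootAux

theorem tree_root {E G : Type} [Fintype E] [Fintype G] (T : Tree E) (D : ℕ) (hD : T.Deg D)
    (θ : ℝ) (h0 : 0 ≤ θ) (h1 : θ < 1) (r h t ℓ : ℕ) (hℓ : 1 ≤ ℓ)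
    (hp : 8 * t * ((2 * θ / (1 + θ)) ^ (ℓ - 1) * ((1 + θ) / (1 - θ)) ^ D) ≤ 1)
    (hr : h * ℓ ≤ r) (inp : ((E → Bool) → Bool) → Prop) (hinp : ∀ f, inp f → DT (t + 1) f)
    (lv : G → ℕ) (val : G → (E → Bool) → Bool) (hc : IsCirc inp lv val) (hlv : ∀ g, lv g < h)
    (hdep : ∀ g, DepOn (fun e => T.lev e = r) (val g)) (g0 g1 : G) :
    |bc T θ false (fun Y => br (val g0 Y) - br (val g1 Y)) -
        bc T θ true (fun Y => br (val g0 Y) - br (val g1 Y))|
      ≤ 2 * t * θ ^ (r - h * ℓ) *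
          (bc T θ false (fun Y => |br (val g0 Y) - br (val g1 Y)|) +
            bc T θ true (fun Y => |br (val g0 Y) - br (val g1 Y)|)) +
        2 * (Fintype.card G * (1 / 2) ^ (t + 1)) := by
  have h1' : θ ≤ 1 := h1.le
  obtain ⟨L, hL⟩ : ∃ L, L = r - h * ℓ := ⟨_, rfl⟩
  have hLr : L ≤ r := by omega
  have hind := tree_ind T D hD θ h0 h1 r h t ℓ hℓ hp hr inp hinp lv val hc hlv hdep
  rw [← hL] at hind ⊢
  have hw : ∀ (_ : E) (s : Option Bool), 0 ≤ w3 θ s := fun _ s => w3_nonneg h0 h1' s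
  rw [bc_split T θ false L (fun Y => br (val g0 Y) - br (val g1 Y)),
    bc_split T θ true L (fun Y => br (val g0 Y) - br (val g1 Y)),
    bc_split T θ false L (fun Y => |br (val g0 Y) - br (val g1 Y)|),
    bc_split T θ true L (fun Y => |br (val g0 Y) - br (val g1 Y)|),
    ← pe_sub, ← pe_add, ← pe_mul]
  have key : pe (fun _ : E => w3 θ) (fun σ =>
      |bc T θ false (fun Y => br (val g0 (lk T σ L Y)) - br (val g1 (lk T σ L Y))) -
        bc T θ true (fun Y => br (val g0 (lk T σ L Y)) - br (val g1 (lk T σ L Y)))|) ≤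
      pe (fun _ : E => w3 θ) (fun σ =>
        2 * t * θ ^ L * (bc T θ false (fun Y => |br (val g0 (lk T σ L Y)) - br (val g1 (lk T σ L Y))|) +
          bc T θ true (fun Y => |br (val g0 (lk T σ L Y)) - br (val g1 (lk T σ L Y))|)) +
        2 * ind (∃ g, ¬ DT (t + 1) (fun Y => val g (lk T σ L Y)))) := by
    refine pe_le hw fun σ => ?_
    by_cases hb : ∃ g, ¬ DT (t + 1) (fun Y => val g (lk T σ L Y))
    · have e1 : ind (∃ g, ¬ DT (t + 1) (fun Y => val g (lk T σ L Y))) = 1 := by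
        unfold ind
        rw [if_pos hb]
      rw [e1]
      have a1 := bc_abs_le T h0 h1' false
        (g := fun Y => br (val g0 (lk T σ L Y)) - br (val g1 (lk T σ L Y)))
        (fun Y => abs_br_sub_le _ _)
      have a2 := bc_abs_le T h0 h1' true
        (g := fun Y => br (val g0 (lk T σ L Y)) - br (val g1 (lk T σ L Y)))
        (fun Y => abs_br_sub_le _ _)
      have a3 := bc_nonneg T h0 h1' false
        (g := fun Y => |br (val g0 (lk T σ L Y)) - br (val g1 (lk T σ L Y))|)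
        (fun Y => abs_nonneg _)
      have a4 := bc_nonneg T h0 h1' true
        (g := fun Y => |br (val g0 (lk T σ L Y)) - br (val g1 (lk T σ L Y))|)
        (fun Y => abs_nonneg _)
      have a5 : (0 : ℝ) ≤ 2 * t * θ ^ L := by positivity
      have a6 := mul_nonneg a5 (add_nonneg a3 a4)
      have a7 := abs_sub
        (bc T θ false (fun Y => br (val g0 (lk T σ L Y)) - br (val g1 (lk T σ L Y))))
        (bc T θ true (fun Y => br (val g0 (lk T σ L Y)) - br (val g1 (lk T σ L Y))))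
      linarith
    · have e1 : ind (∃ g, ¬ DT (t + 1) (fun Y => val g (lk T σ L Y))) = 0 := by
        unfold ind
        rw [if_neg hb]
      rw [e1, mul_zero, add_zero]
      push Not at hb
      exact good_bound T h0 h1' L t (hb g0) (hb g1) (lk_dep T σ hLr (hdep g0))
        (lk_dep T σ hLr (hdep g1))
  refine (abs_pe_le hw _).trans (key.trans ?_)
  rw [pe_add, pe_mul _ 2]
  have := mul_le_mul_of_nonneg_left hind (by norm_num : (0 : ℝ) ≤ 2)
  linarith

end Pool.Agent.P325ac
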