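import Mathlib
import Pool.Agent.Lib.P325ac.Defs
import Pool.Agent.Lib.P325ac.PE
import Pool.Agent.Lib.P325ac.DTb
import Pool.Agent.Lib.P325ac.Mark
import Pool.Agent.Lib.P325ac.Gauge
import Pool.Agent.Lib.P325ac.TreeRoot
import Pool.Agent.Lib.P325ac.Circ

/-!
# P325ac.RootG (1 h): the root lemma in the graph

`gauge` twice with `G c = dif (val g) e0 c` (`ε = η = sg`) and `G c = |dif (val g) e0 c|` (`ε = η = 1`), and `markov` (`bc` instead of the
noise `τ'`). So with `F Y = dif (val g) e0 (chat Bl z τ Y)`: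
left side `= |pe_z pe_τ (sg (z (tgt e0)) * (1 / 2) * (bc T θ false F - bc T θ true F))| ≤ pe_z pe_τ ((1 / 2) * |bc false F - bc true F|)`,
`ex |dif| = pe_z pe_τ ((1 / 2) * (bc false |F| + bc true |F|))`.
For fixed `z, τ` apply `tree_root` to the circuit with gates `G × Bool`, `lv' (g, a) = lv g`,
`val' (g, a) Y = val g (upd (chat Bl z τ Y) e0 a)`, input functions `inp' f' := ∃ f a, inp f ∧ f' = fun Y => f (upd (chat Bl z τ Y) e0 a)`
(`DT (t + 1)` by `DT.map`: the coordinate `e` of `upd (chat Bl z τ Y) e0 a` is `φ e (Y e)`), `g0 = (g, false)`, `g1 = (g, true)`. `IsCirc`: for the gate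
`(g, a)` take `W' = {f ∘ (fun Y => upd (chat Bl z τ Y) e0 a) | f ∈ W}`. `hdep`: `chat` depends on `Y` only at edges of level `r`
(`lev e ≤ r`, `r ≥ 1`). `card (G × Bool) = 2 card G`.
-/

open Finset
open scoped BigOperators Classical

namespace Pool.Agent.P325ac

namespace RootGAux

theorem upd_upd {I S : Type} (Y : I → S) (i : I) (a b : S) : upd (upd Y i a) i b = upd Y i b := by
  funext j
  unfold upd
  by_cases h : j = i
  · simp [h]
  · simp [h]

theorem dif_upd {E : Type} (f : (E → Bool) → Bool) (e : E) (c : E → Bool) (a : Bool) :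
    dif f e (upd c e a) = dif f e c := by
  unfold dif
  rw [upd_upd, upd_upd]

theorem abs_sg (b : Bool) : |sg b| = 1 := by
  cases b <;> simp [sg]

theorem chat_map {V E : Type} {src tgt : E → V} {e0 : E} {r : ℕ} (Bl : Ball src tgt e0 r)
    (z : V → Bool) (τ : E → Bool) (a : Bool) (Y : E → Bool) :
    upd (chat Bl z τ Y) e0 a =
      fun e => (fun (e : E) (y : Bool) => upd (chat Bl z τ (fun _ => y)) e0 a e) e (Y e) := by
  funext e
  show upd (chat Bl z τ Y) e0 a e = upd (chat Bl z τ (fun _ => Y e)) e0 a e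
  unfold upd
  by_cases h : e = e0
  · simp [h]
  · simp only [h, if_false]
    unfold chat
    rfl

theorem chat_dep {V E : Type} {src tgt : E → V} {e0 : E} {r : ℕ} (Bl : Ball src tgt e0 r)
    (z : V → Bool) (τ : E → Bool) (Y Y' : E → Bool) (h : ∀ e, Bl.T.lev e = r → Y e = Y' e) :
    chat Bl z τ Y = chat Bl z τ Y' := by
  funext e
  unfold chat
  by_cases h0 : Bl.T.lev e = 0
  · simp [h0]
  · by_cases h1 : Bl.T.lev e < r
    · simp [h0, h1]
    · have h2 : Bl.T.lev e = r := le_antisymm (Bl.lev_le e) (not_lt.1 h1)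
      rw [if_neg h0, if_neg h1, if_neg h0, if_neg h1, h e h2]

end RootGAux

open RootGAux

theorem root_graph {V E G : Type} [Fintype V] [Fintype E] [Fintype G] (src tgt : E → V) (e0 : E)
    (D : ℕ) (θ : ℝ) (h0 : 0 ≤ θ) (h1 : θ < 1) (r h t ℓ : ℕ) (hr1 : 1 ≤ r) (hℓ : 1 ≤ ℓ)
    (Bl : Ball src tgt e0 r) (hD : Bl.T.Deg D)
    (hp : 8 * t * ((2 * θ / (1 + θ)) ^ (ℓ - 1) * ((1 + θ) / (1 - θ)) ^ D) ≤ 1)
    (hr : h * ℓ ≤ r) (inp : ((E → Bool) → Bool) → Prop) (hinp : ∀ f, inp f → DT (t + 1) f)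
    (lv : G → ℕ) (val : G → (E → Bool) → Bool) (hc : IsCirc inp lv val) (hlv : ∀ g, lv g < h)
    (g : G) :
    |ex src tgt θ (fun z c => sg (z (src e0)) * sg (z (tgt e0)) * dif (val g) e0 c)|
      ≤ 2 * t * θ ^ (r - h * ℓ) * ex src tgt θ (fun _ c => |dif (val g) e0 c|) +
        Fintype.card G * (1 / 2) ^ t := by
  have h1' : θ ≤ 1 := h1.le
  have hwV : ∀ (_ : V) (s : Bool), 0 ≤ wn 0 s := fun _ s => wn_nonneg le_rfl zero_le_one s
  have hwE : ∀ (_ : E) (s : Bool), 0 ≤ wn θ s := fun _ s => wn_nonneg h0 h1' s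
  -- the function on the ball
  let F : (V → Bool) → (E → Bool) → (E → Bool) → ℝ := fun z τ Y => dif (val g) e0 (chat Bl z τ Y)
  have e1 : ex src tgt θ (fun z c => sg (z (src e0)) * sg (z (tgt e0)) * dif (val g) e0 c) =
      pe (fun _ : V => wn 0) (fun z => pe (fun _ : E => wn θ) (fun τ =>
        sg (z (tgt e0)) * ((1 / 2) * (bc Bl.T θ false (F z τ) - bc Bl.T θ true (F z τ))))) := by
    rw [gauge src tgt e0 r hr1 Bl θ (dif (val g) e0) (fun c a => dif_upd _ _ _ _) sg sg]
    refine congrArg (pe _) (funext fun z => congrArg (pe _) (funext fun τ => ?_))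
    rw [Fintype.sum_bool, ← markov Bl.T θ true (F z τ), ← markov Bl.T θ false (F z τ)]
    have s1 : sg true = -1 := by simp [sg]
    have s2 : sg false = 1 := by simp [sg]
    rw [s1, s2]
    ring
  have e2 : ex src tgt θ (fun _ c => |dif (val g) e0 c|) =
      pe (fun _ : V => wn 0) (fun z => pe (fun _ : E => wn θ) (fun τ =>
        (1 / 2) * (bc Bl.T θ false (fun Y => |F z τ Y|) + bc Bl.T θ true (fun Y => |F z τ Y|)))) := by
    have := gauge src tgt e0 r hr1 Bl θ (fun c => |dif (val g) e0 c|)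
      (fun c a => by rw [dif_upd]) (fun _ => 1) (fun _ => 1)
    simp only [one_mul] at this
    rw [this]
    refine congrArg (pe _) (funext fun z => congrArg (pe _) (funext fun τ => ?_))
    rw [Fintype.sum_bool, ← markov Bl.T θ true (fun Y => |F z τ Y|),
      ← markov Bl.T θ false (fun Y => |F z τ Y|)]
    ring
  have key : ∀ (z : V → Bool) (τ : E → Bool),
      |bc Bl.T θ false (F z τ) - bc Bl.T θ true (F z τ)| ≤
        2 * t * θ ^ (r - h * ℓ) * (bc Bl.T θ false (fun Y => |F z τ Y|) +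
          bc Bl.T θ true (fun Y => |F z τ Y|)) + 2 * (Fintype.card G * (1 / 2) ^ t) := by
    intro z τ
    have hcc := hc.copies (fun (a : Bool) (Y : E → Bool) => upd (chat Bl z τ Y) e0 a)
    have hroot := tree_root Bl.T D hD θ h0 h1 r h t ℓ hℓ hp hr
      (fun f' => ∃ f a, inp f ∧ f' = fun Y => f (upd (chat Bl z τ Y) e0 a)) ?_
      (fun p : G × Bool => lv p.1) (fun p Y => val p.1 (upd (chat Bl z τ Y) e0 p.2)) hcc
      (fun p => hlv p.1) ?_ (g, false) (g, true)
    · have hcard : (Fintype.card (G × Bool) : ℝ) = 2 * Fintype.card G := by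
        rw [Fintype.card_prod, Fintype.card_bool]
        push_cast
        ring
      rw [hcard] at hroot
      refine hroot.trans (le_of_eq ?_)
      show 2 * t * θ ^ (r - h * ℓ) * (bc Bl.T θ false (fun Y => |F z τ Y|) +
          bc Bl.T θ true (fun Y => |F z τ Y|)) +
        2 * (2 * (Fintype.card G : ℝ) * (1 / 2) ^ (t + 1)) = _
      rw [pow_succ]
      ring
    · rintro f' ⟨f, a, hf, rfl⟩
      have h2 := DT.map (fun (e : E) (y : Bool) => upd (chat Bl z τ (fun _ => y)) e0 a e) (hinp f hf)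
      have h3 : (fun Y => f (upd (chat Bl z τ Y) e0 a)) = fun Z : E → Bool =>
          f (fun v => (fun (e : E) (y : Bool) => upd (chat Bl z τ (fun _ => y)) e0 a e) v (Z v)) := by
        funext Y
        rw [chat_map Bl z τ a Y]
      rw [h3]
      exact h2
    · intro p Y Y' hY
      show val p.1 (upd (chat Bl z τ Y) e0 p.2) = val p.1 (upd (chat Bl z τ Y') e0 p.2)
      rw [chat_dep Bl z τ Y Y' hY]
  rw [e1, e2]
  refine (abs_pe_le hwV _).trans ?_
  have step : pe (fun _ : V => wn 0) (fun z => |pe (fun _ : E => wn θ) (fun τ =>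
      sg (z (tgt e0)) * ((1 / 2) * (bc Bl.T θ false (F z τ) - bc Bl.T θ true (F z τ))))|) ≤
      pe (fun _ : V => wn 0) (fun z => 2 * t * θ ^ (r - h * ℓ) * pe (fun _ : E => wn θ) (fun τ =>
        (1 / 2) * (bc Bl.T θ false (fun Y => |F z τ Y|) + bc Bl.T θ true (fun Y => |F z τ Y|))) +
        Fintype.card G * (1 / 2) ^ t) := by
    refine pe_le hwV fun z => ?_
    refine (abs_pe_le hwE _).trans ?_
    have h4 : pe (fun _ : E => wn θ) (fun τ => |sg (z (tgt e0)) * ((1 / 2) *
        (bc Bl.T θ false (F z τ) - bc Bl.T θ true (F z τ)))|) ≤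
        pe (fun _ : E => wn θ) (fun τ => 2 * t * θ ^ (r - h * ℓ) * ((1 / 2) *
          (bc Bl.T θ false (fun Y => |F z τ Y|) + bc Bl.T θ true (fun Y => |F z τ Y|))) +
          Fintype.card G * (1 / 2) ^ t) := by
      refine pe_le hwE fun τ => ?_
      rw [abs_mul, abs_sg, one_mul, abs_mul, abs_of_nonneg (by norm_num : (0 : ℝ) ≤ 1 / 2)]
      have := key z τ
      linarith
    refine h4.trans (le_of_eq ?_)
    rw [pe_add, pe_mul, pe_const (fun _ => wn_sum θ)]
  refine step.trans (le_of_eq ?_)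
  rw [pe_add, pe_mul, pe_const (fun _ => wn_sum 0)]

end Pool.Agent.P325ac
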