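import Mathlib
import Pool.Agent.Lib.P325ac.Defs
import Pool.Agent.Lib.P325ac.PE

/-!
# P325ac.Russo (1 h): the derivative in the noise parameter

`russo`: `wn θ b` is affine in `θ` with derivative `(1/2)(-1)^b`; `HasDerivAt.finset_prod` (product over `e`), sum over `τ`; the derivative is
`∑ e, ∑ τ, (∏ e' ≠ e, wn θ (τ e')) * (1/2) sg (τ e) * K τ`, and for each `e` the sum over `τ` is the expectation
`pe (wn θ) (fun τ => (1/2) (K (upd τ e false) - K (upd τ e true)))` (group by the values off `e`; `∑ b, wn θ b = 1`).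
`russo_graph`: `ex` is a finite sum over `z` of such functions with `K τ = f (cob src tgt z τ)`;
`cob src tgt z (upd τ e a) = upd (cob src tgt z τ) e (a xor z (src e) xor z (tgt e))`, so
`K (upd τ e false) - K (upd τ e true) = sg (z (src e)) * sg (z (tgt e)) * (f (upd c e false) - f (upd c e true))`, `c = cob src tgt z τ`.
`mvt`: mean value theorem on `[0, ρ]` (`Convex.norm_image_sub_le_of_norm_deriv_le` or `exists_hasDerivAt_eq_slope`).
-/

open Finset
open scoped BigOperators Classical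

namespace Pool.Agent.P325ac

namespace RussoAux

variable {E : Type} [Fintype E]

/-- exchange of the value at `e` with the additional value -/
noncomputable def swp (e : E) (x : (E → Bool) × Bool) : (E → Bool) × Bool := (upd x.1 e x.2, x.1 e)

theorem swp_invol (e : E) : Function.Involutive (swp e) := by
  rintro ⟨τ, b⟩
  unfold swp upd
  ext1
  · funext j
    by_cases h : j = e
    · subst h
      simp
    · simp [h]
  · simp

theorem sum_swap (e : E) (F : (E → Bool) → Bool → ℝ) :
    ∑ τ, ∑ b, F (upd τ e b) (τ e) = ∑ σ, ∑ s, F σ s := by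
  rw [← Fintype.sum_prod_type', ← Fintype.sum_prod_type']
  exact Equiv.sum_comp (Function.Involutive.toPerm (swp e) (swp_invol e)) (fun x => F x.1 x.2)

theorem hasDerivAt_wn (b : Bool) (θ : ℝ) : HasDerivAt (fun θ => wn θ b) (1 / 2 * sg b) θ := by
  cases b
  · have h : HasDerivAt (fun θ : ℝ => (1 + θ) / 2) (1 / 2) θ :=
      ((hasDerivAt_id θ).const_add 1).div_const 2
    have e1 : (fun θ => wn θ false) = fun θ : ℝ => (1 + θ) / 2 := by
      funext t
      simp [wn]
    rw [e1]
    simpa [sg] using h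
  · have h : HasDerivAt (fun θ : ℝ => (1 - θ) / 2) ((-1) / 2) θ :=
      ((hasDerivAt_id θ).const_sub 1).div_const 2
    have e1 : (fun θ => wn θ true) = fun θ : ℝ => (1 - θ) / 2 := by
      funext t
      simp [wn]
    rw [e1]
    have e2 : (1 : ℝ) / 2 * sg true = (-1) / 2 := by
      simp [sg]
      norm_num
    rw [e2]
    exact h

theorem prod_erase_upd (θ : ℝ) (e : E) (τ : E → Bool) (b : Bool) :
    ∏ j ∈ univ.erase e, wn θ (upd τ e b j) = ∏ j ∈ univ.erase e, wn θ (τ j) := by
  refine Finset.prod_congr rfl fun j hj => ?_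
  have h : j ≠ e := (Finset.mem_erase.1 hj).1
  simp [upd, h]

theorem key (K : (E → Bool) → ℝ) (θ : ℝ) (e : E) :
    ∑ σ : E → Bool, (∏ j ∈ univ.erase e, wn θ (σ j)) * sg (σ e) * K σ
      = pe (fun _ : E => wn θ) (fun τ => K (upd τ e false) - K (upd τ e true)) := by
  have h1 := sum_swap e (fun σ s => wn θ s * ((∏ j ∈ univ.erase e, wn θ (σ j)) * sg (σ e) * K σ))
  have h2 : ∀ σ : E → Bool, ∑ s, wn θ s * ((∏ j ∈ univ.erase e, wn θ (σ j)) * sg (σ e) * K σ)
      = (∏ j ∈ univ.erase e, wn θ (σ j)) * sg (σ e) * K σ := fun σ => by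
    rw [← Finset.sum_mul, wn_sum, one_mul]
  rw [Finset.sum_congr rfl fun σ _ => h2 σ] at h1
  rw [← h1]
  unfold pe
  refine Finset.sum_congr rfl fun τ _ => ?_
  have h3 : ∏ j, wn θ (τ j) = wn θ (τ e) * ∏ j ∈ univ.erase e, wn θ (τ j) :=
    (Finset.mul_prod_erase univ (fun j => wn θ (τ j)) (Finset.mem_univ e)).symm
  have h4 : ∀ b, upd τ e b e = b := fun b => by simp [upd]
  simp only [prod_erase_upd, h4]
  rw [Fintype.sum_bool, h3]
  simp only [sg]
  norm_num
  ring

end RussoAux

open RussoAux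

theorem russo {E : Type} [Fintype E] (K : (E → Bool) → ℝ) (θ : ℝ) :
    HasDerivAt (fun θ => pe (fun _ : E => wn θ) K)
      (∑ e, (1 / 2) * pe (fun _ : E => wn θ) (fun τ => K (upd τ e false) - K (upd τ e true))) θ := by
  have h1 : ∀ σ : E → Bool, HasDerivAt (fun θ => (∏ i, wn θ (σ i)) * K σ)
      ((∑ e, (∏ j ∈ univ.erase e, wn θ (σ j)) * (1 / 2 * sg (σ e))) * K σ) θ := fun σ => by
    have h2 := HasDerivAt.fun_finsetProd (u := (univ : Finset E)) (f := fun i θ => wn θ (σ i))
      (f' := fun i => 1 / 2 * sg (σ i)) (x := θ) (fun i _ => hasDerivAt_wn (σ i) θ)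
    simp only [smul_eq_mul] at h2
    exact h2.mul_const (K σ)
  have h3 : HasDerivAt (fun θ => ∑ σ : E → Bool, (∏ i, wn θ (σ i)) * K σ)
      (∑ σ : E → Bool, (∑ e, (∏ j ∈ univ.erase e, wn θ (σ j)) * (1 / 2 * sg (σ e))) * K σ) θ :=
    HasDerivAt.fun_sum fun σ _ => h1 σ
  have h4 : ∑ σ : E → Bool, (∑ e, (∏ j ∈ univ.erase e, wn θ (σ j)) * (1 / 2 * sg (σ e))) * K σ
      = ∑ e, (1 / 2) * pe (fun _ : E => wn θ) (fun τ => K (upd τ e false) - K (upd τ e true)) := by
    simp only [Finset.sum_mul]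
    rw [Finset.sum_comm]
    refine Finset.sum_congr rfl fun e _ => ?_
    rw [← key K θ e, Finset.mul_sum]
    refine Finset.sum_congr rfl fun σ _ => ?_
    ring
  rw [h4] at h3
  exact h3

theorem russo_graph {V E : Type} [Fintype V] [Fintype E] (src tgt : E → V)
    (f : (E → Bool) → ℝ) (θ : ℝ) :
    HasDerivAt (fun θ => ex src tgt θ (fun _ c => f c))
      (∑ e, (1 / 2) * ex src tgt θ (fun z c =>
        sg (z (src e)) * sg (z (tgt e)) * (f (upd c e false) - f (upd c e true)))) θ := by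
  have h1 : ∀ (z : V → Bool) (e : E) (τ : E → Bool),
      f (cob src tgt z (upd τ e false)) - f (cob src tgt z (upd τ e true)) =
      sg (z (src e)) * sg (z (tgt e)) *
        (f (upd (cob src tgt z τ) e false) - f (upd (cob src tgt z τ) e true)) := by
    intro z e τ
    have h2 : ∀ a, cob src tgt z (upd τ e a) =
        upd (cob src tgt z τ) e (xor a (xor (z (src e)) (z (tgt e)))) := by
      intro a
      funext j
      unfold cob upd
      by_cases h : j = e
      · subst h
        simp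
      · simp [h]
    rw [h2, h2]
    cases z (src e) <;> cases z (tgt e) <;> simp [sg]
  have h2 : HasDerivAt (fun θ => ∑ z : V → Bool, (∏ v, wn 0 (z v)) *
        pe (fun _ : E => wn θ) (fun τ => f (cob src tgt z τ)))
      (∑ z : V → Bool, (∏ v, wn 0 (z v)) * ∑ e, (1 / 2) * pe (fun _ : E => wn θ)
        (fun τ => f (cob src tgt z (upd τ e false)) - f (cob src tgt z (upd τ e true)))) θ :=
    HasDerivAt.fun_sum fun z _ => (russo (fun τ => f (cob src tgt z τ)) θ).const_mul _
  have h3 : ∑ z : V → Bool, (∏ v, wn 0 (z v)) * ∑ e, (1 / 2) * pe (fun _ : E => wn θ)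
        (fun τ => f (cob src tgt z (upd τ e false)) - f (cob src tgt z (upd τ e true)))
      = ∑ e, (1 / 2) * ex src tgt θ (fun z c =>
        sg (z (src e)) * sg (z (tgt e)) * (f (upd c e false) - f (upd c e true))) := by
    simp only [Finset.mul_sum]
    rw [Finset.sum_comm]
    refine Finset.sum_congr rfl fun e _ => ?_
    unfold ex
    conv_rhs => unfold pe
    rw [Finset.mul_sum]
    refine Finset.sum_congr rfl fun z _ => ?_
    have h4 : (fun τ => f (cob src tgt z (upd τ e false)) - f (cob src tgt z (upd τ e true))) =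
        fun τ => sg (z (src e)) * sg (z (tgt e)) *
          (f (upd (cob src tgt z τ) e false) - f (upd (cob src tgt z τ) e true)) :=
      funext fun τ => h1 z e τ
    rw [h4]
    unfold pe
    ring
  rw [h3] at h2
  exact h2

theorem mvt {V E : Type} [Fintype V] [Fintype E] (src tgt : E → V) (f : (E → Bool) → ℝ)
    (ρ M : ℝ) (h0 : 0 ≤ ρ) (h1 : ρ ≤ 1)
    (hM : ∀ θ, 0 ≤ θ → θ ≤ ρ → |∑ e, (1 / 2) * ex src tgt θ (fun z c =>
        sg (z (src e)) * sg (z (tgt e)) * (f (upd c e false) - f (upd c e true)))| ≤ M) :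
    |ex src tgt ρ (fun _ c => f c) - ex src tgt 0 (fun _ c => f c)| ≤ M := by
  have hM0 : 0 ≤ M := (abs_nonneg _).trans (hM 0 le_rfl h0)
  have h2 := Convex.norm_image_sub_le_of_norm_hasDerivWithin_le (𝕜 := ℝ)
    (f := fun θ => ex src tgt θ (fun _ c => f c))
    (f' := fun θ => ∑ e, (1 / 2) * ex src tgt θ (fun z c =>
        sg (z (src e)) * sg (z (tgt e)) * (f (upd c e false) - f (upd c e true))))
    (C := M) (s := Set.Icc 0 ρ) (x := 0) (y := ρ)
    (fun θ _ => (russo_graph src tgt f θ).hasDerivWithinAt)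
    (fun θ hθ => by
      rw [Real.norm_eq_abs]
      exact hM θ hθ.1 hθ.2)
    (convex_Icc 0 ρ) ⟨le_rfl, h0⟩ ⟨h0, le_rfl⟩
  rw [Real.norm_eq_abs, Real.norm_eq_abs, sub_zero, abs_of_nonneg h0] at h2
  exact h2.trans (mul_le_of_le_one_right hM0 h1)

end Pool.Agent.P325ac
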