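import Mathlib
import Pool.Agent.Lib.P325ac.Defs
import Pool.Agent.Lib.P325ac.PE
import Pool.Agent.Lib.P325ac.Russo
import Pool.Agent.Lib.P325ac.Av
import Pool.Agent.Lib.P325ac.RootG

/-!
# P325ac.LayerB (1 h): one binary layer

By `mvt` with `f c = br (val g c)` it suffices to bound, for `0 ≤ θ ≤ ρ`,
`∑ e, (1/2) |ex θ (sg sg dif (val g) e)| ≤ ∑ e, (1/2)(2 t θ^(r - hℓ) ex θ |dif (val g) e| + s (1/2)^t)` (`root_graph`; `θ^n ≤ ρ^n`, and the
hypothesis `hp` for `ρ` gives the one for `θ`: `2θ/(1+θ)` and `(1+θ)/(1-θ)` are monotone).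
`∑ e, ex θ |dif (val g) e| = pe (wn 0) (fun z => tot (ν z) (val g))` with `ν z e a = wn θ (a xor z (src e) xor z (tgt e))`
(`pe_map1` with `φ e a = a xor z (src e) xor z (tgt e)`; `|dif| = ind (val g (upd ..) ≠ ..)`), and `avgsens` with `β = (1 - ρ) / 2 ≤ (1 - θ) / 2 ≤ ν`:
`16 t / β = 32 t / (1 - ρ)`. So `M = t ρ^(r-hℓ) (32 t/(1-ρ))^h (t + m s (1/2)^(t+1)) + (1/2) m s (1/2)^t`.
-/

open Finset
open scoped BigOperators Classical

namespace Pool.Agent.P325ac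

namespace LayerBAux

theorem abs_dif {E : Type} (f : (E → Bool) → Bool) (e : E) (c : E → Bool) :
    |dif f e c| = ind (f (upd c e false) ≠ f (upd c e true)) := by
  unfold dif ind br
  cases f (upd c e false) <;> cases f (upd c e true) <;> simp

/-- The weights of `c = τ + dz` for fixed `z`. -/
noncomputable def nu {V E : Type} (src tgt : E → V) (θ : ℝ) (z : V → Bool) (e : E) (a : Bool) : ℝ :=
  wn θ (xor a (xor (z (src e)) (z (tgt e))))

theorem nu_map {V E : Type} (src tgt : E → V) (θ : ℝ) (z : V → Bool) (e : E) (a : Bool) :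
    ∑ s, wn θ s * ind (xor s (xor (z (src e)) (z (tgt e))) = a) = nu src tgt θ z e a := by
  unfold nu ind
  rw [Fintype.sum_bool]
  cases a <;> cases z (src e) <;> cases z (tgt e) <;> simp

theorem nu_prob {V E : Type} (src tgt : E → V) {θ : ℝ} (h0 : 0 ≤ θ) (h1 : θ ≤ 1) (z : V → Bool)
    (e : E) : IsProb (nu src tgt θ z e) := by
  refine ⟨fun a => wn_nonneg h0 h1 _, ?_⟩
  unfold nu
  rw [Fintype.sum_bool]
  cases z (src e) <;> cases z (tgt e) <;> simp [wn] <;> ring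

theorem nu_ge {V E : Type} (src tgt : E → V) {θ ρ : ℝ} (h0 : 0 ≤ θ) (h1 : θ ≤ ρ) (z : V → Bool)
    (e : E) (a : Bool) : (1 - ρ) / 2 ≤ nu src tgt θ z e a := by
  unfold nu wn
  split_ifs <;> linarith

theorem sum_ex {V E : Type} [Fintype V] [Fintype E] (src tgt : E → V) (θ : ℝ)
    (f : (E → Bool) → Bool) :
    ∑ e, ex src tgt θ (fun _ c => |dif f e c|) =
      pe (fun _ : V => wn 0) (fun z => tot (nu src tgt θ z) f) := by
  unfold ex
  rw [← pe_fsum]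
  refine congrArg (pe fun _ : V => wn 0) (funext fun z => ?_)
  unfold tot
  refine Finset.sum_congr rfl fun e _ => ?_
  rw [← pe_map1 (fun _ : E => wn θ) (nu src tgt θ z)
    (fun e s => xor s (xor (z (src e)) (z (tgt e)))) (fun e a => nu_map src tgt θ z e a)]
  refine congrArg (pe fun _ : E => wn θ) (funext fun τ => ?_)
  exact abs_dif f e _

theorem ex_nonneg {V E : Type} [Fintype V] [Fintype E] (src tgt : E → V) {θ : ℝ} (h0 : 0 ≤ θ)
    (h1 : θ ≤ 1) {K : (V → Bool) → (E → Bool) → ℝ} (hK : ∀ z c, 0 ≤ K z c) :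
    0 ≤ ex src tgt θ K :=
  pe_nonneg (fun _ => wn_nonneg le_rfl zero_le_one) fun _ =>
    pe_nonneg (fun _ => wn_nonneg h0 h1) fun _ => hK _ _

theorem mono_hp {θ ρ : ℝ} (h0 : 0 ≤ θ) (h1 : θ ≤ ρ) (h2 : ρ < 1) (t n D : ℕ)
    (hp : 8 * t * ((2 * ρ / (1 + ρ)) ^ n * ((1 + ρ) / (1 - ρ)) ^ D) ≤ 1) :
    8 * t * ((2 * θ / (1 + θ)) ^ n * ((1 + θ) / (1 - θ)) ^ D) ≤ 1 := by
  refine le_trans ?_ hp
  have hθ : 0 < 1 - θ := by linarith
  have hρ : 0 < 1 - ρ := by linarith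
  have hρ0 : 0 ≤ ρ := h0.trans h1
  have e1 : 2 * θ / (1 + θ) ≤ 2 * ρ / (1 + ρ) := by
    rw [div_le_div_iff₀ (by linarith) (by linarith)]
    nlinarith
  have e2 : (1 + θ) / (1 - θ) ≤ (1 + ρ) / (1 - ρ) := by
    rw [div_le_div_iff₀ hθ hρ]
    nlinarith
  have p1 : 0 ≤ 2 * θ / (1 + θ) := div_nonneg (by linarith) (by linarith)
  have p2 : 0 ≤ (1 + θ) / (1 - θ) := div_nonneg (by linarith) hθ.le
  refine mul_le_mul_of_nonneg_left ?_ (by positivity)
  exact mul_le_mul (pow_le_pow_left₀ p1 e1 n) (pow_le_pow_left₀ p2 e2 D) (pow_nonneg p2 D)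
    (pow_nonneg (p1.trans e1) n)

end LayerBAux

open LayerBAux

theorem layer_bound {V E G : Type} [Fintype V] [Fintype E] [Fintype G] (src tgt : E → V)
    (D : ℕ) (ρ : ℝ) (h0 : 0 ≤ ρ) (h1 : ρ < 1) (r h t ℓ : ℕ) (hr1 : 1 ≤ r) (ht : 1 ≤ t)
    (hℓ : 1 ≤ ℓ) (hB : ∀ e0, ∃ Bl : Ball src tgt e0 r, Bl.T.Deg D)
    (hp : 8 * t * ((2 * ρ / (1 + ρ)) ^ (ℓ - 1) * ((1 + ρ) / (1 - ρ)) ^ D) ≤ 1)
    (hr : h * ℓ ≤ r) (inp : ((E → Bool) → Bool) → Prop) (hinp : ∀ f, inp f → DT (t + 1) f)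
    (lv : G → ℕ) (val : G → (E → Bool) → Bool) (hc : IsCirc inp lv val) (hlv : ∀ g, lv g < h)
    (g : G) :
    |ex src tgt ρ (fun _ c => br (val g c)) - ex src tgt 0 (fun _ c => br (val g c))|
      ≤ t * ρ ^ (r - h * ℓ) * (32 * t / (1 - ρ)) ^ h *
          (t + Fintype.card E * Fintype.card G * (1 / 2) ^ (t + 1)) +
        Fintype.card E * Fintype.card G * (1 / 2) ^ (t + 1) := by
  have hM := mvt src tgt (fun c => br (val g c)) ρ
    (t * ρ ^ (r - h * ℓ) * (32 * t / (1 - ρ)) ^ h *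
          (t + Fintype.card E * Fintype.card G * (1 / 2) ^ (t + 1)) +
        Fintype.card E * Fintype.card G * (1 / 2) ^ (t + 1)) h0 h1.le ?_
  · exact hM
  intro θ hθ0 hθ1
  have hθ1' : θ < 1 := lt_of_le_of_lt hθ1 h1
  obtain ⟨a, ha⟩ : ∃ a : E → ℝ, ∀ e, a e = ex src tgt θ (fun _ c => |dif (val g) e c|) :=
    ⟨_, fun _ => rfl⟩
  have ha0 : ∀ e, 0 ≤ a e := fun e => by
    rw [ha]
    exact ex_nonneg src tgt hθ0 hθ1'.le fun _ _ => abs_nonneg _
  have hpow : θ ^ (r - h * ℓ) ≤ ρ ^ (r - h * ℓ) := pow_le_pow_left₀ hθ0 hθ1 _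
  have hroot : ∀ e, |ex src tgt θ (fun z c => sg (z (src e)) * sg (z (tgt e)) *
      (br (val g (upd c e false)) - br (val g (upd c e true))))| ≤
      2 * t * ρ ^ (r - h * ℓ) * a e + Fintype.card G * (1 / 2) ^ t := by
    intro e
    obtain ⟨Bl, hD⟩ := hB e
    have h2 := root_graph src tgt e D θ hθ0 hθ1' r h t ℓ hr1 hℓ Bl hD
      (mono_hp hθ0 hθ1 h1 t (ℓ - 1) D hp) hr inp hinp lv val hc hlv g
    rw [← ha] at h2
    refine le_trans h2 (add_le_add (mul_le_mul_of_nonneg_right ?_ (ha0 e)) le_rfl)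
    exact mul_le_mul_of_nonneg_left hpow (by positivity)
  have hsum : ∑ e, a e ≤ (32 * t / (1 - ρ)) ^ h *
      (t + Fintype.card E * Fintype.card G * (1 / 2) ^ (t + 1)) := by
    have h2 : ∑ e, a e = pe (fun _ : V => wn 0) (fun z => tot (nu src tgt θ z) (val g)) := by
      rw [← sum_ex]
      exact Finset.sum_congr rfl fun e _ => ha e
    rw [h2]
    have hβ : 0 < (1 - ρ) / 2 := by linarith
    have h3 : 16 * (t : ℝ) / ((1 - ρ) / 2) = 32 * t / (1 - ρ) := by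
      have : (1 - ρ) ≠ 0 := by linarith
      field_simp
      ring
    refine (pe_le (K' := fun _ => (32 * t / (1 - ρ)) ^ h *
      (t + Fintype.card E * Fintype.card G * (1 / 2) ^ (t + 1)))
      (fun _ => wn_nonneg le_rfl zero_le_one) fun z => ?_).trans ?_
    · have h4 := avgsens (β := (1 - ρ) / 2) hβ (by linarith)
        (ν := nu src tgt θ z) (fun e => nu_prob src tgt hθ0 hθ1'.le z e)
        (fun e a => nu_ge src tgt hθ0 hθ1 z e a) ht inp hinp lv val hc hlv g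
      rw [h3] at h4
      exact h4
    · rw [pe_const (fun _ => wn_sum 0)]
  refine (Finset.abs_sum_le_sum_abs _ _).trans ?_
  have h5 : ∀ e, |(1 / 2) * ex src tgt θ (fun z c => sg (z (src e)) * sg (z (tgt e)) *
      (br (val g (upd c e false)) - br (val g (upd c e true))))| ≤
      t * ρ ^ (r - h * ℓ) * a e + Fintype.card G * (1 / 2) ^ (t + 1) := by
    intro e
    rw [abs_mul, abs_of_pos (by norm_num : (0 : ℝ) < 1 / 2)]
    have h6 := mul_le_mul_of_nonneg_left (hroot e) (by norm_num : (0 : ℝ) ≤ 1 / 2)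
    refine h6.trans (le_of_eq ?_)
    rw [pow_succ (1 / 2 : ℝ) t]
    ring
  refine (Finset.sum_le_sum fun e _ => h5 e).trans ?_
  rw [Finset.sum_add_distrib, ← Finset.mul_sum, Finset.sum_const, Finset.card_univ, nsmul_eq_mul]
  have hc0 : 0 ≤ (t : ℝ) * ρ ^ (r - h * ℓ) := by positivity
  have h7 := mul_le_mul_of_nonneg_left hsum hc0
  have h8 : (t : ℝ) * ρ ^ (r - h * ℓ) * ((32 * t / (1 - ρ)) ^ h *
      (t + Fintype.card E * Fintype.card G * (1 / 2) ^ (t + 1))) =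
      t * ρ ^ (r - h * ℓ) * (32 * t / (1 - ρ)) ^ h *
      (t + Fintype.card E * Fintype.card G * (1 / 2) ^ (t + 1)) := by ring
  have h9 : (Fintype.card E : ℝ) * (Fintype.card G * (1 / 2) ^ (t + 1)) =
      Fintype.card E * Fintype.card G * (1 / 2) ^ (t + 1) := by ring
  rw [h8] at h7
  rw [h9]
  linarith

end Pool.Agent.P325ac
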