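import Mathlib
import Pool.Agent.Lib.P325ac.Defs

/-!
# P325ac.Par (0.7 h): the number of levels of a chunk

`x = (1 + ρ) / (2 ρ) ∈ (1, 2]` (`ρ ≥ 1 / 3`), `y = 8 t κ ≥ 1`. Let `n` be the least natural number with `y ≤ x ^ n` (`x > 1`), `ℓ = n + 1`:
`8 t (2ρ/(1+ρ))^n κ = y / x ^ n ≤ 1`; `x ^ n ≤ x y` (`n = 0`: `1 ≤ x y`; otherwise `x ^ (n - 1) < y`); `1 / ρ ≤ x ^ 2` (`(1 + ρ)^2 ≥ 4 ρ`), so
`(1 / ρ) ^ ℓ ≤ x ^ 2 (x ^ n) ^ 2 ≤ x ^ 4 y ^ 2 ≤ 16 * 64 t ^ 2 κ ^ 2`.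
-/

namespace Pool.Agent.P325ac

theorem exists_ell (ρ κ t : ℝ) (hρ : 1 / 3 ≤ ρ) (hρ1 : ρ < 1) (hκ : 1 ≤ κ) (ht : 1 ≤ t) :
    ∃ ℓ : ℕ, 1 ≤ ℓ ∧ 8 * t * ((2 * ρ / (1 + ρ)) ^ (ℓ - 1) * κ) ≤ 1 ∧
      (1 / ρ) ^ ℓ ≤ 1024 * t ^ 2 * κ ^ 2 := by
  classical
  have hρ0 : 0 < ρ := by linarith
  set x := (1 + ρ) / (2 * ρ) with hx
  have hx1 : 1 < x := by
    rw [hx, lt_div_iff₀ (by positivity)]
    linarith
  have hx2 : x ≤ 2 := by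
    rw [hx, div_le_iff₀ (by positivity)]
    linarith
  have hx0 : 0 < x := by linarith
  have hinv : 2 * ρ / (1 + ρ) = x⁻¹ := by rw [hx, inv_div]
  have hρx : 1 / ρ ≤ x ^ 2 := by
    rw [hx, div_pow, div_le_div_iff₀ hρ0 (by positivity)]
    nlinarith [sq_nonneg (1 - ρ)]
  set y := 8 * t * κ with hy
  have hy1 : 1 ≤ y := by nlinarith
  have hex : ∃ n : ℕ, y ≤ x ^ n := by
    obtain ⟨n, hn⟩ := pow_unbounded_of_one_lt y hx1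
    exact ⟨n, hn.le⟩
  set n := Nat.find hex with hn
  have h1 : y ≤ x ^ n := Nat.find_spec hex
  have h2 : x ^ n ≤ x * y := by
    rcases Nat.eq_zero_or_pos n with h0 | h0
    · rw [h0, pow_zero]
      nlinarith
    · have h3 : ¬ y ≤ x ^ (n - 1) := Nat.find_min hex (by omega)
      have h4 : x ^ n = x * x ^ (n - 1) := by
        rw [← pow_succ']
        congr 1
        omega
      rw [h4]
      exact mul_le_mul_of_nonneg_left (not_le.mp h3).le hx0.le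
  have hxn : 0 < x ^ n := by positivity
  refine ⟨n + 1, by omega, ?_, ?_⟩
  · rw [hinv, Nat.add_sub_cancel, inv_pow]
    have : 8 * t * ((x ^ n)⁻¹ * κ) = y / x ^ n := by
      rw [hy, div_eq_mul_inv]
      ring
    rw [this, div_le_one hxn]
    exact h1
  · calc (1 / ρ) ^ (n + 1) ≤ (x ^ 2) ^ (n + 1) := pow_le_pow_left₀ (by positivity) hρx _
      _ = x ^ 2 * (x ^ n) ^ 2 := by ring
      _ ≤ x ^ 2 * (x * y) ^ 2 := by gcongr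
      _ = x ^ 4 * y ^ 2 := by ring
      _ ≤ 2 ^ 4 * y ^ 2 := by gcongr
      _ = 1024 * t ^ 2 * κ ^ 2 := by rw [hy]; ring

end Pool.Agent.P325ac
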