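import Mathlib
import Pool.Agent.Lib.P325ac.Defs
import Pool.Agent.Lib.P325ac.PE
import Pool.Agent.Lib.P325ac.Par
import Pool.Agent.Lib.P325ac.LayerB

/-!
# P325ac.LayerF (0.7 h): one binary layer, final form

`κ = ((1 + ρ) / (1 - ρ)) ^ D ≥ 1`, `ℓ` from `exists_ell`. If `h ℓ ≤ r`: `layer_bound`: `ρ^(r - hℓ) = ρ^r (1/ρ)^(hℓ) ≤ ρ^r (1024 t^2 κ^2)^h`,
`t + η ≤ 2 t`. If `r < h ℓ`: the left side is at most `1` (both expectations are in `[0, 1]`), and
`ρ^r (1024 t^2 κ^2)^h ≥ ρ^r (1/ρ)^(hℓ) ≥ 1`, `(32 t / (1 - ρ))^h ≥ 1`, `2 t^2 ≥ 1`.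
-/

open Finset
open scoped BigOperators Classical

namespace Pool.Agent.P325ac

namespace LayerFAux

theorem ex_mem {V E : Type} [Fintype V] [Fintype E] (src tgt : E → V) {θ : ℝ} (h0 : 0 ≤ θ)
    (h1 : θ ≤ 1) (f : (E → Bool) → Bool) :
    0 ≤ ex src tgt θ (fun _ c => br (f c)) ∧ ex src tgt θ (fun _ c => br (f c)) ≤ 1 := by
  have hb0 : ∀ b : Bool, 0 ≤ br b := by intro b; unfold br; split_ifs <;> norm_num
  have hb1 : ∀ b : Bool, br b ≤ 1 := by intro b; unfold br; split_ifs <;> norm_num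
  unfold ex
  constructor
  · apply pe_nonneg (fun _ s => wn_nonneg le_rfl zero_le_one s)
    intro z
    exact pe_nonneg (fun _ s => wn_nonneg h0 h1 s) (fun τ => hb0 _)
  · calc pe (fun _ : V => wn 0) (fun z => pe (fun _ : E => wn θ)
          (fun τ => br (f (cob src tgt z τ)))) ≤ pe (fun _ : V => wn 0) (fun _ => 1) := by
          apply pe_le (fun _ s => wn_nonneg le_rfl zero_le_one s)
          intro z
          calc pe (fun _ : E => wn θ) (fun τ => br (f (cob src tgt z τ))) ≤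
                pe (fun _ : E => wn θ) (fun _ => 1) :=
                pe_le (fun _ s => wn_nonneg h0 h1 s) (fun τ => hb1 _)
            _ = 1 := pe_const (fun _ => wn_sum θ) 1
      _ = 1 := pe_const (fun _ => wn_sum 0) 1

end LayerFAux

open LayerFAux

theorem layer_final {V E G : Type} [Fintype V] [Fintype E] [Fintype G] (src tgt : E → V)
    (D : ℕ) (ρ : ℝ) (h0 : 1 / 3 ≤ ρ) (h1 : ρ < 1) (r h t : ℕ) (hr1 : 1 ≤ r) (ht : 1 ≤ t)
    (hB : ∀ e0, ∃ Bl : Ball src tgt e0 r, Bl.T.Deg D) (η : ℝ) (hη1 : η ≤ 1)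
    (hη : Fintype.card E * Fintype.card G * (1 / 2) ^ (t + 1) ≤ η)
    (inp : ((E → Bool) → Bool) → Prop) (hinp : ∀ f, inp f → DT (t + 1) f)
    (lv : G → ℕ) (val : G → (E → Bool) → Bool) (hc : IsCirc inp lv val) (hlv : ∀ g, lv g < h)
    (g : G) :
    |ex src tgt ρ (fun _ c => br (val g c)) - ex src tgt 0 (fun _ c => br (val g c))|
      ≤ 2 * t ^ 2 * ρ ^ r *
          (1024 * t ^ 2 * (((1 + ρ) / (1 - ρ)) ^ D) ^ 2 * (32 * t / (1 - ρ))) ^ h + η := by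
  have hρ0 : 0 < ρ := by linarith
  have h1ρ : 0 < 1 - ρ := by linarith
  have htR : (1 : ℝ) ≤ t := by exact_mod_cast ht
  set κ : ℝ := ((1 + ρ) / (1 - ρ)) ^ D with hκ
  have hκ1 : 1 ≤ κ := by
    apply one_le_pow₀
    rw [le_div_iff₀ h1ρ]; linarith
  obtain ⟨ℓ, hℓ, hp, hℓ2⟩ := exists_ell ρ κ t h0 h1 hκ1 htR
  have hη0 : 0 ≤ η := le_trans (by positivity) hη
  set Q : ℝ := 32 * t / (1 - ρ) with hQ
  have hQ1 : 1 ≤ Q := by
    rw [hQ, le_div_iff₀ h1ρ]; linarith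
  set K : ℝ := 1024 * (t : ℝ) ^ 2 * κ ^ 2 with hK
  have hKpos : 0 < K := by rw [hK]; positivity
  have hKh : (1 / ρ) ^ (h * ℓ) ≤ K ^ h := by
    rw [mul_comm h ℓ, pow_mul]
    exact pow_le_pow_left₀ (by positivity) hℓ2 h
  have hsplit : 2 * (t : ℝ) ^ 2 * ρ ^ r * (K * Q) ^ h = 2 * t ^ 2 * (ρ ^ r * K ^ h) * Q ^ h := by
    rw [mul_pow]; ring
  rw [hsplit]
  have hQh : 1 ≤ Q ^ h := one_le_pow₀ hQ1
  have ht2 : 1 ≤ (t : ℝ) ^ 2 := one_le_pow₀ htR
  by_cases hr : h * ℓ ≤ r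
  · have key := layer_bound src tgt D ρ hρ0.le h1 r h t ℓ hr1 ht hℓ hB hp hr inp hinp lv val hc
      hlv g
    refine key.trans ?_
    have e1 : ρ ^ (r - h * ℓ) = ρ ^ r * (1 / ρ) ^ (h * ℓ) := by
      have : ρ ^ r = ρ ^ (r - h * ℓ) * ρ ^ (h * ℓ) := by
        rw [← pow_add]; congr 1; omega
      rw [this, one_div, inv_pow, mul_assoc, mul_inv_cancel₀ (by positivity), mul_one]
    have e2 : ρ ^ (r - h * ℓ) ≤ ρ ^ r * K ^ h := by
      rw [e1]
      exact mul_le_mul_of_nonneg_left hKh (by positivity)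
    have e3 : (t : ℝ) + Fintype.card E * Fintype.card G * (1 / 2) ^ (t + 1) ≤ 2 * t := by
      linarith
    have e4 : (t : ℝ) * ρ ^ (r - h * ℓ) * Q ^ h *
        (t + Fintype.card E * Fintype.card G * (1 / 2) ^ (t + 1)) ≤
        (t : ℝ) * (ρ ^ r * K ^ h) * Q ^ h * (2 * t) := by
      apply mul_le_mul _ e3 (by positivity) (by positivity)
      apply mul_le_mul_of_nonneg_right _ (by positivity)
      exact mul_le_mul_of_nonneg_left e2 (by positivity)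
    have e5 : (t : ℝ) * (ρ ^ r * K ^ h) * Q ^ h * (2 * t) =
        2 * t ^ 2 * (ρ ^ r * K ^ h) * Q ^ h := by ring
    linarith
  · have hlt : r ≤ h * ℓ := by omega
    have e1 : 1 ≤ ρ ^ r * K ^ h := by
      have q1 : ρ ^ r * (1 / ρ) ^ r = 1 := by
        rw [one_div, inv_pow, mul_inv_cancel₀ (by positivity)]
      have q2 : (1 / ρ) ^ r ≤ (1 / ρ) ^ (h * ℓ) := by
        apply pow_le_pow_right₀ _ hlt
        rw [le_div_iff₀ hρ0]; linarith
      calc (1 : ℝ) = ρ ^ r * (1 / ρ) ^ r := q1.symm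
        _ ≤ ρ ^ r * K ^ h := mul_le_mul_of_nonneg_left (q2.trans hKh) (by positivity)
    obtain ⟨a1, a2⟩ := ex_mem src tgt hρ0.le h1.le (val g)
    obtain ⟨b1, b2⟩ := ex_mem src tgt (θ := 0) le_rfl zero_le_one (val g)
    have e2 : |ex src tgt ρ (fun _ c => br (val g c)) - ex src tgt 0 (fun _ c => br (val g c))|
        ≤ 1 := by
      rw [abs_le]; constructor <;> linarith
    have e3 : 1 ≤ 2 * (t : ℝ) ^ 2 * (ρ ^ r * K ^ h) * Q ^ h := by
      have q1 : 1 ≤ 2 * (t : ℝ) ^ 2 * (ρ ^ r * K ^ h) := by nlinarith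
      nlinarith
    linarith

end Pool.Agent.P325ac
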