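import Mathlib
import Pool.Agent.Lib.P325ac.Defs
import Pool.Agent.Lib.P325ac.PE

/-!
# P325ac.ValNo (1.4 h): uniform instances have value `≤ δ` with probability `≥ 1 - exp (- δ m / 8)`

`q = 2 ^ k`, `m = card E`. (0) `multi_zero`: `multi src tgt k 0 f = (∑ c, f c) / q ^ m` (all weights are `1 / 2`;
for fixed `z` part the map from the `τ` part to the instance is a bijection).
(1) For a labeling `z` let `N c = #{e | constraint e holds}`. `∑ c, (√q) ^ (N c) = ∏ e, ∑ a : Fin k → Bool, (if a is the label that satisfies e then √q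
else 1) = (q - 1 + √q) ^ m` (`Finset.prod_univ_sum`), so the average of `(√q) ^ N` is at most `(1 + 1/√q) ^ m ≤ exp (m / √q)`, and by Markov
the probability of `N c ≥ δ m` is at most `exp (m / √q) q ^ (- δ m / 2)`.
(2) Union over the `q ^ (card V)` labelings: if `δ < shiftVal c` then some labeling has `N c ≥ δ m` (the supremum over a finite nonempty
type is attained, `exists_eq_ciSup_of_finite`). Total at most
`exp (card V log q + m / √q - (δ m / 2) log q) ≤ exp (m / √q - (δ m / 4) log q)`, and `1 / √q ≤ δ / 8 ≤ (δ / 8) log q` (`q ≥ 64 / δ ^ 2 ≥ 64`, `log 64 ≥ 1`), so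
at most `exp (- (δ m / 8) log q) ≤ exp (- δ m / 8)`.
-/

open Finset
open scoped BigOperators Classical

namespace Pool.Agent.P325ac

namespace ValNoAux

lemma wn_zero (b : Bool) : wn 0 b = 1 / 2 := by
  unfold wn
  split_ifs <;> norm_num

lemma cob_eq_iff {V E : Type} (src tgt : E → V) (z : V → Bool) (τ t : E → Bool) :
    cob src tgt z τ = t ↔ τ = cob src tgt z t := by
  constructor
  · rintro rfl
    funext e
    unfold cob
    rw [Bool.xor_assoc, Bool.xor_self, Bool.xor_false]
  · rintro rfl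
    funext e
    unfold cob
    rw [Bool.xor_assoc, Bool.xor_self, Bool.xor_false]

lemma layer {V E : Type} [Fintype V] [Fintype E] (src tgt : E → V) (t : E → Bool) :
    ∑ s : (V → Bool) × (E → Bool), ((∏ v, wn 0 (s.1 v)) * ∏ e, wn 0 (s.2 e)) *
      ind (cob src tgt s.1 s.2 = t) = (1 / 2 : ℝ) ^ Fintype.card E := by
  simp only [wn_zero, prod_const, card_univ]
  rw [Fintype.sum_prod_type]
  have h1 : ∀ z : V → Bool, ∑ τ : E → Bool, (1 / 2 : ℝ) ^ Fintype.card V *
      (1 / 2 : ℝ) ^ Fintype.card E * ind (cob src tgt z τ = t) =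
      (1 / 2 : ℝ) ^ Fintype.card V * (1 / 2 : ℝ) ^ Fintype.card E := by
    intro z
    rw [← mul_sum]
    have h2 : ∑ τ : E → Bool, ind (cob src tgt z τ = t) = 1 := by
      unfold ind
      simp only [cob_eq_iff]
      rw [Finset.sum_ite_eq' univ (cob src tgt z t) (fun _ => (1 : ℝ))]
      simp
    rw [h2, mul_one]
  rw [sum_congr rfl fun z _ => h1 z, sum_const, card_univ, Fintype.card_fun, Fintype.card_bool,
    nsmul_eq_mul]
  push_cast
  rw [← mul_assoc, ← mul_pow]
  norm_num

end ValNoAux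

open ValNoAux

theorem multi_zero {V E : Type} [Fintype V] [Fintype E] (src tgt : E → V) (k : ℕ)
    (f : (E → Fin k → Bool) → ℝ) :
    multi src tgt k 0 f = (∑ c, f c) / (2 ^ k) ^ Fintype.card E := by
  unfold multi
  have h1 := pe_map1 (I := Fin k)
    (fun (_ : Fin k) (s : (V → Bool) × (E → Bool)) => (∏ v, wn 0 (s.1 v)) * ∏ e, wn 0 (s.2 e))
    (fun (_ : Fin k) (_ : E → Bool) => (1 / 2 : ℝ) ^ Fintype.card E)
    (fun _ s => cob src tgt s.1 s.2) (fun _ t => layer src tgt t)
    (fun ρ : Fin k → (E → Bool) => f (fun e i => ρ i e))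
  refine h1.trans ?_
  unfold pe
  simp only [prod_const, card_univ, Fintype.card_fin]
  rw [← mul_sum]
  have h2 : ∀ inst : Fintype (Fin k → (E → Bool)),
      (@Finset.sum _ _ _ (@Finset.univ _ inst) fun ρ : Fin k → (E → Bool) => f (fun e i => ρ i e)) =
        ∑ c, f c := fun inst =>
    @Fintype.sum_equiv _ _ _ inst _ _ (Equiv.piComm (fun (_ : Fin k) (_ : E) => Bool)) _ _
      (fun ρ => rfl)
  rw [h2, ← pow_mul, ← pow_mul, one_div, inv_pow, mul_comm (Fintype.card E) k, div_eq_inv_mul]

namespace ValNoAux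

/-- the number of satisfied constraints -/
noncomputable def cnt {V E : Type} [Fintype E] (src tgt : E → V) (k : ℕ) (z : V → Fin k → Bool)
    (c : E → Fin k → Bool) : ℕ :=
  (univ.filter (fun e => ∀ i, xor (z (src e) i) (c e i) = z (tgt e) i)).card

lemma sum_one (k : ℕ) (x y : Fin k → Bool) (s : ℝ) :
    ∑ a : Fin k → Bool, (if ∀ i, xor (x i) (a i) = y i then s else 1) = 2 ^ k - 1 + s := by
  have h1 : ∀ a : Fin k → Bool, (∀ i, xor (x i) (a i) = y i) ↔ a = fun i => xor (x i) (y i) := by
    intro a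
    constructor
    · intro h
      funext i
      rw [← h i, ← Bool.xor_assoc, Bool.xor_self, Bool.false_xor]
    · rintro rfl i
      rw [← Bool.xor_assoc, Bool.xor_self, Bool.false_xor]
  simp only [h1]
  have h2 : ∀ a : Fin k → Bool, (if a = fun i => xor (x i) (y i) then s else 1) =
      1 + (if a = fun i => xor (x i) (y i) then s - 1 else 0) := by
    intro a
    split_ifs <;> ring
  rw [sum_congr rfl fun a _ => h2 a, sum_add_distrib, sum_const, card_univ, Fintype.card_fun,
    Fintype.card_bool, Fintype.card_fin, Finset.sum_ite_eq' univ _ (fun _ => s - 1)]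
  simp only [mem_univ, if_true, nsmul_eq_mul, mul_one]
  push_cast
  ring

lemma sum_cnt {V E : Type} [Fintype E] (src tgt : E → V) (k : ℕ) (z : V → Fin k → Bool) (s : ℝ) :
    ∑ c : E → Fin k → Bool, s ^ cnt src tgt k z c = (2 ^ k - 1 + s) ^ Fintype.card E := by
  have h1 : ∀ c : E → Fin k → Bool, s ^ cnt src tgt k z c =
      ∏ e, (if ∀ i, xor (z (src e) i) (c e i) = z (tgt e) i then s else 1) := by
    intro c
    unfold cnt
    rw [prod_ite, prod_const, prod_const_one, mul_one]
  rw [sum_congr rfl fun c _ => h1 c]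
  have h2 : ∑ c : E → Fin k → Bool, ∏ e, (fun (e : E) (a : Fin k → Bool) =>
      (if ∀ i, xor (z (src e) i) (a i) = z (tgt e) i then s else 1)) e (c e) =
      ∏ e, ∑ a : Fin k → Bool, (if ∀ i, xor (z (src e) i) (a i) = z (tgt e) i then s else 1) := by
    rw [Finset.prod_univ_sum, Fintype.piFinset_univ]
  refine h2.trans ?_
  rw [prod_congr rfl fun e _ => sum_one k (z (src e)) (z (tgt e)) s, prod_const, card_univ]

end ValNoAux

theorem val_no {V E : Type} [Fintype V] [Fintype E] (src tgt : E → V) (k : ℕ) (δ : ℝ)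
    (hδ : 0 < δ) (hδ1 : δ < 1) (hk : 64 / δ ^ 2 ≤ 2 ^ k)
    (hV : (Fintype.card V : ℝ) ≤ δ * Fintype.card E / 4) :
    multi src tgt k 0 (fun c => ind (δ < shiftVal src tgt k c)) ≤
      Real.exp (-(δ * Fintype.card E / 8)) := by
  rw [multi_zero]
  set m := Fintype.card E with hm
  set q : ℝ := 2 ^ k with hq
  have hq0 : 0 < q := by positivity
  have hδ2 : 0 < δ ^ 2 := by positivity
  have hδ21 : δ ^ 2 ≤ 1 := pow_le_one₀ hδ.le hδ1.le
  have hq64 : 64 ≤ q := by
    refine le_trans ?_ hk
    rw [le_div_iff₀ hδ2]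
    nlinarith
  set L : ℝ := Real.log q with hL
  have hL1 : 1 ≤ L := by
    rw [hL, Real.le_log_iff_exp_le hq0]
    have := Real.exp_one_lt_d9
    linarith
  set s : ℝ := Real.exp (L / 2) with hs
  have hs2 : s * s = q := by
    rw [hs, ← Real.exp_add, add_halves, hL, Real.exp_log hq0]
  have hs0 : 0 < s := Real.exp_pos _
  have hs8 : 8 / δ ≤ s := by
    have h1 : (8 / δ) ^ 2 ≤ s ^ 2 := by
      rw [sq s, hs2]
      calc (8 / δ) ^ 2 = 64 / δ ^ 2 := by rw [div_pow]; norm_num
        _ ≤ q := hk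
    exact le_of_sq_le_sq h1 hs0.le
  have hsinv : 1 / s ≤ δ / 8 := by
    rw [div_le_iff₀ hs0]
    rw [div_le_iff₀ hδ] at hs8
    linarith
  rcases Nat.eq_zero_or_pos m with hm0 | hm0
  · -- no edges
    have h1 : ∀ c : E → Fin k → Bool, ind (δ < shiftVal src tgt k c) = 0 := by
      intro c
      unfold ind
      rw [if_neg]
      unfold shiftVal
      rw [← hm, hm0]
      simp only [Nat.cast_zero, div_zero]
      rw [ciSup_const]
      exact not_lt.2 hδ.le
    rw [sum_congr rfl fun c _ => h1 c, sum_const_zero, zero_div]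
    exact (Real.exp_pos _).le
  have hmR : (0 : ℝ) < m := by exact_mod_cast hm0
  -- Markov and the union bound
  have h1 : ∀ c : E → Fin k → Bool, ind (δ < shiftVal src tgt k c) ≤
      ∑ z : V → Fin k → Bool, s ^ cnt src tgt k z c * Real.exp (-(L / 2 * (δ * m))) := by
    intro c
    have hnn : ∀ z ∈ (univ : Finset (V → Fin k → Bool)),
        0 ≤ s ^ cnt src tgt k z c * Real.exp (-(L / 2 * (δ * m))) :=
      fun z _ => mul_nonneg (pow_nonneg hs0.le _) (Real.exp_pos _).le
    unfold ind
    split_ifs with h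
    · unfold shiftVal at h
      obtain ⟨z, hz⟩ := exists_lt_of_lt_ciSup h
      rw [← hm] at hz
      have hz' : δ * m < cnt src tgt k z c := by
        rw [lt_div_iff₀ hmR] at hz
        exact hz
      refine le_trans ?_ (single_le_sum hnn (mem_univ z))
      rw [hs, ← Real.exp_nat_mul, ← Real.exp_add, ← Real.exp_zero]
      apply Real.exp_le_exp.2
      nlinarith
    · exact sum_nonneg hnn
  have h2 : ∑ c : E → Fin k → Bool, ind (δ < shiftVal src tgt k c) ≤
      q ^ Fintype.card V * (Real.exp (-(L / 2 * (δ * m))) * (q - 1 + s) ^ m) := by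
    calc ∑ c : E → Fin k → Bool, ind (δ < shiftVal src tgt k c)
        ≤ ∑ c : E → Fin k → Bool, ∑ z : V → Fin k → Bool,
            s ^ cnt src tgt k z c * Real.exp (-(L / 2 * (δ * m))) := sum_le_sum fun c _ => h1 c
      _ = ∑ z : V → Fin k → Bool, Real.exp (-(L / 2 * (δ * m))) * (q - 1 + s) ^ m := by
          rw [sum_comm]
          refine sum_congr rfl fun z _ => ?_
          rw [← sum_mul, sum_cnt, mul_comm]
      _ = _ := by
          rw [sum_const, card_univ, Fintype.card_fun, Fintype.card_fun, Fintype.card_bool,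
            Fintype.card_fin, nsmul_eq_mul]
          push_cast
          rfl
  have h3 : (q - 1 + s) / q ≤ Real.exp (1 / s) := by
    have h4 : (q - 1 + s) / q ≤ 1 / s + 1 := by
      rw [div_le_iff₀ hq0]
      have h5 : (1 / s + 1) * q = s + q := by
        rw [← hs2]
        field_simp
      rw [h5]
      linarith
    exact h4.trans (Real.add_one_le_exp _)
  have hbase : 0 ≤ (q - 1 + s) / q := div_nonneg (by linarith) hq0.le
  have hqV : q ^ Fintype.card V = Real.exp (Fintype.card V * L) := by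
    rw [Real.exp_nat_mul, hL, Real.exp_log hq0]
  calc (∑ c : E → Fin k → Bool, ind (δ < shiftVal src tgt k c)) / q ^ m
      ≤ (q ^ Fintype.card V * (Real.exp (-(L / 2 * (δ * m))) * (q - 1 + s) ^ m)) / q ^ m := by
        gcongr
    _ = Real.exp (Fintype.card V * L) * (Real.exp (-(L / 2 * (δ * m))) * ((q - 1 + s) / q) ^ m) := by
        rw [hqV, div_pow]
        ring
    _ ≤ Real.exp (Fintype.card V * L) * (Real.exp (-(L / 2 * (δ * m))) * (Real.exp (1 / s)) ^ m) := by
        gcongr
    _ = Real.exp (Fintype.card V * L + (-(L / 2 * (δ * m)) + m * (1 / s))) := by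
        rw [← Real.exp_nat_mul, ← Real.exp_add, ← Real.exp_add]
    _ ≤ Real.exp (-(δ * m / 8)) := by
        apply Real.exp_le_exp.2
        have h6 : (Fintype.card V : ℝ) * L ≤ δ * m / 4 * L :=
          mul_le_mul_of_nonneg_right hV (by linarith)
        have h7 : (m : ℝ) * (1 / s) ≤ m * (δ / 8) := mul_le_mul_of_nonneg_left hsinv hmR.le
        have h8 : 0 < δ * m := mul_pos hδ hmR
        nlinarith

end Pool.Agent.P325ac
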