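import Mathlib
import Pool.Agent.Lib.P325ac.Defs
import Pool.Agent.Lib.P325ac.PE

/-!
# P325ac.ValYes (1.3 h): planted instances have value `≥ 1 - ε` with probability `≥ 1 - exp (- ε m / 10)`

`m = card E`. `shiftVal` is a supremum over a finite nonempty type (`le_ciSup (Set.finite_range _).bddAbove`). For `ω` take
`z v i = (ω i).1 v`: with `c e i = cob src tgt (ω i).1 (ω i).2 e` the constraint of `e` holds iff `(ω i).2 e = false` for all `i`. Let
`bad ω e = ind (∃ i, (ω i).2 e = true)` and `X ω = ∑ e, bad ω e`; `shiftVal c ≥ 1 - X ω / m`. If `shiftVal c < 1 - ε` then `X ω > ε m`, so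
`1 - ind (1 - ε ≤ shiftVal c) ≤ 2 ^ (X ω) * 2 ^ (- ε m)`, and `2 ^ (X ω) = ∏ e, (1 + bad ω e)` (rather use this product directly).
Expectation of `∏ e, (1 + bad ω e)` under `multi`: the `z` parts are independent of it and have total weight `1`; the sum over the `τ` parts is
`∑ τ : Fin k → E → Bool, (∏ i, ∏ e, wn θ (τ i e)) ∏ e, (1 + ind (∃ i, τ i e = true)) = ∏ e, ∑ t : Fin k → Bool, (∏ i, wn θ (t i)) (1 + ind (∃ i, t i = true))`
(`Finset.prod_comm`, `Fintype.piFinset`, exchange `Fin k → E → Bool` with `E → Fin k → Bool`: `Equiv.piComm`, `Finset.prod_univ_sum`), and the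
factor is `2 - wn θ false ^ k = 2 - ((1 + θ) / 2) ^ k ≤ 1 + ε / 2 ≤ exp (ε / 2)`. Total
`exp (ε m / 2) 2 ^ (- ε m) = exp (- ε m (log 2 - 1 / 2)) ≤ exp (- ε m / 10)` (`log 2 > 0.69`).
-/

open Finset
open scoped BigOperators Classical

namespace Pool.Agent.P325ac

namespace ValYesAux

/-- the edge `e` is noisy in some layer -/
noncomputable def bad {E I : Type} (σ : I → E → Bool) (e : E) : ℝ :=
  ind (∃ i, σ i e = true)

theorem bad_nonneg {E I : Type} (σ : I → E → Bool) (e : E) : 0 ≤ bad σ e := by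
  unfold bad ind
  split_ifs <;> norm_num

theorem W_sum {V E : Type} [Fintype V] [Fintype E] (θ : ℝ) :
    ∑ s : (V → Bool) × (E → Bool), (∏ v, wn 0 (s.1 v)) * ∏ e, wn θ (s.2 e) = 1 := by
  rw [Fintype.sum_prod_type]
  have h1 : ∀ z : V → Bool, ∑ τ : E → Bool, (∏ v, wn 0 (z v)) * ∏ e, wn θ (τ e) =
      ∏ v, wn 0 (z v) := by
    intro z
    rw [← Finset.mul_sum, PEAux.sum_W (W := fun _ : E => wn θ) (fun _ => wn_sum θ), mul_one]
  rw [Finset.sum_congr rfl fun z _ => h1 z]
  exact PEAux.sum_W (W := fun _ : V => wn 0) (fun _ => wn_sum 0)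

theorem W_map {V E : Type} [Fintype V] [Fintype E] (θ : ℝ) (t : E → Bool) :
    ∑ s : (V → Bool) × (E → Bool), ((∏ v, wn 0 (s.1 v)) * ∏ e, wn θ (s.2 e)) * ind (s.2 = t) =
      ∏ e, wn θ (t e) := by
  rw [Fintype.sum_prod_type]
  have h1 : ∀ z : V → Bool, ∑ τ : E → Bool, ((∏ v, wn 0 (z v)) * ∏ e, wn θ (τ e)) * ind (τ = t) =
      (∏ v, wn 0 (z v)) * ∏ e, wn θ (t e) := by
    intro z
    rw [Finset.sum_eq_single t]
    · unfold ind
      rw [if_pos rfl, mul_one]
    · intro τ _ hτ
      unfold ind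
      rw [if_neg hτ, mul_zero]
    · intro hcon
      exact absurd (Finset.mem_univ _) hcon
  rw [Finset.sum_congr rfl fun z _ => h1 z, ← Finset.sum_mul,
    PEAux.sum_W (W := fun _ : V => wn 0) (fun _ => wn_sum 0), one_mul]

theorem factor {I : Type} [Fintype I] (θ : ℝ) :
    ∑ t : I → Bool, (∏ i, wn θ (t i)) * (1 + ind (∃ i, t i = true)) =
      2 - ((1 + θ) / 2) ^ Fintype.card I := by
  have h1 : ∀ t : I → Bool, (∏ i, wn θ (t i)) * (1 + ind (∃ i, t i = true)) =
      2 * (∏ i, wn θ (t i)) - (∏ i, wn θ (t i)) * ind (t = fun _ => false) := by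
    intro t
    have h2 : ind (∃ i, t i = true) = 1 - ind (t = fun _ => false) := by
      unfold ind
      by_cases h : t = fun _ => false
      · rw [if_pos h, if_neg]
        · norm_num
        · rintro ⟨i, hi⟩
          rw [h] at hi
          exact Bool.noConfusion hi
      · rw [if_neg h, if_pos]
        · norm_num
        · by_contra hcon
          push Not at hcon
          exact h (funext fun i => by simpa using hcon i)
    rw [h2]
    ring
  rw [Finset.sum_congr rfl fun t _ => h1 t, Finset.sum_sub_distrib, ← Finset.mul_sum,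
    PEAux.sum_W (W := fun _ : I => wn θ) (fun _ => wn_sum θ), mul_one]
  congr 1
  rw [Finset.sum_eq_single (fun _ : I => false)]
  · unfold ind
    rw [if_pos rfl, mul_one, Finset.prod_const, Finset.card_univ]
    simp only [wn, Bool.false_eq_true, if_false]
  · intro t _ ht
    unfold ind
    rw [if_neg ht, mul_zero]
  · intro hcon
    exact absurd (Finset.mem_univ _) hcon

theorem expect {E I : Type} [Fintype E] [Fintype I] (θ : ℝ) :
    pe (fun (_ : I) (t : E → Bool) => ∏ e, wn θ (t e)) (fun σ => ∏ e, (1 + bad σ e)) =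
      (2 - ((1 + θ) / 2) ^ Fintype.card I) ^ Fintype.card E := by
  unfold pe
  have h0 : ∑ σ : I → E → Bool, (∏ i, ∏ e, wn θ (σ i e)) * ∏ e, (1 + bad σ e) =
      ∑ ρ : E → I → Bool, ∏ e, ((∏ i, wn θ (ρ e i)) * (1 + ind (∃ i, ρ e i = true))) := by
    refine Fintype.sum_equiv (Equiv.piComm (fun (_ : I) (_ : E) => Bool)) _ _ fun σ => ?_
    rw [Finset.prod_comm, ← Finset.prod_mul_distrib]
    rfl
  refine h0.trans ?_
  rw [PEAux.sum_prod (fun (_ : E) (t : I → Bool) =>
      (∏ i, wn θ (t i)) * (1 + ind (∃ i, t i = true)))]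
  rw [Finset.prod_congr rfl fun e _ => factor θ, Finset.prod_const, Finset.card_univ]

end ValYesAux

open ValYesAux

theorem le_shiftVal {V E : Type} [Fintype V] [Fintype E] (src tgt : E → V) (k : ℕ)
    (c : E → Fin k → Bool) (z : V → Fin k → Bool) :
    ((univ.filter (fun e => ∀ i, xor (z (src e) i) (c e i) = z (tgt e) i)).card : ℝ) /
      Fintype.card E ≤ shiftVal src tgt k c := by
  unfold shiftVal
  exact le_ciSup (f := fun z : V → Fin k → Bool =>
    ((univ.filter (fun e => ∀ i, xor (z (src e) i) (c e i) = z (tgt e) i)).card : ℝ) /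
      Fintype.card E) (Set.finite_range _).bddAbove z

namespace ValYesAux

theorem prod_bad {E I : Type} [Fintype E] (σ : I → E → Bool) :
    ∏ e, (1 + bad σ e) = 2 ^ (univ.filter (fun e => ∃ i, σ i e = true)).card := by
  have h1 : ∀ e, 1 + bad σ e = if ∃ i, σ i e = true then 2 else 1 := by
    intro e
    unfold bad ind
    split_ifs <;> norm_num
  rw [Finset.prod_congr rfl fun e _ => h1 e, ← Finset.prod_filter, Finset.prod_const]

theorem point {V E : Type} [Fintype V] [Fintype E] [Nonempty E] (src tgt : E → V) (k : ℕ)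
    (ε : ℝ) (ω : Fin k → (V → Bool) × (E → Bool)) :
    1 - ind (1 - ε ≤ shiftVal src tgt k (fun e i => cob src tgt (ω i).1 (ω i).2 e)) ≤
      Real.exp (-(ε * Fintype.card E * Real.log 2)) * ∏ e, (1 + bad (fun i => (ω i).2) e) := by
  by_cases h : 1 - ε ≤ shiftVal src tgt k (fun e i => cob src tgt (ω i).1 (ω i).2 e)
  · have h1 : ind (1 - ε ≤ shiftVal src tgt k (fun e i => cob src tgt (ω i).1 (ω i).2 e)) = 1 := by
      unfold ind
      rw [if_pos h]
    rw [h1, sub_self]
    refine mul_nonneg (Real.exp_pos _).le (Finset.prod_nonneg fun e _ => ?_)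
    have := bad_nonneg (fun i => (ω i).2) e
    linarith
  · have h1 : ind (1 - ε ≤ shiftVal src tgt k (fun e i => cob src tgt (ω i).1 (ω i).2 e)) = 0 := by
      unfold ind
      rw [if_neg h]
    rw [h1, sub_zero, prod_bad]
    have hm : (0 : ℝ) < Fintype.card E := by exact_mod_cast Fintype.card_pos
    have h2 := le_shiftVal src tgt k (fun e i => cob src tgt (ω i).1 (ω i).2 e)
      (fun v i => (ω i).1 v)
    have h3 : (univ.filter (fun e => ∀ i, xor ((fun v i => (ω i).1 v) (src e) i)
        ((fun e i => cob src tgt (ω i).1 (ω i).2 e) e i) = (fun v i => (ω i).1 v) (tgt e) i)) =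
        univ.filter (fun e => ¬ ∃ i, (ω i).2 e = true) := by
      refine Finset.filter_congr fun e _ => ?_
      constructor
      · rintro hh ⟨i, hi⟩
        have := hh i
        simp only [cob, hi] at this
        revert this
        cases (ω i).1 (src e) <;> cases (ω i).1 (tgt e) <;> decide
      · intro hh i
        have hi : (ω i).2 e = false := by
          by_contra hcon
          exact hh ⟨i, by simpa using hcon⟩
        simp only [cob, hi]
        cases (ω i).1 (src e) <;> cases (ω i).1 (tgt e) <;> decide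
    rw [h3] at h2
    push Not at h
    have h4 := h2.trans_lt h
    rw [div_lt_iff₀ hm] at h4
    have h5 : ((univ.filter (fun e => ∃ i, (ω i).2 e = true)).card : ℝ) +
        ((univ.filter (fun e => ¬ ∃ i, (ω i).2 e = true)).card : ℝ) = Fintype.card E := by
      have := Finset.card_filter_add_card_filter_not (s := (univ : Finset E))
        (fun e => ∃ i, (ω i).2 e = true)
      rw [Finset.card_univ] at this
      exact_mod_cast this
    set X := (univ.filter (fun e => ∃ i, (ω i).2 e = true)).card with hX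
    have h6 : ε * Fintype.card E ≤ (X : ℝ) := by nlinarith
    have h7 : (2 : ℝ) ^ X = Real.exp (X * Real.log 2) := by
      rw [mul_comm, Real.exp_mul, Real.exp_log (by norm_num), Real.rpow_natCast]
    have h8 : 0 ≤ Real.log 2 := Real.log_nonneg (by norm_num)
    have h9 : (1 : ℝ) ≤ Real.exp (-(ε * Fintype.card E * Real.log 2)) * 2 ^ X := by
      rw [h7, ← Real.exp_add]
      refine Real.one_le_exp ?_
      nlinarith [mul_le_mul_of_nonneg_right h6 h8]
    convert h9

end ValYesAux

theorem val_yes {V E : Type} [Fintype V] [Fintype E] [Nonempty E] (src tgt : E → V) (k : ℕ)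
    (θ ε : ℝ) (h0 : 0 ≤ θ) (h1 : θ ≤ 1) (hε : 0 < ε) (h : 1 - ε / 2 ≤ ((1 + θ) / 2) ^ k) :
    1 - Real.exp (-(ε * Fintype.card E / 10)) ≤
      multi src tgt k θ (fun c => ind (1 - ε ≤ shiftVal src tgt k c)) := by
  have hW : ∀ i : Fin k, ∑ s : (V → Bool) × (E → Bool),
      (fun (_ : Fin k) (s : (V → Bool) × (E → Bool)) =>
        (∏ v, wn 0 (s.1 v)) * ∏ e, wn θ (s.2 e)) i s = 1 := fun _ => W_sum θ
  have hW0 : ∀ (i : Fin k) (s : (V → Bool) × (E → Bool)),
      0 ≤ (fun (_ : Fin k) (s : (V → Bool) × (E → Bool)) =>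
        (∏ v, wn 0 (s.1 v)) * ∏ e, wn θ (s.2 e)) i s := fun _ s =>
    mul_nonneg (Finset.prod_nonneg fun v _ => wn_nonneg le_rfl zero_le_one _)
      (Finset.prod_nonneg fun e _ => wn_nonneg h0 h1 _)
  have h2 : multi src tgt k θ (fun c => ind (1 - ε ≤ shiftVal src tgt k c)) =
      1 - pe (fun (_ : Fin k) (s : (V → Bool) × (E → Bool)) =>
          (∏ v, wn 0 (s.1 v)) * ∏ e, wn θ (s.2 e))
        (fun ω => 1 - ind (1 - ε ≤ shiftVal src tgt k
          (fun e i => cob src tgt (ω i).1 (ω i).2 e))) := by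
    rw [pe_sub, pe_const hW, multi]
    ring
  rw [h2]
  have h3 : pe (fun (_ : Fin k) (s : (V → Bool) × (E → Bool)) =>
          (∏ v, wn 0 (s.1 v)) * ∏ e, wn θ (s.2 e))
        (fun ω => 1 - ind (1 - ε ≤ shiftVal src tgt k
          (fun e i => cob src tgt (ω i).1 (ω i).2 e))) ≤
      Real.exp (-(ε * Fintype.card E * Real.log 2)) *
        (2 - ((1 + θ) / 2) ^ k) ^ Fintype.card E := by
    refine (pe_le hW0 fun ω => point src tgt k ε ω).trans (le_of_eq ?_)
    have h30 := expect (E := E) (I := Fin k) θ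
    rw [Fintype.card_fin] at h30
    rw [pe_mul, ← h30]
    congr 1
    exact pe_map1 (fun (_ : Fin k) (s : (V → Bool) × (E → Bool)) =>
        (∏ v, wn 0 (s.1 v)) * ∏ e, wn θ (s.2 e))
      (fun (_ : Fin k) (t : E → Bool) => ∏ e, wn θ (t e)) (fun _ s => s.2)
      (fun _ t => W_map θ t) (fun σ => ∏ e, (1 + bad σ e))
  have h4 : (2 - ((1 + θ) / 2) ^ k) ^ Fintype.card E ≤ Real.exp (ε * Fintype.card E / 2) := by
    have h5 : ((1 + θ) / 2) ^ k ≤ 1 := pow_le_one₀ (by linarith) (by linarith)
    have h6 : 2 - ((1 + θ) / 2) ^ k ≤ Real.exp (ε / 2) := by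
      have := Real.add_one_le_exp (ε / 2)
      linarith
    refine (pow_le_pow_left₀ (by linarith) h6 _).trans (le_of_eq ?_)
    rw [← Real.exp_nat_mul]
    congr 1
    ring
  have h7 : Real.exp (-(ε * Fintype.card E * Real.log 2)) *
      (2 - ((1 + θ) / 2) ^ k) ^ Fintype.card E ≤ Real.exp (-(ε * Fintype.card E / 10)) := by
    refine (mul_le_mul_of_nonneg_left h4 (Real.exp_pos _).le).trans ?_
    rw [← Real.exp_add]
    refine Real.exp_le_exp.2 ?_
    have h8 : 0.6931471803 < Real.log 2 := Real.log_two_gt_d9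
    have h9 : (0 : ℝ) ≤ ε * Fintype.card E := mul_nonneg hε.le (Nat.cast_nonneg _)
    nlinarith
  linarith

end Pool.Agent.P325ac
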