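import Mathlib
import Pool.Agent.Lib.P325ac.Base
import Pool.Agent.Lib.P325ac.Circ
import Pool.Agent.Lib.P325ac.Defs
import Pool.Agent.Lib.P325ac.PE
import Pool.Agent.Lib.P325ac.DTb
import Pool.Agent.Lib.P325ac.Hyb
import Pool.Agent.Lib.P325ac.ValYes
import Pool.Agent.Lib.P325ac.ValNo
import Pool.Agent.Lib.P325ac.BallEx
import Pool.Agent.Lib.P325ac.Extr
import Pool.Agent.Lib.P325ac.LayerF
import Pool.Agent.Lib.P325ac.Cond
import Pool.Agent.Lib.P325ac.Fin

/-!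
# P325ac.Main: the theorem
-/

open Finset
open scoped BigOperators Classical

namespace Pool.Agent.P325ac

/-- The bound for circuits on instances with `k` layers. -/
theorem multi_circ {V E G : Type} [Fintype V] [Fintype E] [Fintype G] (src tgt : E → V)
    (D k : ℕ) (ρ : ℝ) (h0 : 1 / 3 ≤ ρ) (h1 : ρ < 1) (r h t w : ℕ) (hr1 : 1 ≤ r) (ht : 1 ≤ t)
    (hw : w ≤ t) (hB : ∀ e0, ∃ Bl : Ball src tgt e0 r, Bl.T.Deg D) (η : ℝ) (hη1 : η ≤ 1)
    (hη : Fintype.card E * Fintype.card G * (1 / 2) ^ (t + 1) ≤ η)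
    (lv : G → ℕ) (val : G → (E → Fin k → Bool) → Bool) (hc : IsCirc (IsJunta w) lv val)
    (hlv : ∀ g, lv g < h) (g : G) :
    |multi src tgt k ρ (fun c => br (val g c)) - multi src tgt k 0 (fun c => br (val g c))|
      ≤ k * (2 * t ^ 2 * ρ ^ r *
          (1024 * t ^ 2 * (((1 + ρ) / (1 - ρ)) ^ D) ^ 2 * (32 * t / (1 - ρ))) ^ h + η) := by
  refine multi_bound src tgt k ρ (by linarith) h1.le _ _ ?_
  intro i c0
  refine layer_final src tgt D ρ h0 h1 r h t hr1 ht hB η hη1 hη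
    (fun f' => ∃ f, IsJunta w f ∧
      f' = fun c : E → Bool => f (fun e j => if j = i then c e else c0 e j)) ?_ lv
    (fun g c => val g (fun e j => if j = i then c e else c0 e j))
    (hc.subst (fun (c : E → Bool) e j => if j = i then c e else c0 e j)) hlv g
  rintro f' ⟨f, ⟨S, hS, hf⟩, rfl⟩
  refine DT.mono (s := S.card + 1) (by omega) (DT.junta S ?_)
  intro c c' hcc
  apply hf
  intro e he
  funext j
  by_cases hj : j = i
  · simp only [hj, if_true]
    exact hcc e he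
  · simp only [hj, if_false]

theorem multi_compl {V E : Type} [Fintype V] [Fintype E] (src tgt : E → V) (k : ℕ)
    (P : (E → Fin k → Bool) → Prop) :
    multi src tgt k 0 (fun c => ind (¬ P c)) = 1 - multi src tgt k 0 (fun c => ind (P c)) := by
  have q2 : (fun c => ind (¬ P c)) = (fun c => 1 - ind (P c)) := by
    funext c
    unfold ind
    by_cases hc : P c
    · rw [if_pos hc, if_neg (not_not.mpr hc)]; ring
    · rw [if_neg hc, if_pos hc]; ring
  rw [q2, multi_zero, multi_zero, Finset.sum_sub_distrib, sub_div]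
  congr 1
  rw [Finset.sum_const, Finset.card_univ, nsmul_eq_mul, mul_one]
  have : (Fintype.card (E → Fin k → Bool) : ℝ) = (2 ^ k) ^ Fintype.card E := by
    simp
  rw [this]
  exact div_self (by positivity)

/-- The theorem on an arbitrary graph whose balls are trees. -/
theorem core {V E : Type} [Fintype V] [Fintype E] (src tgt : E → V) (δ ε : ℝ) (k d r N : ℕ)
    (hδ : 0 < δ) (hδ1 : δ < 1) (hε : 0 < ε) (hε1 : ε < 1) (hk : 64 / δ ^ 2 ≤ 2 ^ k) (hk7 : 7 ≤ k)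
    (hd17 : 17 ≤ d) (hr1 : 1 ≤ r) (hN1 : 1 ≤ N) (hrlt : N < 2 * (d ^ 2) ^ (r + 1))
    (hball : ∀ e0, ∃ Bl : Ball src tgt e0 r, Bl.T.Deg d) (hV : Fintype.card V = 2 * N)
    (hmR : 8 * (N : ℝ) ≤ δ * Fintype.card E) (hmN : Fintype.card E ≤ N * N) :
    ∃ μ1 μ0 : (E → Fin k → Bool) → ℝ, IsProb μ1 ∧ IsProb μ0 ∧
      (∀ c, μ1 c ≠ 0 → 1 - ε ≤ shiftVal src tgt k c) ∧
      (∀ c, μ0 c ≠ 0 → shiftVal src tgt k c ≤ δ) ∧
      ∀ (G : Type) [Fintype G] (h w : ℕ) (lv : G → ℕ)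
        (val : G → (E → Fin k → Bool) → Bool), 1 ≤ w →
        IsCirc (IsJunta w) lv val → (∀ g, lv g < h) → ∀ g,
        |∑ c, μ1 c * br (val g c) - ∑ c, μ0 c * br (val g c)| ≤
          (5 * ((5 * k + 2 / ε + 1) *
            (1024 * (((1 + (1 - ε / k)) / (1 - (1 - ε / k))) ^ d) ^ 2 * (32 / (ε / k)))) *
              (w + Real.log (Fintype.card G * N))) ^ (5 * h) /
            (N : ℝ) ^ (ε / (2 * k * Real.log d)) := by
  have hkR : (7 : ℝ) ≤ k := by exact_mod_cast hk7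
  have hNR : (1 : ℝ) ≤ N := by exact_mod_cast hN1
  set ρ : ℝ := 1 - ε / k with hρ
  have hk0 : (0 : ℝ) < k := by linarith
  have hεk : 0 < ε / k := by positivity
  have hεk1 : ε / k ≤ 1 / 7 := by
    rw [div_le_div_iff₀ hk0 (by norm_num)]
    nlinarith
  set m : ℕ := Fintype.card E with hmdef
  have hm0 : (0 : ℝ) < m := by
    by_contra hcon
    have : (m : ℝ) ≤ 0 := not_lt.mp hcon
    have : δ * m ≤ 0 := mul_nonpos_of_nonneg_of_nonpos hδ.le this
    linarith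
  have hm0' : 0 < m := by exact_mod_cast hm0
  have : Nonempty E := Fintype.card_pos_iff.mp hm0'
  -- yes
  have hbern : 1 - ε / 2 ≤ ((1 + ρ) / 2) ^ k := by
    have q1 : (1 + ρ) / 2 = 1 + (-(ε / k) / 2) := by rw [hρ]; ring
    rw [q1]
    have q2 := one_add_mul_le_pow (a := -(ε / k) / 2) (by linarith) k
    have q3 : (k : ℝ) * (-(ε / k) / 2) = -(ε / 2) := by field_simp
    rw [q3] at q2
    linarith
  have hyes := val_yes src tgt k ρ ε (by rw [hρ]; linarith)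
    (by rw [hρ]; linarith) hε hbern
  have hno := val_no src tgt k δ hδ hδ1 hk (by
    rw [hV]
    push_cast
    linarith)
  have hno' : 1 - Real.exp (-(δ * m / 8)) ≤ multi src tgt k 0
      (fun c => ind (¬ δ < shiftVal src tgt k c)) := by
    rw [multi_compl]
    linarith
  have he1 : Real.exp (-(ε * m / 10)) < 1 := by
    rw [Real.exp_lt_one_iff]
    have : 0 < ε * m / 10 := by positivity
    linarith
  have he2 : Real.exp (-(δ * m / 8)) < 1 := by
    rw [Real.exp_lt_one_iff]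
    have : 0 < δ * m / 8 := by positivity
    linarith
  obtain ⟨μ1, hμ1, hμ1', hμ1''⟩ := cond_multi src tgt k ρ
    (by rw [hρ]; linarith) (by rw [hρ]; linarith) _ _ he1 hyes
  obtain ⟨μ0, hμ0, hμ0', hμ0''⟩ := cond_multi src tgt k 0
    le_rfl zero_le_one _ _ he2 hno'
  refine ⟨μ1, μ0, hμ1, hμ0, hμ1', fun c hc => not_lt.mp (hμ0' c hc), ?_⟩
  intro G _ h w lv val hw hc hlv g
  have hh : 1 ≤ h := by
    have := hlv g
    omega
  set s : ℕ := Fintype.card G with hs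
  have hs1 : 1 ≤ s := Fintype.card_pos_iff.mpr ⟨g⟩
  set t : ℕ := w + Nat.clog 2 (s * m * N) with ht
  have hx1 : 1 ≤ s * m * N := Nat.one_le_iff_ne_zero.mpr (by positivity)
  have ht1 : 1 ≤ t := by omega
  have hη : (m : ℝ) * s * (1 / 2) ^ (t + 1) ≤ 1 / (N : ℝ) := by
    have q1 : (s * m * N : ℕ) ≤ 2 ^ (t + 1) := by
      calc s * m * N ≤ 2 ^ Nat.clog 2 (s * m * N) := Nat.le_pow_clog (by norm_num) _
        _ ≤ 2 ^ (t + 1) := Nat.pow_le_pow_right (by norm_num) (by omega)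
    have q2 : ((s : ℝ) * m * N) ≤ 2 ^ (t + 1) := by exact_mod_cast q1
    rw [one_div_pow, mul_one_div, div_le_div_iff₀ (by positivity) (by linarith)]
    nlinarith
  have hη1 : 1 / (N : ℝ) ≤ 1 := by
    rw [div_le_one (by linarith)]; exact hNR
  have hcirc := multi_circ src tgt d k ρ (by rw [hρ]; linarith)
    (by rw [hρ]; linarith) r h t w hr1 ht1 (by omega) hball (1 / (N : ℝ)) hη1 hη lv val hc hlv g
  have hL : (t : ℝ) ≤ 5 * (w + Real.log ((s : ℝ) * N)) := by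
    have q0 : (1 : ℝ) ≤ w := by exact_mod_cast hw
    have hsR : (1 : ℝ) ≤ s := by exact_mod_cast hs1
    have hsN : (1 : ℝ) ≤ (s : ℝ) * N := by nlinarith
    have hlog0 : 0 ≤ Real.log ((s : ℝ) * N) := Real.log_nonneg hsN
    have hx : ((s * m * N : ℕ) : ℝ) ≤ ((s : ℝ) * N) ^ 3 := by
      push_cast
      have q1 : (m : ℝ) ≤ N * N := by exact_mod_cast hmN
      have q2 : (s : ℝ) * m * N ≤ s * (N * N) * N := by
        apply mul_le_mul_of_nonneg_right _ (by linarith)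
        exact mul_le_mul_of_nonneg_left q1 (by linarith)
      have q3 : (s : ℝ) ≤ s ^ 3 := by
        calc (s : ℝ) = s ^ 1 := (pow_one _).symm
          _ ≤ s ^ 3 := pow_le_pow_right₀ hsR (by norm_num)
      have q4 : (s : ℝ) * (N * N) * N ≤ s ^ 3 * N ^ 3 := by
        have : (s : ℝ) * (N * N) * N = s * N ^ 3 := by ring
        rw [this]
        exact mul_le_mul_of_nonneg_right q3 (by positivity)
      calc _ ≤ _ := q2
        _ ≤ _ := q4
        _ = _ := by ring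
    have hclog : (Nat.clog 2 (s * m * N) : ℝ) ≤ 1 + 5 * Real.log ((s : ℝ) * N) := by
      by_cases hx2 : 1 < s * m * N
      · have q1 : 2 ^ (Nat.clog 2 (s * m * N) - 1) < s * m * N :=
          Nat.pow_pred_clog_lt_self (by norm_num) hx2
        have q2 : ((2 : ℝ) ^ (Nat.clog 2 (s * m * N) - 1)) ≤ ((s : ℝ) * N) ^ 3 := by
          refine le_trans ?_ hx
          exact_mod_cast q1.le
        have q3 := Real.log_le_log (by positivity) q2
        rw [Real.log_pow, Real.log_pow] at q3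
        have q4 : 0 < Nat.clog 2 (s * m * N) := Nat.clog_pos (by norm_num) (by omega)
        rw [Nat.cast_sub (by omega)] at q3
        push_cast at q3
        have q5 := Real.log_two_gt_d9
        push_cast
        have q6 : (0 : ℝ) ≤ (Nat.clog 2 (s * m * N) : ℝ) - 1 := by
          have : (1 : ℝ) ≤ (Nat.clog 2 (s * m * N) : ℝ) := by exact_mod_cast q4
          linarith
        have q7 : ((Nat.clog 2 (s * m * N) : ℝ) - 1) * 0.6 ≤
            ((Nat.clog 2 (s * m * N) : ℝ) - 1) * Real.log 2 :=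
          mul_le_mul_of_nonneg_left (by linarith) q6
        linarith
      · have : Nat.clog 2 (s * m * N) = 0 := Nat.clog_of_right_le_one (by omega) _
        rw [this]
        push_cast
        linarith
    rw [ht]
    push_cast
    push_cast at hclog
    linarith
  have hfin := final_ineq k d h w t s N r m ε δ (w + Real.log ((s : ℝ) * N)) _ _ _
    hk7 hd17 hε hε1 hδ1 hh hw hs1 hN1 hrlt hmR rfl ht1 hL rfl rfl rfl
  have hb0 : ∀ c, 0 ≤ br (val g c) := by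
    intro c; unfold br; split_ifs <;> norm_num
  have hb1 : ∀ c, br (val g c) ≤ 1 := by
    intro c; unfold br; split_ifs <;> norm_num
  have a1 := hμ1'' (fun c => br (val g c)) hb0 hb1
  have a0 := hμ0'' (fun c => br (val g c)) hb0 hb1
  refine le_trans ?_ hfin
  rw [abs_le] at a1 a0 hcirc ⊢
  constructor <;> linarith [a1.1, a1.2, a0.1, a0.2, hcirc.1, hcirc.2]

/-- `core` for an arbitrary `Fintype` structure on the set of instances. -/
theorem core_inst {V E : Type} [Fintype V] [Fintype E] (src tgt : E → V) (δ ε : ℝ)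
    (k d r N : ℕ) [instX : Fintype (E → Fin k → Bool)]
    (hδ : 0 < δ) (hδ1 : δ < 1) (hε : 0 < ε) (hε1 : ε < 1) (hk : 64 / δ ^ 2 ≤ 2 ^ k) (hk7 : 7 ≤ k)
    (hd17 : 17 ≤ d) (hr1 : 1 ≤ r) (hN1 : 1 ≤ N) (hrlt : N < 2 * (d ^ 2) ^ (r + 1))
    (hball : ∀ e0, ∃ Bl : Ball src tgt e0 r, Bl.T.Deg d) (hV : Fintype.card V = 2 * N)
    (hmR : 8 * (N : ℝ) ≤ δ * Fintype.card E) (hmN : Fintype.card E ≤ N * N) :
    ∃ μ1 μ0 : (E → Fin k → Bool) → ℝ, IsProb μ1 ∧ IsProb μ0 ∧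
      (∀ c, μ1 c ≠ 0 → 1 - ε ≤ shiftVal src tgt k c) ∧
      (∀ c, μ0 c ≠ 0 → shiftVal src tgt k c ≤ δ) ∧
      ∀ (G : Type) [Fintype G] (h w : ℕ) (lv : G → ℕ)
        (val : G → (E → Fin k → Bool) → Bool), 1 ≤ w →
        IsCirc (IsJunta w) lv val → (∀ g, lv g < h) → ∀ g,
        |∑ c, μ1 c * br (val g c) - ∑ c, μ0 c * br (val g c)| ≤
          (5 * ((5 * k + 2 / ε + 1) *
            (1024 * (((1 + (1 - ε / k)) / (1 - (1 - ε / k))) ^ d) ^ 2 * (32 / (ε / k)))) *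
              (w + Real.log (Fintype.card G * N))) ^ (5 * h) /
            (N : ℝ) ^ (ε / (2 * k * Real.log d)) := by
  have h := core src tgt δ ε k d r N hδ hδ1 hε hε1 hk hk7 hd17 hr1 hN1 hrlt hball hV hmR hmN
  have e : instX = Pi.instFintype := Subsingleton.elim _ _
  subst e
  exact h

/-- The main theorem. -/
theorem constant_depth (δ : ℝ) (hδ : 0 < δ) (hδ1 : δ < 1) (k : ℕ) (hk : 64 / δ ^ 2 ≤ 2 ^ k) :
    ∃ Ed : (N : ℕ) → Finset (Fin N × Fin N), (∀ N, MaxDeg (Ed N) ⌈16 / δ⌉₊) ∧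
      ∀ ε : ℝ, 0 < ε → ε < 1 → ∃ C : ℝ, 0 < C ∧ ∀ N : ℕ, 2 * ⌈16 / δ⌉₊ ^ 2 ≤ N →
        ∃ μ1 μ0 : ({p // p ∈ Ed N} → Fin k → Bool) → ℝ, IsProb μ1 ∧ IsProb μ0 ∧
          (∀ c, μ1 c ≠ 0 → 1 - ε ≤ shiftVal (esrc (Ed N)) (etgt (Ed N)) k c) ∧
          (∀ c, μ0 c ≠ 0 → shiftVal (esrc (Ed N)) (etgt (Ed N)) k c ≤ δ) ∧
          ∀ (G : Type) [Fintype G] (h w : ℕ) (lv : G → ℕ)
            (val : G → ({p // p ∈ Ed N} → Fin k → Bool) → Bool), 1 ≤ w →
            IsCirc (IsJunta w) lv val → (∀ g, lv g < h) → ∀ g,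
            |∑ c, μ1 c * br (val g c) - ∑ c, μ0 c * br (val g c)| ≤
              (C * (w + Real.log (Fintype.card G * N))) ^ (5 * h) /
                (N : ℝ) ^ (ε / (2 * k * Real.log ⌈16 / δ⌉₊)) := by
  set d : ℕ := ⌈16 / δ⌉₊ with hd_def
  have hdR : 16 / δ ≤ d := Nat.le_ceil _
  have h16 : 16 < 16 / δ := by
    rw [lt_div_iff₀ hδ]; nlinarith
  have hd17 : 17 ≤ d := by
    have : (16 : ℝ) < d := lt_of_lt_of_le h16 hdR
    exact_mod_cast this
  have hk7 : 7 ≤ k := by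
    by_contra hcon
    have hk6 : k ≤ 6 := by omega
    have q1 : (2 : ℝ) ^ k ≤ 2 ^ 6 := pow_le_pow_right₀ (by norm_num) hk6
    have q2 : 64 < 64 / δ ^ 2 := by
      rw [lt_div_iff₀ (by positivity)]
      nlinarith
    norm_num at q1
    linarith
  have hkR : (7 : ℝ) ≤ k := by exact_mod_cast hk7
  have hd2 : 1 < d ^ 2 := by nlinarith
  have hex : ∀ N : ℕ, ∃ Ed : Finset (Fin N × Fin N), MaxDeg Ed d ∧ (2 * d ^ 2 ≤ N →
      d * N ≤ 2 * Ed.card ∧ NoShort (gr Ed) (2 * Nat.log (d ^ 2) (N / 2))) := by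
    intro N
    by_cases hN : 2 * d ^ 2 ≤ N
    · have hN2 : d ^ 2 ≤ N / 2 := by omega
      have hr1 : 1 ≤ Nat.log (d ^ 2) (N / 2) := Nat.log_pos hd2 hN2
      have hpow : (d ^ 2) ^ Nat.log (d ^ 2) (N / 2) ≤ N / 2 :=
        Nat.pow_log_le_self _ (by omega)
      have hN3 : 2 * d ^ (2 * Nat.log (d ^ 2) (N / 2)) ≤ N := by
        rw [pow_mul]; omega
      obtain ⟨Ed, h1, h2, h3⟩ := extr (by omega) hr1 hN3
      exact ⟨Ed, h2, fun _ => ⟨h1, h3⟩⟩
    · refine ⟨∅, ⟨fun i => by simp, fun j => by simp⟩, fun h => absurd h hN⟩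
  choose Ed hEd1 hEd2 using hex
  refine ⟨Ed, hEd1, ?_⟩
  intro ε hε hε1
  have hk0 : (0 : ℝ) < k := by linarith
  have hεk : 0 < ε / k := by positivity
  have hεk1 : ε / k ≤ 1 / 7 := by
    rw [div_le_div_iff₀ hk0 (by norm_num)]
    nlinarith
  refine ⟨5 * ((5 * k + 2 / ε + 1) *
            (1024 * (((1 + (1 - ε / k)) / (1 - (1 - ε / k))) ^ d) ^ 2 * (32 / (ε / k)))), ?_, ?_⟩
  · have : 1 - (1 - ε / (k : ℝ)) = ε / k := by ring
    rw [this]
    have : 0 < 1 + (1 - ε / (k : ℝ)) := by linarith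
    positivity
  intro N hN
  obtain ⟨hm, hshort⟩ := hEd2 N hN
  have hN2 : d ^ 2 ≤ N / 2 := by omega
  have hr1 : 1 ≤ Nat.log (d ^ 2) (N / 2) := Nat.log_pos hd2 hN2
  have hball : ∀ e0, ∃ Bl : Ball (esrc (Ed N)) (etgt (Ed N)) e0 (Nat.log (d ^ 2) (N / 2)),
      Bl.T.Deg d := fun e0 => ball_exists hr1 (Ed N) (hEd1 N) hshort e0
  have hN1 : 1 ≤ N := by
    have : 1 ≤ d ^ 2 := by omega
    omega
  have hNR : (1 : ℝ) ≤ N := by exact_mod_cast hN1
  have hcardE : Fintype.card {p // p ∈ Ed N} = (Ed N).card := Fintype.card_coe _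
  have hmR : 8 * (N : ℝ) ≤ δ * Fintype.card {p // p ∈ Ed N} := by
    rw [hcardE]
    have q1 : (d : ℝ) * N ≤ 2 * (Ed N).card := by exact_mod_cast hm
    have q2 : 16 ≤ δ * d := by
      have := mul_le_mul_of_nonneg_left hdR hδ.le
      rwa [mul_div_cancel₀ _ hδ.ne'] at this
    have q3 : 16 * (N : ℝ) ≤ δ * d * N := mul_le_mul_of_nonneg_right q2 (by linarith)
    have q4 : δ * (d * N) ≤ δ * (2 * (Ed N).card) := mul_le_mul_of_nonneg_left q1 hδ.le
    nlinarith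
  have hmN : Fintype.card {p // p ∈ Ed N} ≤ N * N := by
    rw [hcardE]
    calc (Ed N).card ≤ (univ : Finset (Fin N × Fin N)).card :=
          Finset.card_le_card (subset_univ _)
      _ = N * N := by simp
  have hrlt : N < 2 * (d ^ 2) ^ (Nat.log (d ^ 2) (N / 2) + 1) := by
    have q1 : N / 2 < (d ^ 2) ^ (Nat.log (d ^ 2) (N / 2) + 1) :=
      Nat.lt_pow_succ_log_self hd2 _
    omega
  have hV : Fintype.card (Fin N ⊕ Fin N) = 2 * N := by
    rw [Fintype.card_sum, Fintype.card_fin]; ring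
  exact core_inst (esrc (Ed N)) (etgt (Ed N)) δ ε k d _ N hδ hδ1 hε hε1 hk hk7 hd17 hr1 hN1
    hrlt hball hV hmR hmN

end Pool.Agent.P325ac
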